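import Pool.Agent.FBM.Defs

/-!
# FBM, block A1: elementary calculus of finite-energy functions and of the Douglas form
-/

open MeasureTheory Set Filter Topology
open scoped Real

namespace Pool.Agent.FBM

instance instFinCm : IsFiniteMeasure cm := by unfold cm; infer_instance
instance instFinCm2 : IsFiniteMeasure cm2 := by unfold cm2; infer_instance

lemma cm_univ : cm univ = ENNReal.ofReal (2 * π) := by
  unfold cm; rw [Measure.restrict_apply_univ, Real.volume_Ioc]; congr 1; ring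

lemma J_nonneg (s t : ℝ) : 0 ≤ J s t := by unfold J; positivity

lemma J_symm (s t : ℝ) : J s t = J t s := by
  unfold J
  have : (t - s) / 2 = -((s - t) / 2) := by ring
  rw [this, Real.sin_neg]; ring

lemma J_self (s : ℝ) : J s s = 0 := by unfold J; simp

lemma J_add_left (s t : ℝ) : J (s + 2 * π) t = J s t := by
  unfold J
  have : (s + 2 * π - t) / 2 = (s - t) / 2 + π := by ring
  rw [this, Real.sin_add_pi]; ring

lemma J_add_right (s t : ℝ) : J s (t + 2 * π) = J s t := by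
  rw [J_symm, J_add_left, J_symm]

lemma J_add_both (s t u : ℝ) : J (s + u) (t + u) = J s t := by
  unfold J; congr 3; ring_nf

lemma J_ge {s t : ℝ} (h : Real.sin ((s - t) / 2) ≠ 0) : 1 / 4 ≤ J s t := by
  unfold J
  have h1 : 0 < Real.sin ((s - t) / 2) ^ 2 := by positivity
  have h2 : Real.sin ((s - t) / 2) ^ 2 ≤ 1 := Real.sin_sq_le_one _
  apply one_div_le_one_div_of_le (by positivity) (by linarith)

lemma measurable_J : Measurable (fun p : ℝ × ℝ => J p.1 p.2) := by
  unfold J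
  fun_prop

lemma cm2_swap : Measure.map Prod.swap cm2 = cm2 := by
  unfold cm2; exact Measure.prod_swap

lemma integral_cm2_swap (F : ℝ × ℝ → ℝ) :
    ∫ p, F (p.2, p.1) ∂cm2 = ∫ p, F p ∂cm2 := by
  have := MeasureTheory.integral_prod_swap (μ := cm) (ν := cm) F
  unfold cm2
  simpa [Prod.swap] using this

lemma integrable_cm2_swap {F : ℝ × ℝ → ℝ} (h : Integrable F cm2) :
    Integrable (fun p : ℝ × ℝ => F (p.2, p.1)) cm2 := by
  unfold cm2 at *
  exact h.swap

lemma FE.ddmeas {f : ℝ → ℝ} (hf : FE f) : Measurable (fun p : ℝ × ℝ => f p.1 - f p.2) :=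
  (hf.meas.comp measurable_fst).sub (hf.meas.comp measurable_snd)

/-- general closure principle -/
lemma FE.of_le {f g1 g2 : ℝ → ℝ} (hm : Measurable f) (hp : Function.Periodic f (2 * π))
    (hb : ∃ C, ∀ t, |f t| ≤ C) (h1 : FE g1) (h2 : FE g2) (C : ℝ)
    (h : ∀ s t, (f s - f t) ^ 2 ≤ C * ((g1 s - g1 t) ^ 2 + (g2 s - g2 t) ^ 2)) : FE f := by
  refine ⟨hm, hp, hb, ?_⟩
  have hi := (h1.fin.add h2.fin).const_mul C
  refine hi.mono' ?_ ?_
  · exact (measurable_J.mul (((hm.comp measurable_fst).sub (hm.comp measurable_snd)).pow_const 2)).aestronglyMeasurable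
  · refine Eventually.of_forall fun p => ?_
    rw [Real.norm_eq_abs, abs_of_nonneg (mul_nonneg (J_nonneg _ _) (sq_nonneg _))]
    have := mul_le_mul_of_nonneg_left (h p.1 p.2) (J_nonneg p.1 p.2)
    simp only [Pi.add_apply]
    nlinarith [this]

lemma FE.of_le1 {f g : ℝ → ℝ} (hm : Measurable f) (hp : Function.Periodic f (2 * π))
    (hb : ∃ C, ∀ t, |f t| ≤ C) (h1 : FE g) (C : ℝ) (hC : 0 ≤ C)
    (h : ∀ s t, (f s - f t) ^ 2 ≤ C * (g s - g t) ^ 2) : FE f :=
  FE.of_le hm hp hb h1 h1 C fun s t => (h s t).trans (by nlinarith [sq_nonneg (g s - g t), mul_nonneg hC (sq_nonneg (g s - g t))])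

lemma FE.const (c : ℝ) : FE (fun _ => c) := by
  refine ⟨measurable_const, fun _ => rfl, ⟨|c|, fun _ => le_rfl⟩, ?_⟩
  simp

lemma FE.add {f g : ℝ → ℝ} (hf : FE f) (hg : FE g) : FE (fun t => f t + g t) := by
  obtain ⟨C, hC⟩ := hf.bdd
  obtain ⟨C', hC'⟩ := hg.bdd
  refine FE.of_le (hf.meas.add hg.meas) (fun t => ?_) ⟨C + C', fun t => ?_⟩ hf hg 2 ?_
  · simp only [hf.per t, hg.per t]
  · exact (abs_add_le _ _).trans (add_le_add (hC t) (hC' t))
  · intro s t; nlinarith [sq_nonneg ((f s - f t) - (g s - g t))]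

lemma FE.smul {f : ℝ → ℝ} (c : ℝ) (hf : FE f) : FE (fun t => c * f t) := by
  obtain ⟨C, hC⟩ := hf.bdd
  refine FE.of_le1 (hf.meas.const_mul c) (fun t => ?_) ⟨|c| * C, fun t => ?_⟩ hf (c ^ 2)
    (sq_nonneg c) ?_
  · simp only [hf.per t]
  · rw [abs_mul]; exact mul_le_mul_of_nonneg_left (hC t) (abs_nonneg c)
  · intro s t; nlinarith

lemma FE.neg {f : ℝ → ℝ} (hf : FE f) : FE (fun t => - f t) := by
  have := hf.smul (-1); simpa using this

lemma FE.sub {f g : ℝ → ℝ} (hf : FE f) (hg : FE g) : FE (fun t => f t - g t) := by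
  have := hf.add hg.neg; simpa [sub_eq_add_neg] using this

lemma FE.mul {f g : ℝ → ℝ} (hf : FE f) (hg : FE g) : FE (fun t => f t * g t) := by
  obtain ⟨C, hC⟩ := hf.bdd
  obtain ⟨C', hC'⟩ := hg.bdd
  refine FE.of_le (hf.meas.mul hg.meas) (fun t => ?_) ⟨C * C', fun t => ?_⟩ hf hg
    (2 * (C ^ 2 + C' ^ 2)) ?_
  · simp only [hf.per t, hg.per t]
  · rw [abs_mul]; exact mul_le_mul (hC t) (hC' t) (abs_nonneg _) ((abs_nonneg _).trans (hC t))
  · intro s t
    have e : f s * g s - f t * g t = (f s - f t) * g s + f t * (g s - g t) := by ring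
    have h1 : g s ^ 2 ≤ C' ^ 2 := by
      rw [← sq_abs]; exact pow_le_pow_left₀ (abs_nonneg _) (hC' s) 2
    have h2 : f t ^ 2 ≤ C ^ 2 := by
      rw [← sq_abs]; exact pow_le_pow_left₀ (abs_nonneg _) (hC t) 2
    rw [e]
    have h3 : ((f s - f t) * g s + f t * (g s - g t)) ^ 2
        ≤ 2 * ((f s - f t) ^ 2 * g s ^ 2 + f t ^ 2 * (g s - g t) ^ 2) := by
      nlinarith [sq_nonneg ((f s - f t) * g s - f t * (g s - g t))]
    have h4 := mul_le_mul_of_nonneg_left h1 (sq_nonneg (f s - f t))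
    have h5 := mul_le_mul_of_nonneg_right h2 (sq_nonneg (g s - g t))
    have h6 := mul_nonneg (sq_nonneg C) (sq_nonneg (f s - f t))
    have h7 := mul_nonneg (sq_nonneg C') (sq_nonneg (g s - g t))
    nlinarith

/-- composition with a Lipschitz function -/
lemma FE.lip {f : ℝ → ℝ} (hf : FE f) {Φ : ℝ → ℝ} {L : ℝ}
    (h : ∀ x y, |Φ x - Φ y| ≤ L * |x - y|) : FE (fun t => Φ (f t)) := by
  have hL : 0 ≤ L := by
    have := h 1 0; simp at this; exact (abs_nonneg _).trans this
  have hc : Continuous Φ := by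
    have : LipschitzWith ⟨L, hL⟩ Φ := by
      refine LipschitzWith.of_dist_le_mul fun x y => ?_
      rw [Real.dist_eq, Real.dist_eq]; exact h x y
    exact this.continuous
  obtain ⟨C, hC⟩ := hf.bdd
  refine FE.of_le1 (hc.measurable.comp hf.meas) (fun t => ?_) ⟨|Φ 0| + L * C, fun t => ?_⟩ hf
    (L ^ 2) (sq_nonneg L) ?_
  · simp only [hf.per t]
  · have h1 := h (f t) 0
    have h2 : |Φ (f t)| ≤ |Φ 0| + |Φ (f t) - Φ 0| := by
      have := abs_add_le (Φ 0) (Φ (f t) - Φ 0); simpa using this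
    have h3 : L * |f t - 0| ≤ L * C := by
      rw [sub_zero]; exact mul_le_mul_of_nonneg_left (hC t) hL
    linarith
  · intro s t
    have h1 := h (f s) (f t)
    calc (Φ (f s) - Φ (f t)) ^ 2 = |Φ (f s) - Φ (f t)| ^ 2 := (sq_abs _).symm
      _ ≤ (L * |f s - f t|) ^ 2 := pow_le_pow_left₀ (abs_nonneg _) h1 2
      _ = L ^ 2 * (f s - f t) ^ 2 := by rw [mul_pow, sq_abs]

lemma FE.abs {f : ℝ → ℝ} (hf : FE f) : FE (fun t => |f t|) :=
  hf.lip (Φ := fun x => |x|) (L := 1) fun x y => by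
    rw [one_mul]; exact abs_abs_sub_abs_le_abs_sub x y

lemma FE.sup {f g : ℝ → ℝ} (hf : FE f) (hg : FE g) : FE (fun t => max (f t) (g t)) := by
  have h := ((hf.add hg).add (hf.sub hg).abs).smul (1 / 2)
  refine (congrArg FE (funext fun t => ?_)).mp h
  rcases le_total (f t) (g t) with h | h
  · rw [max_eq_right h, abs_of_nonpos (by linarith)]; ring
  · rw [max_eq_left h, abs_of_nonneg (by linarith)]; ring

lemma FE.inf {f g : ℝ → ℝ} (hf : FE f) (hg : FE g) : FE (fun t => min (f t) (g t)) := by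
  have h := (hf.neg.sup hg.neg).neg
  refine (congrArg FE (funext fun t => ?_)).mp h
  rcases le_total (f t) (g t) with h | h
  · rw [min_eq_left h, max_eq_left (by linarith)]; ring
  · rw [min_eq_right h, max_eq_right (by linarith)]; ring

lemma FE.shift {f : ℝ → ℝ} (hf : FE f) : ∀ t, f (t + 2 * π) = f t := hf.per

lemma FE.pos_part {f : ℝ → ℝ} (hf : FE f) : FE (fun t => max (f t) 0) :=
  hf.sup (FE.const 0)

/-- the integrand of `en` is integrable -/
lemma FE.int {f g : ℝ → ℝ} (hf : FE f) (hg : FE g) :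
    Integrable (fun p : ℝ × ℝ => J p.1 p.2 * ((f p.1 - f p.2) * (g p.1 - g p.2))) cm2 := by
  refine (hf.fin.add hg.fin).mono' ?_ ?_
  · exact (measurable_J.mul (hf.ddmeas.mul hg.ddmeas)).aestronglyMeasurable
  · refine Eventually.of_forall fun p => ?_
    rw [Real.norm_eq_abs, abs_mul, abs_of_nonneg (J_nonneg _ _), abs_mul]
    simp only [Pi.add_apply]
    rw [← mul_add]
    refine mul_le_mul_of_nonneg_left ?_ (J_nonneg _ _)
    rw [← sq_abs (f p.1 - f p.2), ← sq_abs (g p.1 - g p.2)]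
    nlinarith [sq_nonneg (|f p.1 - f p.2| - |g p.1 - g p.2|), abs_nonneg (f p.1 - f p.2),
      abs_nonneg (g p.1 - g p.2)]

lemma en_comm (f g : ℝ → ℝ) : en f g = en g f := by
  unfold en; congr 1; refine integral_congr_ae (Eventually.of_forall fun p => ?_)
  simp only
  ring

lemma en_add_left {f f' g : ℝ → ℝ} (hf : FE f) (hf' : FE f') (hg : FE g) :
    en (fun t => f t + f' t) g = en f g + en f' g := by
  unfold en
  rw [← mul_add, ← integral_add (hf.int hg) (hf'.int hg)]
  congr 1; refine integral_congr_ae (Eventually.of_forall fun p => ?_)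
  simp only; ring

lemma en_smul_left (c : ℝ) (f g : ℝ → ℝ) : en (fun t => c * f t) g = c * en f g := by
  unfold en
  have e : ∀ p : ℝ × ℝ, J p.1 p.2 * ((c * f p.1 - c * f p.2) * (g p.1 - g p.2))
      = c * (J p.1 p.2 * ((f p.1 - f p.2) * (g p.1 - g p.2))) := fun p => by ring
  simp only [e]
  rw [integral_const_mul]; ring

lemma en_neg_left (f g : ℝ → ℝ) : en (fun t => - f t) g = - en f g := by
  have := en_smul_left (-1) f g; simpa using this

lemma en_sub_left {f f' g : ℝ → ℝ} (hf : FE f) (hf' : FE f') (hg : FE g) :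
    en (fun t => f t - f' t) g = en f g - en f' g := by
  have := en_add_left hf hf'.neg hg
  rw [en_neg_left] at this
  simpa [sub_eq_add_neg] using this

lemma en_add_right {f g g' : ℝ → ℝ} (hf : FE f) (hg : FE g) (hg' : FE g') :
    en f (fun t => g t + g' t) = en f g + en f g' := by
  rw [en_comm, en_add_left hg hg' hf, en_comm g f, en_comm g' f]

lemma en_smul_right (c : ℝ) (f g : ℝ → ℝ) : en f (fun t => c * g t) = c * en f g := by
  rw [en_comm, en_smul_left, en_comm]

lemma en_neg_right (f g : ℝ → ℝ) : en f (fun t => - g t) = - en f g := by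
  rw [en_comm, en_neg_left, en_comm]

lemma en_sub_right {f g g' : ℝ → ℝ} (hf : FE f) (hg : FE g) (hg' : FE g') :
    en f (fun t => g t - g' t) = en f g - en f g' := by
  rw [en_comm, en_sub_left hg hg' hf, en_comm g f, en_comm g' f]

lemma en_const_left (c : ℝ) (g : ℝ → ℝ) : en (fun _ => c) g = 0 := by
  unfold en; simp

lemma en_const_right (c : ℝ) (g : ℝ → ℝ) : en g (fun _ => c) = 0 := by
  unfold en; simp

lemma en_self_nonneg (f : ℝ → ℝ) : 0 ≤ en f f := by
  unfold en
  refine mul_nonneg (by positivity) (integral_nonneg fun p => ?_)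
  exact mul_nonneg (J_nonneg _ _) (mul_self_nonneg _)

lemma ae_cm2_of_ae {p : ℝ → Prop} (h : ∀ᵐ t ∂cm, p t) : ∀ᵐ q : ℝ × ℝ ∂cm2, p q.1 ∧ p q.2 := by
  unfold cm2
  have h1 : ∀ᵐ q : ℝ × ℝ ∂(cm.prod cm), p q.1 :=
    (Measure.quasiMeasurePreserving_fst (μ := cm) (ν := cm)).ae h
  have h2 : ∀ᵐ q : ℝ × ℝ ∂(cm.prod cm), p q.2 :=
    (Measure.quasiMeasurePreserving_snd (μ := cm) (ν := cm)).ae h
  filter_upwards [h1, h2] with q a b using ⟨a, b⟩

lemma en_congr {f f' g g' : ℝ → ℝ} (hf : f =ᵐ[cm] f') (hg : g =ᵐ[cm] g') :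
    en f g = en f' g' := by
  unfold en; congr 1
  refine integral_congr_ae ?_
  filter_upwards [ae_cm2_of_ae hf, ae_cm2_of_ae hg] with q h1 h2
  simp only [h1.1, h1.2, h2.1, h2.2]

lemma FE.congr {f g : ℝ → ℝ} (hf : FE f) (hm : Measurable g) (hp : Function.Periodic g (2 * π))
    (hb : ∃ C, ∀ t, |g t| ≤ C) (h : f =ᵐ[cm] g) : FE g := by
  refine ⟨hm, hp, hb, ?_⟩
  refine hf.fin.congr ?_
  filter_upwards [ae_cm2_of_ae h] with q h1
  simp only [h1.1, h1.2]

/-- comparison of energies -/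
lemma en_mono {f g : ℝ → ℝ} (hg : FE g) (h : ∀ s t, (f s - f t) ^ 2 ≤ (g s - g t) ^ 2) :
    en f f ≤ en g g := by
  unfold en
  refine mul_le_mul_of_nonneg_left ?_ (by positivity)
  refine integral_mono_of_nonneg (Eventually.of_forall fun p =>
    mul_nonneg (J_nonneg _ _) (mul_self_nonneg _)) (hg.int hg) (Eventually.of_forall fun p => ?_)
  refine mul_le_mul_of_nonneg_left ?_ (J_nonneg _ _)
  have := h p.1 p.2
  nlinarith

lemma en_add_self {f g : ℝ → ℝ} (hf : FE f) (hg : FE g) :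
    en (fun t => f t + g t) (fun t => f t + g t) = en f f + 2 * en f g + en g g := by
  rw [en_add_left hf hg (hf.add hg), en_add_right hf hf hg, en_add_right hg hf hg, en_comm g f]
  ring

/-- Cauchy-Schwarz -/
lemma en_cs {f g : ℝ → ℝ} (hf : FE f) (hg : FE g) : en f g ^ 2 ≤ en f f * en g g := by
  have key : ∀ x : ℝ, 0 ≤ en g g * (x * x) + (2 * en f g) * x + en f f := by
    intro x
    have h := en_self_nonneg (fun t => f t + x * g t)
    rw [en_add_self hf (hg.smul x), en_smul_right, en_smul_left] at h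
    rw [en_smul_right] at h
    nlinarith
  have := discrim_le_zero key
  unfold discrim at this
  nlinarith

lemma ven_self_nonneg (X : Fin 3 → ℝ → ℝ) : 0 ≤ ven X X :=
  Finset.sum_nonneg fun _ _ => en_self_nonneg _

end Pool.Agent.FBM
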