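import Pool.Agent.FBM.A1
import Pool.Agent.Lib_helper60.FB.Doug

/-!
# FBM, blocks A2-A4: the Douglas identity
-/

open MeasureTheory Set Filter Topology ENNReal
open scoped Real

namespace Pool.Agent.FBM

instance factTwoPi : Fact (0 < 2 * π) := ⟨Real.two_pi_pos⟩

/-- cosine coefficient -/
noncomputable def ac (f : ℝ → ℝ) (n : ℕ) : ℝ := ∫ t, f t * Real.cos (n * t) ∂cm

/-- sine coefficient -/
noncomputable def bc (f : ℝ → ℝ) (n : ℕ) : ℝ := ∫ t, f t * Real.sin (n * t) ∂cm

/-- the function on the additive circle -/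
noncomputable def toA (f : ℝ → ℝ) (x : AddCircle (2 * π)) : ℝ :=
  f (AddCircle.equivIoc (2 * π) (-π) x : ℝ)

lemma Ioc_eq : Ioc (-π) (-π + 2 * π) = Ioc (-π) π := by
  congr 1
  ring

lemma mp_mk : MeasurePreserving (fun t : ℝ => (t : AddCircle (2 * π))) cm volume := by
  have h := AddCircle.measurePreserving_mk (2 * π) (-π)
  rw [Ioc_eq] at h
  exact h

lemma toA_coe_of_mem (f : ℝ → ℝ) {t : ℝ} (ht : t ∈ Ioc (-π) π) :
    toA f (t : AddCircle (2 * π)) = f t := by
  rw [toA, AddCircle.equivIoc_coe_eq (by rwa [Ioc_eq])]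

lemma toA_coe {f : ℝ → ℝ} (hf : Function.Periodic f (2 * π)) (t : ℝ) :
    toA f (t : AddCircle (2 * π)) = f t := by
  set y : ℝ := (AddCircle.equivIoc (2 * π) (-π) (t : AddCircle (2 * π)) : ℝ) with hy
  have h1 : (y : AddCircle (2 * π)) = (t : AddCircle (2 * π)) := by
    rw [hy]
    exact (AddCircle.equivIoc (2 * π) (-π)).symm_apply_apply (t : AddCircle (2 * π))
  obtain ⟨n, hn⟩ := (QuotientAddGroup.eq_iff_sub_mem.1 h1)
  have h2 : y = t + n • (2 * π) := by
    simp only at hn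
    linarith
  rw [toA, ← hy, h2]
  exact hf.zsmul n t

lemma measurable_toA {f : ℝ → ℝ} (hf : Measurable f) : Measurable (toA f) := by
  have h : Measurable (AddCircle.measurableEquivIoc (2 * π) (-π)) :=
    (AddCircle.measurableEquivIoc (2 * π) (-π)).measurable
  exact hf.comp (measurable_subtype_coe.comp h)

lemma haar_eq : (volume : Measure (AddCircle (2 * π))) =
    ENNReal.ofReal (2 * π) • AddCircle.haarAddCircle := AddCircle.volume_eq_smul_haarAddCircle

lemma norm_fourier_one_sub (s t : ℝ) :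
    ‖(fourier 1 ((s : AddCircle (2 * π)) - (t : AddCircle (2 * π))) : ℂ) - 1‖ =
      2 * |Real.sin ((s - t) / 2)| := by
  have h : ((s : AddCircle (2 * π)) - (t : AddCircle (2 * π))) = ((s - t : ℝ) : AddCircle (2 * π)) :=
    (AddCircle.coe_sub _ _ _).symm
  rw [h, fourier_coe_apply]
  have h2 : (2 * (π : ℂ) * Complex.I * ((1 : ℤ) : ℂ) * ((s - t : ℝ) : ℂ) / ((2 * π : ℝ) : ℂ)) =
      Complex.I * ((s - t : ℝ) : ℂ) := by
    have : (π : ℂ) ≠ 0 := by exact_mod_cast Real.pi_ne_zero
    push_cast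
    field_simp
  rw [h2, Complex.norm_exp_I_mul_ofReal_sub_one, norm_mul]
  simp

/-- the integrand on the circle -/
noncomputable def Psi (f : ℝ → ℝ) (x y : AddCircle (2 * π)) : ℝ≥0∞ :=
  ‖((toA f x : ℂ) - (toA f y : ℂ))‖ₑ ^ 2 / ‖(fourier 1 (x - y) : ℂ) - 1‖ₑ ^ 2

lemma Psi_coe {f : ℝ → ℝ} (hf : Function.Periodic f (2 * π)) (s t : ℝ) :
    Psi f (s : AddCircle (2 * π)) t = ENNReal.ofReal (J s t * (f s - f t) ^ 2) := by
  rw [Psi, toA_coe hf, toA_coe hf]
  have h1 := norm_fourier_one_sub s t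
  by_cases h0 : Real.sin ((s - t) / 2) = 0
  · have h2 : f s = f t := by
      obtain ⟨n, hn⟩ := Real.sin_eq_zero_iff.1 h0
      have h3 : s = t + n • (2 * π) := by
        rw [zsmul_eq_mul]
        linarith
      rw [h3]
      exact hf.zsmul n t
    rw [h2]
    simp
  · have h3 : (0 : ℝ) < 2 * |Real.sin ((s - t) / 2)| := by positivity
    rw [← ofReal_norm, ← ofReal_norm, h1, ← ENNReal.ofReal_pow (norm_nonneg _),
      ← ENNReal.ofReal_pow h3.le, ← ENNReal.ofReal_div_of_pos (by positivity)]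
    congr 1
    rw [← Complex.ofReal_sub, Complex.norm_real, Real.norm_eq_abs, sq_abs, J, mul_pow, sq_abs]
    ring

lemma measurable_Psi {f : ℝ → ℝ} (hf : Measurable f) :
    Measurable (fun q : AddCircle (2 * π) × AddCircle (2 * π) => Psi f q.1 q.2) := by
  unfold Psi
  have h1 : Measurable (fun q : AddCircle (2 * π) × AddCircle (2 * π) =>
      ((toA f q.1 : ℂ) - (toA f q.2 : ℂ))) :=
    (Complex.measurable_ofReal.comp ((measurable_toA hf).comp measurable_fst)).sub
      (Complex.measurable_ofReal.comp ((measurable_toA hf).comp measurable_snd))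
  have h2 : Continuous (fun q : AddCircle (2 * π) × AddCircle (2 * π) =>
      (fourier 1 (q.1 - q.2) : ℂ) - 1) :=
    ((fourier 1).continuous.comp (continuous_fst.sub continuous_snd)).sub continuous_const
  exact (h1.enorm.pow_const 2).div (h2.measurable.enorm.pow_const 2)

lemma memLp_toA {f : ℝ → ℝ} (hf : FE f) :
    MemLp (fun x => (toA f x : ℂ)) 2 (AddCircle.haarAddCircle : Measure (AddCircle (2 * π))) := by
  obtain ⟨C, hC⟩ := hf.bdd
  refine MemLp.of_bound (Complex.measurable_ofReal.comp (measurable_toA hf.meas)).aestronglyMeasurable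
    C (Eventually.of_forall fun x => ?_)
  rw [Complex.norm_real]
  exact hC _

/-- The Douglas identity in the extended non-negative reals. -/
lemma lintegral_J {f : ℝ → ℝ} (hm : Measurable f) (hp : Function.Periodic f (2 * π))
    (hb : ∃ C, ∀ t, |f t| ≤ C) :
    ∫⁻ p, ENNReal.ofReal (J p.1 p.2 * (f p.1 - f p.2) ^ 2) ∂cm2 =
      ENNReal.ofReal (2 * π) ^ 2 *
        ∑' n : ℤ, (n.natAbs : ℝ≥0∞) * ‖fourierCoeff (fun x => (toA f x : ℂ)) n‖ₑ ^ 2 := by
  have hL : MemLp (fun x => (toA f x : ℂ)) 2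
      (AddCircle.haarAddCircle : Measure (AddCircle (2 * π))) := by
    obtain ⟨C, hC⟩ := hb
    refine MemLp.of_bound (Complex.measurable_ofReal.comp (measurable_toA hm)).aestronglyMeasurable
      C (Eventually.of_forall fun x => ?_)
    rw [Complex.norm_real]
    exact hC _
  rw [← Pool.Agent.Lib_helper60.FB.douglas hL]
  have h1 : ∫⁻ p, ENNReal.ofReal (J p.1 p.2 * (f p.1 - f p.2) ^ 2) ∂cm2 =
      ∫⁻ q : AddCircle (2 * π) × AddCircle (2 * π), Psi f q.1 q.2 ∂(volume.prod volume) := by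
    rw [← (mp_mk.prod mp_mk).lintegral_comp (measurable_Psi hm)]
    refine lintegral_congr fun p => ?_
    rw [Prod.map_fst, Prod.map_snd, Psi_coe hp]
  rw [h1, lintegral_prod_symm _ (measurable_Psi hm).aemeasurable]
  have h2 : ∀ y : AddCircle (2 * π), ∫⁻ x, Psi f x y =
      ∫⁻ h, Psi f (h + y) y := fun y => (lintegral_add_right_eq_self (fun x => Psi f x y) y).symm
  simp only [h2]
  rw [lintegral_lintegral_swap]
  · have h3 : ∀ h : AddCircle (2 * π), ∫⁻ y, Psi f (h + y) y =
        ENNReal.ofReal (2 * π) * ((∫⁻ x, ‖(toA f (x + h) : ℂ) - (toA f x : ℂ)‖ₑ ^ 2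
          ∂AddCircle.haarAddCircle) / ‖(fourier 1 h : ℂ) - 1‖ₑ ^ 2) := by
      intro h
      have h4 : ∀ y : AddCircle (2 * π), Psi f (h + y) y =
          ‖(toA f (y + h) : ℂ) - (toA f y : ℂ)‖ₑ ^ 2 * (‖(fourier 1 h : ℂ) - 1‖ₑ ^ 2)⁻¹ := by
        intro y
        rw [Psi, add_sub_cancel_right, add_comm h y, div_eq_mul_inv]
      simp only [h4]
      rw [lintegral_mul_const _ ?_, haar_eq, lintegral_smul_measure, smul_eq_mul, div_eq_mul_inv,
        mul_assoc]
      exact ((Complex.measurable_ofReal.comp ((measurable_toA hm).comp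
        (measurable_id.add_const h))).sub
          (Complex.measurable_ofReal.comp (measurable_toA hm))).enorm.pow_const 2
    simp only [h3]
    rw [lintegral_const_mul' _ _ ENNReal.ofReal_ne_top, haar_eq, lintegral_smul_measure, smul_eq_mul]
    ring
  · have h5 : Measurable (fun q : AddCircle (2 * π) × AddCircle (2 * π) => (q.2 + q.1, q.1)) :=
      (measurable_snd.add measurable_fst).prodMk measurable_fst
    exact ((measurable_Psi hm).comp h5).aemeasurable

lemma ae_mem_cm : ∀ᵐ t ∂cm, t ∈ Ioc (-π) π := by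
  unfold cm
  exact ae_restrict_mem measurableSet_Ioc

lemma integrable_bdd {f : ℝ → ℝ} (hm : Measurable f) {C : ℝ} (hC : ∀ t, |f t| ≤ C) :
    Integrable f cm :=
  Integrable.mono' (integrable_const C) hm.aestronglyMeasurable (Eventually.of_forall hC)

lemma integrable_mul_cos {f : ℝ → ℝ} (hm : Measurable f) (hb : ∃ C, ∀ t, |f t| ≤ C) (c : ℝ) :
    Integrable (fun t => f t * Real.cos (c * t)) cm := by
  obtain ⟨C, hC⟩ := hb
  refine integrable_bdd (C := C) (by fun_prop) fun t => ?_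
  rw [abs_mul]
  exact (mul_le_of_le_one_right (abs_nonneg _) (Real.abs_cos_le_one _)).trans (hC t)

lemma integrable_mul_sin {f : ℝ → ℝ} (hm : Measurable f) (hb : ∃ C, ∀ t, |f t| ≤ C) (c : ℝ) :
    Integrable (fun t => f t * Real.sin (c * t)) cm := by
  obtain ⟨C, hC⟩ := hb
  refine integrable_bdd (C := C) (by fun_prop) fun t => ?_
  rw [abs_mul]
  exact (mul_le_of_le_one_right (abs_nonneg _) (Real.abs_sin_le_one _)).trans (hC t)

lemma fourierCoeff_toA {f : ℝ → ℝ} (hm : Measurable f) (hb : ∃ C, ∀ t, |f t| ≤ C) (n : ℤ) :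
    fourierCoeff (fun x => (toA f x : ℂ)) n =
      (1 / (2 * π) : ℂ) * (((∫ t, f t * Real.cos (n * t) ∂cm : ℝ) : ℂ) -
        Complex.I * ((∫ t, f t * Real.sin (n * t) ∂cm : ℝ) : ℂ)) := by
  rw [fourierCoeff_eq_intervalIntegral _ n (-π),
    intervalIntegral.integral_of_le (by linarith [Real.pi_pos]), Ioc_eq]
  have h1 : ∫ x in Ioc (-π) π, (fourier (-n) (x : AddCircle (2 * π)) : ℂ) •
      (toA f (x : AddCircle (2 * π)) : ℂ) = ∫ x, (((f x * Real.cos (n * x) : ℝ) : ℂ) -
        Complex.I * ((f x * Real.sin (n * x) : ℝ) : ℂ)) ∂cm := by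
    refine integral_congr_ae ?_
    filter_upwards [ae_mem_cm] with x hx
    rw [toA_coe_of_mem f hx, fourier_coe_apply, smul_eq_mul]
    have h2 : (2 * (π : ℂ) * Complex.I * ((-n : ℤ) : ℂ) * (x : ℂ) / ((2 * π : ℝ) : ℂ)) =
        ((-(n * x) : ℝ) : ℂ) * Complex.I := by
      have : (π : ℂ) ≠ 0 := by exact_mod_cast Real.pi_ne_zero
      push_cast
      field_simp
    rw [h2, Complex.exp_mul_I, ← Complex.ofReal_cos, ← Complex.ofReal_sin, Real.cos_neg,
      Real.sin_neg]
    push_cast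
    ring
  rw [h1, integral_sub (integrable_mul_cos hm hb _).ofReal
    ((integrable_mul_sin hm hb _).ofReal.const_mul _), integral_const_mul,
    integral_complex_ofReal, integral_complex_ofReal]
  simp

lemma enorm_fourierCoeff_toA {f : ℝ → ℝ} (hm : Measurable f) (hb : ∃ C, ∀ t, |f t| ≤ C) (n : ℤ) :
    ‖fourierCoeff (fun x => (toA f x : ℂ)) n‖ₑ ^ 2 =
      ENNReal.ofReal (1 / (4 * π ^ 2) * (ac f n.natAbs ^ 2 + bc f n.natAbs ^ 2)) := by
  rw [fourierCoeff_toA hm hb, ← ofReal_norm, ← ENNReal.ofReal_pow (norm_nonneg _)]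
  congr 1
  set a := ∫ t, f t * Real.cos (n * t) ∂cm with ha
  set b := ∫ t, f t * Real.sin (n * t) ∂cm with hb'
  have h1 : ac f n.natAbs ^ 2 = a ^ 2 ∧ bc f n.natAbs ^ 2 = b ^ 2 := by
    rw [ac, bc, ha, hb']
    rcases Int.natAbs_eq n with h | h
    · have h2 : ((n.natAbs : ℕ) : ℝ) = (n : ℝ) := by
        conv_rhs => rw [h]
        simp
      rw [h2]
      exact ⟨rfl, rfl⟩
    · have h2 : ((n.natAbs : ℕ) : ℝ) = -(n : ℝ) := by
        conv_rhs => rw [h]
        simp
      rw [h2]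
      constructor
      · congr 1
        refine integral_congr_ae (Eventually.of_forall fun t => ?_)
        simp only
        rw [neg_mul, Real.cos_neg]
      · have h3 : ∫ t, f t * Real.sin (-(n : ℝ) * t) ∂cm = -∫ t, f t * Real.sin (n * t) ∂cm := by
          rw [← integral_neg]
          refine integral_congr_ae (Eventually.of_forall fun t => ?_)
          simp only
          rw [neg_mul, Real.sin_neg]
          ring
        rw [h3]
        ring
  rw [h1.1, h1.2, norm_mul, mul_pow]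
  have h4 : ‖((a : ℂ) - Complex.I * (b : ℂ))‖ ^ 2 = a ^ 2 + b ^ 2 := by
    rw [← Complex.normSq_eq_norm_sq, Complex.normSq_apply]
    simp
    ring
  have h5 : ‖(1 / (2 * π) : ℂ)‖ ^ 2 = 1 / (4 * π ^ 2) := by
    rw [norm_div, norm_mul, Complex.norm_real, Real.norm_eq_abs, abs_of_pos Real.pi_pos]
    simp
    ring
  rw [h4, h5]

lemma tsum_int_natAbs (u : ℕ → ℝ≥0∞) (h0 : u 0 = 0) :
    ∑' n : ℤ, u n.natAbs = 2 * ∑' n : ℕ, u n := by
  rw [tsum_of_nat_of_neg_add_one (f := fun n : ℤ => u n.natAbs) ENNReal.summable ENNReal.summable]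
  have h1 : ∑' n : ℕ, u (-((n : ℤ) + 1)).natAbs = ∑' n : ℕ, u n := by
    rw [tsum_eq_zero_add' (f := u) ENNReal.summable, h0, zero_add]
    refine tsum_congr fun n => ?_
    congr 1
  rw [h1, two_mul]
  congr 1

lemma lintegral_J' {f : ℝ → ℝ} (hm : Measurable f) (hp : Function.Periodic f (2 * π))
    (hb : ∃ C, ∀ t, |f t| ≤ C) :
    ∫⁻ p, ENNReal.ofReal (J p.1 p.2 * (f p.1 - f p.2) ^ 2) ∂cm2 =
      ∑' n : ℕ, ENNReal.ofReal (2 * (n * (ac f n ^ 2 + bc f n ^ 2))) := by
  rw [lintegral_J hm hp hb]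
  have h1 : ∀ n : ℤ, (n.natAbs : ℝ≥0∞) * ‖fourierCoeff (fun x => (toA f x : ℂ)) n‖ₑ ^ 2 =
      (fun k : ℕ => (k : ℝ≥0∞) * ENNReal.ofReal (1 / (4 * π ^ 2) * (ac f k ^ 2 + bc f k ^ 2)))
        n.natAbs := fun n => by rw [enorm_fourierCoeff_toA hm hb]
  have h2 := tsum_int_natAbs (fun k : ℕ => (k : ℝ≥0∞) *
    ENNReal.ofReal (1 / (4 * π ^ 2) * (ac f k ^ 2 + bc f k ^ 2))) (by simp)
  rw [tsum_congr h1, h2, ← ENNReal.tsum_mul_left, ← ENNReal.tsum_mul_left]
  refine tsum_congr fun n => ?_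
  rw [← ENNReal.ofReal_natCast n, ← ENNReal.ofReal_mul (by positivity),
    ← ENNReal.ofReal_pow (by positivity), show (2 : ℝ≥0∞) = ENNReal.ofReal 2 by simp,
    ← ENNReal.ofReal_mul (by positivity), ← ENNReal.ofReal_mul (by positivity)]
  congr 1
  have := Real.pi_ne_zero
  field_simp
  ring

/-- A4, Douglas identity. -/
theorem douglas_self {f : ℝ → ℝ} (hf : FE f) :
    HasSum (fun n : ℕ => 1 / π * (n * (ac f n ^ 2 + bc f n ^ 2))) (en f f) := by
  have h1 := lintegral_J' hf.meas hf.per hf.bdd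
  have h2 : ∫⁻ p, ENNReal.ofReal (J p.1 p.2 * (f p.1 - f p.2) ^ 2) ∂cm2 =
      ENNReal.ofReal (∫ p, J p.1 p.2 * (f p.1 - f p.2) ^ 2 ∂cm2) :=
    (ofReal_integral_eq_lintegral_ofReal hf.fin (Eventually.of_forall fun p =>
      mul_nonneg (J_nonneg _ _) (sq_nonneg _))).symm
  rw [h2] at h1
  have hpos : ∀ n : ℕ, 0 ≤ 2 * (n * (ac f n ^ 2 + bc f n ^ 2)) := fun n => by positivity
  have hs : Summable (fun n : ℕ => 2 * (n * (ac f n ^ 2 + bc f n ^ 2))) := by
    have h3 : ∑' n : ℕ, ENNReal.ofReal (2 * (n * (ac f n ^ 2 + bc f n ^ 2))) ≠ ⊤ := by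
      rw [← h1]
      exact ENNReal.ofReal_ne_top
    exact (ENNReal.summable_toReal h3).congr fun n => by rw [ENNReal.toReal_ofReal (hpos n)]
  rw [← ENNReal.ofReal_tsum_of_nonneg hpos hs] at h1
  have h4 : ∫ p, J p.1 p.2 * (f p.1 - f p.2) ^ 2 ∂cm2 =
      ∑' n : ℕ, 2 * (n * (ac f n ^ 2 + bc f n ^ 2)) := by
    refine (ENNReal.ofReal_eq_ofReal_iff (integral_nonneg fun p =>
      mul_nonneg (J_nonneg _ _) (sq_nonneg _)) (tsum_nonneg hpos)).1 h1
  have h5 : en f f = 1 / (2 * π) * ∑' n : ℕ, 2 * (n * (ac f n ^ 2 + bc f n ^ 2)) := by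
    rw [← h4, en]
    congr 1
    refine integral_congr_ae (Eventually.of_forall fun p => ?_)
    simp only
    ring
  rw [h5]
  have h6 := hs.hasSum.mul_left (1 / (2 * π))
  have h7 : (fun n : ℕ => 1 / π * (n * (ac f n ^ 2 + bc f n ^ 2))) =
      fun n : ℕ => 1 / (2 * π) * (2 * (n * (ac f n ^ 2 + bc f n ^ 2))) := by
    funext n
    have := Real.pi_ne_zero
    field_simp
  rw [h7]
  exact h6

lemma ac_add {f g : ℝ → ℝ} (hf : FE f) (hg : FE g) (n : ℕ) :
    ac (fun t => f t + g t) n = ac f n + ac g n := by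
  rw [ac, ac, ac, ← integral_add (integrable_mul_cos hf.meas hf.bdd _)
    (integrable_mul_cos hg.meas hg.bdd _)]
  refine integral_congr_ae (Eventually.of_forall fun t => ?_)
  simp only
  ring

lemma bc_add {f g : ℝ → ℝ} (hf : FE f) (hg : FE g) (n : ℕ) :
    bc (fun t => f t + g t) n = bc f n + bc g n := by
  rw [bc, bc, bc, ← integral_add (integrable_mul_sin hf.meas hf.bdd _)
    (integrable_mul_sin hg.meas hg.bdd _)]
  refine integral_congr_ae (Eventually.of_forall fun t => ?_)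
  simp only
  ring

/-- A4, bilinear Douglas identity. -/
theorem douglas {f g : ℝ → ℝ} (hf : FE f) (hg : FE g) :
    HasSum (fun n : ℕ => 1 / π * (n * (ac f n * ac g n + bc f n * bc g n))) (en f g) := by
  have h1 := douglas_self (hf.add hg)
  have h2 := (h1.sub (douglas_self hf)).sub (douglas_self hg)
  have h3 := h2.mul_left (1 / 2)
  have e1 : (1 / 2 : ℝ) * (en (fun t => f t + g t) (fun t => f t + g t) - en f f - en g g) =
      en f g := by
    rw [en_add_self hf hg]
    ring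
  rw [e1] at h3
  have e2 : (fun n : ℕ => 1 / π * (n * (ac f n * ac g n + bc f n * bc g n))) = fun n : ℕ =>
      1 / 2 * (1 / π * (n * (ac (fun t => f t + g t) n ^ 2 + bc (fun t => f t + g t) n ^ 2)) -
        1 / π * (n * (ac f n ^ 2 + bc f n ^ 2)) - 1 / π * (n * (ac g n ^ 2 + bc g n ^ 2))) := by
    funext n
    rw [ac_add hf hg, bc_add hf hg]
    ring
  rw [e2]
  exact h3

/-- A3, Bessel. -/
theorem bessel {f : ℝ → ℝ} (hf : FE f) (N : ℕ) :
    ∑ n ∈ Finset.range N, 1 / π * (n * (ac f n ^ 2 + bc f n ^ 2)) ≤ en f f :=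
  sum_le_hasSum _ (fun n _ => by positivity) (douglas_self hf)

/-! ### Trigonometric functions -/

lemma J_mul_le (n : ℕ) (s t : ℝ) (x : ℂ → ℝ) (hx : ∀ a b : ℂ, (x a - x b) ^ 2 ≤ ‖a - b‖ ^ 2) :
    J s t * (x (Complex.exp (Complex.I * s) ^ n) - x (Complex.exp (Complex.I * t) ^ n)) ^ 2 ≤
      (n : ℝ) ^ 2 := by
  set a := Complex.exp (Complex.I * s) with ha
  set b := Complex.exp (Complex.I * t) with hb
  have h1 : ‖a - b‖ ^ 2 = 4 * Real.sin ((s - t) / 2) ^ 2 := by
    have h2 : a - b = b * (Complex.exp (Complex.I * ((s - t : ℝ) : ℂ)) - 1) := by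
      rw [mul_sub, hb, ← Complex.exp_add, ha]
      push_cast
      ring_nf
    rw [h2, norm_mul, Complex.norm_exp_I_mul_ofReal_sub_one, hb, mul_comm Complex.I,
      Complex.norm_exp_ofReal_mul_I, one_mul, Real.norm_eq_abs, sq_abs]
    ring
  have h3 : ‖a ^ n - b ^ n‖ ≤ n * ‖a - b‖ := by
    have ha1 : ‖a‖ = 1 := by rw [ha, mul_comm, Complex.norm_exp_ofReal_mul_I]
    have hb1 : ‖b‖ = 1 := by rw [hb, mul_comm, Complex.norm_exp_ofReal_mul_I]
    rw [← (Commute.all a b).mul_geom_sum₂, norm_mul, mul_comm]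
    refine mul_le_mul_of_nonneg_right ?_ (norm_nonneg _)
    refine (norm_sum_le _ _).trans ?_
    calc ∑ i ∈ Finset.range n, ‖a ^ i * b ^ (n - 1 - i)‖ = ∑ i ∈ Finset.range n, (1 : ℝ) := by
          refine Finset.sum_congr rfl fun i _ => ?_
          rw [norm_mul, norm_pow, norm_pow, ha1, hb1]
          simp
      _ = n := by simp
      _ ≤ n := le_rfl
  by_cases h0 : Real.sin ((s - t) / 2) = 0
  · rw [J, h0]
    simp
  · have h4 : 0 < 4 * Real.sin ((s - t) / 2) ^ 2 := by positivity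
    rw [J, one_div_mul_eq_div, div_le_iff₀ h4, ← h1]
    calc (x (a ^ n) - x (b ^ n)) ^ 2 ≤ ‖a ^ n - b ^ n‖ ^ 2 := hx _ _
      _ ≤ (n * ‖a - b‖) ^ 2 := pow_le_pow_left₀ (norm_nonneg _) h3 2
      _ = _ := by ring

lemma exp_pow_re (n : ℕ) (t : ℝ) :
    (Complex.exp (Complex.I * t) ^ n).re = Real.cos (n * t) ∧
      (Complex.exp (Complex.I * t) ^ n).im = Real.sin (n * t) := by
  rw [← Complex.exp_nat_mul, show (n : ℂ) * (Complex.I * t) = ((n * t : ℝ) : ℂ) * Complex.I by
    push_cast; ring]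
  exact ⟨Complex.exp_ofReal_mul_I_re _, Complex.exp_ofReal_mul_I_im _⟩

lemma FE_cos (n : ℕ) : FE (fun t => Real.cos (n * t)) := by
  refine ⟨by fun_prop, fun t => ?_, ⟨1, fun t => Real.abs_cos_le_one _⟩, ?_⟩
  · rw [mul_add, show (n : ℝ) * (2 * π) = n • (2 * π) by rw [nsmul_eq_mul]]
    exact (Real.cos_periodic.nsmul n) _
  · refine Integrable.mono' (integrable_const ((n : ℝ) ^ 2)) ?_ (Eventually.of_forall fun p => ?_)
    · refine (measurable_J.mul ?_).aestronglyMeasurable
      fun_prop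
    · rw [Real.norm_eq_abs, abs_of_nonneg (mul_nonneg (J_nonneg _ _) (sq_nonneg _)),
        ← (exp_pow_re n p.1).1, ← (exp_pow_re n p.2).1]
      refine J_mul_le n p.1 p.2 Complex.re fun a b => ?_
      rw [← Complex.sub_re, ← sq_abs]
      exact pow_le_pow_left₀ (abs_nonneg _) (Complex.abs_re_le_norm _) 2

lemma FE_sin (n : ℕ) : FE (fun t => Real.sin (n * t)) := by
  refine ⟨by fun_prop, fun t => ?_, ⟨1, fun t => Real.abs_sin_le_one _⟩, ?_⟩
  · rw [mul_add, show (n : ℝ) * (2 * π) = n • (2 * π) by rw [nsmul_eq_mul]]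
    exact (Real.sin_periodic.nsmul n) _
  · refine Integrable.mono' (integrable_const ((n : ℝ) ^ 2)) ?_ (Eventually.of_forall fun p => ?_)
    · refine (measurable_J.mul ?_).aestronglyMeasurable
      fun_prop
    · rw [Real.norm_eq_abs, abs_of_nonneg (mul_nonneg (J_nonneg _ _) (sq_nonneg _)),
        ← (exp_pow_re n p.1).2, ← (exp_pow_re n p.2).2]
      refine J_mul_le n p.1 p.2 Complex.im fun a b => ?_
      rw [← Complex.sub_im, ← sq_abs]
      exact pow_le_pow_left₀ (abs_nonneg _) (Complex.abs_im_le_norm _) 2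

lemma cm_intervalIntegral (f : ℝ → ℝ) : ∫ t, f t ∂cm = ∫ t in (-π)..π, f t := by
  rw [intervalIntegral.integral_of_le (by linarith [Real.pi_pos]), cm]

lemma integral_cos_int (k : ℤ) (hk : k ≠ 0) : ∫ t, Real.cos (k * t) ∂cm = 0 := by
  have hk' : (k : ℝ) ≠ 0 := by exact_mod_cast hk
  rw [cm_intervalIntegral, intervalIntegral.integral_comp_mul_left (fun x => Real.cos x) hk',
    integral_cos, show (k : ℝ) * -π = -(k * π) by ring, Real.sin_neg, Real.sin_int_mul_pi]
  simp

lemma integral_sin_int (k : ℤ) : ∫ t, Real.sin (k * t) ∂cm = 0 := by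
  by_cases hk : k = 0
  · subst hk
    simp
  have hk' : (k : ℝ) ≠ 0 := by exact_mod_cast hk
  rw [cm_intervalIntegral, intervalIntegral.integral_comp_mul_left (fun x => Real.sin x) hk',
    integral_sin, show (k : ℝ) * -π = -(k * π) by ring, Real.cos_neg]
  simp

lemma cm_real_univ : ∫ _t : ℝ, (1 : ℝ) ∂cm = 2 * π := by
  rw [cm_intervalIntegral]
  simp
  ring

lemma ac_cos (m n : ℕ) (hn : n ≠ 0) :
    ac (fun t => Real.cos (n * t)) m = if m = n then π else 0 := by
  have h1 : ac (fun t => Real.cos (n * t)) m =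
      1 / 2 * ∫ t, Real.cos (((n : ℤ) - m : ℤ) * t) ∂cm +
        1 / 2 * ∫ t, Real.cos (((n : ℤ) + m : ℤ) * t) ∂cm := by
    rw [← integral_const_mul, ← integral_const_mul, ← integral_add, ac]
    · refine integral_congr_ae (Eventually.of_forall fun t => ?_)
      simp only
      push_cast
      rw [sub_mul, add_mul, Real.cos_sub, Real.cos_add]
      ring
    · exact (integrable_bdd (C := 1) (by fun_prop) fun t => Real.abs_cos_le_one _).const_mul _
    · exact (integrable_bdd (C := 1) (by fun_prop) fun t => Real.abs_cos_le_one _).const_mul _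
  rw [h1, integral_cos_int ((n : ℤ) + m) (by omega)]
  split_ifs with h
  · subst h
    have := cm_real_univ
    simp at this ⊢
    rw [this]
    ring
  · rw [integral_cos_int _ (by omega)]
    simp

lemma bc_cos (m n : ℕ) : bc (fun t => Real.cos (n * t)) m = 0 := by
  have h1 : bc (fun t => Real.cos (n * t)) m =
      1 / 2 * ∫ t, Real.sin (((m : ℤ) - n : ℤ) * t) ∂cm +
        1 / 2 * ∫ t, Real.sin (((m : ℤ) + n : ℤ) * t) ∂cm := by
    rw [← integral_const_mul, ← integral_const_mul, ← integral_add, bc]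
    · refine integral_congr_ae (Eventually.of_forall fun t => ?_)
      simp only
      push_cast
      rw [sub_mul, add_mul, Real.sin_sub, Real.sin_add]
      ring
    · exact (integrable_bdd (C := 1) (by fun_prop) fun t => Real.abs_sin_le_one _).const_mul _
    · exact (integrable_bdd (C := 1) (by fun_prop) fun t => Real.abs_sin_le_one _).const_mul _
  rw [h1, integral_sin_int, integral_sin_int]
  simp

lemma bc_sin (m n : ℕ) (hn : n ≠ 0) :
    bc (fun t => Real.sin (n * t)) m = if m = n then π else 0 := by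
  have h1 : bc (fun t => Real.sin (n * t)) m =
      1 / 2 * ∫ t, Real.cos (((n : ℤ) - m : ℤ) * t) ∂cm -
        1 / 2 * ∫ t, Real.cos (((n : ℤ) + m : ℤ) * t) ∂cm := by
    rw [← integral_const_mul, ← integral_const_mul, ← integral_sub, bc]
    · refine integral_congr_ae (Eventually.of_forall fun t => ?_)
      simp only
      push_cast
      rw [sub_mul, add_mul, Real.cos_sub, Real.cos_add]
      ring
    · exact (integrable_bdd (C := 1) (by fun_prop) fun t => Real.abs_cos_le_one _).const_mul _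
    · exact (integrable_bdd (C := 1) (by fun_prop) fun t => Real.abs_cos_le_one _).const_mul _
  rw [h1, integral_cos_int ((n : ℤ) + m) (by omega)]
  split_ifs with h
  · subst h
    have := cm_real_univ
    simp at this ⊢
    rw [this]
    ring
  · rw [integral_cos_int _ (by omega)]
    simp

lemma ac_sin (m n : ℕ) : ac (fun t => Real.sin (n * t)) m = 0 := by
  have h1 : ac (fun t => Real.sin (n * t)) m =
      1 / 2 * ∫ t, Real.sin (((n : ℤ) - m : ℤ) * t) ∂cm +
        1 / 2 * ∫ t, Real.sin (((n : ℤ) + m : ℤ) * t) ∂cm := by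
    rw [← integral_const_mul, ← integral_const_mul, ← integral_add, ac]
    · refine integral_congr_ae (Eventually.of_forall fun t => ?_)
      simp only
      push_cast
      rw [sub_mul, add_mul, Real.sin_sub, Real.sin_add]
      ring
    · exact (integrable_bdd (C := 1) (by fun_prop) fun t => Real.abs_sin_le_one _).const_mul _
    · exact (integrable_bdd (C := 1) (by fun_prop) fun t => Real.abs_sin_le_one _).const_mul _
  rw [h1, integral_sin_int, integral_sin_int]
  simp

/-- A2 for the cosine. -/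
theorem en_cos {f : ℝ → ℝ} (hf : FE f) (n : ℕ) :
    en f (fun t => Real.cos (n * t)) = n * ∫ t, f t * Real.cos (n * t) ∂cm := by
  by_cases hn : n = 0
  · subst hn
    simp [en_const_right]
  have h := douglas hf (FE_cos n)
  have h1 : (fun m : ℕ => 1 / π * (m * (ac f m * ac (fun t => Real.cos (n * t)) m +
      bc f m * bc (fun t => Real.cos (n * t)) m))) = fun m : ℕ => if m = n then
        (n : ℝ) * ac f n else 0 := by
    funext m
    rw [ac_cos m n hn, bc_cos]
    split_ifs with h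
    · subst h
      have := Real.pi_ne_zero
      field_simp
      ring
    · ring
  rw [h1] at h
  exact h.unique (hasSum_ite_eq n _)

/-- A2 for the sine. -/
theorem en_sin {f : ℝ → ℝ} (hf : FE f) (n : ℕ) :
    en f (fun t => Real.sin (n * t)) = n * ∫ t, f t * Real.sin (n * t) ∂cm := by
  by_cases hn : n = 0
  · subst hn
    simp [en_const_right]
  have h := douglas hf (FE_sin n)
  have h1 : (fun m : ℕ => 1 / π * (m * (ac f m * ac (fun t => Real.sin (n * t)) m +
      bc f m * bc (fun t => Real.sin (n * t)) m))) = fun m : ℕ => if m = n then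
        (n : ℝ) * bc f n else 0 := by
    funext m
    rw [bc_sin m n hn, ac_sin]
    split_ifs with h
    · subst h
      have := Real.pi_ne_zero
      field_simp
      ring
    · ring
  rw [h1] at h
  exact h.unique (hasSum_ite_eq n _)

end Pool.Agent.FBM
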