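import Pool.Agent.FBM.A2
import Pool.Agent.Lib_helper60.FB.Herg

/-!
# FBM, block A4: Taylor series of the Herglotz transform, Parseval on the circle
-/

open MeasureTheory Set Filter Topology ENNReal
open scoped Real

namespace Pool.Agent.FBM

open Pool.Agent.Lib_helper60.FB (herg ee herg_hasSum)

lemma ee_coe (t : ℝ) : ee (t : AddCircle (2 * π)) = Complex.exp (t * Complex.I) := by
  rw [ee, AddCircle.toCircle_apply_mk, Circle.coe_exp]
  congr 2
  have := Real.pi_ne_zero
  field_simp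

/-- Taylor coefficients of `hz f`. -/
noncomputable def dd (f : ℝ → ℝ) (n : ℕ) : ℂ :=
  if n = 0 then ((1 / (2 * π) * ac f 0 : ℝ) : ℂ)
  else ((1 / π * ac f n : ℝ) : ℂ) - Complex.I * ((1 / π * bc f n : ℝ) : ℂ)

lemma hz_eq_herg {f : ℝ → ℝ} (z : ℂ) :
    hz f z = herg (fun x => (toA f x : ℂ)) (univ : Set (AddCircle (2 * π))) z := by
  rw [hz, herg, Measure.restrict_univ]
  have h1 := (AddCircle.integral_haarAddCircle (T := 2 * π) (f := fun x : AddCircle (2 * π) =>
    (ee x + z) / (ee x - z) * (toA f x : ℂ)))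
  rw [h1]
  have h2 : ∫ x : AddCircle (2 * π), (ee x + z) / (ee x - z) * (toA f x : ℂ) =
      ∫ t, (ee (t : AddCircle (2 * π)) + z) / (ee (t : AddCircle (2 * π)) - z) *
        (toA f (t : AddCircle (2 * π)) : ℂ) ∂cm := by
    rw [← AddCircle.integral_preimage (2 * π) (-π), Ioc_eq, cm]
  rw [h2]
  have h3 : ∫ t, (ee (t : AddCircle (2 * π)) + z) / (ee (t : AddCircle (2 * π)) - z) *
        (toA f (t : AddCircle (2 * π)) : ℂ) ∂cm =
      ∫ t, (Complex.exp (t * Complex.I) + z) / (Complex.exp (t * Complex.I) - z) *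
        (f t : ℂ) ∂cm := by
    refine integral_congr_ae ?_
    filter_upwards [ae_mem_cm] with t ht
    rw [toA_coe_of_mem f ht, ee_coe]
  rw [h3, Complex.real_smul]
  congr 1
  push_cast
  rw [one_div]

lemma fourierCoeff_toA_nat {f : ℝ → ℝ} (hm : Measurable f) (hb : ∃ C, ∀ t, |f t| ≤ C) (n : ℕ) :
    fourierCoeff (fun x => (toA f x : ℂ)) ((n : ℤ) + 1) = dd f (n + 1) / 2 := by
  rw [fourierCoeff_toA hm hb, dd, if_neg (Nat.succ_ne_zero n), ac, bc]
  have := Real.pi_ne_zero
  push_cast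
  field_simp

/-- Taylor series of the Herglotz transform. -/
theorem hz_hasSum {f : ℝ → ℝ} (hm : Measurable f) (hb : ∃ C, ∀ t, |f t| ≤ C) {z : ℂ}
    (hz' : ‖z‖ < 1) : HasSum (fun n : ℕ => dd f n * z ^ n) (hz f z) := by
  have hL : Integrable (fun x => (toA f x : ℂ))
      (AddCircle.haarAddCircle : Measure (AddCircle (2 * π))) := by
    obtain ⟨C, hC⟩ := hb
    refine Integrable.mono' (integrable_const C)
      (Complex.measurable_ofReal.comp (measurable_toA hm)).aestronglyMeasurable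
      (Eventually.of_forall fun x => ?_)
    rw [Complex.norm_real]
    exact hC _
  have h1 := herg_hasSum hL isClosed_univ (Eventually.of_forall fun t h => absurd (mem_univ t) h)
    hz'
  rw [← hz_eq_herg] at h1
  have h2 : fourierCoeff (fun x => (toA f x : ℂ)) 0 = dd f 0 := by
    rw [fourierCoeff_toA hm hb, dd, if_pos rfl, ac]
    simp
  rw [h2] at h1
  have h3 : (fun n : ℕ => 2 * fourierCoeff (fun x => (toA f x : ℂ)) ((n : ℤ) + 1) * z ^ (n + 1)) =
      fun n : ℕ => dd f (n + 1) * z ^ (n + 1) := by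
    funext n
    rw [fourierCoeff_toA_nat hm hb]
    ring
  rw [h3] at h1
  have h4 := (hasSum_nat_add_iff (f := fun n : ℕ => dd f n * z ^ n) 1).1 h1
  simpa using h4

lemma norm_dd_le {f : ℝ → ℝ} (hb : ∃ C, ∀ t, |f t| ≤ C) :
    ∃ C, ∀ n, ‖dd f n‖ ≤ C := by
  obtain ⟨C, hC⟩ := hb
  have hC0 : 0 ≤ C := (abs_nonneg _).trans (hC 0)
  have h1 : ∀ (c : ℝ → ℝ), (∀ t, |c t| ≤ 1) → |∫ t, f t * c t ∂cm| ≤ 2 * π * C := by
    intro c hc
    have h2 := norm_integral_le_of_norm_le_const (μ := cm) (f := fun t => f t * c t) (C := C)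
      (Eventually.of_forall fun t => by
        rw [Real.norm_eq_abs, abs_mul]
        exact (mul_le_of_le_one_right (abs_nonneg _) (hc t)).trans (hC t))
    rw [Real.norm_eq_abs] at h2
    refine h2.trans (le_of_eq ?_)
    rw [Measure.real, cm_univ, ENNReal.toReal_ofReal (by positivity)]
    ring
  refine ⟨4 * C, fun n => ?_⟩
  have hpi := Real.pi_pos
  rw [dd]
  split_ifs with h
  · rw [Complex.norm_real, Real.norm_eq_abs, abs_mul, abs_of_pos (by positivity)]
    have := h1 (fun t => Real.cos (0 * t)) (fun t => Real.abs_cos_le_one _)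
    rw [ac]
    have h3 : |∫ t, f t * Real.cos ((0 : ℕ) * t) ∂cm| ≤ 2 * π * C := by simpa using this
    calc 1 / (2 * π) * |∫ t, f t * Real.cos ((0 : ℕ) * t) ∂cm| ≤ 1 / (2 * π) * (2 * π * C) :=
          mul_le_mul_of_nonneg_left h3 (by positivity)
      _ = C := by field_simp
      _ ≤ 4 * C := by linarith
  · refine (norm_sub_le _ _).trans ?_
    rw [norm_mul, Complex.norm_I, one_mul, Complex.norm_real, Complex.norm_real,
      Real.norm_eq_abs, Real.norm_eq_abs, abs_mul, abs_mul, abs_of_pos (by positivity : 0 < 1 / π)]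
    have h3 := h1 (fun t => Real.cos (n * t)) (fun t => Real.abs_cos_le_one _)
    have h4 := h1 (fun t => Real.sin (n * t)) (fun t => Real.abs_sin_le_one _)
    have h5 : 1 / π * |ac f n| ≤ 2 * C := by
      rw [one_div_mul_eq_div, div_le_iff₀ hpi]
      rw [ac]
      linarith
    have h6 : 1 / π * |bc f n| ≤ 2 * C := by
      rw [one_div_mul_eq_div, div_le_iff₀ hpi]
      rw [bc]
      linarith
    linarith

/-- Taylor series of the derivative. -/
theorem deriv_hz_hasSum {f : ℝ → ℝ} (hm : Measurable f) (hb : ∃ C, ∀ t, |f t| ≤ C) {z : ℂ}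
    (hz' : ‖z‖ < 1) :
    HasSum (fun n : ℕ => ((n : ℂ) + 1) * dd f (n + 1) * z ^ n) (deriv (hz f) z) := by
  obtain ⟨C, hC⟩ := norm_dd_le hb
  obtain ⟨r, hr1, hr2⟩ := exists_between hz'
  have hr0 : 0 ≤ r := (norm_nonneg z).trans hr1.le
  have h1 := Complex.hasSum_deriv_of_summable_norm (U := Metric.ball (0 : ℂ) r) (z := z)
    (F := fun (n : ℕ) (w : ℂ) => dd f n * w ^ n) (u := fun n => C * r ^ n)
    ((summable_geometric_of_lt_one hr0 hr2).mul_left C)
    (fun i => ((differentiable_id.pow i).const_mul _).differentiableOn) Metric.isOpen_ball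
    (fun i w hw => by
      rw [norm_mul, norm_pow]
      rw [mem_ball_zero_iff] at hw
      exact mul_le_mul (hC i) (pow_le_pow_left₀ (norm_nonneg _) hw.le i) (by positivity)
        ((norm_nonneg _).trans (hC i))) (by rwa [mem_ball_zero_iff])
  have h2 : deriv (fun w => ∑' n : ℕ, dd f n * w ^ n) z = deriv (hz f) z := by
    apply Filter.EventuallyEq.deriv_eq
    filter_upwards [Metric.isOpen_ball.mem_nhds (show z ∈ Metric.ball (0 : ℂ) 1 by
      rwa [mem_ball_zero_iff])] with w hw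
    rw [mem_ball_zero_iff] at hw
    exact (hz_hasSum hm hb hw).tsum_eq
  rw [h2] at h1
  have h3 : ∀ n : ℕ, deriv (fun w : ℂ => dd f n * w ^ n) z = n * dd f n * z ^ (n - 1) := by
    intro n
    rw [deriv_const_mul _ (differentiableAt_pow n), deriv_pow_field]
    ring
  simp only [h3] at h1
  have h4 := (hasSum_nat_add_iff (f := fun n : ℕ => (n : ℂ) * dd f n * z ^ (n - 1)) 1).2
    (by simpa using h1)
  have h5 : (fun n : ℕ => ((n : ℂ) + 1) * dd f (n + 1) * z ^ n) =
      fun n : ℕ => ((n + 1 : ℕ) : ℂ) * dd f (n + 1) * z ^ (n + 1 - 1) := by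
    funext n
    push_cast
    simp
  rw [h5]
  exact h4

end Pool.Agent.FBM
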