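import Pool.Agent.FBM.A2
import Pool.Agent.Lib_helper60.FB.Rell

/-!
# FBM, block A5: Fatou and Rellich for the Douglas energy
-/

open MeasureTheory Set Filter Topology ENNReal
open scoped Real

namespace Pool.Agent.FBM

lemma lintegral_J_eq_en {f : ℝ → ℝ} (hf : FE f) :
    ∫⁻ p, ENNReal.ofReal (J p.1 p.2 * (f p.1 - f p.2) ^ 2) ∂cm2 =
      ENNReal.ofReal (2 * π * en f f) := by
  rw [← ofReal_integral_eq_lintegral_ofReal hf.fin (Eventually.of_forall fun p =>
      mul_nonneg (J_nonneg _ _) (sq_nonneg _)), en]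
  congr 1
  have h1 : ∀ p : ℝ × ℝ, J p.1 p.2 * ((f p.1 - f p.2) * (f p.1 - f p.2)) =
      J p.1 p.2 * (f p.1 - f p.2) ^ 2 := fun p => by ring
  simp only [h1]
  have := Real.pi_ne_zero
  field_simp

/-- Fatou: a.e. limits of uniformly bounded functions of bounded energy have finite energy. -/
theorem fatou {f : ℕ → ℝ → ℝ} {g : ℝ → ℝ} (hf : ∀ k, FE (f k)) (hm : Measurable g)
    (hp : Function.Periodic g (2 * π)) (hb : ∃ C, ∀ t, |g t| ≤ C) {K : ℝ}
    (hK : ∀ k, en (f k) (f k) ≤ K)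
    (hlim : ∀ᵐ t ∂cm, Tendsto (fun k => f k t) atTop (𝓝 (g t))) :
    FE g ∧ en g g ≤ K := by
  have hK0 : 0 ≤ K := (en_self_nonneg _).trans (hK 0)
  have h1 : ∫⁻ p, ENNReal.ofReal (J p.1 p.2 * (g p.1 - g p.2) ^ 2) ∂cm2 ≤
      ENNReal.ofReal (2 * π * K) := by
    have h2 : ∫⁻ p, ENNReal.ofReal (J p.1 p.2 * (g p.1 - g p.2) ^ 2) ∂cm2 =
        ∫⁻ p, liminf (fun k => ENNReal.ofReal (J p.1 p.2 * (f k p.1 - f k p.2) ^ 2)) atTop
          ∂cm2 := by
      refine lintegral_congr_ae ?_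
      filter_upwards [ae_cm2_of_ae hlim] with p h
      symm
      refine Tendsto.liminf_eq ?_
      refine (ENNReal.continuous_ofReal.tendsto _).comp ?_
      exact ((h.1.sub h.2).pow 2).const_mul _
    rw [h2]
    refine (lintegral_liminf_le fun k => ?_).trans ?_
    · exact (measurable_J.mul ((hf k).ddmeas.pow_const 2)).ennreal_ofReal
    · simp only [fun k => lintegral_J_eq_en (hf k)]
      refine liminf_le_of_frequently_le' (Frequently.of_forall fun k => ?_)
      refine ENNReal.ofReal_le_ofReal ?_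
      have := hK k
      have := Real.pi_pos
      nlinarith
  have hfin : Integrable (fun p : ℝ × ℝ => J p.1 p.2 * (g p.1 - g p.2) ^ 2) cm2 := by
    refine ⟨(measurable_J.mul (((hm.comp measurable_fst).sub (hm.comp measurable_snd)).pow_const
      2)).aestronglyMeasurable, ?_⟩
    rw [hasFiniteIntegral_iff_ofReal (Eventually.of_forall fun p =>
      mul_nonneg (J_nonneg _ _) (sq_nonneg _))]
    exact h1.trans_lt ENNReal.ofReal_lt_top
  have hFE : FE g := ⟨hm, hp, hb, hfin⟩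
  refine ⟨hFE, ?_⟩
  rw [lintegral_J_eq_en hFE, ENNReal.ofReal_le_ofReal_iff (by positivity)] at h1
  have := Real.pi_pos
  nlinarith

lemma lintegral_cm_toA {φ : AddCircle (2 * π) → ℝ≥0∞} (hφ : Measurable φ) :
    ∫⁻ t, φ (t : AddCircle (2 * π)) ∂cm = ENNReal.ofReal (2 * π) *
      ∫⁻ x, φ x ∂AddCircle.haarAddCircle := by
  rw [mp_mk.lintegral_comp hφ, haar_eq, lintegral_smul_measure, smul_eq_mul]

/-- the energy on the additive circle is bounded by the Douglas energy -/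
lemma en_toA_le {f : ℝ → ℝ} (hf : FE f) :
    Pool.Agent.Lib_helper60.FB.en (fun x => (toA f x : ℂ)) ≤ ENNReal.ofReal (2 * π * en f f) := by
  have h1 := lintegral_J hf.meas hf.per hf.bdd
  rw [lintegral_J_eq_en hf] at h1
  rw [h1, Pool.Agent.Lib_helper60.FB.en]
  have h2 : (1 : ℝ≥0∞) ≤ ENNReal.ofReal (2 * π) ^ 2 := by
    refine one_le_pow₀ ?_
    rw [← ENNReal.ofReal_one]
    exact ENNReal.ofReal_le_ofReal (by linarith [Real.pi_gt_three])
  calc _ = 1 * ∑' n : ℤ, (n.natAbs : ℝ≥0∞) * ‖fourierCoeff (fun x => (toA f x : ℂ)) n‖ₑ ^ 2 :=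
        (one_mul _).symm
    _ ≤ _ := mul_le_mul' h2 le_rfl

/-- **Rellich.** -/
theorem rellich {f : ℕ → ℝ → ℝ} (hf : ∀ k, FE (f k)) {C K : ℝ} (hC : ∀ k t, |f k t| ≤ C)
    (hK : ∀ k, en (f k) (f k) ≤ K) :
    ∃ φ : ℕ → ℕ, StrictMono φ ∧ ∃ g : ℝ → ℝ, FE g ∧ (∀ t, |g t| ≤ C) ∧ en g g ≤ K ∧
      ∀ᵐ t ∂cm, Tendsto (fun k => f (φ k) t) atTop (𝓝 (g t)) := by
  have hC0 : 0 ≤ C := (abs_nonneg _).trans (hC 0 0)
  set D : ℝ≥0∞ := ENNReal.ofReal (C ^ 2) + ENNReal.ofReal (2 * π * K) with hD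
  have hDt : D ≠ ⊤ := by finiteness
  have hL2 : ∀ k, ∫⁻ x, ‖(toA (f k) x : ℂ)‖ₑ ^ 2 ∂AddCircle.haarAddCircle ≤ D := by
    intro k
    have h1 : ∀ x : AddCircle (2 * π), ‖(toA (f k) x : ℂ)‖ₑ ^ 2 ≤ ENNReal.ofReal (C ^ 2) := by
      intro x
      rw [← ofReal_norm, ← ENNReal.ofReal_pow (norm_nonneg _)]
      refine ENNReal.ofReal_le_ofReal ?_
      rw [Complex.norm_real]
      exact pow_le_pow_left₀ (norm_nonneg _) (hC k _) 2
    calc _ ≤ ∫⁻ _x : AddCircle (2 * π), ENNReal.ofReal (C ^ 2) ∂AddCircle.haarAddCircle :=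
          lintegral_mono h1
      _ = ENNReal.ofReal (C ^ 2) := by simp
      _ ≤ D := le_self_add
  have hE : ∀ k, Pool.Agent.Lib_helper60.FB.en (fun x => (toA (f k) x : ℂ)) ≤ D := by
    intro k
    refine (en_toA_le (hf k)).trans ((ENNReal.ofReal_le_ofReal ?_).trans le_add_self)
    have := hK k
    have := Real.pi_pos
    nlinarith
  obtain ⟨φ, hφ, G, hG, -, hae⟩ := Pool.Agent.Lib_helper60.FB.rellich
    (fun k => memLp_toA (hf k)) hDt hL2 hE
  -- a measurable bounded representative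
  set G0 : AddCircle (2 * π) → ℂ := hG.1.mk G with hG0
  have hG0m : Measurable G0 := hG.1.stronglyMeasurable_mk.measurable
  set g : ℝ → ℝ := fun t => max (-C) (min C (G0 (t : AddCircle (2 * π))).re) with hg
  have hmk : Measurable (fun t : ℝ => (t : AddCircle (2 * π))) :=
    AddCircle.measurable_mk'
  have hgm : Measurable g := by
    refine measurable_const.max (measurable_const.min ?_)
    exact Complex.measurable_re.comp (hG0m.comp hmk)
  have hgp : Function.Periodic g (2 * π) := by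
    intro t
    rw [hg]
    simp only
    rw [AddCircle.coe_add_period]
  have hgb : ∀ t, |g t| ≤ C := by
    intro t
    rw [abs_le]
    exact ⟨le_max_left _ _, max_le (by linarith) (min_le_left _ _)⟩
  have hlim : ∀ᵐ t ∂cm, Tendsto (fun k => f (φ k) t) atTop (𝓝 (g t)) := by
    have h1 : ∀ᵐ x ∂(volume : Measure (AddCircle (2 * π))),
        Tendsto (fun k => (toA (f (φ k)) x : ℂ)) atTop (𝓝 (G0 x)) := by
      rw [haar_eq]
      refine Measure.ae_smul_measure ?_ _
      filter_upwards [hae, hG.1.ae_eq_mk] with x h1 h2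
      rw [hG0, ← h2]
      exact h1
    have h2 := mp_mk.quasiMeasurePreserving.ae h1
    filter_upwards [h2, ae_mem_cm] with t ht hmem
    simp only [toA_coe_of_mem _ hmem] at ht
    have h3 : Tendsto (fun k => f (φ k) t) atTop (𝓝 (G0 (t : AddCircle (2 * π))).re) := by
      have := (Complex.continuous_re.tendsto _).comp ht
      simpa [Function.comp_def] using this
    have h4 : g t = (G0 (t : AddCircle (2 * π))).re := by
      have h5 : (G0 (t : AddCircle (2 * π))).re ≤ C :=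
        le_of_tendsto h3 (Eventually.of_forall fun k => (abs_le.1 (hC _ t)).2)
      have h6 : -C ≤ (G0 (t : AddCircle (2 * π))).re :=
        ge_of_tendsto h3 (Eventually.of_forall fun k => (abs_le.1 (hC _ t)).1)
      rw [hg]
      simp only
      rw [min_eq_right h5, max_eq_right h6]
    rw [h4]
    exact h3
  obtain ⟨hFE, hen⟩ := fatou (fun k => hf (φ k)) hgm hgp ⟨C, hgb⟩ (fun k => hK (φ k)) hlim
  exact ⟨φ, hφ, g, hFE, hgb, hen, hlim⟩

end Pool.Agent.FBM
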