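import Pool.Agent.FBM.StmtA
import Pool.Agent.FBM.A2

open MeasureTheory Set Filter Topology
open scoped Real

namespace Pool.Agent.FBM

theorem t_A_cos : Stmt_A_cos := fun _ hf n => ⟨FE_cos n, FE_sin n, en_cos hf n, en_sin hf n⟩

end Pool.Agent.FBM
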