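import Pool.Agent.FBM.ASqrt

/-!
# FBM, A8: cutoffs adapted to finitely many tame sets (helper58)
-/

open MeasureTheory Set Filter Topology
open scoped Real

namespace Pool.Agent.FBM

namespace ACut

/-- the sets `S i` are locally constant at `t` -/
def Good {n : ℕ} (S : Fin n → Set ℝ) (t : ℝ) : Prop :=
  ∀ i, ∀ᶠ s in 𝓝 t, (s ∈ S i ↔ t ∈ S i)

lemma per_int {S : Set ℝ} (h : Tame S) (m : ℤ) (t : ℝ) : t + m * (2 * π) ∈ S ↔ t ∈ S := by
  have hp : Function.Periodic (fun t => t ∈ S) (2 * π) := fun t => propext (h.per t)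
  have := hp.int_mul m t
  exact iff_of_eq this

lemma good_shift {n : ℕ} {S : Fin n → Set ℝ} (hS : ∀ i, Tame (S i)) {t : ℝ} (m : ℤ)
    (h : Good S (t + m * (2 * π))) : Good S t := by
  intro i
  have h1 : Tendsto (fun s : ℝ => s + m * (2 * π)) (𝓝 t) (𝓝 (t + m * (2 * π))) :=
    (continuous_add_const _).tendsto t
  filter_upwards [h1.eventually (h i)] with s hs
  rwa [per_int (hS i), per_int (hS i)] at hs

lemma good_of_side {n : ℕ} {S : Fin n → Set ℝ} {t : ℝ} {U : Set ℝ} (hU : IsOpen U)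
    (h : ∀ i, (∀ᶠ s in 𝓝[U] t, s ∈ S i) ∨ (∀ᶠ s in 𝓝[U] t, s ∉ S i)) :
    ∀ᶠ s in 𝓝[U] t, Good S s := by
  have h1 : ∀ i, ∀ᶠ s in 𝓝[U] t, ∀ᶠ r in 𝓝 s, (r ∈ S i ↔ s ∈ S i) := by
    intro i
    rcases h i with h | h
    · have h' := eventually_eventually_nhdsWithin.2 h
      filter_upwards [h, h', self_mem_nhdsWithin] with s hs hs' hsU
      rw [hU.nhdsWithin_eq hsU] at hs'
      filter_upwards [hs'] with r hr
      exact iff_of_true hr hs
    · have h' := eventually_eventually_nhdsWithin.2 h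
      filter_upwards [h, h', self_mem_nhdsWithin] with s hs hs' hsU
      rw [hU.nhdsWithin_eq hsU] at hs'
      filter_upwards [hs'] with r hr
      exact iff_of_false hr hs
  exact eventually_all.2 h1

lemma good_punct {n : ℕ} {S : Fin n → Set ℝ} (hS : ∀ i, Tame (S i)) (t : ℝ) :
    ∀ᶠ s in 𝓝[≠] t, Good S s := by
  rw [← Iio_union_Ioi, nhdsWithin_union]
  exact eventually_sup.2 ⟨good_of_side isOpen_Iio fun i => (hS i).left t,
    good_of_side isOpen_Ioi fun i => (hS i).right t⟩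

lemma bad_finite {n : ℕ} {S : Fin n → Set ℝ} (hS : ∀ i, Tame (S i)) :
    (Icc (-π) π ∩ {t | ¬ Good S t}).Finite := by
  refine isCompact_Icc.induction_on (p := fun U => (U ∩ {t | ¬ Good S t}).Finite) ?_ ?_ ?_ ?_
  · simp
  · intro s t hst ht
    exact ht.subset (inter_subset_inter_left _ hst)
  · intro s t hs ht
    rw [union_inter_distrib_right]
    exact hs.union ht
  · intro x _
    refine ⟨{y | y ≠ x → Good S y}, nhdsWithin_le_nhds ?_, ?_⟩
    · have := good_punct hS x
      rw [eventually_nhdsWithin_iff] at this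
      exact this
    · refine (Set.finite_singleton x).subset ?_
      rintro y ⟨hy1, hy2⟩
      by_contra hne
      exact hy2 (hy1 hne)

lemma exists_points {n : ℕ} {S : Fin n → Set ℝ} (hS : ∀ i, Tame (S i)) :
    ∃ F : Finset ℝ, ∀ t, ¬ Good S t → ∃ p ∈ F, ∃ m : ℤ, t + m * (2 * π) = p := by
  refine ⟨(bad_finite hS).toFinset, fun t ht => ?_⟩
  have hp : (0 : ℝ) < 2 * π := by positivity
  refine ⟨t + (-toIocDiv hp (-π) t : ℤ) * (2 * π), ?_, _, rfl⟩
  rw [Set.Finite.mem_toFinset]
  refine ⟨?_, fun h => ht (good_shift hS _ h)⟩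
  have h1 := toIocMod_mem_Ioc hp (-π) t
  rw [toIocMod] at h1
  rw [zsmul_eq_mul] at h1
  obtain ⟨h2, h3⟩ := h1
  push_cast
  constructor <;> linarith

lemma min_pt (a b c d : ℝ) :
    (min a b - min c d) ^ 2 ≤ 1 * (a - c) ^ 2 + 1 * (b - d) ^ 2 := by
  have h := abs_min_sub_min_le_max a b c d
  have h1 : (min a b - min c d) ^ 2 ≤ (max |a - c| |b - d|) ^ 2 := by
    rw [← sq_abs]
    exact pow_le_pow_left₀ (abs_nonneg _) h 2
  rcases le_total |a - c| |b - d| with h2 | h2
  · rw [max_eq_right h2, sq_abs] at h1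
    nlinarith [sq_nonneg (a - c)]
  · rw [max_eq_left h2, sq_abs] at h1
    nlinarith [sq_nonneg (b - d)]

lemma cutoff (hL : Stmt_A_log) (F : Finset ℝ) : ∀ (δ ε : ℝ), 0 < δ → 0 < ε →
    ∃ χ : ℝ → ℝ, FE χ ∧ (∀ t, 0 ≤ χ t ∧ χ t ≤ 1) ∧ en χ χ ≤ ε ∧
      (∃ η > 0, ∀ p ∈ F, ∀ t, |Real.sin ((t - p) / 2)| < η → χ t = 0) ∧
      (∀ t, (∀ p ∈ F, δ ≤ |Real.sin ((t - p) / 2)|) → χ t = 1) := by
  classical
  induction F using Finset.induction_on with
  | empty =>
    intro δ ε hδ hε
    refine ⟨fun _ => 1, FE.const 1, fun t => ⟨zero_le_one, le_rfl⟩, ?_, ⟨1, one_pos, by simp⟩,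
      fun _ _ => rfl⟩
    rw [en_const_left]
    exact hε.le
  | insert a F ha ih =>
    intro δ ε hδ hε
    obtain ⟨χ, h1, h2, h3, ⟨η, hη, h4⟩, h5⟩ := ih δ (ε / 2) hδ (by positivity)
    obtain ⟨ξ, g1, -, g2, g3, ⟨η', hη', g4⟩, g5⟩ := hL a δ (ε / 2) hδ (by positivity)
    refine ⟨fun t => min (χ t) (ξ t), h1.inf g1, fun t => ⟨le_min (h2 t).1 (g2 t).1,
      (min_le_left _ _).trans (h2 t).2⟩, ?_, ⟨min η η', lt_min hη hη', ?_⟩, ?_⟩
    · have := ASqrt.en_le (f := fun t => min (χ t) (ξ t)) h1 g1 1 1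
        fun s t => min_pt (χ s) (ξ s) (χ t) (ξ t)
      linarith
    · intro p hp t ht
      rcases Finset.mem_insert.1 hp with rfl | hp
      · have := g4 t (ht.trans_le (min_le_right _ _))
        simp only [this]
        exact min_eq_right (h2 t).1
      · have := h4 p hp t (ht.trans_le (min_le_left _ _))
        simp only [this]
        exact min_eq_left (g2 t).1
    · intro t ht
      have e1 := h5 t fun p hp => ht p (Finset.mem_insert_of_mem hp)
      have e2 := g5 t (ht a (Finset.mem_insert_self _ _))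
      simp only [e1, e2, min_self]

lemma abs_sin_shift (x : ℝ) (m : ℤ) : |Real.sin (x + m * π)| = |Real.sin x| := by
  rw [Real.sin_add_int_mul_pi, abs_mul]
  have : |((-1 : ℝ)) ^ m| = 1 := by
    rw [abs_zpow, abs_neg, abs_one, one_zpow]
  rw [this, one_mul]

/-- reduction of a pair to a close one -/
lemma exists_close (s t ρ : ℝ) (h : |Real.sin ((s - t) / 2)| < ρ) :
    ∃ m : ℤ, |s - (t + m * (2 * π))| < π * ρ := by
  have hp : (0 : ℝ) < 2 * π := by positivity
  refine ⟨toIocDiv hp (-π) (s - t), ?_⟩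
  have h1 := toIocMod_mem_Ioc hp (-π) (s - t)
  rw [toIocMod, zsmul_eq_mul] at h1
  obtain ⟨h2, h3⟩ := h1
  set m := toIocDiv hp (-π) (s - t) with hm
  set x := s - (t + m * (2 * π)) with hx
  have hx1 : -π < x := by rw [hx]; linarith
  have hx2 : x ≤ π := by rw [hx]; linarith
  have hxa : |x / 2| ≤ π / 2 := by
    rw [abs_le]; constructor <;> linarith
  have hj := Real.mul_abs_le_abs_sin hxa
  have e : (s - t) / 2 = x / 2 + m * π := by rw [hx]; ring
  rw [e, abs_sin_shift] at h
  have h4 : 2 / π * |x / 2| < ρ := lt_of_le_of_lt hj h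
  rw [abs_div, abs_of_pos (two_pos : (0 : ℝ) < 2)] at h4
  have h5 : 2 / π * (|x| / 2) = |x| / π := by ring
  rw [h5, div_lt_iff₀ Real.pi_pos] at h4
  linarith

/-- between a point of `S i` and a point outside there is an exceptional point -/
lemma exists_between {n : ℕ} {S : Fin n → Set ℝ} (i : Fin n) {s t : ℝ} (hs : s ∈ S i)
    (ht : t ∉ S i) : ∃ p ∈ uIcc s t, ¬ Good S p := by
  classical
  by_contra hc
  push Not at hc
  have hcont : ContinuousOn (fun r => decide (r ∈ S i)) (uIcc s t) := by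
    intro r hr
    refine ContinuousAt.continuousWithinAt ?_
    refine (continuousAt_const (y := decide (r ∈ S i))).congr ?_
    filter_upwards [hc r hr i] with q hq
    simp only [hq]
  have := isPreconnected_uIcc.constant hcont left_mem_uIcc right_mem_uIcc
  simp [hs, ht] at this

lemma J_le {s t ρ : ℝ} (hρ : 0 < ρ) (h : ρ ≤ |Real.sin ((s - t) / 2)|) :
    J s t ≤ 1 / (4 * ρ ^ 2) := by
  unfold J
  have h1 : ρ ^ 2 ≤ Real.sin ((s - t) / 2) ^ 2 := by
    rw [← sq_abs (Real.sin _)]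
    exact pow_le_pow_left₀ hρ.le h 2
  exact one_div_le_one_div_of_le (by positivity) (by linarith)

lemma fe_cut {n : ℕ} {S : Fin n → Set ℝ} (hS : ∀ i, Tame (S i)) {F : Finset ℝ}
    (hF : ∀ t, ¬ Good S t → ∃ p ∈ F, ∃ m : ℤ, t + m * (2 * π) = p) {χ : ℝ → ℝ} (hχ : FE χ)
    {η : ℝ} (hη : 0 < η) (h0 : ∀ p ∈ F, ∀ t, |Real.sin ((t - p) / 2)| < η → χ t = 0)
    (i : Fin n) {g : ℝ → ℝ} (hg : FE g) : FE ((S i).indicator (fun t => g t * χ t)) := by
  classical
  have hf : FE (fun t => g t * χ t) := hg.mul hχ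
  set f : ℝ → ℝ := fun t => g t * χ t with hfdef
  obtain ⟨C, hC⟩ := hf.bdd
  have hC0 : 0 ≤ C := (abs_nonneg _).trans (hC 0)
  have hb : ∀ t, |(S i).indicator f t| ≤ C := by
    intro t
    by_cases ht : t ∈ S i
    · rw [indicator_of_mem ht]; exact hC t
    · rw [indicator_of_notMem ht, abs_zero]; exact hC0
  have hm : Measurable ((S i).indicator f) := hf.meas.indicator (hS i).meas
  refine ⟨hm, fun t => ?_, ⟨C, hb⟩, ?_⟩
  · by_cases ht : t ∈ S i
    · rw [indicator_of_mem ht, indicator_of_mem ((hS i).per t |>.2 ht), hf.per t]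
    · rw [indicator_of_notMem ht, indicator_of_notMem (fun h => ht ((hS i).per t |>.1 h))]
  -- the exceptional pairs
  have key : ∀ s t, s ∈ S i → t ∉ S i → |Real.sin ((s - t) / 2)| < η / 4 → f s = 0 ∧ f t = 0 := by
    intro s t hs ht hst
    obtain ⟨m, hm'⟩ := exists_close s t (η / 4) hst
    have ht' : t + m * (2 * π) ∉ S i := fun h => ht ((per_int (hS i) m t).1 h)
    obtain ⟨q, hq, hbad⟩ := exists_between i hs ht'
    obtain ⟨p, hp, k, hk⟩ := hF q hbad
    have hpi4 : π ≤ 4 := Real.pi_le_four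
    have hsmall : |s - (t + m * (2 * π))| < η := by
      refine hm'.trans_le ?_
      nlinarith
    have hq1 : |s - q| ≤ |s - (t + m * (2 * π))| := by
      have := abs_sub_left_of_mem_uIcc hq
      rw [abs_sub_comm s q, abs_sub_comm s]
      exact this
    have hq2 : |t + m * (2 * π) - q| ≤ |s - (t + m * (2 * π))| := by
      have := abs_sub_right_of_mem_uIcc hq
      rw [abs_sub_comm s]
      exact this
    have sn : ∀ x : ℝ, |x - q| < η → |Real.sin ((x - p) / 2)| < η := by
      intro x hx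
      have e : (x - p) / 2 = (x - q) / 2 + (-k : ℤ) * π := by
        rw [← hk]; push_cast; ring
      rw [e, abs_sin_shift]
      refine lt_of_le_of_lt Real.abs_sin_le_abs ?_
      rw [abs_div, abs_of_pos (two_pos : (0 : ℝ) < 2)]
      linarith [abs_nonneg (x - q)]
    have z1 : χ s = 0 := h0 p hp s (sn s (hq1.trans_lt hsmall))
    have z2' : χ (t + m * (2 * π)) = 0 := h0 p hp _ (sn _ (hq2.trans_lt hsmall))
    have z2 : χ t = 0 := by rw [← z2']; exact (hχ.per.int_mul m t).symm
    constructor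
    · simp only [hfdef, z1, mul_zero]
    · simp only [hfdef, z2, mul_zero]
  have hle : ∀ s t, J s t * ((S i).indicator f s - (S i).indicator f t) ^ 2
      ≤ J s t * (f s - f t) ^ 2 + 1 / (4 * (η / 4) ^ 2) * (2 * C) ^ 2 := by
    intro s t
    rcases lt_or_ge |Real.sin ((s - t) / 2)| (η / 4) with h | h
    · have h1 : ((S i).indicator f s - (S i).indicator f t) ^ 2 ≤ (f s - f t) ^ 2 := by
        by_cases hs : s ∈ S i <;> by_cases ht : t ∈ S i
        · rw [indicator_of_mem hs, indicator_of_mem ht]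
        · obtain ⟨e1, e2⟩ := key s t hs ht h
          rw [indicator_of_mem hs, indicator_of_notMem ht, e1, e2]
        · have h' : |Real.sin ((t - s) / 2)| < η / 4 := by
            have : (t - s) / 2 = -((s - t) / 2) := by ring
            rw [this, Real.sin_neg, abs_neg]
            exact h
          obtain ⟨e1, e2⟩ := key t s ht hs h'
          rw [indicator_of_notMem hs, indicator_of_mem ht, e1, e2]
        · rw [indicator_of_notMem hs, indicator_of_notMem ht]
          nlinarith [sq_nonneg (f s - f t)]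
      have h2 := mul_le_mul_of_nonneg_left h1 (J_nonneg s t)
      have h3 : 0 ≤ 1 / (4 * (η / 4) ^ 2) * (2 * C) ^ 2 := by positivity
      linarith
    · have h1 : ((S i).indicator f s - (S i).indicator f t) ^ 2 ≤ (2 * C) ^ 2 := by
        rw [← sq_abs]
        refine pow_le_pow_left₀ (abs_nonneg _) ?_ 2
        refine (abs_sub _ _).trans ?_
        linarith [hb s, hb t]
      have h2 : J s t * ((S i).indicator f s - (S i).indicator f t) ^ 2
          ≤ 1 / (4 * (η / 4) ^ 2) * (2 * C) ^ 2 :=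
        mul_le_mul (J_le (by positivity) h) h1 (sq_nonneg _) (by positivity)
      have h3 : 0 ≤ J s t * (f s - f t) ^ 2 := mul_nonneg (J_nonneg s t) (sq_nonneg _)
      linarith
  refine (hf.fin.add (integrable_const (1 / (4 * (η / 4) ^ 2) * (2 * C) ^ 2))).mono' ?_ ?_
  · exact (measurable_J.mul (((hm.comp measurable_fst).sub
      (hm.comp measurable_snd)).pow_const 2)).aestronglyMeasurable
  · refine Eventually.of_forall fun p => ?_
    rw [Real.norm_eq_abs, abs_of_nonneg (mul_nonneg (J_nonneg _ _) (sq_nonneg _))]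
    simp only [Pi.add_apply]
    exact hle p.1 p.2

lemma ae_sin_ne (p : ℝ) : ∀ᵐ t ∂cm, Real.sin ((t - p) / 2) ≠ 0 := by
  unfold cm
  refine ae_restrict_of_ae ?_
  rw [ae_iff]
  have hc : {t : ℝ | ¬ Real.sin ((t - p) / 2) ≠ 0}.Countable := by
    refine (Set.countable_range (fun n : ℤ => p + 2 * (n * π))).mono ?_
    intro t ht
    have ht' : Real.sin ((t - p) / 2) = 0 := not_not.1 ht
    rw [Real.sin_eq_zero_iff] at ht'
    obtain ⟨n, hn⟩ := ht'
    exact ⟨n, by simp only; linarith⟩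
  exact hc.measure_zero volume

end ACut

open ACut

theorem t_A_cut (hL : Stmt_A_log) : Stmt_A_cut := by
  intro n S hS
  obtain ⟨F, hF⟩ := exists_points hS
  have hex := fun k : ℕ => cutoff hL F (1 / ((k : ℝ) + 1)) (1 / ((k : ℝ) + 1))
    Nat.one_div_pos_of_nat Nat.one_div_pos_of_nat
  choose χ h1 h2 h3 h4 h5 using hex
  refine ⟨χ, h1, h2, ?_, ?_, ?_⟩
  · exact squeeze_zero (fun k => en_self_nonneg _) h3 tendsto_one_div_add_atTop_nhds_zero_nat
  · have hae : ∀ᵐ t ∂cm, ∀ p ∈ F, Real.sin ((t - p) / 2) ≠ 0 := by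
      rw [Filter.eventually_all_finset]
      intro p _
      exact ae_sin_ne p
    filter_upwards [hae] with t ht
    have hev : ∀ᶠ k : ℕ in atTop, ∀ p ∈ F, 1 / ((k : ℝ) + 1) ≤ |Real.sin ((t - p) / 2)| := by
      rw [Filter.eventually_all_finset]
      intro p hp
      have hpos : 0 < |Real.sin ((t - p) / 2)| := abs_pos.2 (ht p hp)
      exact (tendsto_one_div_add_atTop_nhds_zero_nat.eventually (gt_mem_nhds hpos)).mono
        fun k hk => hk.le
    refine tendsto_const_nhds.congr' ?_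
    filter_upwards [hev] with k hk
    exact (h5 k t hk).symm
  · intro k i g hg
    obtain ⟨η, hη, h0⟩ := h4 k
    exact fe_cut hS hF (h1 k) hη h0 i hg

end Pool.Agent.FBM
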