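import Pool.Agent.FBM.StmtA
import Pool.Agent.FBM.A4

/-!
# FBM, module ADir: the Dirichlet integral of the harmonic extension
-/

open MeasureTheory Set Filter Topology ENNReal
open scoped Real

namespace Pool.Agent.FBM

namespace ADir

open Pool.Agent.Lib_helper60.FB (parseval_enn memLp_cont)

/-- Parseval on the circle for absolutely convergent series. -/
theorem parseval {a : ℕ → ℂ} (ha : Summable fun k => ‖a k‖) :
    ∫⁻ t, ‖∑' k, a k * Complex.exp (t * Complex.I) ^ k‖ₑ ^ 2 ∂cm =
      ENNReal.ofReal (2 * π) * ∑' k, ‖a k‖ₑ ^ 2 := by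
  classical
  -- the continuous function on the circle
  have hs : Summable fun k : ℕ => (a k) • (fourier (k : ℤ) : C(AddCircle (2 * π), ℂ)) := by
    refine Summable.of_norm (ha.congr fun k => ?_)
    rw [norm_smul, fourier_norm, mul_one]
  set G : C(AddCircle (2 * π), ℂ) := ∑' k : ℕ, (a k) • (fourier (k : ℤ) : C(AddCircle (2 * π), ℂ))
    with hG
  have hGx : ∀ x : AddCircle (2 * π), G x = ∑' k : ℕ, a k * fourier (k : ℤ) x := by
    intro x
    have := (ContinuousMap.hasSum_apply hs.hasSum x).tsum_eq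
    rw [hG, ← this]
    refine tsum_congr fun k => ?_
    simp
  have h1 : ∫⁻ t, ‖∑' k, a k * Complex.exp (t * Complex.I) ^ k‖ₑ ^ 2 ∂cm =
      ∫⁻ t, ‖G (t : AddCircle (2 * π))‖ₑ ^ 2 ∂cm := by
    refine lintegral_congr fun t => ?_
    rw [hGx]
    congr 3
    funext k
    rw [← ee_coe, Pool.Agent.Lib_helper60.FB.ee_pow]
  rw [h1, mp_mk.lintegral_comp (f := fun x => ‖G x‖ₑ ^ 2)
    (G.continuous.measurable.enorm.pow_const 2), haar_eq, lintegral_smul_measure, smul_eq_mul,
    ← parseval_enn (memLp_cont G)]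
  congr 1
  -- Fourier coefficients
  have hco : ∀ n : ℤ, HasSum (fun k : ℕ => a k * (Pi.single (k : ℤ) (1 : ℂ) : ℤ → ℂ) n)
      (fourierCoeff (G : AddCircle (2 * π) → ℂ) n) := by
    intro n
    have hi : ∀ k : ℕ, Integrable (fun x : AddCircle (2 * π) =>
        (fourier (-n) x : ℂ) • (a k * (fourier (k : ℤ) x : ℂ))) AddCircle.haarAddCircle := by
      intro k
      refine Continuous.integrable_of_hasCompactSupport ?_ (HasCompactSupport.of_compactSpace _)
      exact (fourier (-n)).continuous.smul (continuous_const.mul (fourier (k : ℤ)).continuous)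
    have hn : ∀ (m : ℤ) (x : AddCircle (2 * π)), ‖(fourier m x : ℂ)‖ = 1 := by
      intro m x
      rw [fourier_apply]
      simp
    have h2 := hasSum_integral_of_summable_integral_norm hi (by
      refine ha.congr fun k => ?_
      simp only [norm_smul, norm_mul, hn, one_mul, mul_one]
      simp)
    have h3 : ∫ x : AddCircle (2 * π), ∑' k : ℕ, (fourier (-n) x : ℂ) •
        (a k * (fourier (k : ℤ) x : ℂ)) ∂AddCircle.haarAddCircle =
        fourierCoeff (G : AddCircle (2 * π) → ℂ) n := by
      rw [fourierCoeff]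
      refine integral_congr_ae (Eventually.of_forall fun x => ?_)
      simp only [smul_eq_mul]
      rw [tsum_mul_left, ← hGx]
    rw [h3] at h2
    have h4 : (fun k : ℕ => a k * (Pi.single (k : ℤ) (1 : ℂ) : ℤ → ℂ) n) = fun k : ℕ =>
        ∫ x : AddCircle (2 * π), (fourier (-n) x : ℂ) • (a k * (fourier (k : ℤ) x : ℂ))
          ∂AddCircle.haarAddCircle := by
      funext k
      rw [← fourierCoeff_fourier (T := 2 * π) (k : ℤ), fourierCoeff, ← integral_const_mul]
      refine integral_congr_ae (Eventually.of_forall fun x => ?_)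
      simp only [smul_eq_mul]
      ring
    rw [h4]
    exact h2
  have hnat : ∀ n : ℕ, fourierCoeff (G : AddCircle (2 * π) → ℂ) (n : ℤ) = a n := by
    intro n
    refine (hco n).unique ?_
    have h5 := hasSum_ite_eq n (a n)
    have h6 : (fun k : ℕ => a k * (Pi.single (k : ℤ) (1 : ℂ) : ℤ → ℂ) (n : ℤ)) =
        fun k : ℕ => if k = n then a n else 0 := by
      funext k
      rw [Pi.single_apply]
      by_cases h : k = n
      · subst h
        simp
      · rw [if_neg h, if_neg (fun h' => h (by exact_mod_cast h'.symm)), mul_zero]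
    rw [h6]
    exact h5
  have hneg : ∀ n : ℕ, fourierCoeff (G : AddCircle (2 * π) → ℂ) (-((n : ℤ) + 1)) = 0 := by
    intro n
    refine (hco _).unique ?_
    have h6 : (fun k : ℕ => a k * (Pi.single (k : ℤ) (1 : ℂ) : ℤ → ℂ) (-((n : ℤ) + 1))) =
        fun _ : ℕ => 0 := by
      funext k
      rw [Pi.single_apply, if_neg (by omega), mul_zero]
    rw [h6]
    exact hasSum_zero
  rw [tsum_of_nat_of_neg_add_one (f := fun n : ℤ => ‖fourierCoeff (G : AddCircle (2 * π) → ℂ) n‖ₑ ^ 2)
    ENNReal.summable ENNReal.summable]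
  simp only [hnat, hneg]
  simp

/-- Polar coordinates on the unit ball. -/
theorem polar {F : ℂ → ℝ≥0∞} (hF : Measurable F) :
    ∫⁻ z in Metric.ball (0 : ℂ) 1, F z =
      ∫⁻ r in Ioo (0 : ℝ) 1, ENNReal.ofReal r *
        ∫⁻ t, F (r * Complex.exp (t * Complex.I)) ∂cm := by
  rw [← lintegral_indicator measurableSet_ball, ← Complex.lintegral_comp_polarCoord_symm]
  have hcm : cm = volume.restrict (Ioo (-π) π) := by
    rw [cm, restrict_Ioo_eq_restrict_Ioc]
  have hmeas : Measurable (fun p : ℝ × ℝ => (p.1 : ℂ) * Complex.exp (p.2 * Complex.I)) := by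
    fun_prop
  have h1 : ∀ p : ℝ × ℝ, (Complex.polarCoord.symm p : ℂ) = (p.1 : ℂ) * Complex.exp (p.2 * Complex.I) := by
    intro p
    rw [Complex.polarCoord_symm_apply, Complex.exp_mul_I, Complex.ofReal_cos, Complex.ofReal_sin]
  rw [polarCoord_target, Measure.volume_eq_prod, ← Measure.prod_restrict, ← hcm]
  rw [lintegral_prod]
  · have h2 : ∫⁻ x in Ioi (0 : ℝ), ∫⁻ y, ENNReal.ofReal (x, y).1 •
        (Metric.ball (0 : ℂ) 1).indicator F (Complex.polarCoord.symm (x, y)) ∂cm =
        ∫⁻ x in Ioi (0 : ℝ), (Ioo (0 : ℝ) 1).indicator (fun r => ENNReal.ofReal r *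
          ∫⁻ t, F (r * Complex.exp (t * Complex.I)) ∂cm) x := by
      refine setLIntegral_congr_fun measurableSet_Ioi fun x hx => ?_
      rw [mem_Ioi] at hx
      have hn : ∀ y : ℝ, ‖(x : ℂ) * Complex.exp (y * Complex.I)‖ = x := by
        intro y
        rw [norm_mul, Complex.norm_exp_ofReal_mul_I, mul_one, Complex.norm_real,
          Real.norm_of_nonneg hx.le]
      by_cases h : x < 1
      · rw [indicator_of_mem (show x ∈ Ioo (0 : ℝ) 1 from ⟨hx, h⟩), ← lintegral_const_mul]
        · refine lintegral_congr fun y => ?_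
          rw [h1, smul_eq_mul, indicator_of_mem]
          rw [mem_ball_zero_iff, hn]
          exact h
        · exact hF.comp (by fun_prop)
      · rw [indicator_of_notMem (fun h' => h h'.2)]
        rw [lintegral_eq_zero_iff']
        · refine Eventually.of_forall fun y => ?_
          simp only [Pi.zero_apply]
          rw [h1, indicator_of_notMem, smul_zero]
          rw [mem_ball_zero_iff, hn]
          exact h
        · refine Measurable.aemeasurable ?_
          simp only [h1]
          have hm2 : Measurable (fun y : ℝ => (Metric.ball (0 : ℂ) 1).indicator F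
              ((x : ℂ) * Complex.exp (y * Complex.I))) :=
            (hF.indicator measurableSet_ball).comp (by fun_prop)
          exact hm2.const_smul (ENNReal.ofReal x)
    rw [h2, lintegral_indicator measurableSet_Ioo, Measure.restrict_restrict measurableSet_Ioo]
    congr 2
    exact inter_eq_left.2 fun x hx => hx.1
  · refine Measurable.aemeasurable ?_
    simp only [h1]
    exact (measurable_fst.ennreal_ofReal).smul ((hF.indicator measurableSet_ball).comp hmeas)

end ADir

theorem t_A_dir : Stmt_A_dir := by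
  intro f hf
  have hmd : Measurable (fun z => ENNReal.ofReal (‖deriv (hz f) z‖ ^ 2)) :=
    ((measurable_deriv (hz f)).norm.pow_const 2).ennreal_ofReal
  rw [ADir.polar hmd]
  obtain ⟨C, hC⟩ := norm_dd_le hf.bdd
  have h1 : ∀ r ∈ Ioo (0 : ℝ) 1, ∫⁻ t, ENNReal.ofReal (‖deriv (hz f)
      (r * Complex.exp (t * Complex.I))‖ ^ 2) ∂cm =
      ENNReal.ofReal (2 * π) * ∑' n : ℕ, ‖((n : ℂ) + 1) * dd f (n + 1) * (r : ℂ) ^ n‖ₑ ^ 2 := by
    intro r hr
    rw [← ADir.parseval (a := fun n : ℕ => ((n : ℂ) + 1) * dd f (n + 1) * (r : ℂ) ^ n)]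
    · refine lintegral_congr fun t => ?_
      have hz1 : ‖(r : ℂ) * Complex.exp (t * Complex.I)‖ < 1 := by
        rw [norm_mul, Complex.norm_exp_ofReal_mul_I, mul_one, Complex.norm_real,
          Real.norm_of_nonneg hr.1.le]
        exact hr.2
      rw [← (deriv_hz_hasSum hf.meas hf.bdd hz1).tsum_eq, ENNReal.ofReal_pow (norm_nonneg _),
        ofReal_norm]
      congr 3
      funext n
      rw [mul_pow]
      ring
    · have h2 : Summable fun n : ℕ => (((n : ℝ) + 1) * r ^ n) * C := by
        refine Summable.mul_right C ?_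
        have h3 := summable_pow_mul_geometric_of_norm_lt_one 1 (r := r)
          (by rw [Real.norm_of_nonneg hr.1.le]; exact hr.2)
        have h4 := summable_geometric_of_lt_one hr.1.le hr.2
        refine (h3.add h4).congr fun n => ?_
        ring
      refine Summable.of_nonneg_of_le (fun n => norm_nonneg _) (fun n => ?_) h2
      rw [norm_mul, norm_mul, norm_pow, Complex.norm_real, Real.norm_of_nonneg hr.1.le]
      have h5 : ‖((n : ℂ) + 1)‖ = (n : ℝ) + 1 := by
        have : ((n : ℂ) + 1) = (((n : ℝ) + 1 : ℝ) : ℂ) := by push_cast; rfl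
        rw [this, Complex.norm_real, Real.norm_of_nonneg (by positivity)]
      rw [h5]
      have := hC (n + 1)
      have h6 : 0 ≤ r ^ n := pow_nonneg hr.1.le n
      calc ((n : ℝ) + 1) * ‖dd f (n + 1)‖ * r ^ n ≤ ((n : ℝ) + 1) * C * r ^ n := by gcongr
        _ = ((n : ℝ) + 1) * r ^ n * C := by ring
  have h7 : ∫⁻ r in Ioo (0 : ℝ) 1, ENNReal.ofReal r * ∫⁻ t, ENNReal.ofReal (‖deriv (hz f)
      (r * Complex.exp (t * Complex.I))‖ ^ 2) ∂cm =
      ∫⁻ r in Ioo (0 : ℝ) 1, ∑' n : ℕ, ENNReal.ofReal
        (2 * π * ((n + 1 : ℕ) : ℝ) ^ 2 * ‖dd f (n + 1)‖ ^ 2 * r ^ (2 * n + 1)) := by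
    refine setLIntegral_congr_fun measurableSet_Ioo fun r hr => ?_
    rw [h1 r hr, ← ENNReal.tsum_mul_left, ← ENNReal.tsum_mul_left]
    refine tsum_congr fun n => ?_
    rw [← ofReal_norm, ← ENNReal.ofReal_pow (norm_nonneg _), ← ENNReal.ofReal_mul (by positivity),
      ← ENNReal.ofReal_mul hr.1.le]
    congr 1
    rw [norm_mul, norm_mul, norm_pow, Complex.norm_real, Real.norm_of_nonneg hr.1.le]
    have h5 : ‖((n : ℂ) + 1)‖ = ((n + 1 : ℕ) : ℝ) := by
      have : ((n : ℂ) + 1) = (((n + 1 : ℕ) : ℝ) : ℂ) := by push_cast; rfl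
      rw [this, Complex.norm_real, Real.norm_of_nonneg (by positivity)]
    rw [h5]
    ring
  rw [h7, lintegral_tsum]
  · have h8 : ∀ n : ℕ, ∫⁻ r in Ioo (0 : ℝ) 1, ENNReal.ofReal
        (2 * π * ((n + 1 : ℕ) : ℝ) ^ 2 * ‖dd f (n + 1)‖ ^ 2 * r ^ (2 * n + 1)) =
        ENNReal.ofReal (1 / π * (((n + 1 : ℕ) : ℝ) * (ac f (n + 1) ^ 2 + bc f (n + 1) ^ 2))) := by
      intro n
      rw [← ofReal_integral_eq_lintegral_ofReal]
      · congr 1
        rw [integral_const_mul, ← integral_Ioc_eq_integral_Ioo,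
          ← intervalIntegral.integral_of_le zero_le_one, integral_pow]
        have h9 : ‖dd f (n + 1)‖ ^ 2 = 1 / π ^ 2 * (ac f (n + 1) ^ 2 + bc f (n + 1) ^ 2) := by
          rw [dd, if_neg (Nat.succ_ne_zero n), ← Complex.normSq_eq_norm_sq, Complex.normSq_apply]
          simp
          ring
        rw [h9]
        have := Real.pi_ne_zero
        have h10 : (2 * (n : ℝ) + 1 + 1) ≠ 0 := by positivity
        push_cast
        field_simp
        ring
      · refine IntegrableOn.mono_set (t := Icc (0 : ℝ) 1) ?_ Ioo_subset_Icc_self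
        exact (by fun_prop : Continuous fun r : ℝ => 2 * π * ((n + 1 : ℕ) : ℝ) ^ 2 *
          ‖dd f (n + 1)‖ ^ 2 * r ^ (2 * n + 1)).continuousOn.integrableOn_compact isCompact_Icc
      · refine (ae_restrict_iff' measurableSet_Ioo).2 (Eventually.of_forall fun r hr => ?_)
        have := hr.1
        simp only [Pi.zero_apply]
        positivity
    simp only [h8]
    have h11 := douglas_self hf
    have h12 := (hasSum_nat_add_iff (f := fun n : ℕ => 1 / π * ((n : ℝ) * (ac f n ^ 2 +
      bc f n ^ 2))) 1).2 (by simpa using h11)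
    rw [← h12.tsum_eq, ENNReal.ofReal_tsum_of_nonneg (fun n => by positivity) h12.summable]
  · intro n
    fun_prop

end Pool.Agent.FBM
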