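import Pool.Agent.FBM.StmtA
import Pool.Agent.FBM.A2

open MeasureTheory Set Filter Topology
open scoped Real

namespace Pool.Agent.FBM

theorem t_A_doug : Stmt_A_doug := by
  intro f hf
  have h := (douglas_self hf).mul_left π
  have h1 : (fun n : ℕ => π * (1 / π * (n * (ac f n ^ 2 + bc f n ^ 2)))) =
      fun n : ℕ => (n : ℝ) * ((∫ t, f t * Real.cos (n * t) ∂cm) ^ 2
        + (∫ t, f t * Real.sin (n * t) ∂cm) ^ 2) := by
    funext n
    have := Real.pi_ne_zero
    rw [ac, bc]
    field_simp
  rw [h1] at h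
  exact h

end Pool.Agent.FBM
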