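import Pool.Agent.FBM.StmtA

/-!
# FBM, block A13: no jumps
-/

open MeasureTheory Set Filter Topology
open scoped Real ENNReal

namespace Pool.Agent.FBM

namespace A_jump_

lemma lint_shift (g : ℝ → ℝ≥0∞) (hg : ∀ t, g (t + 2 * π) = g t) (t₀ : ℝ) :
    ∫⁻ t in Ioc (-π) π, g t = ∫⁻ t in Ioc (t₀ - π) (t₀ + π), g t := by
  have hT : (0 : ℝ) < 2 * π := by positivity
  have h1 := isAddFundamentalDomain_Ioc hT (-π) (volume : Measure ℝ)
  have h2 := isAddFundamentalDomain_Ioc hT (t₀ - π) (volume : Measure ℝ)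
  have e1 : -π + 2 * π = π := by ring
  have e2 : t₀ - π + 2 * π = t₀ + π := by ring
  rw [e1] at h1
  rw [e2] at h2
  have hP : Function.Periodic g (2 * π) := hg
  refine h1.setLIntegral_eq h2 g ?_
  rintro ⟨a, ha⟩ x
  obtain ⟨n, rfl⟩ := AddSubgroup.mem_zmultiples_iff.mp ha
  change g (n • (2 * π) + x) = g x
  rw [add_comm]
  exact hP.zsmul n x

lemma not_fin (t₀ ρ : ℝ) (hρ : 0 < ρ) :
    ∫⁻ s in Ioo (t₀ - ρ) t₀, ENNReal.ofReal (t₀ - s)⁻¹ = ∞ := by
  by_contra h
  have hm : AEStronglyMeasurable (fun s : ℝ => (s - t₀)⁻¹)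
      (volume.restrict (Ioo (t₀ - ρ) t₀)) := by
    exact (Measurable.aestronglyMeasurable (by fun_prop))
  have hi : IntegrableOn (fun s : ℝ => (s - t₀)⁻¹) (Ioo (t₀ - ρ) t₀) := by
    refine ⟨hm, ?_⟩
    unfold HasFiniteIntegral
    refine lt_of_le_of_lt ?_ (lt_top_iff_ne_top.mpr h)
    refine setLIntegral_mono' measurableSet_Ioo fun s hs => ?_
    have e : (s - t₀)⁻¹ = -(t₀ - s)⁻¹ := by
      rw [← neg_sub t₀ s, inv_neg]
    have hp : 0 ≤ (t₀ - s)⁻¹ := inv_nonneg.mpr (by linarith [hs.2])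
    change ‖(s - t₀)⁻¹‖ₑ ≤ ENNReal.ofReal (t₀ - s)⁻¹
    rw [e, enorm_neg, Real.enorm_eq_ofReal hp]
  have hii : IntervalIntegrable (fun s : ℝ => (s - t₀)⁻¹) volume (t₀ - ρ) t₀ := by
    rw [intervalIntegrable_iff_integrableOn_Ioo_of_le (by linarith)]
    exact hi
  rw [intervalIntegrable_sub_inv_iff] at hii
  rcases hii with h1 | h1
  · linarith
  · exact h1 right_mem_uIcc

end A_jump_

open A_jump_ in
theorem t_A_jump : Stmt_A_jump := by
  intro f t₀ δ c d hf hδ hc hd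
  by_contra hne
  obtain ⟨ρ, hρ0, hρ1, hρδ⟩ : ∃ ρ : ℝ, 0 < ρ ∧ ρ ≤ 1 ∧ ρ ≤ δ :=
    ⟨min δ 1, lt_min hδ one_pos, min_le_right _ _, min_le_left _ _⟩
  set F : ℝ → ℝ → ℝ≥0∞ := fun s t => ENNReal.ofReal (J s t * (f s - f t) ^ 2) with hF
  have hFm : Measurable (fun p : ℝ × ℝ => F p.1 p.2) := by
    have h1 := measurable_J.mul (hf.ddmeas.pow_const 2)
    exact ENNReal.measurable_ofReal.comp h1
  have hfin : ∫⁻ s in Ioc (-π) π, ∫⁻ t in Ioc (-π) π, F s t < ∞ := by
    have h1 := hf.fin.2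
    unfold HasFiniteIntegral cm2 at h1
    have h2 : ∫⁻ p, ‖J p.1 p.2 * (f p.1 - f p.2) ^ 2‖ₑ ∂(cm.prod cm)
        = ∫⁻ p, F p.1 p.2 ∂(cm.prod cm) := by
      refine lintegral_congr fun p => ?_
      rw [Real.enorm_eq_ofReal (mul_nonneg (J_nonneg _ _) (sq_nonneg _))]
    rw [h2, lintegral_prod _ hFm.aemeasurable] at h1
    exact h1
  have hFt : ∀ s t, F s (t + 2 * π) = F s t := by
    intro s t
    simp only [hF, J_add_right, hf.per t]
  have hFs : ∀ s t, F (s + 2 * π) t = F s t := by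
    intro s t
    simp only [hF, J_add_left, hf.per s]
  have hfin2 : ∫⁻ s in Ioc (t₀ - π) (t₀ + π), ∫⁻ t in Ioc (t₀ - π) (t₀ + π), F s t < ∞ := by
    have e1 : ∀ s, ∫⁻ t in Ioc (-π) π, F s t = ∫⁻ t in Ioc (t₀ - π) (t₀ + π), F s t :=
      fun s => lint_shift (F s) (hFt s) t₀
    simp only [e1] at hfin
    rw [lint_shift _ (fun s => by simp only [hFs]) t₀] at hfin
    exact hfin
  have hpi : (3 : ℝ) < π := Real.pi_gt_three
  have hsub1 : Ioo (t₀ - ρ) t₀ ⊆ Ioc (t₀ - π) (t₀ + π) := by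
    intro s hs
    exact ⟨by linarith [hs.1], by linarith [hs.2]⟩
  have hlow : ∀ᵐ s ∂(volume.restrict (Ioo (t₀ - ρ) t₀)),
      ENNReal.ofReal ((c - d) ^ 2 / 4) * ENNReal.ofReal (t₀ - s)⁻¹ ≤
        ∫⁻ t in Ioc (t₀ - π) (t₀ + π), F s t := by
    rw [ae_restrict_iff' measurableSet_Ioo]
    filter_upwards [hc] with s hs hsI
    have hfs : f s = c := hs ⟨by linarith [hsI.1], hsI.2⟩
    set h := t₀ - s with hh
    have hh0 : 0 < h := by linarith [hsI.2]
    have hhρ : h < ρ := by linarith [hsI.1]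
    have hsub2 : Ioo t₀ (t₀ + h) ⊆ Ioc (t₀ - π) (t₀ + π) := by
      intro t ht
      exact ⟨by linarith [ht.1], by linarith [ht.2]⟩
    calc ENNReal.ofReal ((c - d) ^ 2 / 4) * ENNReal.ofReal h⁻¹
        = ∫⁻ t in Ioo t₀ (t₀ + h), ENNReal.ofReal ((c - d) ^ 2 / (4 * h ^ 2)) := by
          rw [setLIntegral_const, Real.volume_Ioo, ← ENNReal.ofReal_mul (by positivity),
            ← ENNReal.ofReal_mul (by positivity)]
          congr 1
          field_simp
          ring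
      _ ≤ ∫⁻ t in Ioo t₀ (t₀ + h), F s t := by
          refine lintegral_mono_ae ?_
          rw [ae_restrict_iff' measurableSet_Ioo]
          filter_upwards [hd] with t ht htI
          have hft : f t = d := ht ⟨htI.1, by linarith [htI.2]⟩
          simp only [hF]
          rw [hfs, hft]
          refine ENNReal.ofReal_le_ofReal ?_
          have hx0 : 0 < t - s := by linarith [htI.1]
          have hx1 : t - s < 2 * h := by linarith [htI.2]
          have hJ : 1 / (4 * h ^ 2) ≤ J s t := by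
            rw [J_symm]
            unfold J
            have hsin0 : 0 < Real.sin ((t - s) / 2) :=
              Real.sin_pos_of_pos_of_lt_pi (by linarith) (by linarith)
            have hsin1 : Real.sin ((t - s) / 2) < (t - s) / 2 := Real.sin_lt (by linarith)
            refine one_div_le_one_div_of_le (by positivity) ?_
            nlinarith
          calc (c - d) ^ 2 / (4 * h ^ 2) = 1 / (4 * h ^ 2) * (c - d) ^ 2 := by ring
            _ ≤ J s t * (c - d) ^ 2 := mul_le_mul_of_nonneg_right hJ (sq_nonneg _)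
      _ ≤ ∫⁻ t in Ioc (t₀ - π) (t₀ + π), F s t := lintegral_mono_set hsub2
  have hcd : 0 < (c - d) ^ 2 / 4 := by
    have : c - d ≠ 0 := sub_ne_zero.mpr hne
    positivity
  have hinf : ∫⁻ s in Ioo (t₀ - ρ) t₀,
      ENNReal.ofReal ((c - d) ^ 2 / 4) * ENNReal.ofReal (t₀ - s)⁻¹ = ∞ := by
    rw [lintegral_const_mul _ (by fun_prop), not_fin t₀ ρ hρ0]
    exact ENNReal.mul_top (ENNReal.ofReal_pos.mpr hcd).ne'
  have hle := (lintegral_mono_ae hlow).trans (lintegral_mono_set (μ := volume) hsub1)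
  rw [hinf] at hle
  exact absurd (lt_of_le_of_lt hle hfin2) (lt_irrefl _)

end Pool.Agent.FBM
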