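import Pool.Agent.FBM.StmtA
import Pool.Agent.FBM.A2

/-!
# A7: logarithmic cutoff at one point
-/

open MeasureTheory Set Filter Topology
open scoped Real

namespace Pool.Agent.FBM

namespace ALog

/-- `cos (n (t - p))` -/
noncomputable def cc (p : ℝ) (n : ℕ) (t : ℝ) : ℝ := Real.cos (n * (t - p))

lemma cc_eq (p : ℝ) (n : ℕ) : cc p n = fun t => Real.cos (n * p) * Real.cos (n * t) +
    Real.sin (n * p) * Real.sin (n * t) := by
  funext t
  rw [cc, mul_sub, Real.cos_sub]
  ring

lemma FE_cc (p : ℝ) (n : ℕ) : FE (cc p n) := by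
  rw [cc_eq]
  exact ((FE_cos n).smul _).add ((FE_sin n).smul _)

lemma cont_cc (p : ℝ) (n : ℕ) : Continuous (cc p n) := by
  unfold cc
  fun_prop

lemma integral_cc_int (p : ℝ) (k : ℤ) (hk : k ≠ 0) :
    ∫ t, Real.cos (k * (t - p)) ∂cm = 0 := by
  have h : ∀ t : ℝ, Real.cos (k * (t - p)) = Real.cos (k * p) * Real.cos (k * t) +
      Real.sin (k * p) * Real.sin (k * t) := fun t => by
    rw [mul_sub, Real.cos_sub]
    ring
  simp_rw [h]
  rw [integral_add, integral_const_mul, integral_const_mul, integral_cos_int k hk,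
    integral_sin_int k, mul_zero, mul_zero, add_zero]
  · exact (integrable_bdd (C := 1) (by fun_prop) fun t => Real.abs_cos_le_one _).const_mul _
  · exact (integrable_bdd (C := 1) (by fun_prop) fun t => Real.abs_sin_le_one _).const_mul _

lemma integral_cc_mul (p : ℝ) (m n : ℕ) (hn : n ≠ 0) :
    ∫ t, cc p m t * cc p n t ∂cm = if m = n then π else 0 := by
  have h : ∀ t : ℝ, cc p m t * cc p n t = 1 / 2 * Real.cos (((n : ℤ) - m : ℤ) * (t - p)) +
      1 / 2 * Real.cos (((n : ℤ) + m : ℤ) * (t - p)) := fun t => by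
    unfold cc
    push_cast
    rw [sub_mul, add_mul, Real.cos_sub, Real.cos_add]
    ring
  simp_rw [h]
  rw [integral_add, integral_const_mul, integral_const_mul,
    integral_cc_int p ((n : ℤ) + m) (by omega), mul_zero, add_zero]
  · split_ifs with hmn
    · subst hmn
      have := cm_real_univ
      simp at this ⊢
      rw [this]
      ring
    · rw [integral_cc_int p _ (by omega), mul_zero]
  · exact (integrable_bdd (C := 1) (by fun_prop) fun t => Real.abs_cos_le_one _).const_mul _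
  · exact (integrable_bdd (C := 1) (by fun_prop) fun t => Real.abs_cos_le_one _).const_mul _

lemma en_cc {f : ℝ → ℝ} (hf : FE f) (p : ℝ) (n : ℕ) :
    en f (cc p n) = n * ∫ t, f t * cc p n t ∂cm := by
  rw [cc_eq, en_add_right hf ((FE_cos n).smul _) ((FE_sin n).smul _), en_smul_right,
    en_smul_right, en_cos hf, en_sin hf]
  have h : ∀ t : ℝ, f t * (Real.cos (n * p) * Real.cos (n * t) +
      Real.sin (n * p) * Real.sin (n * t)) = Real.cos (n * p) * (f t * Real.cos (n * t)) +
      Real.sin (n * p) * (f t * Real.sin (n * t)) := fun t => by ring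
  simp_rw [h]
  rw [integral_add ((integrable_mul_cos hf.meas hf.bdd _).const_mul _)
    ((integrable_mul_sin hf.meas hf.bdd _).const_mul _), integral_const_mul, integral_const_mul]
  ring

/-- the logarithmic sum -/
noncomputable def uu (p : ℝ) (N : ℕ) (t : ℝ) : ℝ :=
  ∑ i ∈ Finset.range N, 1 / ((i : ℝ) + 1) * cc p (i + 1) t

/-- the harmonic sum -/
noncomputable def hh (N : ℕ) : ℝ := ∑ i ∈ Finset.range N, 1 / ((i : ℝ) + 1)

lemma uu_succ (p : ℝ) (N : ℕ) :
    uu p (N + 1) = fun t => uu p N t + 1 / ((N : ℝ) + 1) * cc p (N + 1) t := by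
  funext t
  rw [uu, Finset.sum_range_succ, ← uu]

lemma hh_succ (N : ℕ) : hh (N + 1) = hh N + 1 / ((N : ℝ) + 1) := by
  rw [hh, Finset.sum_range_succ, ← hh]

lemma FE_uu (p : ℝ) (N : ℕ) : FE (uu p N) := by
  induction N with
  | zero =>
    have : uu p 0 = fun _ => 0 := by
      funext t
      simp [uu]
    rw [this]
    exact FE.const 0
  | succ N ih =>
    rw [uu_succ]
    exact ih.add ((FE_cc p _).smul _)

lemma cont_uu (p : ℝ) (N : ℕ) : Continuous (uu p N) := by
  unfold uu
  exact continuous_finsetSum _ fun i _ => continuous_const.mul (cont_cc p _)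

lemma integral_uu (p : ℝ) (N n : ℕ) (hn : N < n) : ∫ t, uu p N t * cc p n t ∂cm = 0 := by
  induction N with
  | zero => simp [uu]
  | succ N ih =>
    have h : ∀ t, uu p (N + 1) t * cc p n t = uu p N t * cc p n t +
        1 / ((N : ℝ) + 1) * (cc p (N + 1) t * cc p n t) := fun t => by
      rw [uu_succ]
      ring
    simp_rw [h]
    rw [integral_add, integral_const_mul, ih (by omega), integral_cc_mul p _ _ (by omega),
      if_neg (by omega), mul_zero, add_zero]
    · have h1 := (FE_uu p N).mul (FE_cc p n)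
      obtain ⟨C, hC⟩ := h1.bdd
      exact integrable_bdd h1.meas hC
    · have h1 := (FE_cc p (N + 1)).mul (FE_cc p n)
      obtain ⟨C, hC⟩ := h1.bdd
      exact (integrable_bdd h1.meas hC).const_mul _

lemma en_uu (p : ℝ) (N : ℕ) : en (uu p N) (uu p N) = π * hh N := by
  induction N with
  | zero =>
    have : uu p 0 = fun _ => 0 := by
      funext t
      simp [uu]
    rw [this, en_const_left]
    simp [hh]
  | succ N ih =>
    rw [uu_succ, en_add_self (FE_uu p N) ((FE_cc p _).smul _), ih, en_smul_right, en_smul_right,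
      en_smul_left, en_cc (FE_uu p N), integral_uu p N _ (by omega), en_cc (FE_cc p _),
      integral_cc_mul p _ _ (by omega), if_pos rfl, hh_succ]
    push_cast
    have : (N : ℝ) + 1 ≠ 0 := by positivity
    field_simp
    ring

/-- the Dirichlet sum -/
noncomputable def dd (p : ℝ) (N : ℕ) (t : ℝ) : ℝ := ∑ i ∈ Finset.range N, cc p (i + 1) t

lemma dd_eq (p : ℝ) (N : ℕ) (t : ℝ) : 2 * Real.sin ((t - p) / 2) * dd p N t =
    Real.sin ((N + 1 / 2) * (t - p)) - Real.sin ((t - p) / 2) := by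
  induction N with
  | zero =>
    simp [dd]
    ring_nf
  | succ N ih =>
    rw [dd, Finset.sum_range_succ, ← dd, mul_add, ih, cc]
    push_cast
    have h1 : Real.sin (((N : ℝ) + 1 + 1 / 2) * (t - p)) = Real.sin (((N : ℝ) + 1) * (t - p)) *
        Real.cos ((t - p) / 2) + Real.cos (((N : ℝ) + 1) * (t - p)) * Real.sin ((t - p) / 2) := by
      rw [← Real.sin_add]
      congr 1
      ring
    have h2 : Real.sin (((N : ℝ) + 1 / 2) * (t - p)) = Real.sin (((N : ℝ) + 1) * (t - p)) *
        Real.cos ((t - p) / 2) - Real.cos (((N : ℝ) + 1) * (t - p)) * Real.sin ((t - p) / 2) := by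
      rw [← Real.sin_sub]
      congr 1
      ring
    rw [h1, h2]
    ring

lemma dd_le (p : ℝ) (N : ℕ) (t : ℝ) : |Real.sin ((t - p) / 2)| * |dd p N t| ≤ 1 := by
  rw [← abs_mul]
  have h := dd_eq p N t
  have h1 : Real.sin ((t - p) / 2) * dd p N t =
      (Real.sin ((N + 1 / 2) * (t - p)) - Real.sin ((t - p) / 2)) / 2 := by linarith
  rw [h1, abs_le]
  have h2 := Real.neg_one_le_sin ((N + 1 / 2) * (t - p))
  have h3 := Real.sin_le_one ((N + 1 / 2) * (t - p))
  have h4 := Real.neg_one_le_sin ((t - p) / 2)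
  have h5 := Real.sin_le_one ((t - p) / 2)
  constructor <;> linarith

lemma uu_sub (p : ℝ) (N : ℕ) (t : ℝ) :
    |Real.sin ((t - p) / 2)| * |uu p N t - dd p N t / (N + 1)| ≤ 1 - 1 / ((N : ℝ) + 1) := by
  induction N with
  | zero => simp [uu, dd]
  | succ N ih =>
    have hN : (0 : ℝ) < (N : ℝ) + 1 := by positivity
    have hN2 : (0 : ℝ) < (N : ℝ) + 1 + 1 := by positivity
    have h1 : uu p (N + 1) t - dd p (N + 1) t / ((N + 1 : ℕ) + 1) =
        (uu p N t - dd p N t / (N + 1)) +
          dd p (N + 1) t * (1 / ((N : ℝ) + 1) - 1 / ((N : ℝ) + 1 + 1)) := by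
      have h2 : dd p (N + 1) t = dd p N t + cc p (N + 1) t := by
        rw [dd, Finset.sum_range_succ, ← dd]
      rw [uu_succ, h2]
      push_cast
      field_simp
      ring
    have h3 : 0 ≤ 1 / ((N : ℝ) + 1) - 1 / ((N : ℝ) + 1 + 1) := by
      rw [sub_nonneg]
      exact one_div_le_one_div_of_le hN (by linarith)
    rw [h1]
    have h4 := abs_add_le (uu p N t - dd p N t / (N + 1))
      (dd p (N + 1) t * (1 / ((N : ℝ) + 1) - 1 / ((N : ℝ) + 1 + 1)))
    rw [abs_mul, abs_of_nonneg h3] at h4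
    have h5 := dd_le p (N + 1) t
    have h6 := mul_le_mul_of_nonneg_left h4 (abs_nonneg (Real.sin ((t - p) / 2)))
    have h7 := mul_le_mul_of_nonneg_right h5 h3
    push_cast
    nlinarith

lemma uu_le (p : ℝ) (N : ℕ) (t : ℝ) : |Real.sin ((t - p) / 2)| * |uu p N t| ≤ 1 := by
  have hN : (0 : ℝ) < (N : ℝ) + 1 := by positivity
  have h1 := uu_sub p N t
  have h2 := dd_le p N t
  have h3 : |uu p N t| ≤ |uu p N t - dd p N t / (N + 1)| + |dd p N t| * (1 / ((N : ℝ) + 1)) := by
    have := abs_add_le (uu p N t - dd p N t / (N + 1)) (dd p N t / (N + 1))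
    rw [sub_add_cancel, abs_div, abs_of_pos hN] at this
    rwa [mul_one_div]
  have h4 := mul_le_mul_of_nonneg_left h3 (abs_nonneg (Real.sin ((t - p) / 2)))
  have h5 := mul_le_mul_of_nonneg_right h2 (one_div_pos.2 hN).le
  nlinarith

lemma abs_sin_nat_mul (n : ℕ) (x : ℝ) : |Real.sin (n * x)| ≤ n * |Real.sin x| := by
  induction n with
  | zero => simp
  | succ n ih =>
    push_cast
    rw [add_mul, one_mul, Real.sin_add]
    have h1 := abs_add_le (Real.sin (n * x) * Real.cos x) (Real.cos (n * x) * Real.sin x)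
    rw [abs_mul, abs_mul] at h1
    have h2 := mul_le_mul_of_nonneg_left (Real.abs_cos_le_one x) (abs_nonneg (Real.sin (n * x)))
    have h3 := mul_le_mul_of_nonneg_right (Real.abs_cos_le_one (n * x)) (abs_nonneg (Real.sin x))
    linarith

lemma one_sub_cc (p : ℝ) (n : ℕ) (t : ℝ) :
    1 - cc p n t ≤ 2 * n ^ 2 * Real.sin ((t - p) / 2) ^ 2 := by
  have h1 : cc p n t = 1 - 2 * Real.sin (n * ((t - p) / 2)) ^ 2 := by
    have h2 : (n : ℝ) * (t - p) = 2 * (n * ((t - p) / 2)) := by ring
    rw [cc, h2, Real.cos_two_mul, Real.cos_sq']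
    ring
  have h3 := pow_le_pow_left₀ (abs_nonneg _) (abs_sin_nat_mul n ((t - p) / 2)) 2
  rw [sq_abs, mul_pow, sq_abs] at h3
  rw [h1]
  linarith

lemma uu_ge (p : ℝ) (N : ℕ) (t : ℝ) :
    hh N - 2 * N ^ 2 * Real.sin ((t - p) / 2) ^ 2 ≤ uu p N t := by
  induction N with
  | zero => simp [uu, hh]
  | succ N ih =>
    have hN : (0 : ℝ) < (N : ℝ) + 1 := by positivity
    rw [uu_succ, hh_succ]
    have h1 := one_sub_cc p (N + 1) t
    have h2 := mul_le_mul_of_nonneg_left h1 (one_div_pos.2 hN).le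
    push_cast at h2 ⊢
    have h3 : 1 / ((N : ℝ) + 1) * (2 * ((N : ℝ) + 1) ^ 2 * Real.sin ((t - p) / 2) ^ 2) =
        2 * ((N : ℝ) + 1) * Real.sin ((t - p) / 2) ^ 2 := by
      field_simp
    rw [h3] at h2
    have h4 : 0 ≤ (N : ℝ) * Real.sin ((t - p) / 2) ^ 2 := by positivity
    nlinarith [sq_nonneg (Real.sin ((t - p) / 2))]

/-- the truncation -/
noncomputable def Phi (x : ℝ) : ℝ := 1 - max 0 (min 1 (2 * (x - 1 / 4)))

lemma Phi_lip (x y : ℝ) : |Phi x - Phi y| ≤ 2 * |x - y| := by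
  have h1 : |max 0 (min 1 (2 * (y - 1 / 4))) - max 0 (min 1 (2 * (x - 1 / 4)))| ≤
      |min 1 (2 * (y - 1 / 4)) - min 1 (2 * (x - 1 / 4))| := by
    refine (abs_max_sub_max_le_max _ _ _ _).trans ?_
    rw [sub_self, abs_zero]
    exact max_le (abs_nonneg _) le_rfl
  have h2 : |min 1 (2 * (y - 1 / 4)) - min 1 (2 * (x - 1 / 4))| ≤
      |2 * (y - 1 / 4) - 2 * (x - 1 / 4)| := by
    refine (abs_min_sub_min_le_max _ _ _ _).trans ?_
    rw [sub_self, abs_zero]
    exact max_le (abs_nonneg _) le_rfl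
  have h3 : |2 * (y - 1 / 4) - 2 * (x - 1 / 4)| = 2 * |x - y| := by
    have : 2 * (y - 1 / 4) - 2 * (x - 1 / 4) = 2 * (y - x) := by ring
    rw [this, abs_mul, abs_of_pos (by norm_num : (0 : ℝ) < 2), abs_sub_comm]
  have h4 : Phi x - Phi y = max 0 (min 1 (2 * (y - 1 / 4))) - max 0 (min 1 (2 * (x - 1 / 4))) := by
    unfold Phi
    ring
  rw [h4]
  linarith

end ALog

open ALog

theorem t_A_log : Stmt_A_log := by
  intro p δ ε hδ hε
  have htend : Tendsto (fun n : ℕ => ∑ i ∈ Finset.range n, (1 / (i + 1 : ℝ))) atTop atTop :=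
    Real.tendsto_sum_range_one_div_nat_succ_atTop
  obtain ⟨N, hN⟩ := (htend.eventually_ge_atTop (max 1 (max (4 * π / ε) (4 / δ)))).exists
  change max 1 (max (4 * π / ε) (4 / δ)) ≤ hh N at hN
  have h1 : 1 ≤ hh N := (le_max_left _ _).trans hN
  have h2 : 4 * π / ε ≤ hh N := (le_max_left _ _).trans ((le_max_right _ _).trans hN)
  have h3 : 4 / δ ≤ hh N := (le_max_right _ _).trans ((le_max_right _ _).trans hN)
  have h0 : 0 < hh N := by linarith
  have hN0 : 0 < N := by
    rcases Nat.eq_zero_or_pos N with h | h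
    · subst h
      simp [hh] at h1
      linarith
    · exact h
  have hN1 : (1 : ℝ) ≤ N := by exact_mod_cast hN0
  have hw : FE (fun t => 1 / hh N * uu p N t) := (FE_uu p N).smul _
  refine ⟨fun t => Phi (1 / hh N * uu p N t), hw.lip Phi_lip, ?_, ?_, ?_, ?_, ?_⟩
  · have hP : Continuous Phi := by
      unfold Phi
      fun_prop
    exact hP.comp (continuous_const.mul (cont_uu p N))
  · intro t
    unfold Phi
    constructor
    · have : max 0 (min 1 (2 * (1 / hh N * uu p N t - 1 / 4))) ≤ 1 :=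
        max_le zero_le_one (min_le_left _ _)
      linarith
    · have : 0 ≤ max 0 (min 1 (2 * (1 / hh N * uu p N t - 1 / 4))) := le_max_left _ _
      linarith
  · have h4 := en_mono (f := fun t => Phi (1 / hh N * uu p N t)) (hw.smul 2) fun s t => by
      have h5 := Phi_lip (1 / hh N * uu p N s) (1 / hh N * uu p N t)
      have h6 := pow_le_pow_left₀ (abs_nonneg _) h5 2
      rw [sq_abs, mul_pow, sq_abs] at h6
      nlinarith
    refine h4.trans ?_
    rw [en_smul_right, en_smul_left, en_smul_right, en_smul_left, en_uu]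
    have h5 : 2 * (2 * (1 / hh N * (1 / hh N * (π * hh N)))) = 4 * π / hh N := by
      field_simp
      ring
    rw [h5, div_le_iff₀ h0]
    rw [div_le_iff₀ hε] at h2
    linarith
  · refine ⟨1 / (4 * N), by positivity, fun t ht => ?_⟩
    have h4 := uu_ge p N t
    have h5 : Real.sin ((t - p) / 2) ^ 2 ≤ (1 / (4 * N)) ^ 2 := by
      rw [← sq_abs]
      exact pow_le_pow_left₀ (abs_nonneg _) ht.le 2
    have h6 : 2 * (N : ℝ) ^ 2 * Real.sin ((t - p) / 2) ^ 2 ≤ 1 / 8 := by
      have h7 := mul_le_mul_of_nonneg_left h5 (by positivity : 0 ≤ 2 * (N : ℝ) ^ 2)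
      have h8 : 2 * (N : ℝ) ^ 2 * (1 / (4 * N)) ^ 2 = 1 / 8 := by
        field_simp
        ring
      linarith
    have h7 : 3 / 4 ≤ 1 / hh N * uu p N t := by
      rw [one_div_mul_eq_div, le_div_iff₀ h0]
      linarith
    change 1 - max 0 (min 1 (2 * (1 / hh N * uu p N t - 1 / 4))) = 0
    rw [min_eq_left (by linarith), max_eq_right zero_le_one, sub_self]
  · intro t ht
    have h4 := uu_le p N t
    have h5 : δ * |uu p N t| ≤ 1 :=
      (mul_le_mul_of_nonneg_right ht (abs_nonneg _)).trans h4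
    have h6 : uu p N t ≤ |uu p N t| := le_abs_self _
    have h7 : 1 / hh N * uu p N t ≤ 1 / 4 := by
      rw [one_div_mul_eq_div, div_le_iff₀ h0]
      rw [div_le_iff₀ hδ] at h3
      nlinarith
    change 1 - max 0 (min 1 (2 * (1 / hh N * uu p N t - 1 / 4))) = 1
    rw [min_eq_right (by linarith), max_eq_left (by linarith), sub_zero]

end Pool.Agent.FBM
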