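import Pool.Agent.FBM.StmtA
import Pool.Agent.FBM.A5

open MeasureTheory Set Filter Topology
open scoped Real

namespace Pool.Agent.FBM

theorem t_A_fatou_60 : Stmt_A_fatou := fun _ _ _ hf hK hm hp hb hlim => fatou hf hm hp hb hK hlim

theorem t_A_rellich : Stmt_A_rellich := by
  intro f C K hf hC hK
  obtain ⟨φ, hφ, g, h1, h2, h3, h4⟩ := rellich hf hC hK
  exact ⟨φ, g, hφ, h1, h2, h3, h4⟩

end Pool.Agent.FBM
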