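import Pool.Agent.FBM.StmtA

/-!
# FBM, A9-A12: roots of sums of squares, products, disjoint supports, zero energy
-/

open MeasureTheory Set Filter Topology
open scoped Real

namespace Pool.Agent.FBM

namespace ASqrt

lemma sqrt_pt (a b c d : ℝ) :
    (Real.sqrt (a ^ 2 + b ^ 2) - Real.sqrt (c ^ 2 + d ^ 2)) ^ 2 ≤ (a - c) ^ 2 + (b - d) ^ 2 := by
  have h1 : Real.sqrt (a ^ 2 + b ^ 2) ^ 2 = a ^ 2 + b ^ 2 := Real.sq_sqrt (by positivity)
  have h2 : Real.sqrt (c ^ 2 + d ^ 2) ^ 2 = c ^ 2 + d ^ 2 := Real.sq_sqrt (by positivity)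
  have h3 : a * c + b * d ≤ Real.sqrt (a ^ 2 + b ^ 2) * Real.sqrt (c ^ 2 + d ^ 2) := by
    rw [← Real.sqrt_mul (by positivity)]
    apply Real.le_sqrt_of_sq_le
    nlinarith [sq_nonneg (a * d - b * c)]
  nlinarith

lemma ae_sin : ∀ᵐ p : ℝ × ℝ ∂cm2, Real.sin ((p.1 - p.2) / 2) ≠ 0 := by
  have hm : MeasurableSet {p : ℝ × ℝ | Real.sin ((p.1 - p.2) / 2) = 0} := by
    have : Measurable (fun p : ℝ × ℝ => Real.sin ((p.1 - p.2) / 2)) := by fun_prop
    exact this (measurableSet_singleton 0)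
  have h0 : cm2 {p : ℝ × ℝ | Real.sin ((p.1 - p.2) / 2) = 0} = 0 := by
    unfold cm2
    rw [Measure.measure_prod_null hm]
    refine Eventually.of_forall fun x => ?_
    have hc : (Prod.mk x ⁻¹' {p : ℝ × ℝ | Real.sin ((p.1 - p.2) / 2) = 0}).Countable := by
      refine (Set.countable_range (fun n : ℤ => x - 2 * (n * π))).mono ?_
      intro t ht
      have ht' : Real.sin ((x - t) / 2) = 0 := ht
      rw [Real.sin_eq_zero_iff] at ht'
      obtain ⟨n, hn⟩ := ht'
      exact ⟨n, by simp only; linarith⟩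
    have hv : volume (Prod.mk x ⁻¹' {p : ℝ × ℝ | Real.sin ((p.1 - p.2) / 2) = 0}) = 0 :=
      hc.measure_zero volume
    exact le_antisymm ((Measure.restrict_apply_le _ _).trans hv.le) bot_le
  rw [ae_iff]
  simpa using h0

lemma cm_ne : cm ≠ 0 := by
  intro h
  have := cm_univ
  rw [h] at this
  have hp : (0 : ℝ) < 2 * π := by positivity
  simp at this
  linarith

lemma prod_pt (a b c d l : ℝ) (hl : 0 < l) (ha : |a| ≤ 1) (hb : |b| ≤ 1) (hc : |c| ≤ 1)
    (hd : |d| ≤ 1) :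
    (a * c - b * d) ^ 2 ≤ (1 + l) * (a - b) ^ 2 + (1 + 1 / l) * (c - d) ^ 2 := by
  have e : a * c - b * d = (a + b) / 2 * (c - d) + (c + d) / 2 * (a - b) := by ring
  have h1 : ((a + b) / 2) ^ 2 ≤ 1 := by
    rw [sq_le_one_iff_abs_le_one]
    rw [abs_le] at *
    constructor <;> linarith [ha.1, ha.2, hb.1, hb.2]
  have h2 : ((c + d) / 2) ^ 2 ≤ 1 := by
    rw [sq_le_one_iff_abs_le_one]
    rw [abs_le] at *
    constructor <;> linarith [hc.1, hc.2, hd.1, hd.2]
  have key : ∀ x y : ℝ, (x + y) ^ 2 ≤ (1 + 1 / l) * x ^ 2 + (1 + l) * y ^ 2 := by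
    intro x y
    have h3 : 0 ≤ (x - l * y) ^ 2 / l := by positivity
    have h4 : (x - l * y) ^ 2 / l = 1 / l * x ^ 2 - 2 * x * y + l * y ^ 2 := by
      field_simp
      ring
    nlinarith
  have k := key ((a + b) / 2 * (c - d)) ((c + d) / 2 * (a - b))
  rw [e]
  have h5 : ((a + b) / 2 * (c - d)) ^ 2 ≤ (c - d) ^ 2 := by
    rw [mul_pow]; nlinarith [sq_nonneg (c - d)]
  have h6 : ((c + d) / 2 * (a - b)) ^ 2 ≤ (a - b) ^ 2 := by
    rw [mul_pow]; nlinarith [sq_nonneg (a - b)]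
  have h7 : 0 ≤ 1 + 1 / l := by positivity
  have h8 : 0 ≤ 1 + l := by positivity
  have h9 := mul_le_mul_of_nonneg_left h5 h7
  have h10 := mul_le_mul_of_nonneg_left h6 h8
  linarith

/-- comparison with a linear combination of two energies -/
lemma en_le {f u v : ℝ → ℝ} (hu : FE u) (hv : FE v) (A B : ℝ)
    (h : ∀ s t, (f s - f t) ^ 2 ≤ A * (u s - u t) ^ 2 + B * (v s - v t) ^ 2) :
    en f f ≤ A * en u u + B * en v v := by
  have e : A * en u u + B * en v v = (1 / (2 * π)) * ∫ p : ℝ × ℝ,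
      (A * (J p.1 p.2 * ((u p.1 - u p.2) * (u p.1 - u p.2)))
        + B * (J p.1 p.2 * ((v p.1 - v p.2) * (v p.1 - v p.2)))) ∂cm2 := by
    unfold en
    rw [integral_add ((hu.int hu).const_mul A) ((hv.int hv).const_mul B), integral_const_mul,
      integral_const_mul]
    ring
  rw [e]
  unfold en
  refine mul_le_mul_of_nonneg_left ?_ (by positivity)
  refine integral_mono_of_nonneg (Eventually.of_forall fun p =>
    mul_nonneg (J_nonneg _ _) (mul_self_nonneg _))
    (((hu.int hu).const_mul A).add ((hv.int hv).const_mul B)) (Eventually.of_forall fun p => ?_)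
  have h1 := mul_le_mul_of_nonneg_left (h p.1 p.2) (J_nonneg p.1 p.2)
  simp only
  nlinarith [h1]

end ASqrt

open ASqrt

theorem t_A_sqrt : Stmt_A_sqrt := by
  intro u w hu hw
  constructor
  · obtain ⟨C, hC⟩ := hu.bdd
    obtain ⟨D, hD⟩ := hw.bdd
    refine FE.of_le ?_ (fun t => ?_) ⟨Real.sqrt (C ^ 2 + D ^ 2), fun t => ?_⟩ hu hw 1 fun s t => ?_
    · exact ((hu.meas.pow_const 2).add (hw.meas.pow_const 2)).sqrt
    · simp only [hu.per t, hw.per t]
    · rw [abs_of_nonneg (Real.sqrt_nonneg _)]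
      apply Real.sqrt_le_sqrt
      have h1 : u t ^ 2 ≤ C ^ 2 := by
        rw [← sq_abs]; exact pow_le_pow_left₀ (abs_nonneg _) (hC t) 2
      have h2 : w t ^ 2 ≤ D ^ 2 := by
        rw [← sq_abs]; exact pow_le_pow_left₀ (abs_nonneg _) (hD t) 2
      linarith
    · rw [one_mul]
      exact sqrt_pt _ _ _ _
  · have := en_le (f := fun t => Real.sqrt (u t ^ 2 + w t ^ 2)) hu hw 1 1
      (fun s t => by rw [one_mul, one_mul]; exact sqrt_pt _ _ _ _)
    linarith

theorem t_A_prod : Stmt_A_prod := by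
  intro u v hu hv hbu hbv
  set a := Real.sqrt (en u u) with ha
  set b := Real.sqrt (en v v) with hb
  have ha0 : 0 ≤ a := Real.sqrt_nonneg _
  have hb0 : 0 ≤ b := Real.sqrt_nonneg _
  have ha2 : en u u = a ^ 2 := (Real.sq_sqrt (en_self_nonneg u)).symm
  have hb2 : en v v = b ^ 2 := (Real.sq_sqrt (en_self_nonneg v)).symm
  have key : ∀ l : ℝ, 0 < l →
      en (fun t => u t * v t) (fun t => u t * v t) ≤ (1 + l) * a ^ 2 + (1 + 1 / l) * b ^ 2 := by
    intro l hl
    rw [← ha2, ← hb2]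
    exact en_le (f := fun t => u t * v t) hu hv _ _
      (fun s t => prod_pt _ _ _ _ l hl (hbu s) (hbu t) (hbv s) (hbv t))
  refine le_of_forall_pos_le_add fun ε hε => ?_
  have hd : 0 < ε / (a + b + 1) := by positivity
  set δ := ε / (a + b + 1) with hδ
  have h1 := key ((b + δ) / (a + δ)) (by positivity)
  have e1 : (b + δ) / (a + δ) * a ^ 2 ≤ a * (b + δ) := by
    rw [div_mul_eq_mul_div, div_le_iff₀ (by positivity)]
    nlinarith [mul_nonneg (mul_nonneg ha0 hd.le) (add_nonneg hb0 hd.le)]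
  have e2 : 1 / ((b + δ) / (a + δ)) * b ^ 2 ≤ b * (a + δ) := by
    rw [one_div_div, div_mul_eq_mul_div, div_le_iff₀ (by positivity)]
    nlinarith [mul_nonneg (mul_nonneg hb0 hd.le) (add_nonneg ha0 hd.le)]
  have e3 : δ * (a + b) ≤ ε := by
    rw [hδ, div_mul_eq_mul_div, div_le_iff₀ (by positivity)]
    nlinarith
  nlinarith

theorem t_A_disj : Stmt_A_disj := by
  intro f g hf hg hfg h0f h0g
  have e : ∀ p : ℝ × ℝ, J p.1 p.2 * ((f p.1 - f p.2) * (g p.1 - g p.2))
      = -(J p.1 p.2 * (f p.1 * g p.2) + J p.1 p.2 * (f p.2 * g p.1)) := by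
    intro p
    have h1 := hfg p.1
    have h2 := hfg p.2
    have : (f p.1 - f p.2) * (g p.1 - g p.2) = -(f p.1 * g p.2 + f p.2 * g p.1) := by
      linear_combination h1 + h2
    rw [this]; ring
  have hint := hf.int hg
  have hI : Integrable (fun p : ℝ × ℝ => J p.1 p.2 * (f p.1 * g p.2)) cm2 := by
    refine hint.neg.mono' ?_ ?_
    · exact (measurable_J.mul ((hf.meas.comp measurable_fst).mul
        (hg.meas.comp measurable_snd))).aestronglyMeasurable
    · refine Eventually.of_forall fun p => ?_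
      have a1 : 0 ≤ J p.1 p.2 * (f p.1 * g p.2) :=
        mul_nonneg (J_nonneg _ _) (mul_nonneg (h0f _) (h0g _))
      have a2 : 0 ≤ J p.1 p.2 * (f p.2 * g p.1) :=
        mul_nonneg (J_nonneg _ _) (mul_nonneg (h0f _) (h0g _))
      rw [Real.norm_eq_abs, abs_of_nonneg a1]
      simp only [Pi.neg_apply, e p]
      linarith
  refine ⟨hI, ?_⟩
  have hI' : Integrable (fun p : ℝ × ℝ => J p.1 p.2 * (f p.2 * g p.1)) cm2 := by
    have := integrable_cm2_swap hI
    refine this.congr (Eventually.of_forall fun p => ?_)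
    simp only
    rw [J_symm p.2 p.1]
  have hsw : ∫ p : ℝ × ℝ, J p.1 p.2 * (f p.2 * g p.1) ∂cm2
      = ∫ p : ℝ × ℝ, J p.1 p.2 * (f p.1 * g p.2) ∂cm2 := by
    rw [← integral_cm2_swap (fun p : ℝ × ℝ => J p.1 p.2 * (f p.1 * g p.2))]
    refine integral_congr_ae (Eventually.of_forall fun p => ?_)
    simp only
    rw [J_symm p.2 p.1]
  unfold en
  simp only [e]
  rw [integral_neg, integral_add hI hI', hsw]
  field_simp
  ring

theorem t_A_const : Stmt_A_const := by
  intro f hf h0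
  have hi := hf.int hf
  have hz : ∫ p : ℝ × ℝ, J p.1 p.2 * ((f p.1 - f p.2) * (f p.1 - f p.2)) ∂cm2 = 0 := by
    unfold en at h0
    have hp : (1 / (2 * π) : ℝ) ≠ 0 := by positivity
    exact (mul_eq_zero.mp h0).resolve_left hp
  rw [integral_eq_zero_iff_of_nonneg (fun p =>
    mul_nonneg (J_nonneg _ _) (mul_self_nonneg _)) hi] at hz
  have hae : ∀ᵐ p : ℝ × ℝ ∂cm2, f p.1 = f p.2 := by
    filter_upwards [hz, ae_sin] with p h1 h2
    have h3 := J_ge h2
    have h4 : J p.1 p.2 * ((f p.1 - f p.2) * (f p.1 - f p.2)) = 0 := h1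
    have h5 : (f p.1 - f p.2) * (f p.1 - f p.2) = 0 := by
      rcases mul_eq_zero.mp h4 with h | h
      · linarith
      · exact h
    have h6 := mul_self_eq_zero.mp h5
    linarith
  have h2 : ∀ᵐ s ∂cm, ∀ᵐ t ∂cm, f s = f t := Measure.ae_ae_of_ae_prod hae
  have : NeBot (ae cm) := ae_neBot.mpr cm_ne
  obtain ⟨s, hs⟩ := h2.exists
  exact ⟨f s, hs.mono fun t ht => ht.symm⟩

end Pool.Agent.FBM
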