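import Pool.Agent.FBM.StmtA

/-!
# FBM, A14: boolean operations on tame sets, and sets given by arcs (helper92)
-/

open MeasureTheory Set Filter Topology
open scoped Real

namespace Pool.Agent.FBM

namespace ATame

/-- membership in `S` is eventually constant along the filter `l` -/
def Ev (l : Filter ℝ) (S : Set ℝ) : Prop := (∀ᶠ s in l, s ∈ S) ∨ (∀ᶠ s in l, s ∉ S)

lemma Ev.compl {l : Filter ℝ} {S : Set ℝ} (h : Ev l S) : Ev l Sᶜ := by
  rcases h with h | h
  · right; filter_upwards [h] with s hs; simpa using hs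
  · left; filter_upwards [h] with s hs; simpa using hs

lemma Ev.union {l : Filter ℝ} {S T : Set ℝ} (h : Ev l S) (h' : Ev l T) : Ev l (S ∪ T) := by
  rcases h with h | h
  · left; filter_upwards [h] with s hs; exact Or.inl hs
  · rcases h' with h' | h'
    · left; filter_upwards [h'] with s hs; exact Or.inr hs
    · right; filter_upwards [h, h'] with s hs hs'; simp [hs, hs']

lemma Ev.inter {l : Filter ℝ} {S T : Set ℝ} (h : Ev l S) (h' : Ev l T) : Ev l (S ∩ T) := by
  have := (h.compl.union h'.compl).compl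
  rwa [← Set.compl_inter, compl_compl] at this

lemma Ev.empty (l : Filter ℝ) : Ev l ∅ := by right; simp

lemma Ev.congr {l : Filter ℝ} {S T : Set ℝ} (h : Ev l S) (h' : ∀ᶠ s in l, (s ∈ S ↔ s ∈ T)) :
    Ev l T := by
  rcases h with h | h
  · left; filter_upwards [h, h'] with s hs hs'; exact hs'.1 hs
  · right; filter_upwards [h, h'] with s hs hs'; exact fun h0 => hs (hs'.2 h0)

lemma Ev.biUnion {ι : Type*} {l : Filter ℝ} {S : ι → Set ℝ} (F : Finset ι)
    (h : ∀ i ∈ F, Ev l (S i)) : Ev l (⋃ i ∈ F, S i) := by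
  classical
  induction F using Finset.induction_on with
  | empty => simpa using Ev.empty l
  | insert a F ha ih =>
    rw [Finset.set_biUnion_insert]
    exact (h a (Finset.mem_insert_self a F)).union
      (ih fun i hi => h i (Finset.mem_insert_of_mem hi))

lemma tame_compl {S : Set ℝ} (h : Tame S) : Tame Sᶜ where
  meas := h.meas.compl
  per t := by simpa using not_congr (h.per t)
  right t := Ev.compl (h.right t)
  left t := Ev.compl (h.left t)

lemma tame_union {S T : Set ℝ} (h : Tame S) (h' : Tame T) : Tame (S ∪ T) where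
  meas := h.meas.union h'.meas
  per t := by simp only [mem_union, h.per t, h'.per t]
  right t := Ev.union (h.right t) (h'.right t)
  left t := Ev.union (h.left t) (h'.left t)

lemma tame_inter {S T : Set ℝ} (h : Tame S) (h' : Tame T) : Tame (S ∩ T) := by
  have := tame_compl (tame_union (tame_compl h) (tame_compl h'))
  rwa [← Set.compl_inter, compl_compl] at this

lemma tame_diff {S T : Set ℝ} (h : Tame S) (h' : Tame T) : Tame (S \ T) := by
  rw [Set.diff_eq]; exact tame_inter h (tame_compl h')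

lemma ev_right_Icc (a b t : ℝ) : Ev (𝓝[>] t) (Icc a b) := by
  rcases lt_or_ge t a with h | h
  · right
    filter_upwards [Ioo_mem_nhdsGT h] with s hs hs'
    exact absurd hs'.1 (not_le.2 hs.2)
  · rcases lt_or_ge t b with h' | h'
    · left
      filter_upwards [Ioo_mem_nhdsGT h'] with s hs
      exact ⟨(h.trans hs.1.le), hs.2.le⟩
    · right
      filter_upwards [self_mem_nhdsWithin] with s hs hs'
      exact absurd hs'.2 (not_le.2 (lt_of_le_of_lt h' hs))

lemma ev_left_Icc (a b t : ℝ) : Ev (𝓝[<] t) (Icc a b) := by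
  rcases lt_or_ge b t with h | h
  · right
    filter_upwards [Ioo_mem_nhdsLT h] with s hs hs'
    exact absurd hs'.2 (not_le.2 hs.1)
  · rcases lt_or_ge a t with h' | h'
    · left
      filter_upwards [Ioo_mem_nhdsLT h'] with s hs
      exact ⟨hs.1.le, (hs.2.le.trans h)⟩
    · right
      filter_upwards [self_mem_nhdsWithin] with s hs hs'
      exact absurd hs'.1 (not_le.2 (lt_of_lt_of_le hs h'))

lemma ev_right_Ioo (a b t : ℝ) : Ev (𝓝[>] t) (Ioo a b) := by
  rcases lt_or_ge t a with h | h
  · right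
    filter_upwards [Ioo_mem_nhdsGT h] with s hs hs'
    exact absurd hs'.1 (not_lt.2 hs.2.le)
  · rcases lt_or_ge t b with h' | h'
    · left
      filter_upwards [Ioo_mem_nhdsGT h'] with s hs
      exact ⟨lt_of_le_of_lt h hs.1, hs.2⟩
    · right
      filter_upwards [self_mem_nhdsWithin] with s hs hs'
      exact absurd hs'.2 (not_lt.2 (lt_of_le_of_lt h' hs).le)

lemma ev_left_Ioo (a b t : ℝ) : Ev (𝓝[<] t) (Ioo a b) := by
  rcases lt_or_ge b t with h | h
  · right
    filter_upwards [Ioo_mem_nhdsLT h] with s hs hs'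
    exact absurd hs'.2 (not_lt.2 hs.1.le)
  · rcases lt_or_ge a t with h' | h'
    · left
      filter_upwards [Ioo_mem_nhdsLT h'] with s hs
      exact ⟨hs.1, lt_of_lt_of_le hs.2 h⟩
    · right
      filter_upwards [self_mem_nhdsWithin] with s hs hs'
      exact absurd hs'.1 (not_lt.2 (lt_of_lt_of_le hs h').le)

lemma measurable_pe {S : Set ℝ} (h : MeasurableSet S) : MeasurableSet (pe S) := by
  have : pe S = ⋃ n : ℤ, (fun t : ℝ => t + n * (2 * π)) ⁻¹' S := by
    ext t; simp [pe]
  rw [this]
  exact MeasurableSet.iUnion fun n => (measurable_id.add_const _) h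

lemma per_pe (S : Set ℝ) (t : ℝ) : t + 2 * π ∈ pe S ↔ t ∈ pe S := by
  constructor
  · rintro ⟨n, hn⟩
    refine ⟨n + 1, ?_⟩
    have : t + ((n + 1 : ℤ) : ℝ) * (2 * π) = t + 2 * π + n * (2 * π) := by push_cast; ring
    rw [this]; exact hn
  · rintro ⟨n, hn⟩
    refine ⟨n - 1, ?_⟩
    have : t + 2 * π + ((n - 1 : ℤ) : ℝ) * (2 * π) = t + n * (2 * π) := by push_cast; ring
    rw [this]; exact hn

/-- only finitely many translates matter locally -/
lemma ev_pe {S : Set ℝ} {a b : ℝ} (hS : S ⊆ Icc a b) (t : ℝ) {l : Filter ℝ} (hl : l ≤ 𝓝 t)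
    (h : ∀ n : ℤ, Ev l {s | s + n * (2 * π) ∈ S}) : Ev l (pe S) := by
  have hpi : (0 : ℝ) < 2 * π := by positivity
  set N : ℤ := ⌈(|a| + |b| + |t| + 1) / (2 * π)⌉ with hN
  have hN1 : (|a| + |b| + |t| + 1) ≤ N * (2 * π) := by
    have := Int.le_ceil ((|a| + |b| + |t| + 1) / (2 * π))
    rw [div_le_iff₀ hpi] at this
    exact this
  have hfin : Ev l (⋃ n ∈ Finset.Icc (-N) N, {s : ℝ | s + (n : ℤ) * (2 * π) ∈ S}) :=
    Ev.biUnion _ fun n _ => h n
  refine hfin.congr ?_
  have hnear : ∀ᶠ s in l, |s - t| < 1 := by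
    apply hl
    filter_upwards [Metric.ball_mem_nhds t one_pos] with s hs
    simpa [Real.dist_eq] using hs
  filter_upwards [hnear] with s hs
  simp only [mem_iUnion, mem_setOf_eq, pe, Finset.mem_Icc, exists_prop]
  constructor
  · rintro ⟨n, -, hn⟩
    exact ⟨n, hn⟩
  · rintro ⟨n, hn⟩
    refine ⟨n, ?_, hn⟩
    obtain ⟨h1, h2⟩ := hS hn
    have ha := neg_abs_le a
    have hb := le_abs_self b
    have ht := neg_abs_le t
    have ht' := le_abs_self t
    have hb' := abs_nonneg b
    have ha' := abs_nonneg a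
    obtain ⟨hs1, hs2⟩ := abs_lt.1 hs
    constructor
    · by_contra hc
      push Not at hc
      have hc' : (n : ℝ) < -N := by exact_mod_cast hc
      nlinarith
    · by_contra hc
      push Not at hc
      have hc' : (N : ℝ) < n := by exact_mod_cast hc
      nlinarith

lemma shift_Icc (a b c : ℝ) : {s : ℝ | s + c ∈ Icc a b} = Icc (a - c) (b - c) := by
  ext s; simp only [mem_setOf_eq, mem_Icc]; constructor <;> rintro ⟨h1, h2⟩ <;> constructor <;> linarith

lemma shift_Ioo (a b c : ℝ) : {s : ℝ | s + c ∈ Ioo a b} = Ioo (a - c) (b - c) := by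
  ext s; simp only [mem_setOf_eq, mem_Ioo]; constructor <;> rintro ⟨h1, h2⟩ <;> constructor <;> linarith

lemma tame_pe_Icc (a b : ℝ) : Tame (pe (Icc a b)) where
  meas := measurable_pe measurableSet_Icc
  per := per_pe _
  right t := ev_pe (subset_refl _) t nhdsWithin_le_nhds fun n => by
    rw [shift_Icc]; exact ev_right_Icc _ _ _
  left t := ev_pe (subset_refl _) t nhdsWithin_le_nhds fun n => by
    rw [shift_Icc]; exact ev_left_Icc _ _ _

lemma tame_pe_Ioo (a b : ℝ) : Tame (pe (Ioo a b)) where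
  meas := measurable_pe measurableSet_Ioo
  per := per_pe _
  right t := ev_pe Ioo_subset_Icc_self t nhdsWithin_le_nhds fun n => by
    rw [shift_Ioo]; exact ev_right_Ioo _ _ _
  left t := ev_pe Ioo_subset_Icc_self t nhdsWithin_le_nhds fun n => by
    rw [shift_Ioo]; exact ev_left_Ioo _ _ _

end ATame

open ATame in
theorem t_A_tame : Stmt_A_tame := by
  refine ⟨fun S T hS hT => ⟨tame_union hS hT, tame_inter hS hT, tame_diff hS hT, tame_compl hS⟩,
    fun a b => ⟨tame_pe_Icc a b, tame_pe_Ioo a b⟩⟩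

end Pool.Agent.FBM
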