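import Pool.Agent.FBM.StmtA
import Pool.Agent.FBM.A5

/-!
# FBM, module A_WEAK: lower semicontinuity and weak continuity of the Douglas form
-/

open MeasureTheory Set Filter Topology
open scoped Real

namespace Pool.Agent.FBM

theorem t_A_fatou : Stmt_A_fatou := fun _ _ _ hf hK hm hp hb hlim => fatou hf hm hp hb hK hlim

namespace AWeak

lemma en_sub_self_le {f g : ℝ → ℝ} (hf : FE f) (hg : FE g) :
    en (fun t => f t - g t) (fun t => f t - g t) ≤ 2 * (en f f + en g g) := by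
  have h1 := en_add_self hf hg
  have h2 := en_self_nonneg (fun t => f t + g t)
  have h3 : en (fun t => f t - g t) (fun t => f t - g t) = en f f - 2 * en f g + en g g := by
    rw [en_sub_left hf hg (hf.sub hg), en_sub_right hf hf hg, en_sub_right hg hf hg, en_comm g f]
    ring
  linarith

lemma int_sq {f : ℝ → ℝ} : ∫ p, J p.1 p.2 * (f p.1 - f p.2) ^ 2 ∂cm2 = 2 * π * en f f := by
  unfold en
  have h1 : ∀ p : ℝ × ℝ, J p.1 p.2 * ((f p.1 - f p.2) * (f p.1 - f p.2)) =
      J p.1 p.2 * (f p.1 - f p.2) ^ 2 := fun p => by ring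
  simp only [h1]
  have := Real.pi_ne_zero
  field_simp

/-- the tail of the energy on the set where the kernel is large -/
lemma tail {h : ℝ → ℝ} (hh : FE h) {ε : ℝ} (hε : 0 < ε) :
    ∃ n : ℕ, ∫ p in {p : ℝ × ℝ | (n : ℝ) < J p.1 p.2}, J p.1 p.2 * (h p.1 - h p.2) ^ 2 ∂cm2 < ε := by
  have h1 : Tendsto (fun n : ℕ => ∫ p in {p : ℝ × ℝ | (n : ℝ) < J p.1 p.2},
      J p.1 p.2 * (h p.1 - h p.2) ^ 2 ∂cm2) atTop
      (𝓝 (∫ p in ⋂ n : ℕ, {p : ℝ × ℝ | (n : ℝ) < J p.1 p.2},
        J p.1 p.2 * (h p.1 - h p.2) ^ 2 ∂cm2)) := by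
    refine tendsto_setIntegral_of_antitone (fun n => ?_) (fun m n hmn p hp => ?_)
      ⟨0, hh.fin.integrableOn⟩
    · exact measurableSet_lt measurable_const measurable_J
    · have : (m : ℝ) ≤ n := by exact_mod_cast hmn
      exact lt_of_le_of_lt this hp
  have h2 : (⋂ n : ℕ, {p : ℝ × ℝ | (n : ℝ) < J p.1 p.2}) = ∅ := by
    refine Set.eq_empty_of_forall_notMem fun p hp => ?_
    obtain ⟨n, hn⟩ := exists_nat_gt (J p.1 p.2)
    have := mem_iInter.1 hp n
    simp only [mem_setOf_eq] at this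
    linarith
  rw [h2, Measure.restrict_empty, integral_zero_measure] at h1
  exact (h1.eventually (gt_mem_nhds hε)).exists

/-- the form tends to zero along bounded sequences converging to zero a.e. -/
lemma weak0 {u : ℕ → ℝ → ℝ} {C K : ℝ} (hu : ∀ k, FE (u k)) (hC : ∀ k t, |u k t| ≤ C)
    (hK : ∀ k, en (u k) (u k) ≤ K) (hlim : ∀ᵐ t ∂cm, Tendsto (fun k => u k t) atTop (𝓝 0))
    {h : ℝ → ℝ} (hh : FE h) :
    Tendsto (fun k => ∫ p, J p.1 p.2 * ((u k p.1 - u k p.2) * (h p.1 - h p.2)) ∂cm2) atTop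
      (𝓝 0) := by
  obtain ⟨D, hD⟩ := hh.bdd
  have hK0 : 0 ≤ K := (en_self_nonneg _).trans (hK 0)
  have hC0 : 0 ≤ C := (abs_nonneg _).trans (hC 0 0)
  have hD0 : 0 ≤ D := (abs_nonneg _).trans (hD 0)
  rw [Metric.tendsto_atTop]
  intro ε hε
  have hpi := Real.pi_pos
  obtain ⟨η, hη, hηe⟩ : ∃ η : ℝ, 0 < η ∧ η / 2 * (2 * π * K) ≤ ε / 4 := by
    refine ⟨ε / (2 * (2 * π * K + 1)), by positivity, ?_⟩
    rw [div_div, div_mul_eq_mul_div, div_le_div_iff₀ (by positivity) (by positivity)]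
    have : 0 ≤ π * K := by positivity
    nlinarith
  obtain ⟨n, hn⟩ := tail hh (ε := ε / 4 * (2 * η)) (by positivity)
  set A : Set (ℝ × ℝ) := {p : ℝ × ℝ | (n : ℝ) < J p.1 p.2} with hA
  have hAm : MeasurableSet A := measurableSet_lt measurable_const measurable_J
  have hG : Tendsto (fun k => ∫ p in Aᶜ, J p.1 p.2 * ((u k p.1 - u k p.2) * (h p.1 - h p.2)) ∂cm2)
      atTop (𝓝 (∫ p in Aᶜ, (0 : ℝ) ∂cm2)) := by
    refine tendsto_integral_of_dominated_convergence (fun _ => n * ((2 * C) * (2 * D)))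
      (fun k => ?_) (integrable_const _) (fun k => ?_) ?_
    · exact ((hu k).int hh).aestronglyMeasurable.restrict
    · refine (ae_restrict_iff' hAm.compl).2 (Eventually.of_forall fun p hp => ?_)
      have hJ : J p.1 p.2 ≤ n := by
        have : ¬ ((n : ℝ) < J p.1 p.2) := hp
        exact not_lt.1 this
      rw [Real.norm_eq_abs, abs_mul, abs_of_nonneg (J_nonneg _ _), abs_mul]
      have e1 : |u k p.1 - u k p.2| ≤ 2 * C := by
        refine (abs_sub _ _).trans ?_
        linarith [hC k p.1, hC k p.2]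
      have e2 : |h p.1 - h p.2| ≤ 2 * D := by
        refine (abs_sub _ _).trans ?_
        linarith [hD p.1, hD p.2]
      exact mul_le_mul hJ (mul_le_mul e1 e2 (abs_nonneg _) (by positivity)) (by positivity)
        (by positivity)
    · refine ae_restrict_of_ae ?_
      filter_upwards [ae_cm2_of_ae hlim] with p hp
      have e1 : Tendsto (fun k => J p.1 p.2 * ((u k p.1 - u k p.2) * (h p.1 - h p.2))) atTop
          (𝓝 (J p.1 p.2 * (((0 : ℝ) - 0) * (h p.1 - h p.2)))) :=
        ((hp.1.sub hp.2).mul_const _).const_mul _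
      simpa using e1
  rw [integral_zero] at hG
  obtain ⟨N, hN⟩ := (Metric.tendsto_atTop.1 hG) (ε / 4) (by positivity)
  refine ⟨N, fun k hk => ?_⟩
  have hNk := hN k hk
  rw [Real.dist_eq, sub_zero] at hNk ⊢
  rw [← integral_add_compl hAm ((hu k).int hh)]
  have hB : |∫ p in A, J p.1 p.2 * ((u k p.1 - u k p.2) * (h p.1 - h p.2)) ∂cm2| ≤ ε / 2 := by
    have i1 : Integrable (fun p : ℝ × ℝ => η / 2 * (J p.1 p.2 * (u k p.1 - u k p.2) ^ 2)
        + 1 / (2 * η) * (J p.1 p.2 * (h p.1 - h p.2) ^ 2)) cm2 :=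
      ((hu k).fin.const_mul _).add (hh.fin.const_mul _)
    have e1 : |∫ p in A, J p.1 p.2 * ((u k p.1 - u k p.2) * (h p.1 - h p.2)) ∂cm2| ≤
        ∫ p in A, (η / 2 * (J p.1 p.2 * (u k p.1 - u k p.2) ^ 2)
        + 1 / (2 * η) * (J p.1 p.2 * (h p.1 - h p.2) ^ 2)) ∂cm2 := by
      rw [← Real.norm_eq_abs]
      refine norm_integral_le_of_norm_le i1.integrableOn (Eventually.of_forall fun p => ?_)
      rw [Real.norm_eq_abs, abs_mul, abs_of_nonneg (J_nonneg _ _), abs_mul]
      have q1 : |u k p.1 - u k p.2| * |h p.1 - h p.2| ≤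
          η / 2 * (u k p.1 - u k p.2) ^ 2 + 1 / (2 * η) * (h p.1 - h p.2) ^ 2 := by
        have q2 : 0 ≤ (η * |u k p.1 - u k p.2| - |h p.1 - h p.2|) ^ 2 := sq_nonneg _
        rw [← sq_abs (u k p.1 - u k p.2), ← sq_abs (h p.1 - h p.2)]
        have q3 : η / 2 * |u k p.1 - u k p.2| ^ 2 + 1 / (2 * η) * |h p.1 - h p.2| ^ 2
            - |u k p.1 - u k p.2| * |h p.1 - h p.2| =
            1 / (2 * η) * (η * |u k p.1 - u k p.2| - |h p.1 - h p.2|) ^ 2 := by
          field_simp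
          ring
        have q4 : 0 ≤ 1 / (2 * η) * (η * |u k p.1 - u k p.2| - |h p.1 - h p.2|) ^ 2 := by
          positivity
        linarith
      have q5 := mul_le_mul_of_nonneg_left q1 (J_nonneg p.1 p.2)
      linarith
    refine e1.trans ?_
    rw [integral_add (((hu k).fin.const_mul _).integrableOn) ((hh.fin.const_mul _).integrableOn),
      integral_const_mul, integral_const_mul]
    have e2 : ∫ p in A, J p.1 p.2 * (u k p.1 - u k p.2) ^ 2 ∂cm2 ≤ 2 * π * K := by
      refine (setIntegral_le_integral (hu k).fin (Eventually.of_forall fun p =>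
        mul_nonneg (J_nonneg _ _) (sq_nonneg _))).trans ?_
      rw [int_sq]
      exact mul_le_mul_of_nonneg_left (hK k) (by positivity)
    have e3 : η / 2 * ∫ p in A, J p.1 p.2 * (u k p.1 - u k p.2) ^ 2 ∂cm2 ≤ ε / 4 :=
      (mul_le_mul_of_nonneg_left e2 (by positivity)).trans hηe
    have e4 : 1 / (2 * η) * ∫ p in A, J p.1 p.2 * (h p.1 - h p.2) ^ 2 ∂cm2 ≤ ε / 4 := by
      rw [one_div, inv_mul_le_iff₀ (by positivity)]
      linarith [hn.le]
    linarith
  calc |(∫ p in A, J p.1 p.2 * ((u k p.1 - u k p.2) * (h p.1 - h p.2)) ∂cm2) +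
        ∫ p in Aᶜ, J p.1 p.2 * ((u k p.1 - u k p.2) * (h p.1 - h p.2)) ∂cm2|
      ≤ ε / 2 + |∫ p in Aᶜ, J p.1 p.2 * ((u k p.1 - u k p.2) * (h p.1 - h p.2)) ∂cm2| :=
        (abs_add_le _ _).trans (by linarith)
    _ < ε := by linarith

end AWeak

theorem t_A_weak : Stmt_A_weak := by
  intro f g C K hf hC hK hg hlim h hh
  obtain ⟨D, hD⟩ := hg.bdd
  have h1 := AWeak.weak0 (u := fun k t => f k t - g t) (C := C + D) (K := 2 * (K + en g g))
    (fun k => (hf k).sub hg) (fun k t => (abs_sub _ _).trans (add_le_add (hC k t) (hD t)))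
    (fun k => (AWeak.en_sub_self_le (hf k) hg).trans (by linarith [hK k]))
    (by
      filter_upwards [hlim] with t ht
      have := ht.sub_const (g t)
      simpa using this) hh
  have h2 : Tendsto (fun k => en (fun t => f k t - g t) h) atTop (𝓝 0) := by
    have := h1.const_mul (1 / (2 * π))
    simpa [en] using this
  have h3 : ∀ k, en (f k) h = en (fun t => f k t - g t) h + en g h := fun k => by
    rw [en_sub_left (hf k) hg hh]; ring
  simp only [h3]
  simpa using h2.add_const (en g h)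

end Pool.Agent.FBM
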