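import Pool.Agent.FBM.StmtB

/-!
# FBM, block B: utilities
-/

open MeasureTheory Set Filter Topology
open scoped Real

namespace Pool.Agent.FBM

/-! ## Almost everywhere -/

theorem cm_of_ae {p : ℝ → Prop} (h : ∀ᵐ t, p t) : ∀ᵐ t ∂cm, p t := ae_restrict_of_ae h

/-- `cm`-a.e. implies a.e. on the line for periodic properties. -/
theorem ae_of_cm {p : ℝ → Prop} (hp : ∀ t, p (t + 2 * π) ↔ p t) (h : ∀ᵐ t ∂cm, p t) :
    ∀ᵐ t, p t := by
  have hp' : ∀ (n : ℤ) (t : ℝ), p (t + n * (2 * π)) ↔ p t := by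
    intro n
    induction n using Int.induction_on with
    | zero => intro t; simp
    | succ n ih =>
      intro t
      have h1 : t + ((n + 1 : ℤ) : ℝ) * (2 * π) = (t + 2 * π) + n * (2 * π) := by
        push_cast; ring
      rw [h1]
      exact (ih _).trans (hp t)
    | pred n ih =>
      intro t
      have h1 : t + ((-(n : ℤ) - 1 : ℤ) : ℝ) * (2 * π) + 2 * π = t + (-(n : ℤ) : ℤ) * (2 * π) := by
        push_cast; ring
      rw [← hp, h1]
      exact ih t
  have h0 : volume ({t | ¬ p t} ∩ Ioc (-π) π) = 0 := by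
    have h1 : ∀ᵐ t ∂(volume.restrict (Ioc (-π) π)), p t := h
    rw [ae_restrict_iff' measurableSet_Ioc, ae_iff] at h1
    refine measure_mono_null ?_ h1
    rintro t ⟨h2, h3⟩
    exact fun h4 => h2 (h4 h3)
  have hcov : {t | ¬ p t} ⊆ ⋃ n : ℤ, (fun t => t + n * (2 * π)) ⁻¹' ({t | ¬ p t} ∩ Ioc (-π) π) := by
    intro t ht
    obtain ⟨n, hn, -⟩ := existsUnique_add_zsmul_mem_Ioc (by positivity : (0 : ℝ) < 2 * π) t (-π)
    rw [mem_iUnion]
    refine ⟨n, ?_, ?_⟩
    · exact fun h4 => ht ((hp' n t).1 h4)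
    · rw [zsmul_eq_mul] at hn
      have e : -π + 2 * π = π := by ring
      rwa [e] at hn
  rw [ae_iff]
  refine measure_mono_null hcov (measure_iUnion_null fun n => ?_)
  rw [measure_preimage_add_right]
  exact h0

/-- The diagonal is a null set. -/
theorem cm2_offdiag : ∀ᵐ q : ℝ × ℝ ∂cm2, Real.sin ((q.1 - q.2) / 2) ≠ 0 := by
  have hm : MeasurableSet {q : ℝ × ℝ | ¬ Real.sin ((q.1 - q.2) / 2) ≠ 0} := by
    have : Measurable fun q : ℝ × ℝ => Real.sin ((q.1 - q.2) / 2) := by fun_prop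
    exact (this (measurableSet_singleton 0).compl).compl
  rw [ae_iff, cm2, Measure.measure_prod_null hm]
  refine Eventually.of_forall fun s => ?_
  have hc : (Prod.mk s ⁻¹' {q : ℝ × ℝ | ¬ Real.sin ((q.1 - q.2) / 2) ≠ 0}).Countable := by
    refine (countable_range (fun n : ℤ => s - 2 * (n * π))).mono ?_
    intro t ht
    have h1 : Real.sin ((s - t) / 2) = 0 := not_not.1 ht
    obtain ⟨n, hn⟩ := Real.sin_eq_zero_iff.1 h1
    exact ⟨n, by simp only; rw [hn]; ring⟩
  exact le_antisymm (le_trans (Measure.restrict_le_self _) (hc.measure_zero volume).le) bot_le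

theorem cm2_J_ge : ∀ᵐ q : ℝ × ℝ ∂cm2, 1 / 4 ≤ J q.1 q.2 :=
  cm2_offdiag.mono fun _ h => J_ge h

/-! ## `Van` -/

theorem Van.congr {S : Set ℝ} {f g : ℝ → ℝ} (h : Van S f) (he : ∀ t, f t = g t) : Van S g :=
  h.mono fun t ht hS => (he t).symm.trans (ht hS)

theorem Van.mul_left {S : Set ℝ} {g : ℝ → ℝ} (h : Van S g) (f : ℝ → ℝ) :
    Van S (fun t => f t * g t) := h.mono fun t ht hS => by simp only [ht hS, mul_zero]

theorem Van.mul_right {S : Set ℝ} {g : ℝ → ℝ} (h : Van S g) (f : ℝ → ℝ) :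
    Van S (fun t => g t * f t) := h.mono fun t ht hS => by simp only [ht hS, zero_mul]

theorem Van.add {S : Set ℝ} {f g : ℝ → ℝ} (hf : Van S f) (hg : Van S g) :
    Van S (fun t => f t + g t) := by
  filter_upwards [hf, hg] with t h1 h2 hS
  rw [h1 hS, h2 hS, add_zero]

theorem Van.sub {S : Set ℝ} {f g : ℝ → ℝ} (hf : Van S f) (hg : Van S g) :
    Van S (fun t => f t - g t) := by
  filter_upwards [hf, hg] with t h1 h2 hS
  rw [h1 hS, h2 hS, sub_zero]

theorem Van.neg {S : Set ℝ} {f : ℝ → ℝ} (hf : Van S f) : Van S (fun t => - f t) :=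
  hf.mono fun t ht hS => by simp only [ht hS, neg_zero]

theorem Van.abs {S : Set ℝ} {f : ℝ → ℝ} (hf : Van S f) : Van S (fun t => |f t|) :=
  hf.mono fun t ht hS => by simp only [ht hS, abs_zero]

theorem van_indicator (S : Set ℝ) (g : ℝ → ℝ) : Van Sᶜ (S.indicator g) :=
  Eventually.of_forall fun _ ht => indicator_of_notMem ht _

theorem van_sub_indicator (S : Set ℝ) (g : ℝ → ℝ) : Van S (fun t => g t - S.indicator g t) :=
  Eventually.of_forall fun t ht => by simp only [indicator_of_mem ht, sub_self]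

theorem Van.indicator {S R : Set ℝ} {g : ℝ → ℝ} (h : Van S g) : Van S (R.indicator g) :=
  h.mono fun t ht hS => by
    by_cases hR : t ∈ R
    · rw [indicator_of_mem hR, ht hS]
    · rw [indicator_of_notMem hR]

/-! ## Vectors in the closed octant of the unit ball -/

section oct

variable {D : Dat} {X : Fin 3 → ℝ → ℝ}

theorem Oct.fe (h : Oct D X) (i : Fin 3) : FE (X i) := h.adm.fe i

theorem Oct.van (h : Oct D X) (i : Fin 3) : Van (D.Z i) (X i) :=
  Eventually.of_forall fun t ht => h.zeroE i t ht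

theorem Oct.sq_le (h : Oct D X) (i : Fin 3) (t : ℝ) : X i t ^ 2 ≤ 1 :=
  (Finset.single_le_sum (f := fun j => X j t ^ 2) (fun j _ => sq_nonneg _)
    (Finset.mem_univ i)).trans (h.le_one t)

theorem Oct.le (h : Oct D X) (i : Fin 3) (t : ℝ) : X i t ≤ 1 := by
  have := h.sq_le i t
  nlinarith [h.nonneg i t]

theorem Oct.abs_le (h : Oct D X) (i : Fin 3) (t : ℝ) : |X i t| ≤ 1 := by
  rw [abs_of_nonneg (h.nonneg i t)]
  exact h.le i t

/-- `X_s . X_t ≤ 1` -/
theorem Oct.dot_le (h : Oct D X) (s t : ℝ) : ∑ i, X i s * X i t ≤ 1 := by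
  have h1 : ∑ i, X i s * X i t ≤ ∑ i, (X i s ^ 2 + X i t ^ 2) / 2 :=
    Finset.sum_le_sum fun i _ => by nlinarith [sq_nonneg (X i s - X i t)]
  rw [← Finset.sum_div, Finset.sum_add_distrib] at h1
  linarith [h.le_one s, h.le_one t]

theorem Oct.dot_nonneg (h : Oct D X) (s t : ℝ) : 0 ≤ ∑ i, X i s * X i t :=
  Finset.sum_nonneg fun i _ => mul_nonneg (h.nonneg i s) (h.nonneg i t)

/-- `K(s,t) = J s t (1 - X_s . X_t)` is nonnegative. -/
theorem Oct.kernel_nonneg (h : Oct D X) (s t : ℝ) : 0 ≤ J s t * (1 - ∑ i, X i s * X i t) :=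
  mul_nonneg (J_nonneg s t) (sub_nonneg.2 (h.dot_le s t))

theorem measurable_dot (h : Oct D X) : Measurable fun p : ℝ × ℝ => ∑ i, X i p.1 * X i p.2 :=
  Finset.measurable_sum _ fun i _ =>
    ((h.fe i).meas.comp measurable_fst).mul ((h.fe i).meas.comp measurable_snd)

end oct

/-! ## Energies of triples -/

theorem ven_eq (X Y : Fin 3 → ℝ → ℝ) : ven X Y = en (X 0) (Y 0) + en (X 1) (Y 1) + en (X 2) (Y 2) :=
  Fin.sum_univ_three _

/-- change of one component -/
theorem ven_update (X : Fin 3 → ℝ → ℝ) (i : Fin 3) (g : ℝ → ℝ) :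
    ven (Function.update X i g) (Function.update X i g) = ven X X - en (X i) (X i) + en g g := by
  unfold ven
  rw [← Finset.add_sum_erase _ _ (Finset.mem_univ i),
    ← Finset.add_sum_erase _ (fun j => en (X j) (X j)) (Finset.mem_univ i)]
  have h1 : ∑ j ∈ Finset.univ.erase i, en (Function.update X i g j) (Function.update X i g j) =
      ∑ j ∈ Finset.univ.erase i, en (X j) (X j) :=
    Finset.sum_congr rfl fun j hj => by rw [Function.update_of_ne (Finset.ne_of_mem_erase hj)]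
  rw [h1, Function.update_self]
  ring

/-- energies converge to zero: `0 ≤ 2 ε a + ε² b` for all `ε` forces `a = 0`. -/
theorem eq_zero_of_quad {a b : ℝ} (h : ∀ ε : ℝ, 0 ≤ 2 * ε * a + ε ^ 2 * b) : a = 0 := by
  have h1 : ∀ ε : ℝ, 0 ≤ b * (ε * ε) + 2 * a * ε + 0 := fun ε => by
    have := h ε; nlinarith
  have h2 := discrim_le_zero h1
  unfold discrim at h2
  have h3 : (2 * a) ^ 2 ≤ 0 := by nlinarith
  have h4 : (2 * a) = 0 := pow_eq_zero_iff (two_ne_zero) |>.1 (le_antisymm h3 (sq_nonneg _))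
  linarith

end Pool.Agent.FBM
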