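import Pool.Agent.FBM.StmtA

/-!
# FBM: the interfaces between the blocks
-/

open MeasureTheory Set Filter Topology
open scoped Real

namespace Pool.Agent.FBM

/-! ## Block B -/

/-- B1: existence of minimisers. -/
def Stmt_B_ex : Prop := ∀ D : Dat, D.Tm → (∃ Y, Adm D Y) → ∃ X, IsMin D X

/-- B2: Euler-Lagrange equations. -/
def Stmt_B_el : Prop := ∀ (D : Dat) (X : Fin 3 → ℝ → ℝ), D.Tm → IsMin D X → ∃ lam T, EL D X lam T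

/-- B3: positivity. -/
def Stmt_B_pos : Prop := ∀ (D : Dat) (X : Fin 3 → ℝ → ℝ) (lam : ℝ → ℝ) (T : Fin 3 → ℝ → ℝ),
  D.Tm → EL D X lam T → ∀ i, (¬ ∀ᵐ t ∂cm, X i t = 0) →
    ∀ t, t ∉ closure (D.Z i) → ∃ m > 0, ∃ δ > 0, ∀ᵐ s, |s - t| < δ → m ≤ X i s

/-- B4: Picone's inequality. -/
def Stmt_B_pic : Prop := ∀ (D : Dat) (X : Fin 3 → ℝ → ℝ) (lam : ℝ → ℝ) (T : Fin 3 → ℝ → ℝ),
  D.Tm → EL D X lam T → ∀ i, (¬ ∀ᵐ t ∂cm, X i t = 0) →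
    ∀ y, FE y → (∀ᵐ t ∂cm, t ∈ D.Z i → y t = 0) →
      (1 / (2 * π)) * ∫ p, J p.1 p.2 * (y p.1 * X i p.2 - y p.2 * X i p.1) ^ 2 ∂cm2
        ≤ en y y - ∫ t, lam t * y t ^ 2 ∂cm

/-! ## Block C -/

/-- C0: the data are tame and every point has edges on both sides. -/
def Stmt_C_edge : Prop := ∀ (m : ℕ), ∀ p ∈ Par m, (Dcfg m p.1 p.2).Tm ∧
  (∀ t, ∃ e, EdgeR (Dcfg m p.1 p.2) t e) ∧ (∀ t, ∃ e, EdgeL (Dcfg m p.1 p.2) t e)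

/-- C1: the maximum over the configurations is attained by a critical map. -/
def Stmt_C_max : Prop := ∀ m : ℕ, 0 < lev m → ∃ p ∈ Par m, ∃ X lam T,
  Crit (Dcfg m p.1 p.2) X lam T ∧ ven X X = lev m

/-- C2: the limit map. -/
def Stmt_C_lim : Prop := ∃ X lam T, Crit Dlim X lam T ∧ IsMin Dlim X ∧ ven X X = Emin Dlim ∧
  Dlim.Tm

/-- C3: convergence of the levels. -/
def Stmt_C_lev : Prop := (∀ m, lev m ≤ Emin Dlim) ∧ Tendsto lev atTop (𝓝 (Emin Dlim)) ∧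
  0 < Emin Dlim

/-- C4: the numerical bound. -/
def Stmt_C_num : Prop := Emin Dlim ≤ 3.03

/-! ## Block D: boundary continuity -/

/-- `f` is continuous up to the boundary, absolutely continuous there with derivative `b`. -/
structure BdC (f : ℝ → ℝ) (T : ℝ → ℝ) (b : ℝ → ℂ) : Prop where
  cont : ContinuousOn (Fx f) (Metric.closedBall 0 1)
  eq : ∀ z : ℂ, ‖z‖ < 1 → Fx f z = hz f z
  an : DifferentiableOn ℂ (hz f) (Metric.ball 0 1)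
  re : ∀ᵐ t : ℝ ∂cm, (Fx f (Complex.exp (t * Complex.I))).re = f t
  per : Function.Periodic b (2 * π)
  int : Integrable b cm
  im : ∀ᵐ t : ℝ ∂cm, (b t).im = T t
  ftc : ∀ s t : ℝ, s ≤ t → Fx f (Complex.exp (t * Complex.I)) - Fx f (Complex.exp (s * Complex.I))
    = ∫ u in s..t, b u
  lim : Tendsto (fun r : ℝ => ∫ t : ℝ, ‖Complex.I * (r * Complex.exp (t * Complex.I))
      * deriv (hz f) (r * Complex.exp (t * Complex.I)) - b t‖ ∂cm) (𝓝[<] 1) (𝓝 0)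

/-- D5, D6. -/
def Stmt_D_bd : Prop := ∀ (D : Dat) (X : Fin 3 → ℝ → ℝ) (lam : ℝ → ℝ) (T : Fin 3 → ℝ → ℝ),
  D.Tm → Crit D X lam T → ∀ i, ∃ b, BdC (X i) (T i) b

/-! ## Block E: boundary regularity -/

/-- on a free edge the normal derivative is parallel to the position vector -/
def ParR (G : Fin 3 → ℂ → ℂ) (ρ : ℝ) (e : Edge) : Prop :=
  e = Edge.H → ∀ x : ℝ, |x| < ρ → ∃ κ : ℝ, ∀ j, (deriv (G j) (x : ℂ)).im = κ * (G j (x : ℂ)).re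

/-- the same on the imaginary axis -/
def ParI (G : Fin 3 → ℂ → ℂ) (ρ : ℝ) (e : Edge) : Prop :=
  e = Edge.H → ∀ x : ℝ, |x| < ρ → ∃ κ : ℝ,
    ∀ j, (deriv (G j) ((x : ℂ) * Complex.I)).re = κ * (G j ((x : ℂ) * Complex.I)).re

/-- E1: interior points of edges. -/
def Stmt_E_reg : Prop := ∀ (D : Dat) (X : Fin 3 → ℝ → ℝ) (lam : ℝ → ℝ) (T : Fin 3 → ℝ → ℝ),
  D.Tm → Crit D X lam T → ∀ (θ : ℝ) (e : Edge), EdgeR D θ e → EdgeL D θ e →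
    ∃ ρ G, LocReg X θ e ρ G ∧ ParR G ρ e

/-- E2: corners and junctions. -/
def Stmt_E_cor : Prop := ∀ (D : Dat) (X : Fin 3 → ℝ → ℝ) (lam : ℝ → ℝ) (T : Fin 3 → ℝ → ℝ),
  D.Tm → Crit D X lam T → ∀ (θ : ℝ) (eR eL : Edge), EdgeR D θ eR → EdgeL D θ eL → eR ≠ eL →
    ∃ ρ G, LocCor X θ eR eL ρ G ∧ ParR G ρ eR ∧ ParI G ρ eL

/-! ## Block F: immersion -/

/-- F0: interior positivity. -/
def Stmt_F_pos : Prop := ∀ (m : ℕ), ∀ p ∈ Par m, ∀ X lam T, Crit (Dcfg m p.1 p.2) X lam T →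
  0 < ven X X → ∀ z : ℂ, ‖z‖ < 1 → (∀ i, 0 < (hz (X i) z).re) ∧ ∑ i, (hz (X i) z).re ^ 2 < 1

/-- F1: boundary points, regular. -/
def Stmt_F_reg : Prop := ∀ (m : ℕ), ∀ p ∈ Par m, ∀ X lam T, Crit (Dcfg m p.1 p.2) X lam T →
  0 < ven X X → ∀ (θ : ℝ) (e : Edge), EdgeR (Dcfg m p.1 p.2) θ e → EdgeL (Dcfg m p.1 p.2) θ e →
    ∀ ρ G, LocReg X θ e ρ G → ∃ j, deriv (G j) 0 ≠ 0

/-- F1': boundary points, corners. -/
def Stmt_F_cor : Prop := ∀ (m : ℕ), ∀ p ∈ Par m, ∀ X lam T, Crit (Dcfg m p.1 p.2) X lam T →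
  0 < ven X X → ∀ (θ : ℝ) (eR eL : Edge), EdgeR (Dcfg m p.1 p.2) θ eR →
    EdgeL (Dcfg m p.1 p.2) θ eL → eR ≠ eL → ∀ ρ G, LocCor X θ eR eL ρ G → ∃ j, deriv (G j) 0 ≠ 0

/-- F2: interior points. -/
def Stmt_F_int : Prop := ∀ (m : ℕ), ∀ p ∈ Par m, ∀ X lam T, Crit (Dcfg m p.1 p.2) X lam T →
  0 < ven X X → ∀ z : ℂ, ‖z‖ < 1 → ∃ j, deriv (hz (X j)) z ≠ 0

/-! ## Block H: the conclusion -/

/-- H7: a critical map with too small area. -/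
def Stmt_H_main : Prop := ∃ (m : ℕ) (p : (Fin m → ℝ) × (Fin m → ℝ)) (X : Fin 3 → ℝ → ℝ)
  (lam : ℝ → ℝ) (T : Fin 3 → ℝ → ℝ) (c : ℝ), p ∈ Par m ∧ Crit (Dcfg m p.1 p.2) X lam T ∧
  0 < ven X X ∧ 0 < c ∧ c < 1 ∧
  ∫⁻ z in Metric.ball (0 : ℂ) 1, ENNReal.ofReal (dens X z)
    < ∫⁻ z in Metric.ball (0 : ℂ) 1, ENNReal.ofReal (lc c (pt X z) ^ 2 * dens X z / 2) ∧
  ∫⁻ z in Metric.ball (0 : ℂ) 1, ENNReal.ofReal (dens X z) ≠ ⊤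

end Pool.Agent.FBM
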