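import Pool.Agent.FBM.StmtA
import Pool.Agent.FBM.Top

/-!
# FBM, block B: minimisers (statements)

Complete proofs are in the doc-strings. `X_s . X_t = ∑ i, X i s * X i t`.
-/

open MeasureTheory Set Filter Topology
open scoped Real

namespace Pool.Agent.FBM

/-! ## Definitions -/

/-- `g` vanishes almost everywhere on `S` -/
def Van (S : Set ℝ) (g : ℝ → ℝ) : Prop := ∀ᵐ t ∂cm, t ∈ S → g t = 0

/-- the explicit multiplier of a minimiser -/
noncomputable def lamX (D : Dat) (X : Fin 3 → ℝ → ℝ) : ℝ → ℝ :=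
  D.H.indicator fun t => (1 / π) * ∫ u, J t u * (1 - ∑ i, X i t * X i u) ∂cm

/-- the explicit normal derivative of the `i`-th component of a minimiser -/
noncomputable def TX (D : Dat) (X : Fin 3 → ℝ → ℝ) (i : Fin 3) : ℝ → ℝ := fun t =>
  (D.Z i).indicator (fun t => -((1 / π) * ∫ u, J t u * X i u ∂cm)) t +
    (D.Z i)ᶜ.indicator (fun t => lamX D X t * X i t) t

/-- the functional `L` -/
noncomputable def LL (X : Fin 3 → ℝ → ℝ) (ψ : ℝ → ℝ) : ℝ := ∑ j, en (X j) (fun t => ψ t * X j t)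

/-! ## Existence -/

/-- NRM: normalisation. Proof: `y ↦ |y|` (components), then the radial projection
`y ↦ y / max 1 ‖y‖` onto the unit ball, which is 1-Lipschitz for the Euclidean norm of `ℝ³`
(`∑ i (π y - π z)_i ^ 2 ≤ ∑ i (y - z)_i ^ 2`), then multiply component `i` by the indicator of
`(D.Z i)ᶜ` (changes the function only on a null set of `cm`; `D.Z i` is measurable, periodic).
Pointwise `∑ i (X i s - X i t)^2 ≤ ∑ i (Y i s - Y i t)^2` for almost all `(s,t)`; every component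
is in `FE` by domination (`FE.of_le`-like argument with the sum of the three energies). On `H`:
`|Y| = 1` a.e. and stays so. -/
def Stmt_B_nrm : Prop := ∀ D : Dat, D.Tm → ∀ Y, Adm D Y → ∃ X, Oct D X ∧ ven X X ≤ ven Y Y

/-- EXI: existence of minimisers (`Stmt_B_ex`). Proof: choose `Y_k` in `Adm D` with
`ven Y_k Y_k → Emin D` (the set is nonempty and bounded below by `0`), `X_k` in `Oct` by
`Stmt_B_nrm`; `Stmt_A_rellich` three times (subsequences) with `C = 1`; to get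
`ven g g ≤ liminf` use `Stmt_A_fatou` for each component along a subsequence for which the three
energies `en (X_k i) (X_k i)` converge (bounded real sequences). The limit `g` is in `Adm D` (a.e.
limits: zero on `Z_i`, norm one on `H`), `ven g g ≤ Emin D`; apply `Stmt_B_nrm` again. -/
def Stmt_B1 : Prop := Stmt_B_ex

/-- EQE: `ven X X = Emin D` for a minimiser. -/
def Stmt_B_emin : Prop := ∀ (D : Dat) (X : Fin 3 → ℝ → ℝ), IsMin D X → ven X X = Emin D

/-! ## Euler-Lagrange equations -/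

/-- FRE: free variations. Proof: `X i` replaced by `X i + ε g` is admissible for every real `ε`
(`Function.update X i ..`): `0 ≤ 2 ε en (X i) g + ε^2 en g g` for all `ε`. -/
def Stmt_B_free : Prop := ∀ (D : Dat) (X : Fin 3 → ℝ → ℝ), IsMin D X → ∀ i g, FE g →
  Van (D.Z i) g → Van D.H g → en (X i) g = 0

/-- ROT: rotations in the `(i,j)`-plane. Proof: for `i ≠ j` and real `ε` the map
`Y i = cos(εψ) X i - sin(εψ) X j`, `Y j = sin(εψ) X i + cos(εψ) X j`, the third component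
unchanged, is admissible (norms are preserved; on `Z_i` one has `ψ = 0` a.e., so `Y i = X i = 0`).
`0 ≤ ven Y Y - ven X X = 2 ven X (Y-X) + ven (Y-X) (Y-X)`. With `M` a bound of `|ψ|`:
`ven (Y-X)(Y-X) ≤ C ε^2` (components `(cos(εψ)-1) X` and `sin(εψ) X`: `|sin a - sin b| ≤ |a-b|`,
`|sin a| ≤ |a|`, the same for `cos - 1`; so the squared differences are
`≤ 2 ε^2 ((ψ_s-ψ_t)^2 X_s^2 + ψ_t^2 (X_s-X_t)^2)`), and
`2 ven X (Y-X) = 2 ε (en (X j) (ψ X i) - en (X i) (ψ X j)) + O(ε^2)`: the remainders are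
`(cos(εψ)-1) X` and `(sin(εψ) - εψ) X`, whose energies are `O(ε^4)`
(`a ↦ cos a - 1` has Lipschitz constant `ε M` on `[-εM, εM]`, `a ↦ sin a - a` too), and
Cauchy-Schwarz `en_cs`. Let `ε → 0` with both signs. (For `i = j` trivial.) -/
def Stmt_B_rot : Prop := ∀ (D : Dat) (X : Fin 3 → ℝ → ℝ), IsMin D X → ∀ i j ψ, FE ψ →
  Van (D.Z i) ψ → Van (D.Z j) ψ →
  en (X j) (fun t => ψ t * X i t) = en (X i) (fun t => ψ t * X j t)

/-- RED: reduction to `L`. Proof: `g = ∑ j X_j^2 g + (1-|X|^2) g`. The last term vanishes on `H`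
and `Z_i`: `Stmt_B_free`. `en (X i) (X_j^2 g) = en (X i) (ψ X_j)` with `ψ = X_j g`, which vanishes
on `Z_i` and on `Z_j`, so by `Stmt_B_rot` it is `en (X j) (ψ X_i) = en (X j) ((X_i g) X_j)`. -/
def Stmt_B_red : Prop := ∀ (D : Dat) (X : Fin 3 → ℝ → ℝ), IsMin D X → ∀ i g, FE g →
  Van (D.Z i) g → en (X i) g = LL X (fun t => X i t * g t)

/-- LFO: `L` is given by `lamX` on functions supported in `H`. Proof: put
`K(s,t) = J s t (1 - X_s . X_t) ≥ 0`. For almost all `(s,t)`: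
`∑ j (X_j s - X_j t) (ψ s X_j s - ψ t X_j t) = (ψ s + ψ t) (1 - X_s . X_t)`
(where `ψ s ≠ 0` one has `|X_s| = 1`). For `ψ ≥ 0` the function `K (ψ s + ψ t)` is integrable on
`cm2` (`FE.int`), so `K ψ s` is; in general apply this to `|ψ|`. Fubini:
`LL X ψ = (1/2π) ∫ K (ψ s + ψ t) = (1/π) ∫ K ψ s = ∫ s, ψ s * ((1/π) ∫ t, K s t)`. -/
def Stmt_B_lfo : Prop := ∀ (D : Dat), D.Tm → ∀ X, Oct D X → ∀ ψ, FE ψ → Van D.Hᶜ ψ →
  Integrable (fun p : ℝ × ℝ => J p.1 p.2 * (1 - ∑ i, X i p.1 * X i p.2) * ψ p.1) cm2 ∧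
  Integrable (fun t => lamX D X t * ψ t) cm ∧ LL X ψ = ∫ t, lamX D X t * ψ t ∂cm

/-- MEA: measurability, periodicity and signs of the explicit functions. Proof:
`StronglyMeasurable.integral_prod_right` (or `Measurable` of parametrised integrals), `J_add_left`;
`1 - X_s . X_t ≥ 0` since `|X_s|, |X_t| ≤ 1`. -/
def Stmt_B_mea : Prop := ∀ (D : Dat), D.Tm → ∀ X, Oct D X →
  (Measurable (lamX D X) ∧ Function.Periodic (lamX D X) (2 * π) ∧ ∀ t, 0 ≤ lamX D X t) ∧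
  (∀ i, Measurable (TX D X i) ∧ Function.Periodic (TX D X i) (2 * π) ∧
    (∀ t ∈ D.Z i, TX D X i t ≤ 0) ∧ ∀ t, t ∉ D.Z i → TX D X i t = lamX D X t * X i t)

/-- LIN: the multiplier is integrable and its integral is the energy. Proof: `χ_k` from
`Stmt_A_cut` for `S = H`. `ψ_k := 1_H χ_k` is in `FE`. By `Stmt_B_lfo`
`∫ lamX ψ_k = LL X ψ_k = ∑ j en (X j) (ψ_k X j)`. The function `χ_k X_j - ψ_k X_j = 1_{Hᶜ} χ_k X_j`
is in `FE` and vanishes on `H` and `Z_j`: `Stmt_B_free` gives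
`LL X ψ_k = ∑ j en (X j) (χ_k X_j)`. The functions `χ_k X_j` have bounded energies and sup norms
and converge a.e. to `X_j`: by `Stmt_A_weak` (and `en_comm`) the sum tends to `ven X X`. Since
`lamX ≥ 0`, `ψ_k → 1_H` a.e.: Fatou gives integrability, then dominated convergence the value. -/
def Stmt_B_lin : Prop := ∀ (D : Dat), D.Tm → ∀ X, IsMin D X →
  Integrable (lamX D X) cm ∧ ∫ t, lamX D X t ∂cm = ven X X

/-- WOF: weak equation for functions which vanish on `Z_i`. Proof: `χ_k` for `S = H`,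
`g_k = 1_H χ_k g` in `FE`; `en (X i) (χ_k g) = en (X i) g_k` by `Stmt_B_free`, `= LL X (X_i g_k)` by
`Stmt_B_red`, `= ∫ lamX X_i g_k` by `Stmt_B_lfo`. Let `k → ∞`: left side by `Stmt_A_weak`, right
side by dominated convergence (`Stmt_B_lin`). -/
def Stmt_B_wof : Prop := ∀ (D : Dat), D.Tm → ∀ X, IsMin D X → ∀ i g, FE g → Van (D.Z i) g →
  en (X i) g = ∫ t, lamX D X t * X i t * g t ∂cm

/-- TZF: weak equation for functions supported in `Z_i`. Proof: `X_i = 0` on `Z_i` and `g = 0` a.e.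
off `Z_i`, so `(X_i s - X_i t)(g s - g t) = - X_i t g s - X_i s g t` for almost all `(s,t)` (all
four cases: `X_i s g s = 0` a.e.), and `J X_i t |g s|` is integrable: for `s ∈ Z_i`, `t ∉ Z_i` it is
`|J (X_i s - X_i t)(g s - g t)|`, otherwise `0`. Fubini. -/
def Stmt_B_tzf : Prop := ∀ (D : Dat), D.Tm → ∀ X, Oct D X → ∀ i g, FE g → Van (D.Z i)ᶜ g →
  Integrable (fun t => TX D X i t * g t) cm ∧ en (X i) g = ∫ t, TX D X i t * g t ∂cm

/-- TIN: the normal derivatives are integrable. Proof: off `Z_i`: `|TX| ≤ lamX`. On `Z_i`: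
`χ_k` for `S = Z_i`, `ψ_k = 1_{Z_i} χ_k`; `∫ |TX| ψ_k = - en (X i) ψ_k =
- en (X i) χ_k + en (X i) (χ_k - ψ_k)`; the last term is `∫ lamX X_i (χ_k - ψ_k) ≤ ∫ lamX` by
`Stmt_B_wof`, the first is bounded by `en_cs`. Fatou. -/
def Stmt_B_tin : Prop := ∀ (D : Dat), D.Tm → ∀ X, IsMin D X → ∀ i, Integrable (TX D X i) cm

/-- LPO: the multiplier is positive a.e. on `H`. Proof: `χ_k` from `Stmt_A_cut` for `S = H`,
`ψ_k = 1_H χ_k`; by the first part of `Stmt_B_lfo` (and `Integrable.prod_right_ae`) for almost all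
`s` all the functions `t ↦ J s t (1 - X_s . X_t) ψ_k s` are integrable; `ψ_k s → 1` for a.e. `s ∈ H`,
so for almost all `s ∈ H` the function `J s . (1 - X_s . X)` is integrable. If its integral is `0` then
`X_s . X_t = 1` for almost all `t` (`J s t ≥ 1/4` for almost all `t`), so `X_t = X_s` for almost all `t`
(norms `≤ 1`): the components are a.e. constant and `ven X X = 0` (`en_congr`,
`en_const_left`). -/
def Stmt_B_lpo : Prop := ∀ (D : Dat), D.Tm → ∀ X, IsMin D X → 0 < ven X X →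
  ∀ᵐ t ∂cm, t ∈ D.H → 0 < lamX D X t

/-- B2: the Euler-Lagrange equations. Proof of `weak`: `χ_k` for `S = Z_i`,
`g χ_k = 1_{Z_i} χ_k g + 1_{Z_iᶜ} χ_k g`, `Stmt_B_tzf`, `Stmt_B_wof`; `en (X i) (g χ_k) → en (X i) g`
by `Stmt_A_weak`, right side by dominated convergence with `Stmt_B_tin`, `Stmt_B_lin`. -/
def Stmt_B2 : Prop := ∀ (D : Dat), D.Tm → ∀ X, IsMin D X → EL D X (lamX D X) (TX D X)

/-! ## Positivity -/

/-- SUP: nonnegative supersolutions. Proof: `Z` closed under `t ↦ t ± 2π`. Choose `0 < d < π` with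
`(t₀-d, t₀+d) ∩ Z = ∅`, `φ = (cos(t-t₀) - cos d)^+`, `v = (m φ - x)^+`, both in `FE`; `v = 0` on `Z`
(there `φ = 0`: also for the translates, as `φ` and `Z` are periodic). `en x v ≥ 0`.
(1) `en φ v ≤ ∫ cos(t-t₀) v ≤ ∫ v`: with `w = φ - (cos(t-t₀) - cos d) ≥ 0`, `w v = 0`, `en w v ≤ 0`
(`Stmt_A_disj`), `en (cos(.-t₀)) v = ∫ cos(.-t₀) v` (`Stmt_A_cos`, addition theorem).
(2) with `w = m φ - x = v - w⁻`: `en w v = en v v - en w⁻ v ≥ (1/π) ∫ J w⁻ v ≥
(1/4π) (∫ w⁻) (∫ v)` (`Stmt_A_disj`, `J_ge`, the diagonal is a null set).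
So `0 ≤ en x v = m en φ v - en w v ≤ (∫ v) (m - (1/4π) ∫ (x - m φ)^+)`. For `m → 0` the last
integral tends to `∫ x > 0`, so for small `m` it follows that `∫ v = 0`, `x ≥ m φ` a.e. -/
def Stmt_B_sup : Prop := ∀ (x : ℝ → ℝ) (Z : Set ℝ), FE x → (∀ t, 0 ≤ x t) →
  (∀ t, t + 2 * π ∈ Z ↔ t ∈ Z) → (∀ g, FE g → (∀ t, 0 ≤ g t) → Van Z g → 0 ≤ en x g) →
  ¬ (∀ᵐ t ∂cm, x t = 0) →
  ∀ t, t ∉ closure Z → ∃ m > 0, ∃ δ > 0, ∀ᵐ s, |s - t| < δ → m ≤ x s

/-- B3: positivity (`Stmt_B_pos` of `Top.lean`). Proof: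
`en (X i) g = ∫ T i g = ∫_{Z_iᶜ} lam X_i g ≥ 0`, `Stmt_B_sup`. -/
def Stmt_B3 : Prop := Stmt_B_pos

/-- PAE: `X_i > 0` a.e. off `Z_i`. Proof: `Stmt_B_pos`, Lindelöf (countable subcover of the open set
`(closure Z_i)ᶜ`), and `closure (Z_i) \ Z_i` is countable for a tame set: all its points are
isolated from one side: near a point `t` of the closure, not in `Z_i`, each one sided neighbourhood
is in `Z_i` or disjoint from `Z_i`, so the frontier of `Z_i` is discrete. -/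
def Stmt_B_pae : Prop := ∀ (D : Dat) X lam T, D.Tm → EL D X lam T → ∀ i,
  ¬ (∀ᵐ t ∂cm, X i t = 0) → ∀ᵐ t ∂cm, t ∉ D.Z i → 0 < X i t

/-! ## Picone -/

/-- B4: Picone's inequality. Proof: `x = X i`. For `ε > 0` the function `y^2/(x+ε)` is in `FE` and
vanishes on `Z_i`: `en x (y^2/(x+ε)) = ∫ T_i y^2/(x+ε) = ∫ lam x y^2/(x+ε) → ∫ lam y^2` for
`ε → 0` (dominated convergence, `x > 0` a.e. off `Z_i` by `Stmt_B_pae`, `y = 0` a.e. on `Z_i`).
Pointwise with `a = x_s+ε`, `b = x_t+ε`: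
`(y_s-y_t)^2 - (a-b)(y_s^2/a - y_t^2/b) = (b y_s - a y_t)^2/(a b) ≥ (b y_s - a y_t)^2/(1+ε)^2`.
Integrate and let `ε → 0` (dominated convergence: `|b y_s - a y_t| ≤ b |y_s - y_t| + |y_t||a - b|`,
which also gives integrability). -/
def Stmt_B4 : Prop := ∀ (D : Dat) X lam T, D.Tm → EL D X lam T → ∀ i,
  ¬ (∀ᵐ t ∂cm, X i t = 0) → ∀ y, FE y → Van (D.Z i) y →
  Integrable (fun p : ℝ × ℝ => J p.1 p.2 * (y p.1 * X i p.2 - y p.2 * X i p.1) ^ 2) cm2 ∧
  (1 / (2 * π)) * ∫ p, J p.1 p.2 * (y p.1 * X i p.2 - y p.2 * X i p.1) ^ 2 ∂cm2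
    ≤ en y y - ∫ t, lam t * y t ^ 2 ∂cm

/-- B5: minimisers are proportional to a minimiser with maximal support. Proof: `Stmt_B4` with
`y = Y i`: the sum over `i` of the right sides is `ven Y Y - ∫ lam |Y|^2 = ven Y Y - ∫ lam = 0`
(`lam = 0` off `H`, `|Y| = 1` a.e. on `H`, `lam_tot`), where for `X i = 0` a.e. also `Y i = 0` a.e. and
the term is `0`. All terms are `≥ 0`, so `0`: `Y i s X i t = Y i t X i s` for almost all `(s,t)`;
fix a good `t` with `X i t > 0`. -/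
def Stmt_B5 : Prop := ∀ (D : Dat) (X Y : Fin 3 → ℝ → ℝ) lam T, D.Tm → IsMin D X →
  EL D X lam T → IsMin D Y → (∀ i, (∀ᵐ t ∂cm, X i t = 0) → ∀ᵐ t ∂cm, Y i t = 0) →
  ∃ c : Fin 3 → ℝ, (∀ i, 0 ≤ c i) ∧ ∀ i, ∀ᵐ t ∂cm, Y i t = c i * X i t

/-- B6: a minimiser with maximal support. Proof: if `X`, `Y` are minimisers then so is
`M i = sqrt((X_i^2 + Y_i^2)/2)` (`Stmt_A_sqrt` with `u = X_i/√2`, `w = Y_i/√2`; `Oct` is clear), and
`M i = 0` a.e. iff both are. Take a minimiser with the maximal number of components which are not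
`0` a.e. -/
def Stmt_B6 : Prop := ∀ (D : Dat), D.Tm → (∃ X, IsMin D X) → ∃ X, IsMin D X ∧
  ∀ Y, IsMin D Y → ∀ i, (∀ᵐ t ∂cm, X i t = 0) → ∀ᵐ t ∂cm, Y i t = 0

end Pool.Agent.FBM
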