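import Pool.Agent.FBM.A1

/-!
# FBM, block A: statements A2-A12 (form calculus)
-/

open MeasureTheory Set Filter Topology
open scoped Real

namespace Pool.Agent.FBM

/-- A2: cosines and sines have finite energy and diagonalise the form. -/
def Stmt_A_cos : Prop := ∀ (f : ℝ → ℝ), FE f → ∀ n : ℕ,
  FE (fun t => Real.cos (n * t)) ∧ FE (fun t => Real.sin (n * t)) ∧
  en f (fun t => Real.cos (n * t)) = n * ∫ t, f t * Real.cos (n * t) ∂cm ∧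
  en f (fun t => Real.sin (n * t)) = n * ∫ t, f t * Real.sin (n * t) ∂cm

/-- A3: Douglas' identity. -/
def Stmt_A_doug : Prop := ∀ (f : ℝ → ℝ), FE f →
  HasSum (fun n : ℕ => (n : ℝ) * ((∫ t, f t * Real.cos (n * t) ∂cm) ^ 2
    + (∫ t, f t * Real.sin (n * t) ∂cm) ^ 2)) (π * en f f)

/-- A4: the Dirichlet integral of the harmonic extension. -/
def Stmt_A_dir : Prop := ∀ (f : ℝ → ℝ), FE f →
  ∫⁻ z in Metric.ball (0 : ℂ) 1, ENNReal.ofReal (‖deriv (hz f) z‖ ^ 2) = ENNReal.ofReal (en f f)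

/-- A5: lower semicontinuity under a.e. convergence (Fatou). -/
def Stmt_A_fatou : Prop := ∀ (f : ℕ → ℝ → ℝ) (g : ℝ → ℝ) (K : ℝ), (∀ k, FE (f k)) →
  (∀ k, en (f k) (f k) ≤ K) → Measurable g → Function.Periodic g (2 * π) →
  (∃ C, ∀ t, |g t| ≤ C) → (∀ᵐ t ∂cm, Tendsto (fun k => f k t) atTop (𝓝 (g t))) →
  FE g ∧ en g g ≤ K

/-- A5': Rellich compactness. -/
def Stmt_A_rellich : Prop := ∀ (f : ℕ → ℝ → ℝ) (C K : ℝ), (∀ k, FE (f k)) →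
  (∀ k t, |f k t| ≤ C) → (∀ k, en (f k) (f k) ≤ K) →
  ∃ (φ : ℕ → ℕ) (g : ℝ → ℝ), StrictMono φ ∧ FE g ∧ (∀ t, |g t| ≤ C) ∧ en g g ≤ K ∧
    ∀ᵐ t ∂cm, Tendsto (fun k => f (φ k) t) atTop (𝓝 (g t))

/-- A6: weak continuity of the form along bounded sequences converging a.e. -/
def Stmt_A_weak : Prop := ∀ (f : ℕ → ℝ → ℝ) (g : ℝ → ℝ) (C K : ℝ), (∀ k, FE (f k)) →
  (∀ k t, |f k t| ≤ C) → (∀ k, en (f k) (f k) ≤ K) → FE g →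
  (∀ᵐ t ∂cm, Tendsto (fun k => f k t) atTop (𝓝 (g t))) →
  ∀ h, FE h → Tendsto (fun k => en (f k) h) atTop (𝓝 (en g h))

/-- A7: logarithmic cutoff at one point. -/
def Stmt_A_log : Prop := ∀ (p δ ε : ℝ), 0 < δ → 0 < ε → ∃ χ : ℝ → ℝ, FE χ ∧ Continuous χ ∧
  (∀ t, 0 ≤ χ t ∧ χ t ≤ 1) ∧ en χ χ ≤ ε ∧
  (∃ η > 0, ∀ t, |Real.sin ((t - p) / 2)| < η → χ t = 0) ∧
  (∀ t, δ ≤ |Real.sin ((t - p) / 2)| → χ t = 1)

/-- A8: cutoffs adapted to finitely many tame sets. -/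
def Stmt_A_cut : Prop := ∀ (n : ℕ) (S : Fin n → Set ℝ), (∀ i, Tame (S i)) →
  ∃ χ : ℕ → ℝ → ℝ, (∀ k, FE (χ k)) ∧ (∀ k t, 0 ≤ χ k t ∧ χ k t ≤ 1) ∧
    Tendsto (fun k => en (χ k) (χ k)) atTop (𝓝 0) ∧
    (∀ᵐ t ∂cm, Tendsto (fun k => χ k t) atTop (𝓝 1)) ∧
    ∀ k i g, FE g → FE ((S i).indicator (fun t => g t * χ k t))

/-- A9: roots of sums of squares do not increase the energy. -/
def Stmt_A_sqrt : Prop := ∀ (u w : ℝ → ℝ), FE u → FE w →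
  FE (fun t => Real.sqrt (u t ^ 2 + w t ^ 2)) ∧
  en (fun t => Real.sqrt (u t ^ 2 + w t ^ 2)) (fun t => Real.sqrt (u t ^ 2 + w t ^ 2))
    ≤ en u u + en w w

/-- A10: energy of products. -/
def Stmt_A_prod : Prop := ∀ (u v : ℝ → ℝ), FE u → FE v → (∀ t, |u t| ≤ 1) → (∀ t, |v t| ≤ 1) →
  en (fun t => u t * v t) (fun t => u t * v t) ≤ (Real.sqrt (en u u) + Real.sqrt (en v v)) ^ 2

/-- A11: functions with disjoint supports. -/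
def Stmt_A_disj : Prop := ∀ (f g : ℝ → ℝ), FE f → FE g → (∀ t, f t * g t = 0) →
  (∀ t, 0 ≤ f t) → (∀ t, 0 ≤ g t) →
  Integrable (fun p : ℝ × ℝ => J p.1 p.2 * (f p.1 * g p.2)) cm2 ∧
  en f g = -(1 / π) * ∫ p, J p.1 p.2 * (f p.1 * g p.2) ∂cm2

/-- A12: zero energy implies constant a.e. -/
def Stmt_A_const : Prop := ∀ (f : ℝ → ℝ), FE f → en f f = 0 → ∃ c, ∀ᵐ t ∂cm, f t = c

/-- A13: no jumps. -/
def Stmt_A_jump : Prop := ∀ (f : ℝ → ℝ) (t₀ δ c d : ℝ), FE f → 0 < δ →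
  (∀ᵐ t, t ∈ Ioo (t₀ - δ) t₀ → f t = c) → (∀ᵐ t, t ∈ Ioo t₀ (t₀ + δ) → f t = d) → c = d

/-- A14: boolean operations on tame sets, and sets given by arcs. -/
def Stmt_A_tame : Prop :=
  (∀ S T : Set ℝ, Tame S → Tame T → Tame (S ∪ T) ∧ Tame (S ∩ T) ∧ Tame (S \ T) ∧ Tame Sᶜ) ∧
  (∀ a b : ℝ, Tame (pe (Icc a b)) ∧ Tame (pe (Ioo a b)))

end Pool.Agent.FBM
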