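import Pool.Agent.FBM.C0
import Pool.Agent.FBM.StmtA
import Pool.Agent.FBM.Top

/-!
# FBM, block C, part 1: the maximum is attained, convergence of the levels (statements)

Architect helper62.  Complete proofs are in the doc-strings.  `C0.lean` has elementary lemmas
(`C0.ven_eq_ed`, `C0.ed_int`, `C0.Emin_le`, `C0.isMin_iff`, ...).  Part 2 is `StmtC.lean` (helper99).
The minimisers `Stmt_B_ex` etc. are in `Top.lean`, `StmtB.lean`.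
-/

open MeasureTheory Set Filter Topology
open scoped Real

namespace Pool.Agent.FBM

/-! ## 1. The data -/

/-- CTM: the data are tame. Proof: `Stmt_A_tame`; `pe` commutes with unions; finite unions
(`∅` is tame); `HH m a b = ⋃ k, pe (Icc (a k) (b k))`. -/
def Stmt_CTM : Prop := (∀ m : ℕ, ∀ p ∈ Par m, (Dcfg m p.1 p.2).Tm) ∧ Dlim.Tm

/-- CAD: admissible maps of the limit data exist. Proof: `u_2 t = max 0 (2 cos t + 1)`,
`u_1 t = u_2 (t - 2π/3)`, `u_0 t = u_2 (t + 2π/3)`: in `FE` (`Stmt_A_cos`, addition theorem,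
`FE.sup`), `u_i = 0` on `side i`, and `u_0 + u_1 + u_2 ≥ 3` everywhere (on each side two of them
are nonzero with sum `2 + 2 cos (t - middle) ≥ 3`; or `u_i ≥ 2 cos(..) + 1` and the three cosines
sum to zero). `N = sqrt(u_0^2+u_1^2+u_2^2) ≥ 1` is in `FE` (`Stmt_A_sqrt` twice),
`1/N = Φ(N)` with `Φ x = 1 / max x 1` Lipschitz, `Y_i = u_i * (1/N)`. -/
def Stmt_CAD : Prop := ∃ Y, Adm Dlim Y

/-- CAI: admissible maps of the limit data are admissible for all configurations. Proof: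
`ZZ m a b i ⊆ side i`; `HH m a b ⊆ pe (Icc (-2π/3) (2π/3))`, which is `side 0 ∪ side 1` up to a
countable set (`pe {0, 2π/3, -2π/3}`). -/
def Stmt_CAI : Prop := ∀ m : ℕ, ∀ p ∈ Par m, ∀ Y, Adm Dlim Y → Adm (Dcfg m p.1 p.2) Y

/-! ## 2. The maximum is attained -/

/-- CCT: cutoffs. Proof: induction on `F`; start `α = 1`, `β = 0`. New point `e`: let `i = 0` if
`e = -2π/3`, `i = 1` if `e = 2π/3`, `i = 2` otherwise; there is `δ > 0` such that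
`|sin ((t-e)/2)| < δ` excludes `t ∈ side i` (then `t` is within a small distance of `e` modulo
`2π`). `χ` from `Stmt_A_log` for `e`, `δ`, small energy; `c = sin(πχ/2)`, `s = cos(πχ/2)` (Lipschitz
functions of `χ`, `FE.lip`, `en_mono`), `s = 0` where `χ = 1`, `c = 0` where `χ = 0`. New
`α := c α`, new `β i := sqrt(β_i^2 + (s α)^2)` (`Stmt_A_sqrt`), other `β` unchanged. Energies:
`Stmt_A_prod`: `en (c α)(c α) ≤ (√en c + √en α)^2`, the same for `s α`. -/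
def Stmt_CCT : Prop := ∀ F : Finset ℝ, (∀ e ∈ F, -(2 * π / 3) ≤ e ∧ e ≤ 2 * π / 3) →
  ∀ η > 0, ∃ (α : ℝ → ℝ) (β : Fin 3 → ℝ → ℝ), FE α ∧ (∀ i, FE (β i)) ∧ (∀ t, 0 ≤ α t) ∧
    (∀ i t, 0 ≤ β i t) ∧ (∀ t, α t ^ 2 + ∑ i, β i t ^ 2 = 1) ∧ en α α ≤ η ∧
    (∀ i, en (β i) (β i) ≤ η) ∧
    (∃ r > 0, ∀ e ∈ F, ∀ t, |Real.sin ((t - e) / 2)| < r → α t = 0) ∧
    ∀ i, ∀ t ∈ side i, β i t = 0

/-- CUS: upper semicontinuity. Proof: `X` a minimiser for `Dcfg p` (`Stmt_B_ex`, CTM, CAD, CAI),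
`α, β` from CCT for the set of all endpoints `p.1 k`, `p.2 k` and small `η`,
`Y i = sqrt((α X_i)^2 + (β i)^2)` (`Stmt_A_sqrt`, `Stmt_A_prod`):
`ven Y Y ≤ ∑ ((√η + √(en X_i X_i))^2 + η) ≤ Emin + ε` for `η` small. Let `|p' - p| < δ` with
`δ/2 < r` (`|sin x| ≤ |x|`). `Y` is admissible for `Dcfg p'`: (1) on `Z_i' = side i \ H'`
(`i = 0, 1`): `β_i = 0`, and `α X_i = 0` since either `t ∈ Z_i` or `t ∈ H \ H'`, then some endpoint
is `δ`-close (modulo `2π`) and `α t = 0`. (2) `side 2`: `β_2 = X_2 = 0`. (3) on `H'`: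
`∑ Y_i^2 = α^2 |X|^2 + 1 - α^2 = 1` since either `t ∈ H` (a.e. `|X| = 1`) or `t ∈ H' \ H` and
`α t = 0`. `Emin_le`. -/
def Stmt_CUS : Prop := ∀ m : ℕ, ∀ p ∈ Par m, ∀ ε > 0, ∃ δ > 0, ∀ p' ∈ Par m, dist p' p < δ →
  Emin (Dcfg m p'.1 p'.2) ≤ Emin (Dcfg m p.1 p.2) + ε

/-- CMA: a maximal configuration (`Stmt_C_att`, restated). Proof: `Par m` is compact and nonempty, CUS;
an upper semicontinuous function attains its maximum (`UpperSemicontinuousOn.exists_isMaxOn` if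
available, or by a maximising sequence); `IsGreatest.csSup_eq`. -/
def Stmt_CMA : Prop := ∀ m : ℕ, ∃ p ∈ Par m, Emin (Dcfg m p.1 p.2) = lev m ∧
  ∀ q ∈ Par m, Emin (Dcfg m q.1 q.2) ≤ lev m

/-! ## 3. Convergence of the levels -/

/-- Configurations which are fine at scale `δ`. -/
def Fine (m : ℕ) (p : (Fin m → ℝ) × (Fin m → ℝ)) (δ : ℝ) : Prop :=
  (∀ s ∈ Ioo 0 (2 * π / 3), ∃ c, ∀ t, c < t → t < c + δ / 2 →
    |t - s| ≤ δ ∧ t ∈ (Dcfg m p.1 p.2).Z 0) ∧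
  (∀ s ∈ Ioo (-(2 * π / 3)) 0, ∃ c, ∀ t, c < t → t < c + δ / 2 →
    |t - s| ≤ δ ∧ t ∈ (Dcfg m p.1 p.2).Z 1) ∧
  (∀ s ∈ Ioo (-(2 * π / 3)) (2 * π / 3), ∃ c, ∀ t, c < t → t < c + δ / 2 →
    |t - s| ≤ δ ∧ t ∈ (Dcfg m p.1 p.2).H)

/-- CPO: Poincaré's inequality. Proof: for `s` with `c = c(s)`: for `t ∈ Ioo c (c + δ/2)`
(inside `Ioo (-π) π`) a.e. `f t = 0`, `|t-s| ≤ δ`, `J s t ≥ 1/(s-t)^2 ≥ 1/δ^2` for `s ≠ t`, so
`(δ/2) (f s)^2 ≤ δ^2 ∫ t, J s t (f s - f t)^2 ∂cm`. Integrate over `s ∈ Ioo a b` (for almost all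
`s` the inner integral is finite): `∫ (f s)^2 ≤ 2 δ 2π en f f`. -/
def Stmt_CPO : Prop := ∀ (f : ℝ → ℝ) (a b δ : ℝ), FE f → 0 < δ → δ ≤ 1 → -(2 * π / 3) ≤ a →
  b ≤ 2 * π / 3 → (∀ s ∈ Ioo a b, ∃ c, (∀ t, c < t → t < c + δ / 2 → |t - s| ≤ δ) ∧
    ∀ᵐ t, c < t → t < c + δ / 2 → f t = 0) →
  ∫ s in Ioo a b, f s ^ 2 ≤ 4 * π * δ * en f f

/-- CFI: fine configurations. Proof: `N = m / 2` (natural number division), `δ = 2π/(3N)`. The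
interval with index `k < N` is `[kδ, kδ + δ/2]`, with index `N ≤ k < 2N` it is
`[-2π/3 + (k-N)δ, -2π/3 + (k-N)δ + δ/2]`, with index `2N` (if `m` is odd) `[0,0]`. A point `s` of
`side 0` is in a closed cell `[kδ, (k+1)δ]`, take `c = kδ + δ/2` for the wall and `c = kδ` for
`H`. -/
def Stmt_CFI : Prop := ∀ δ₀ > 0, ∃ M : ℕ, ∀ m ≥ M, ∃ p ∈ Par m, ∃ δ, 0 < δ ∧ δ ≤ δ₀ ∧ Fine m p δ

/-- CVF: Fatou's lemma for triples. Proof: `FE` of the components by `Stmt_A_fatou`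
(`en (X k i) (X k i) ≤ ven ≤ K`). Then Fatou (`lintegral_liminf_le`) for `ofReal (ed (X k))`, which
converges a.e. on `cm2` (`ae_cm2_of_ae`) to `ofReal (ed Y)`; `ven = (1/2π) ∫ ed` (`ven_eq_qf`). -/
def Stmt_CVF : Prop := ∀ (X : ℕ → Fin 3 → ℝ → ℝ) (Y : Fin 3 → ℝ → ℝ) (K : ℝ),
  (∀ k i, FE (X k i)) → (∀ k, ven (X k) (X k) ≤ K) → (∀ i, Measurable (Y i)) →
  (∀ i, Function.Periodic (Y i) (2 * π)) → (∀ i, ∃ C, ∀ t, |Y i t| ≤ C) →
  (∀ i, ∀ᵐ t ∂cm, Tendsto (fun k => X k i t) atTop (𝓝 (Y i t))) →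
  (∀ i, FE (Y i)) ∧ ven Y Y ≤ K

/-- CLA: limits of maps on finer and finer configurations are admissible for the limit data.
Proof: zero on `side 2`: clear. `X_0 = 0` on `side 0`: CPO with `f = X k 0`, `a = 0`, `b = 2π/3`
(for `δ k ≤ 1`): `∫ (X k 0)^2 ≤ 4π δ_k K → 0`, dominated convergence: `∫ in Ioo 0 (2π/3), Y_0^2 = 0`.
Same for `X_1`. `f = 1 - N_k`, `N_k = sqrt(∑ (X k i)^2)` (`Stmt_A_sqrt` twice: in `FE`,
`en f f = en N_k N_k ≤ ven (X k) (X k)`), zero a.e. on `H`: `∫ in Ioo (-2π/3) (2π/3), (1-N_k)^2 → 0`.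
Periodicity: a.e. statements on `Ioo` pass to `cm` on `side i`. -/
def Stmt_CLA : Prop := ∀ (X : ℕ → Fin 3 → ℝ → ℝ) (Y : Fin 3 → ℝ → ℝ) (m : ℕ → ℕ)
  (p : ∀ k, (Fin (m k) → ℝ) × (Fin (m k) → ℝ)) (δ : ℕ → ℝ) (K : ℝ),
  (∀ k, p k ∈ Par (m k)) → (∀ k, 0 < δ k ∧ Fine (m k) (p k) (δ k)) → Tendsto δ atTop (𝓝 0) →
  (∀ k, Oct (Dcfg (m k) (p k).1 (p k).2) (X k)) → (∀ k, ven (X k) (X k) ≤ K) →
  (∀ i, FE (Y i)) → (∀ i, ∀ᵐ t ∂cm, Tendsto (fun k => X k i t) atTop (𝓝 (Y i t))) →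
  Adm Dlim Y

/-- CLV: convergence of the levels. Proof: `Emin (Dcfg p) ≤ Emin Dlim` for all `p ∈ Par m` by CAI
(and CAD), so `lev m ≤ Emin Dlim` and the set in `lev` is bounded above. If the levels do not
converge there are `ε > 0` and infinitely many `m` with `lev m ≤ Emin Dlim - ε`; choose `m_k → ∞`
among them, `p_k` from CFI with `δ_k → 0`, minimisers `X_k` for `Dcfg p_k` (`Stmt_B_ex`, CTM);
`ven X_k X_k ≤ lev m_k ≤ Emin Dlim - ε`. `Stmt_A_rellich` three times: a subsequence converges a.e.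
to `Y`; `Adm Dlim Y` by CLA, `ven Y Y ≤ Emin Dlim - ε` by CVF, contradiction to `Emin_le`. -/
def Stmt_CLV : Prop := (∀ m, lev m ≤ Emin Dlim) ∧ Tendsto lev atTop (𝓝 (Emin Dlim))

end Pool.Agent.FBM
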