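import Pool.Agent.FBM.Defs

/-!
# Block D: Herglotz and Poisson integrals, boundary values

Architect helper3. Paper proofs: `Pool/Agent/FBM/PAPER_DE.md`.
-/

open MeasureTheory Set Filter Topology
open scoped Real

namespace Pool.Agent.FBM

/-- The point `r e^{it}`. -/
noncomputable def ep (r t : ℝ) : ℂ := r * Complex.exp (t * Complex.I)

/-- The Poisson kernel at `z`. -/
noncomputable def pk (z : ℂ) (t : ℝ) : ℝ := (1 - ‖z‖ ^ 2) / ‖ep 1 t - z‖ ^ 2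

/-- The Poisson integral. -/
noncomputable def po (f : ℝ → ℂ) (z : ℂ) : ℂ :=
  (1 / (2 * π) : ℂ) * ∫ t, (pk z t : ℂ) * f t ∂cm

/-- Fourier coefficients. -/
noncomputable def ca (f : ℝ → ℂ) (n : ℤ) : ℂ :=
  (1 / (2 * π) : ℂ) * ∫ t, f t * Complex.exp (-(n * t * Complex.I)) ∂cm

/-! ## The Poisson kernel -/

/-- DPK: properties of the kernel. -/
def Stmt_DPK : Prop :=
  ∀ z : ℂ, ‖z‖ < 1 → Continuous (pk z) ∧ Function.Periodic (pk z) (2 * π) ∧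
    (∀ t, 0 < pk z t) ∧
    (∀ t, pk z t = ((ep 1 t + z) / (ep 1 t - z)).re) ∧ ∫ t, pk z t ∂cm = 2 * π

/-- DHR: the real part of the Herglotz integral is the Poisson integral. -/
def Stmt_DHR : Prop :=
  ∀ (f : ℝ → ℝ), Integrable f cm → ∀ z : ℂ, ‖z‖ < 1 →
    (((hz f z).re : ℝ) : ℂ) = po (fun t => (f t : ℂ)) z

/-- DHS: power series of the Herglotz integral. -/
def Stmt_DHS : Prop :=
  ∀ (f : ℝ → ℝ), Integrable f cm → ∀ z : ℂ, ‖z‖ < 1 →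
    HasSum (fun n : ℕ => 2 * ca (fun t => (f t : ℂ)) (n + 1 : ℕ) * z ^ (n + 1))
      (hz f z - ca (fun t => (f t : ℂ)) 0)

/-- DHD: the Herglotz integral is holomorphic. -/
def Stmt_DHD : Prop :=
  ∀ (f : ℝ → ℝ), Integrable f cm → DifferentiableOn ℂ (hz f) (Metric.ball 0 1)

/-- DPT: the Poisson integral as an average of translates. -/
def Stmt_DPT : Prop :=
  ∀ (f : ℝ → ℂ), Function.Periodic f (2 * π) → ∀ r θ : ℝ, 0 ≤ r → r < 1 →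
    po f (ep r θ) = (1 / (2 * π) : ℂ) * ∫ s, (pk (r : ℂ) s : ℂ) * f (θ + s) ∂cm

/-- DPM: the Poisson kernel concentrates at `0`. -/
def Stmt_DPM : Prop :=
  ∀ δ : ℝ, 0 < δ → Tendsto (fun r : ℝ => ∫ s in {s : ℝ | δ < |s|}, pk (r : ℂ) s ∂cm)
    (𝓝[<] 1) (𝓝 0)

/-- DPC: uniform approximation, uniform in equicontinuous families. -/
def Stmt_DPC : Prop :=
  ∀ ε δ M : ℝ, 0 < ε → 0 < δ → ∃ r₀ : ℝ, r₀ < 1 ∧ ∀ r : ℝ, r₀ < r → 0 ≤ r → r < 1 →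
    ∀ g : ℝ → ℂ, Continuous g → Function.Periodic g (2 * π) →
      (∀ s t : ℝ, |s - t| ≤ δ → ‖g s - g t‖ ≤ ε) → (∀ t, ‖g t‖ ≤ M) →
      ∀ θ : ℝ, ‖po g (ep r θ) - g θ‖ ≤ 2 * ε

/-- DPL: approximation in `L¹`. -/
def Stmt_DPL : Prop :=
  ∀ f : ℝ → ℂ, Function.Periodic f (2 * π) → Integrable f cm →
    Tendsto (fun r : ℝ => ∫ t, ‖po f (ep r t) - f t‖ ∂cm) (𝓝[<] 1) (𝓝 0)

/-- DPA: integrals over short intervals. -/
def Stmt_DPA : Prop :=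
  ∀ (τ : ℝ → ℝ), Function.Periodic τ (2 * π) → Integrable τ cm → (∀ t, 0 ≤ τ t) →
    ∀ δ η : ℝ, 0 ≤ δ → (∀ a : ℝ, ∫ t in a..a + δ, τ t ≤ η) → ∀ r : ℝ, 0 ≤ r → r < 1 →
      ∀ a : ℝ, ∫ t in a..a + δ, (hz τ (ep r t)).re ≤ η

/-- DTA: absolute continuity of the integral, uniformly in the position of the interval. -/
def Stmt_DTA : Prop :=
  ∀ (τ : ℝ → ℝ), Function.Periodic τ (2 * π) → Integrable τ cm → (∀ t, 0 ≤ τ t) →
    ∀ η : ℝ, 0 < η → ∃ δ > 0, ∀ a : ℝ, ∫ t in a..a + δ, τ t ≤ η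

/-- DSG: holomorphic functions are Poisson integrals of their values on smaller circles. -/
def Stmt_DSG : Prop :=
  ∀ F : ℂ → ℂ, DifferentiableOn ℂ F (Metric.ball 0 1) → ∀ r r' θ : ℝ, 0 ≤ r → r < 1 →
    0 ≤ r' → r' < 1 → F (ep (r * r') θ) = po (fun t => F (ep r' t)) (ep r θ)

/-! ## The derivative of the Herglotz integral -/

/-- DEN: the Douglas form with trigonometric functions (block A). -/
def Stmt_DEN : Prop :=
  ∀ n : ℕ, FE (fun t => Real.cos (n * t)) ∧ FE (fun t => Real.sin (n * t)) ∧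
    ∀ f, FE f → en f (fun t => Real.cos (n * t)) = n * ∫ t, f t * Real.cos (n * t) ∂cm ∧
      en f (fun t => Real.sin (n * t)) = n * ∫ t, f t * Real.sin (n * t) ∂cm

/-- DDT: `z F' = hz T`. -/
def Stmt_DDT : Prop :=
  ∀ (u T : ℝ → ℝ), FE u → Integrable T cm →
    (∀ g, FE g → en u g = ∫ t, T t * g t ∂cm) →
    ∀ z : ℂ, ‖z‖ < 1 → z * deriv (hz u) z = hz T z

/-- DCB: the bound given by conformality. -/
def Stmt_DCB : Prop :=
  ∀ {D : Dat} {X : Fin 3 → ℝ → ℝ} {lam : ℝ → ℝ} {T : Fin 3 → ℝ → ℝ}, Crit D X lam T →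
    ∀ z : ℂ, ‖z‖ < 1 → ∀ i,
      ‖z * deriv (hz (X i)) z‖ ≤ Real.sqrt 2 * (hz (fun t => ∑ j, |T j t|) z).re

/-! ## Boundary values -/

/-- The bound of the derivative by a Poisson integral. -/
structure PB (u τ : ℝ → ℝ) (C : ℝ) : Prop where
  meas : Measurable u
  per : Function.Periodic u (2 * π)
  bdd : ∃ B, ∀ t, |u t| ≤ B
  per' : Function.Periodic τ (2 * π)
  int : Integrable τ cm
  nonneg : ∀ t, 0 ≤ τ t
  pos : 0 ≤ C
  le : ∀ z : ℂ, ‖z‖ < 1 → ‖z * deriv (hz u) z‖ ≤ C * (hz τ z).re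

/-- DEQ: the functions on the circles are equicontinuous. -/
def Stmt_DEQ : Prop :=
  ∀ (u τ : ℝ → ℝ) (C : ℝ), PB u τ C → ∀ ε : ℝ, 0 < ε → ∃ δ > 0, ∀ r s t : ℝ, 0 ≤ r → r < 1 →
    |s - t| ≤ δ → ‖hz u (ep r s) - hz u (ep r t)‖ ≤ ε

/-- DUC: uniform convergence on the circles. -/
def Stmt_DUC : Prop :=
  ∀ (u τ : ℝ → ℝ) (C : ℝ), PB u τ C → ∃ g : ℝ → ℂ, Continuous g ∧
    Function.Periodic g (2 * π) ∧
    ∀ ε : ℝ, 0 < ε → ∃ r₀ < 1, ∀ r t : ℝ, r₀ < r → 0 ≤ r → r < 1 → ‖hz u (ep r t) - g t‖ ≤ ε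

/-- DXC: the extension to the closed disc. -/
def Stmt_DXC : Prop :=
  ∀ (u : ℝ → ℝ) (g : ℝ → ℂ), DifferentiableOn ℂ (hz u) (Metric.ball 0 1) → Continuous g →
    Function.Periodic g (2 * π) →
    (∀ ε : ℝ, 0 < ε → ∃ r₀ < 1, ∀ r t : ℝ, r₀ < r → 0 ≤ r → r < 1 →
      ‖hz u (ep r t) - g t‖ ≤ ε) →
    ContinuousOn (Fx u) (Metric.closedBall 0 1) ∧ (∀ z ∈ Metric.ball (0 : ℂ) 1, Fx u z = hz u z) ∧
      ∀ t, Fx u (ep 1 t) = g t

/-- The boundary values of the Herglotz integral of `u`; `f` is the derivative along the circle. -/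
structure BdF (u : ℝ → ℝ) (f : ℝ → ℂ) : Prop where
  cont : ContinuousOn (Fx u) (Metric.closedBall 0 1)
  eq : ∀ z ∈ Metric.ball (0 : ℂ) 1, Fx u z = hz u z
  diff : DifferentiableOn ℂ (Fx u) (Metric.ball 0 1)
  re : ∀ᵐ t, (Fx u (ep 1 t)).re = u t
  per : Function.Periodic f (2 * π)
  int : Integrable f cm
  ftc : ∀ s t : ℝ, Fx u (ep 1 t) - Fx u (ep 1 s) = ∫ v in s..t, f v
  lim : Tendsto (fun r : ℝ => ∫ t, ‖Complex.I * ep r t * deriv (Fx u) (ep r t) - f t‖ ∂cm)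
    (𝓝[<] 1) (𝓝 0)

/-- DRE: the real part on the circle. -/
def Stmt_DRE : Prop :=
  ∀ (u : ℝ → ℝ) (g : ℝ → ℂ), Measurable u → Function.Periodic u (2 * π) → Integrable u cm →
    Continuous g → Function.Periodic g (2 * π) →
    (∀ ε : ℝ, 0 < ε → ∃ r₀ < 1, ∀ r t : ℝ, r₀ < r → 0 ≤ r → r < 1 →
      ‖hz u (ep r t) - g t‖ ≤ ε) → ∀ᵐ t, (g t).re = u t

/-- DLE: the boundary function is dominated by the integral of `τ`. -/
def Stmt_DLE : Prop :=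
  ∀ (u τ : ℝ → ℝ) (C : ℝ), PB u τ C → ∀ g : ℝ → ℂ,
    (∀ t, Tendsto (fun r : ℝ => hz u (ep r t)) (𝓝[<] 1) (𝓝 (g t))) →
    ∀ s t : ℝ, s ≤ t → ‖g t - g s‖ ≤ C * ∫ v in s..t, τ v

/-- DAC: functions dominated by an integral are integrals. -/
def Stmt_DAC : Prop :=
  ∀ (g : ℝ → ℂ) (τ : ℝ → ℝ), Function.Periodic g (2 * π) → Function.Periodic τ (2 * π) →
    Integrable τ cm → (∀ s t : ℝ, s ≤ t → ‖g t - g s‖ ≤ ∫ v in s..t, τ v) →
    ∃ f : ℝ → ℂ, Function.Periodic f (2 * π) ∧ Integrable f cm ∧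
      ∀ s t : ℝ, g t - g s = ∫ v in s..t, f v

/-- DLM: convergence of the derivatives. -/
def Stmt_DLM : Prop :=
  ∀ (F : ℂ → ℂ) (f : ℝ → ℂ), ContinuousOn F (Metric.closedBall 0 1) →
    DifferentiableOn ℂ F (Metric.ball 0 1) → Function.Periodic f (2 * π) → Integrable f cm →
    (∀ s t : ℝ, F (ep 1 t) - F (ep 1 s) = ∫ v in s..t, f v) →
    (∀ r t : ℝ, 0 ≤ r → r < 1 → Complex.I * ep r t * deriv F (ep r t) = po f (ep r t)) ∧
    Tendsto (fun r : ℝ => ∫ t, ‖Complex.I * ep r t * deriv F (ep r t) - f t‖ ∂cm)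
      (𝓝[<] 1) (𝓝 0)

/-- DBF: boundary values under the bound by a Poisson integral. -/
def Stmt_DBF : Prop :=
  ∀ (u τ : ℝ → ℝ) (C : ℝ), PB u τ C → ∃ f : ℝ → ℂ, BdF u f

/-- DIM: the imaginary part of the derivative along the circle. -/
def Stmt_DIM : Prop :=
  ∀ (u T : ℝ → ℝ) (f : ℝ → ℂ), BdF u f → Function.Periodic T (2 * π) → Integrable T cm →
    (∀ z : ℂ, ‖z‖ < 1 → z * deriv (hz u) z = hz T z) → ∀ᵐ t, (f t).im = T t

/-- D: the boundary values of critical maps. -/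
def Stmt_D : Prop :=
  ∀ {D : Dat} {X : Fin 3 → ℝ → ℝ} {lam : ℝ → ℝ} {T : Fin 3 → ℝ → ℝ}, Crit D X lam T →
    ∃ f : Fin 3 → ℝ → ℂ, ∀ i, BdF (X i) (f i) ∧ ∀ᵐ t, (f i t).im = T i t

end Pool.Agent.FBM
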