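import Pool.Agent.FBM.StmtB
import Pool.Agent.FBM.StmtD
import Pool.Agent.FBM.Top

/-!
# FBM, block C, part 2: domain variations, conformality (statements)

Complete proofs are in the doc-strings. Part 1 (attained maximum, fine configurations) is in the
file of helper62.
-/

open MeasureTheory Set Filter Topology
open scoped Real

namespace Pool.Agent.FBM

/-! ## Vector fields and the derivative of the energy -/

/-- `v` is a periodic `C¹` vector field on the circle with derivative `dv` -/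
structure VF0 (v dv : ℝ → ℝ) : Prop where
  der : ∀ t, HasDerivAt v (dv t) t
  cont : Continuous dv
  per : Function.Periodic v (2 * π)
  per' : Function.Periodic dv (2 * π)

/-- vector fields which vanish at the three corners -/
structure VF (v dv : ℝ → ℝ) : Prop where
  base : VF0 v dv
  c0 : v 0 = 0
  c1 : v (2 * π / 3) = 0
  c2 : v (-(2 * π / 3)) = 0

/-- the relative derivative of the kernel along `v` -/
noncomputable def kv (v dv : ℝ → ℝ) (s t : ℝ) : ℝ :=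
  dv s + dv t - (v s - v t) * (Real.cos ((s - t) / 2) / Real.sin ((s - t) / 2))

/-- the derivative of the Douglas form along `v` -/
noncomputable def Qv (v dv : ℝ → ℝ) (f g : ℝ → ℝ) : ℝ :=
  (1 / (2 * π)) * ∫ p, J p.1 p.2 * kv v dv p.1 p.2 * ((f p.1 - f p.2) * (g p.1 - g p.2)) ∂cm2

/-- the derivative of the energy of a triple -/
noncomputable def QQv (v dv : ℝ → ℝ) (X : Fin 3 → ℝ → ℝ) : ℝ := ∑ i, Qv v dv (X i) (X i)

/-- `τ` is the inverse of `t ↦ t + s v(t)` -/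
structure Inv (v : ℝ → ℝ) (s : ℝ) (τ : ℝ → ℝ) : Prop where
  left : ∀ t, τ (t + s * v t) = t
  right : ∀ t, τ t + s * v (τ t) = t
  mono : StrictMono τ
  cont : Continuous τ
  per : ∀ t, τ (t + 2 * π) = τ t + 2 * π

/-! ## The kernel -/

/-- CKB: bounds for the kernel. Proof: `|v s - v t| ≤ L π |sin((s-t)/2)|` (`v` is `L`-Lipschitz and
periodic, `|x| ≤ (π/2)|sin x|·...` for `|x| ≤ π/2`, reduce `s - t` modulo `2π`), which gives the
second bound. With `α = (a-b)/2`, `β = (v a - v b)/2`: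
`sin(α + sβ)/sin α = cos(sβ) + (cos α/sin α) sin(sβ) = 1 + s β cot α + O(s²)` with
`|β| ≤ C |sin α|`, `|β cot α| ≤ C`; for small `s` this ratio `ρ` is in `[1/2, 2]` and
`J (a+s v a) (b+s v b) = J a b / ρ²`, `1/ρ² = 1 - 2 s β cot α + O(s²)`; multiply by
`(1 + s dv a)(1 + s dv b)`. -/
def Stmt_CKB : Prop := ∀ v dv, VF0 v dv → ∃ C s₀ : ℝ, 0 < s₀ ∧ 0 ≤ C ∧
  (∀ a b, |kv v dv a b| ≤ C) ∧
  ∀ s : ℝ, |s| ≤ s₀ → ∀ a b, Real.sin ((a - b) / 2) ≠ 0 →
    |J (a + s * v a) (b + s * v b) * ((1 + s * dv a) * (1 + s * dv b))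
      - J a b * (1 + s * kv v dv a b)| ≤ C * s ^ 2 * J a b

/-- CQB: `Qv` is well defined, bilinear and bounded by the energies. Proof: `Stmt_CKB`, `FE.int`
(domination by `C` times the energy densities), Cauchy-Schwarz (or polarisation; the constant may be
changed). -/
def Stmt_CQB : Prop := ∀ v dv, VF0 v dv → ∃ C : ℝ, 0 ≤ C ∧ ∀ f g, FE f → FE g →
  Integrable (fun p : ℝ × ℝ => J p.1 p.2 * kv v dv p.1 p.2 *
    ((f p.1 - f p.2) * (g p.1 - g p.2))) cm2 ∧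
  |Qv v dv f g| ≤ C * (Real.sqrt (en f f) * Real.sqrt (en g g)) ∧
  Qv v dv f g = Qv v dv g f ∧
  ∀ f', FE f' → Qv v dv (fun t => f t + f' t) g = Qv v dv f g + Qv v dv f' g

/-- CQL: `Qv` is linear in the vector field and vanishes for the Möbius fields. Proof: `kv` is linear
in `(v, dv)`; `kv 1 0 = 0`, `kv cos (-sin) = 0`, `kv sin cos = 0` off the diagonal (product formulas
for `cos s - cos t`, `sin s - sin t`); the diagonal is a null set and `J` is `0` there. -/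
def Stmt_CQL : Prop := ∀ f, FE f →
  (∀ v dv w dw, VF0 v dv → VF0 w dw → ∀ a b : ℝ,
    Qv (fun t => a * v t + b * w t) (fun t => a * dv t + b * dw t) f f =
      a * Qv v dv f f + b * Qv w dw f f) ∧
  Qv (fun _ => 1) (fun _ => 0) f f = 0 ∧
  Qv Real.cos (fun t => - Real.sin t) f f = 0 ∧
  Qv Real.sin Real.cos f f = 0

/-- CMB: correction by a Möbius field. Proof: given `w`, solve
`w(p) + α + β cos p + γ sin p = 0` for the three corners `p = 0, ± 2π/3` (Vandermonde-like,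
explicit: `α = -(w(0)+w(2π/3)+w(-2π/3))/3`, `β = -(2/3) ∑ w(p) cos p`, `γ = -(2/3) ∑ w(p) sin p`),
`Stmt_CQL`. -/
def Stmt_CMB : Prop := ∀ w dw, VF0 w dw → ∃ v dv, VF v dv ∧ ∀ f, FE f → Qv v dv f f = Qv w dw f f

/-- CIV: the inverse diffeomorphisms. Proof: for `|s| L < 1/2` the map `t ↦ t + s v t` has derivative
`≥ 1/2`, is strictly increasing, continuous, unbounded in both directions: `StrictMono.orderIso`
of a surjective map (intermediate values). -/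
def Stmt_CIV : Prop := ∀ v dv, VF0 v dv → ∃ s₀ : ℝ, 0 < s₀ ∧ ∀ s : ℝ, |s| ≤ s₀ →
  (∃ τ, Inv v s τ) ∧ ∀ t, 0 < 1 + s * dv t

/-- CCV: change of variables. Proof: in one variable for a nonnegative measurable `2π`-periodic `h`:
`∫⁻ over a period of h(τ t) dt = ∫⁻ over a period of h(t) (1 + s dv t) dt` (the map
`ψ t = t + s v t` maps `[-π, π]` onto an interval of length `2π`:
`lintegral_image_eq_lintegral_abs_deriv_mul`, and the integral of a periodic function over any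
interval of length `2π` is the same), then twice by Tonelli. -/
def Stmt_CCV : Prop := ∀ v dv s τ, VF0 v dv → Inv v s τ → (∀ t, 0 < 1 + s * dv t) →
  ∀ F : ℝ × ℝ → ENNReal, Measurable F → (∀ a b, F (a + 2 * π, b) = F (a, b)) →
    (∀ a b, F (a, b + 2 * π) = F (a, b)) →
    ∫⁻ p, F (τ p.1, τ p.2) ∂cm2 =
      ∫⁻ p, F p * ENNReal.ofReal ((1 + s * dv p.1) * (1 + s * dv p.2)) ∂cm2

/-- CPU: the energy of the transported function. Proof: `Stmt_CCV` with
`F(a,b) = J (ψ a) (ψ b) (f a - f b)^2`, `ψ t = t + s v t` (so `F(τ a, τ b) = J a b (f(τ a) - f(τ b))^2`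
), then `Stmt_CKB`. -/
def Stmt_CPU : Prop := ∀ v dv, VF0 v dv → ∃ C s₀ : ℝ, 0 < s₀ ∧ 0 ≤ C ∧ ∀ s τ, |s| ≤ s₀ →
  Inv v s τ → ∀ f, FE f → FE (fun t => f (τ t)) ∧
    |en (fun t => f (τ t)) (fun t => f (τ t)) - en f f - s * Qv v dv f f| ≤ C * s ^ 2 * en f f

/-! ## Transport of admissible maps -/

/-- CTR: transport of admissible maps. Proof: `FE` is `Stmt_CPU`. `v` vanishes at the corners, so
`τ` fixes the corners and (by `per`, `mono`) preserves the sides; `t ∈ HH q'` iff `τ t ∈ HH q`.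
The exceptional null set `N` of `one`, `zero` (volume-null, periodic) becomes
`{t | τ t ∈ N} = (fun t => t + s v t) '' N`, a null set (`v` is `C¹`:
`addHaar_image_eq_zero_of_differentiableOn_of_addHaar_eq_zero` or Lipschitz). -/
def Stmt_CTR : Prop := ∀ v dv, VF v dv → ∃ s₀ : ℝ, 0 < s₀ ∧ ∀ s τ, |s| ≤ s₀ → Inv v s τ →
  (∀ X, Adm Dlim X → Adm Dlim (fun i t => X i (τ t))) ∧
  ∀ m, ∀ q ∈ Par m, ∀ X, Adm (Dcfg m q.1 q.2) X →
    ((fun k => q.1 k + s * v (q.1 k), fun k => q.2 k + s * v (q.2 k)) : (Fin m → ℝ) × (Fin m → ℝ))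
      ∈ Par m ∧
    Adm (Dcfg m (fun k => q.1 k + s * v (q.1 k)) (fun k => q.2 k + s * v (q.2 k)))
      (fun i t => X i (τ t))

/-- CCL: limits of admissible maps. Proof: let `t` not be congruent mod `2π` to one of the finitely
many numbers `q.1 k`, `q.2 k`. Then for large `j`: `t ∈ HH (p_j)` iff `t ∈ HH q`. So the conditions
pass to the a.e. limit. -/
def Stmt_CCL : Prop := ∀ (m : ℕ) (p : ℕ → (Fin m → ℝ) × (Fin m → ℝ)) q, Tendsto p atTop (𝓝 q) →
  ∀ (Y : ℕ → Fin 3 → ℝ → ℝ) (X : Fin 3 → ℝ → ℝ),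
    (∀ j, Adm (Dcfg m (p j).1 (p j).2) (Y j)) → (∀ i, FE (X i)) →
    (∀ i, ∀ᵐ t ∂cm, Tendsto (fun j => Y j i t) atTop (𝓝 (X i t))) → Adm (Dcfg m q.1 q.2) X

/-- CST: strong convergence. Proof: weak convergence (`Stmt_A_weak`) gives
`ven Y_j X → ven X X`, so `∑ en (Y_j i - X i) = ven Y_j Y_j - 2 ven Y_j X + ven X X` has `limsup ≤ 0`;
`Qv` is bounded and bilinear (`Stmt_CQB`):
`Qv Y Y - Qv X X = Qv (Y - X) Y + Qv X (Y - X)`. -/
def Stmt_CST : Prop := ∀ (Y : ℕ → Fin 3 → ℝ → ℝ) (X : Fin 3 → ℝ → ℝ),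
  (∀ j i, FE (Y j i)) → (∀ i, FE (X i)) → (∀ j i t, |Y j i t| ≤ 1) →
  (∀ i, ∀ᵐ t ∂cm, Tendsto (fun j => Y j i t) atTop (𝓝 (X i t))) →
  (∀ j, ven (Y j) (Y j) ≤ ven X X) → ∀ v dv, VF0 v dv →
  Tendsto (fun j => QQv v dv (Y j)) atTop (𝓝 (QQv v dv X))

/-- COC: from almost everywhere to everywhere. Proof: let `E` be the set where all `X i t ≥ 0` and the
squares sum to at most `1` (measurable, periodic, full measure); `Y i t = X i t` if `t ∈ E` and
`t ∉ D.Z i`, else `0` (indicator of `E \\ D.Z i`); `FE.congr`. -/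
def Stmt_COC : Prop := ∀ D : Dat, D.Tm → ∀ X, Adm D X → (∀ i, ∀ᵐ t ∂cm, 0 ≤ X i t) →
  (∀ᵐ t ∂cm, ∑ i, X i t ^ 2 ≤ 1) → ∃ Y, Oct D Y ∧ ∀ i, ∀ᵐ t ∂cm, Y i t = X i t

/-- CON: one-sided limits. Proof: let `s_j → 0`, `s_j > 0` small, `τ_j` the inverse of
`ψ_j = t + s_j v`, `p_j = τ_j(q)`; `p_j ∈ Par m` (`τ_j` fixes the corners and is increasing), `p_j → q`.
Let `Y_j` be a minimiser for `p_j` (`Stmt_B_ex`; the test map shows that there are admissible
maps: hypothesis `hne`). `Y_j ∘ τ_j` is admissible for `q` (`Stmt_CTR`, `ψ_j(p_j) = q`), so with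
`Stmt_CPU`: `Emin q ≤ ven Y_j Y_j + s_j QQv Y_j + C s_j² ven Y_j Y_j` and
`ven Y_j Y_j = Emin p_j ≤ Emin q`: `0 ≤ QQv Y_j + C s_j Emin q`. Rellich: a subsequence converges
a.e. to `X`, `ven X X ≤ Emin q`, `X` admissible for `q` (`Stmt_CCL`), so `ven X X = Emin q`;
`Stmt_CST`: `0 ≤ QQv X`. Finally `Stmt_COC` (`QQv` and `ven` do not change on null sets). -/
def Stmt_CON : Prop := ∀ (m : ℕ), ∀ q ∈ Par m,
  (∀ p ∈ Par m, ∃ Y, Adm (Dcfg m p.1 p.2) Y) →
  (∀ p ∈ Par m, Emin (Dcfg m p.1 p.2) ≤ Emin (Dcfg m q.1 q.2)) →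
  ∀ v dv, VF v dv → ∃ X, IsMin (Dcfg m q.1 q.2) X ∧ 0 ≤ QQv v dv X

/-! ## Minimax -/

/-- CSE: separation. Proof: if no `c ∈ C` lies in the annihilator `W` of `V` (a closed subspace),
`geometric_hahn_banach_compact_closed` for `C` and `W` gives a linear functional `f` and `u < w` with
`f < u` on `C` and `w < f` on `W`; so `f = 0` on `W` (subspace), `u < w < 0`, and `f` is of the form
`∑ ℓ i x i` with `ℓ ∈ V` (double annihilator in finite dimension: `Submodule.dualAnnihilator..`, or: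
`V` equipped with the dot product, `ℓ` the vector of `f`, orthogonal to `W = V^⊥`, so
`ℓ ∈ V^⊥⊥ = V`). Then `∑ ℓ i c i < 0` for all `c ∈ C`, a contradiction. -/
def Stmt_CSE : Prop := ∀ C : Set (Fin 3 → ℝ), IsCompact C → Convex ℝ C → C.Nonempty →
  ∀ V : Submodule ℝ (Fin 3 → ℝ), (∀ ℓ ∈ V, ∃ c ∈ C, 0 ≤ ∑ i, ℓ i * c i) →
  ∃ c ∈ C, ∀ ℓ ∈ V, ∑ i, ℓ i * c i = 0

/-- CSQ: the squares of the minimisers. Proof: `X` a minimiser with maximal support. Let `C` be the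
set of `c` with `c i ≥ 0`, `∑ c_i X_i² ≤ 1` a.e., `= 1` a.e. on `H`, `∑ c_i en X_i = Emin D`, and
`c i = 1` if `X i = 0` a.e. Closed (sequences; countably many null sets), bounded (if `X i` is not
a.e. `0` there is `η > 0` with `X i ≥ η` on a nonnull set, so `c_i ≤ 1/η²`), convex. For
`c ∈ C` the map `√c_i X_i` is, up to a null set, a minimiser (`Stmt_COC`, `Stmt_B_emin`). Conversely a minimiser `Y` is a.e. `c_i X_i` with `c_i ≥ 0`
(`Stmt_B5`, `Stmt_B2`): take the squares (and `1` where `X i = 0` a.e.). -/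
def Stmt_CSQ : Prop := ∀ D : Dat, D.Tm → ∀ X, IsMin D X →
  (∀ Y, IsMin D Y → ∀ i, (∀ᵐ t ∂cm, X i t = 0) → ∀ᵐ t ∂cm, Y i t = 0) →
  ∃ C : Set (Fin 3 → ℝ), IsCompact C ∧ Convex ℝ C ∧ (∀ c ∈ C, ∀ i, 0 ≤ c i) ∧
    (∀ c ∈ C, ∃ Y, IsMin D Y ∧ ∀ i, ∀ᵐ t ∂cm, Y i t = Real.sqrt (c i) * X i t) ∧
    ∀ Y, IsMin D Y → ∃ c ∈ C, ∀ i, ∀ᵐ t ∂cm, Y i t = Real.sqrt (c i) * X i t

/-- CMM: one minimiser which is stationary for all domain variations. Proof: `X` with maximal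
support (`Stmt_B6`), `C` from `Stmt_CSQ`. For `Y i = √c_i X i` a.e.: `QQv v dv Y = ∑ c_i Qv (X i) (X i)`.
`V` := the set of all vectors `i ↦ Qv v dv (X i) (X i)`, `VF v dv`: a submodule by `Stmt_CQL`
(`VF` is closed under linear combinations). `Stmt_CSE`. -/
def Stmt_CMM : Prop := ∀ D : Dat, D.Tm → (∃ X, IsMin D X) →
  (∀ v dv, VF v dv → ∃ X, IsMin D X ∧ 0 ≤ QQv v dv X) →
  ∃ X, IsMin D X ∧ ∀ v dv, VF v dv → QQv v dv X = 0

/-! ## Conformality -/

/-- CID: the finite identity. With `x = e^{iu}`, `y = e^{iw}` and the complex field `e^{ik.}`,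
off the diagonal
`J u w * [i k (x^k + y^k) - (x^k - y^k) cot((u-w)/2)] = - i ∑_{a+b=k, a,b≥1} a b x^a y^b`.
Proof: `J = - x y/(x-y)²`, `cot((u-w)/2) = i (x+y)/(x-y)`, and
`(k (x^k+y^k)(x-y) - (x^k-y^k)(x+y)) = (x-y)^3 ∑_{a+b=k} a b x^{a-1} y^{b-1}`: multiply by `x-y`
and use `geom_sum₂`-like telescoping, or induction on `k` from `k` to `k+1`, or both sides satisfy the same
linear recursion in `k`. (Sum over `a ∈ Finset.range (k+1)`, `b = k - a`: the terms `a = 0`, `a = k`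
are zero.) -/
def Stmt_CID : Prop := ∀ (k : ℕ) (u w : ℝ), Real.sin ((u - w) / 2) ≠ 0 →
  (J u w : ℂ) * (Complex.I * k * (Complex.exp (k * u * Complex.I) + Complex.exp (k * w * Complex.I))
    - (Complex.exp (k * u * Complex.I) - Complex.exp (k * w * Complex.I)) *
      ((Real.cos ((u - w) / 2) / Real.sin ((u - w) / 2) : ℝ) : ℂ)) =
  - Complex.I * ∑ a ∈ Finset.range (k + 1), (a : ℂ) * ((k - a : ℕ) : ℂ) *
      (Complex.exp (a * u * Complex.I) * Complex.exp ((k - a : ℕ) * w * Complex.I))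

/-- CFQ: `Qv` of trigonometric fields. Proof: take real and imaginary parts of `Stmt_CID`
(`kv (cos k.) (-k sin k.) + i kv (sin k.) (k cos k.)` is the bracket), multiply by `(f u - f w)²` and
integrate: `f u² - 2 f u f w + f w²`; the first and the last term drop out because
`∫ e^{ibw} dw = 0` for `b ≥ 1`, and the terms with `a = 0` or `b = 0` have coefficient `0`. -/
def Stmt_CFQ : Prop := ∀ (f : ℝ → ℝ), FE f → ∀ k : ℕ,
  ((Qv (fun t => Real.cos (k * t)) (fun t => -(k * Real.sin (k * t))) f f : ℝ) : ℂ) +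
    Complex.I * ((Qv (fun t => Real.sin (k * t)) (fun t => k * Real.cos (k * t)) f f : ℝ) : ℂ) =
  Complex.I / π * ∑ a ∈ Finset.range (k + 1), (a : ℂ) * ((k - a : ℕ) : ℂ) *
    ((∫ u, (f u : ℂ) * Complex.exp (a * u * Complex.I) ∂cm) *
      ∫ u, (f u : ℂ) * Complex.exp ((k - a : ℕ) * u * Complex.I) ∂cm)

/-- CHP: conformality. Proof: by `Stmt_DHS` `hz f z = ∑ c_n z^n` with
`c_n = (1/π) ∫ f e^{-int}` for `n ≥ 1` (the conjugate of `1/π` times the integral in `Stmt_CFQ`);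
`z F'(z) = ∑ n c_n z^n`, `(z F')² = ∑_k z^k ∑_{a+b=k} a b c_a c_b` (Cauchy product), and
`∑_i ∑_{a+b=k} a b c_a c_b = π⁻² conj (…) = 0` by `Stmt_CFQ` summed over `i`; so
`z² ∑ (F_i')² = 0` on the ball, divide by `z²` for `z ≠ 0`, continuity at `0`. -/
def Stmt_CHP : Prop := ∀ X : Fin 3 → ℝ → ℝ, (∀ i, FE (X i)) →
  (∀ k : ℕ, QQv (fun t => Real.cos (k * t)) (fun t => -(k * Real.sin (k * t))) X = 0 ∧
    QQv (fun t => Real.sin (k * t)) (fun t => k * Real.cos (k * t)) X = 0) →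
  ∀ z : ℂ, ‖z‖ < 1 → ∑ i, (deriv (hz (X i)) z) ^ 2 = 0

/-- CCF: stationary minimisers are conformal. Proof: `Stmt_CMB` for the trigonometric fields,
`Stmt_CHP`. -/
def Stmt_CCF : Prop := ∀ X : Fin 3 → ℝ → ℝ, (∀ i, FE (X i)) →
  (∀ v dv, VF v dv → QQv v dv X = 0) → ∀ z : ℂ, ‖z‖ < 1 → ∑ i, (deriv (hz (X i)) z) ^ 2 = 0

/-! ## The components are not zero -/

/-- CPB: the bound of the derivative. Proof: as `Stmt_DCB` (which assumes `Crit`, but uses only the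
Euler-Lagrange equations and conformality): `z F_i' = hz T_i` (`Stmt_DDT`), `∑ (z F_i')² = 0` gives
`∑ (Re)² = ∑ (Im)²`, so `|z F_i'|² ≤ ∑_j |z F_j'|² = 2 ∑_j (Re hz T_j)² ≤ 2 (Re hz (∑ |T_j|))²`
(`Re hz` is a positive operator: `Stmt_DHR`). -/
def Stmt_CPB : Prop := ∀ {D : Dat} {X : Fin 3 → ℝ → ℝ} {lam : ℝ → ℝ} {T : Fin 3 → ℝ → ℝ},
  EL D X lam T → (∀ z : ℂ, ‖z‖ < 1 → ∑ i, (deriv (hz (X i)) z) ^ 2 = 0) → ∀ i,
  PB (X i) (fun t => ∑ j, |T j t|) (Real.sqrt 2)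

/-- CUN: uniqueness from an arc. Proof: choose `N` with `2π/N < b - a`, `ω = e^{2πi/N}`; the product
`G(z) = ∏_{j<N} h(ω^j z)` is continuous on the closed disc, holomorphic inside, zero on the circle;
by the maximum principle (`Complex.norm_le_of_forall_mem_frontier_norm_le` or
`Complex.eqOn_of_isPreconnected...`) `G = 0` on the disc; a finite product of holomorphic functions which
vanishes on a ball has a factor which vanishes (identity theorem,
`AnalyticOnNhd.eqOn_zero_or_eqOn_zero_of_mul..`, or: zeros of a nonzero factor are countable). -/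
def Stmt_CUN : Prop := ∀ (h : ℂ → ℂ) (a b : ℝ), ContinuousOn h (Metric.closedBall 0 1) →
  DifferentiableOn ℂ h (Metric.ball 0 1) → a < b → (∀ t, t ∈ Ioo a b → h (ep 1 t) = 0) →
  ∀ z : ℂ, ‖z‖ ≤ 1 → h z = 0

/-- CAR: `T = 0` on an arc implies that the map is constant. Proof: `Stmt_CPB`, `Stmt_DUC`: boundary
functions `g_i`; `Stmt_DLE`: `g_i` is constant on `(a,b)` as `∑ |T_j| = 0` a.e. there; `Stmt_DXC`,
`Stmt_CUN` for `Fx (X i) - c`; `Stmt_DRE`: `X i` is a.e. constant, `ven X X = 0` (`en_congr`,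
`en_const_left`). -/
def Stmt_CAR : Prop := ∀ {D : Dat} {X : Fin 3 → ℝ → ℝ} {lam : ℝ → ℝ} {T : Fin 3 → ℝ → ℝ},
  EL D X lam T → (∀ z : ℂ, ‖z‖ < 1 → ∑ i, (deriv (hz (X i)) z) ^ 2 = 0) → ∀ a b : ℝ, a < b →
  (∀ i, ∀ᵐ t, t ∈ Ioo a b → T i t = 0) → ven X X = 0

/-- CLI: Lipschitz functions have finite energy. Proof: `(f s - f t)² ≤ L² π² sin((s-t)/2)²` (choose
`n` with `|s - t - 2πn| ≤ π`; `|x| ≤ (π/2)|sin x|` for `|x| ≤ π/2`), so the energy density is bounded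
by `L² π²/4`; `cm2` is finite. -/
def Stmt_CLI : Prop := ∀ (f : ℝ → ℝ) (L : ℝ), Function.Periodic f (2 * π) →
  (∀ s t, |f s - f t| ≤ L * |s - t|) → FE f

/-- CTZ: functions orthogonal to all functions of finite energy. Proof:
`IsOpen.ae_eq_zero_of_integral_contDiff_smul_eq_zero` on `(-π, π)`: a smooth function with compact
support in `(-π, π)` has a periodic extension which is Lipschitz (`Stmt_CLI`). -/
def Stmt_CTZ : Prop := ∀ T : ℝ → ℝ, Integrable T cm → (∀ g, FE g → ∫ t, T t * g t ∂cm = 0) →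
  ∀ᵐ t ∂cm, T t = 0

/-- CNZ: the components are not a.e. zero. Proof: let `X 0 = 0` a.e. The set `side 0 \ HH` is open. If it
is not empty it contains an interval `(a,b)`: there `T 1 = lam X 1 = 0`, `T 2 = 0` (`lam_off`,
`T_off`), and `T 0 = 0` a.e. by `Stmt_CTZ` (`∫ T 0 g = en (X 0) g = 0`); `Stmt_CAR` gives
`ven X X = 0`. If it is empty the constant map `e_0` is admissible, with energy `0`:
`ven X X = 0` by minimality. The same for component `1`. If `X 2 = 0` a.e.: on `side 2` one has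
`lam = 0` a.e., `T 0 = T 1 = 0` a.e., `T 2 = 0` a.e. In all cases a contradiction to `0 < ven X X`. -/
def Stmt_CNZ : Prop := ∀ (m : ℕ), ∀ q ∈ Par m, ∀ X lam T, IsMin (Dcfg m q.1 q.2) X →
  EL (Dcfg m q.1 q.2) X lam T → 0 < ven X X →
  (∀ z : ℂ, ‖z‖ < 1 → ∑ i, (deriv (hz (X i)) z) ^ 2 = 0) → ∀ i, ¬ ∀ᵐ t ∂cm, X i t = 0

/-! ## The limit data -/

/-- CLS: for the limit data every minimiser is stationary. Proof: for small `s` of both signs
`X ∘ τ` is admissible (`Stmt_CTR`), `0 ≤ ven (X∘τ) - ven X ≤ s QQv X + C s² ven X` (`Stmt_CPU`). -/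
def Stmt_CLS : Prop := ∀ X, IsMin Dlim X → ∀ v dv, VF v dv → QQv v dv X = 0

/-- CLN: for the limit data the components are not a.e. zero and the energy is positive. Proof: if
`X 0 = 0` a.e. then `X 2 ^ 2 = 1` a.e. on `side 1` (there `X 1 = 0`) and `X 2 ^ 2 = 0` on `side 2`: a
jump at `-2π/3`, impossible by `Stmt_A_jump`. `X 1 = 0`: jump of `X 2 ^ 2` at `2π/3`. `X 2 = 0`:
`X 1 ^ 2 = 1` on `side 0`, `0` on `side 1`: jump at `0`. If `ven X X = 0` all components are a.e. constant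
(`Stmt_A_const`), `X i = 0` on `side i`, so all are `0`, but `|X| = 1` on `side 0`. -/
def Stmt_CLN : Prop := ∀ X, Adm Dlim X → 0 < ven X X ∧ ∀ i, ¬ ∀ᵐ t ∂cm, X i t = 0

/-! ## Interfaces with part 1; conclusions

CMX (`Stmt_C_max` of `Top.lean`): `q` from `Stmt_C_att`, minimisers exist (`Stmt_B_ex`,
`Stmt_C_adm`), `Stmt_CON`, `Stmt_CMM`, `Stmt_CCF`: a conformal minimiser `X`; `EL` by `Stmt_B2`,
`ven X X = Emin = lev m > 0` (`Stmt_B_emin`), `Stmt_CNZ`, positivity `Stmt_B_pos`.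
CLM (`Stmt_C_lim` of `Top.lean`): `Stmt_B_ex`, `Stmt_CLS`, `Stmt_CCF`, `Stmt_CLN`, `Stmt_B2`,
`Stmt_B_pos`, `Stmt_B_emin`. -/

/-- the maximum is attained (part 1) -/
def Stmt_C_att : Prop := ∀ m : ℕ, ∃ p ∈ Par m, Emin (Dcfg m p.1 p.2) = lev m ∧
  ∀ q ∈ Par m, Emin (Dcfg m q.1 q.2) ≤ lev m

/-- there are admissible maps (part 1) -/
def Stmt_C_adm : Prop := (∃ Y, Adm Dlim Y) ∧ Dlim.Tm ∧
  ∀ m, ∀ p ∈ Par m, (Dcfg m p.1 p.2).Tm ∧ ∃ Y, Adm (Dcfg m p.1 p.2) Y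

end Pool.Agent.FBM
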