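import Pool.Agent.FBM.StmtA

/-! The test map for the limit problem: `Emin Dlim ≤ 3.1`. -/

open MeasureTheory Set Filter Topology
open scoped Real

namespace Pool.Agent.FBM.Test

/-- the profile: `cos (3 t / 4)` on `[-2π/3, 2π/3]`, zero on the rest of the period. -/
noncomputable def g (t : ℝ) : ℝ := max (Real.cos (3 / 4 * Real.arccos (Real.cos t))) 0

theorem g_cont : Continuous g := by
  unfold g
  exact (Real.continuous_cos.comp (continuous_const.mul
    (Real.continuous_arccos.comp Real.continuous_cos))).max continuous_const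

theorem g_per : Function.Periodic g (2 * π) := by
  intro t
  unfold g
  rw [Real.cos_add_two_pi]

theorem g_nonneg (t : ℝ) : 0 ≤ g t := le_max_right _ _

theorem g_le_one (t : ℝ) : g t ≤ 1 := max_le (Real.cos_le_one _) zero_le_one

theorem arccos_cos_abs {t : ℝ} (ht : |t| ≤ π) : Real.arccos (Real.cos t) = |t| := by
  rw [← Real.cos_abs, Real.arccos_cos (abs_nonneg _) ht]

theorem g_in {t : ℝ} (ht : |t| ≤ 2 * π / 3) : g t = Real.cos (3 / 4 * t) := by
  have h1 : |t| ≤ π := by linarith [Real.pi_pos]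
  unfold g
  rw [arccos_cos_abs h1, max_eq_left]
  · rw [← Real.cos_abs (3 / 4 * t), abs_mul]
    congr 2
    rw [abs_of_pos (by norm_num)]
  · apply Real.cos_nonneg_of_mem_Icc
    constructor
    · have := abs_nonneg t
      have := Real.pi_pos
      linarith
    · linarith

theorem g_out {t : ℝ} (h1 : 2 * π / 3 ≤ |t|) (h2 : |t| ≤ π) : g t = 0 := by
  unfold g
  rw [arccos_cos_abs h2, max_eq_right]
  apply Real.cos_nonpos_of_pi_div_two_le_of_le
  · linarith
  · have := Real.pi_pos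
    linarith

/-- the main inequality behind the finiteness of the energy -/
theorem cos_diff {a b : ℝ} (ha : 0 ≤ a) (hab : a ≤ b) (hb : b ≤ 2 * π / 3) :
    Real.cos (3 / 4 * a) - Real.cos (3 / 4 * b) ≤ 2 * (Real.cos a - Real.cos b) := by
  have hpi := Real.pi_pos
  rw [Real.cos_sub_cos, Real.cos_sub_cos]
  have e1 : (3 / 4 * a + 3 / 4 * b) / 2 = 3 / 4 * ((a + b) / 2) := by ring
  have e2 : (3 / 4 * a - 3 / 4 * b) / 2 = -(3 / 4 * ((b - a) / 2)) := by ring
  have e3 : (a - b) / 2 = -((b - a) / 2) := by ring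
  rw [e1, e2, e3, Real.sin_neg, Real.sin_neg]
  set u := (a + b) / 2 with hu
  set v := (b - a) / 2 with hv
  have hu0 : 0 ≤ u := by rw [hu]; linarith
  have hu1 : u ≤ 2 * π / 3 := by rw [hu]; linarith
  have hv0 : 0 ≤ v := by rw [hv]; linarith
  have hv1 : v ≤ π / 3 := by rw [hv]; linarith
  have h1 : Real.sin (3 / 4 * v) ≤ Real.sin v := by
    apply Real.sin_le_sin_of_le_of_le_pi_div_two <;> linarith
  have h2 : Real.sin (3 / 4 * u) ≤ 2 * Real.sin u := by
    by_cases hc : u ≤ π / 2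
    · have h3 : Real.sin (3 / 4 * u) ≤ Real.sin u := by
        apply Real.sin_le_sin_of_le_of_le_pi_div_two <;> linarith
      have h4 : 0 ≤ Real.sin u := Real.sin_nonneg_of_nonneg_of_le_pi hu0 (by linarith)
      linarith
    · push Not at hc
      have h3 : Real.sin (π / 6) ≤ Real.sin (π - u) := by
        apply Real.sin_le_sin_of_le_of_le_pi_div_two <;> linarith
      rw [Real.sin_pi_div_six, Real.sin_pi_sub] at h3
      have h4 := Real.sin_le_one (3 / 4 * u)
      linarith
  have h3 : 0 ≤ Real.sin (3 / 4 * v) :=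
    Real.sin_nonneg_of_nonneg_of_le_pi (by positivity) (by linarith)
  have h4 : 0 ≤ Real.sin u := Real.sin_nonneg_of_nonneg_of_le_pi hu0 (by linarith)
  have h5 : Real.sin (3 / 4 * u) * Real.sin (3 / 4 * v) ≤ (2 * Real.sin u) * Real.sin v :=
    mul_le_mul h2 h1 h3 (by positivity)
  linarith

theorem cos_diff' {a b : ℝ} (ha : 0 ≤ a) (hab : a ≤ b) (hb : b ≤ π) :
    max (Real.cos (3 / 4 * a)) 0 - max (Real.cos (3 / 4 * b)) 0 ≤
      2 * (Real.cos a - Real.cos b) ∧
    0 ≤ max (Real.cos (3 / 4 * a)) 0 - max (Real.cos (3 / 4 * b)) 0 := by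
  have hpi := Real.pi_pos
  have hmono : Real.cos b ≤ Real.cos a := Real.cos_le_cos_of_nonneg_of_le_pi ha hb hab
  have hmono' : Real.cos (3 / 4 * b) ≤ Real.cos (3 / 4 * a) :=
    Real.cos_le_cos_of_nonneg_of_le_pi (by positivity) (by linarith) (by linarith)
  refine ⟨?_, sub_nonneg.2 (max_le_max hmono' le_rfl)⟩
  have hin : ∀ x : ℝ, 0 ≤ x → x ≤ 2 * π / 3 → 0 ≤ Real.cos (3 / 4 * x) := by
    intro x h0 h1
    apply Real.cos_nonneg_of_mem_Icc
    constructor <;> linarith
  have hout : ∀ x : ℝ, 2 * π / 3 ≤ x → x ≤ π → Real.cos (3 / 4 * x) ≤ 0 := by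
    intro x h0 h1
    apply Real.cos_nonpos_of_pi_div_two_le_of_le <;> linarith
  by_cases h1 : b ≤ 2 * π / 3
  · rw [max_eq_left (hin a ha (by linarith)), max_eq_left (hin b (by linarith) h1)]
    exact cos_diff ha hab h1
  · push Not at h1
    rw [max_eq_right (hout b h1.le hb)]
    by_cases h2 : a ≤ 2 * π / 3
    · rw [max_eq_left (hin a ha h2)]
      have h3 := cos_diff ha h2 le_rfl
      have h4 : Real.cos b ≤ Real.cos (2 * π / 3) :=
        Real.cos_le_cos_of_nonneg_of_le_pi (by positivity) hb h1.le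
      have h5 : Real.cos (3 / 4 * (2 * π / 3)) = 0 := by
        rw [show 3 / 4 * (2 * π / 3) = π / 2 by ring, Real.cos_pi_div_two]
      linarith
    · push Not at h2
      rw [max_eq_right (hout a h2.le (by linarith))]
      linarith

theorem g_lip (s t : ℝ) : |g s - g t| ≤ 2 * |Real.cos s - Real.cos t| := by
  have key : ∀ s t : ℝ, Real.arccos (Real.cos s) ≤ Real.arccos (Real.cos t) →
      |g s - g t| ≤ 2 * |Real.cos s - Real.cos t| := by
    intro s t h
    have h1 := cos_diff' (Real.arccos_nonneg _) h (Real.arccos_le_pi _)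
    rw [Real.cos_arccos (Real.neg_one_le_cos _) (Real.cos_le_one _),
      Real.cos_arccos (Real.neg_one_le_cos _) (Real.cos_le_one _)] at h1
    unfold g
    rw [abs_of_nonneg h1.2]
    refine h1.1.trans ?_
    have := le_abs_self (Real.cos s - Real.cos t)
    linarith
  rcases le_total (Real.arccos (Real.cos s)) (Real.arccos (Real.cos t)) with h | h
  · exact key s t h
  · rw [abs_sub_comm, abs_sub_comm (Real.cos s)]
    exact key t s h

theorem J_mul_sq_le {f : ℝ → ℝ} {c : ℝ}
    (hf : ∀ s t, |f s - f t| ≤ c * |Real.sin ((s - t) / 2)|) (s t : ℝ) :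
    J s t * (f s - f t) ^ 2 ≤ c ^ 2 / 4 := by
  unfold J
  by_cases h0 : Real.sin ((s - t) / 2) = 0
  · rw [h0]
    simp
    positivity
  · have h1 : 0 < Real.sin ((s - t) / 2) ^ 2 := by positivity
    rw [div_mul_eq_mul_div, one_mul, div_le_div_iff₀ (by positivity) (by norm_num)]
    have h2 : (f s - f t) ^ 2 ≤ c ^ 2 * Real.sin ((s - t) / 2) ^ 2 := by
      rw [← sq_abs (f s - f t), ← sq_abs (Real.sin ((s - t) / 2)), ← mul_pow]
      exact pow_le_pow_left₀ (abs_nonneg _) (hf s t) 2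
    nlinarith

/-- Functions which are Lipschitz on the circle have finite energy. -/
theorem FE_of_lip {f : ℝ → ℝ} (hm : Measurable f) (hp : Function.Periodic f (2 * π)) {B c : ℝ}
    (hB : ∀ t, |f t| ≤ B)
    (hf : ∀ s t, |f s - f t| ≤ c * |Real.sin ((s - t) / 2)|) : FE f := by
  refine ⟨hm, hp, ⟨B, hB⟩, ?_⟩
  have hmeas : Measurable (fun p : ℝ × ℝ => J p.1 p.2 * (f p.1 - f p.2) ^ 2) :=
    measurable_J.mul (((hm.comp measurable_fst).sub (hm.comp measurable_snd)).pow_const 2)
  refine Integrable.of_bound hmeas.aestronglyMeasurable (c ^ 2 / 4) (Eventually.of_forall ?_)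
  intro p
  rw [Real.norm_of_nonneg (mul_nonneg (J_nonneg _ _) (sq_nonneg _))]
  exact J_mul_sq_le hf p.1 p.2

theorem g_lip' (s t : ℝ) : |g s - g t| ≤ 4 * |Real.sin ((s - t) / 2)| := by
  refine (g_lip s t).trans ?_
  rw [Real.cos_sub_cos, abs_mul, abs_mul]
  have h1 := Real.abs_sin_le_one ((s + t) / 2)
  have h2 := abs_nonneg (Real.sin ((s - t) / 2))
  rw [show |(-2 : ℝ)| = 2 by norm_num]
  nlinarith

theorem FE_shift (c : ℝ) : FE (fun t => g (t - c)) := by
  refine FE_of_lip (g_cont.comp (continuous_id.sub continuous_const)).measurable ?_ (B := 1)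
    (c := 4) ?_ ?_
  · intro t
    have := g_per (t - c)
    simp only
    rw [← this]
    congr 1
    ring
  · intro t
    rw [abs_of_nonneg (g_nonneg _)]
    exact g_le_one _
  · intro s t
    have := g_lip' (s - c) (t - c)
    rwa [sub_sub_sub_cancel_right] at this

/-- the test map -/
noncomputable def Y (i : Fin 3) : ℝ → ℝ :=
  match i with
  | 0 => fun t => g (t - (-(2 * π / 3)))
  | 1 => fun t => g (t - 2 * π / 3)
  | 2 => fun t => g (t - 0)


/-- the cosine integrals of the profile -/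
theorem int_cos (n : ℕ) : ∫ t in (-(2 * π / 3))..(2 * π / 3), Real.cos (3 / 4 * t) * Real.cos (n * t)
    = -(3 / 2) * Real.cos (n * (2 * π / 3)) / ((n : ℝ) ^ 2 - 9 / 16) := by
  have h1 : (n : ℝ) - 3 / 4 ≠ 0 := by
    intro h
    have h2 : (4 * n : ℝ) = 3 := by linarith
    have h3 : 4 * n = 3 := by exact_mod_cast h2
    omega
  have h2 : (n : ℝ) + 3 / 4 ≠ 0 := by positivity
  have hd : ∀ t : ℝ, HasDerivAt (fun t => 1 / 2 * (Real.sin ((n - 3 / 4) * t) / (n - 3 / 4)
      + Real.sin ((n + 3 / 4) * t) / (n + 3 / 4))) (Real.cos (3 / 4 * t) * Real.cos (n * t)) t := by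
    intro t
    have e1 : HasDerivAt (fun t : ℝ => Real.sin (((n : ℝ) - 3 / 4) * t))
        (Real.cos (((n : ℝ) - 3 / 4) * t) * ((n : ℝ) - 3 / 4)) t := by
      have := ((hasDerivAt_id t).const_mul ((n : ℝ) - 3 / 4)).sin
      simpa using this
    have e2 : HasDerivAt (fun t : ℝ => Real.sin (((n : ℝ) + 3 / 4) * t))
        (Real.cos (((n : ℝ) + 3 / 4) * t) * ((n : ℝ) + 3 / 4)) t := by
      have := ((hasDerivAt_id t).const_mul ((n : ℝ) + 3 / 4)).sin
      simpa using this
    have e3 := ((e1.div_const ((n : ℝ) - 3 / 4)).add (e2.div_const ((n : ℝ) + 3 / 4))).const_mul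
      (1 / 2)
    refine e3.congr_deriv ?_
    rw [mul_div_assoc, div_self h1, mul_div_assoc, div_self h2, mul_one, mul_one]
    have e4 : ((n : ℝ) - 3 / 4) * t = n * t - 3 / 4 * t := by ring
    have e5 : ((n : ℝ) + 3 / 4) * t = n * t + 3 / 4 * t := by ring
    rw [e4, e5, Real.cos_sub, Real.cos_add]
    ring
  rw [intervalIntegral.integral_eq_sub_of_hasDerivAt (fun t _ => hd t)
    (Continuous.intervalIntegrable (by fun_prop) _ _)]
  have e1 : Real.sin (((n : ℝ) - 3 / 4) * (2 * π / 3)) = -Real.cos (n * (2 * π / 3)) := by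
    rw [show ((n : ℝ) - 3 / 4) * (2 * π / 3) = n * (2 * π / 3) - π / 2 by ring,
      Real.sin_sub_pi_div_two]
  have e2 : Real.sin (((n : ℝ) + 3 / 4) * (2 * π / 3)) = Real.cos (n * (2 * π / 3)) := by
    rw [show ((n : ℝ) + 3 / 4) * (2 * π / 3) = n * (2 * π / 3) + π / 2 by ring,
      Real.sin_add_pi_div_two]
  rw [mul_neg, Real.sin_neg, mul_neg, Real.sin_neg, e1, e2]
  rw [show (n : ℝ) ^ 2 - 9 / 16 = (n - 3 / 4) * (n + 3 / 4) by ring]
  generalize Real.cos (n * (2 * π / 3)) = c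
  have h3 : (n : ℝ) + 3 / 4 = (n - 3 / 4) + 3 / 2 := by ring
  rw [h3] at h2 ⊢
  generalize (n : ℝ) - 3 / 4 = a at h1 h2 ⊢
  have h4 : 3 + a * 2 ≠ 0 := by
    intro h
    apply h2
    linarith
  have h5 : 2 * a + 3 ≠ 0 := by
    intro h
    apply h2
    linarith
  field_simp
  ring

theorem int_sin (n : ℕ) :
    ∫ t in (-(2 * π / 3))..(2 * π / 3), Real.cos (3 / 4 * t) * Real.sin (n * t) = 0 := by
  have h := intervalIntegral.integral_comp_neg (a := -(2 * π / 3)) (b := 2 * π / 3)
    (fun t => Real.cos (3 / 4 * t) * Real.sin (n * t))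
  simp only [mul_neg, Real.cos_neg, Real.sin_neg, neg_neg, intervalIntegral.integral_neg] at h
  linarith

/-- periodic integrals -/
theorem int_cm {f : ℝ → ℝ} (hf : Function.Periodic f (2 * π)) (a : ℝ) :
    ∫ t, f t ∂cm = ∫ t in a..a + 2 * π, f t := by
  unfold cm
  rw [← intervalIntegral.integral_of_le (by linarith [Real.pi_pos])]
  have h := hf.intervalIntegral_add_eq (-π) a
  rw [← h]
  congr 1
  ring

theorem int_profile {w : ℝ → ℝ} (hw : Continuous w) (hp : Function.Periodic w (2 * π)) :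
    ∫ t, g t * w t ∂cm = ∫ t in (-(2 * π / 3))..(2 * π / 3), Real.cos (3 / 4 * t) * w t := by
  have hpi := Real.pi_pos
  have hper : Function.Periodic (fun t => g t * w t) (2 * π) := by
    intro t
    simp only
    rw [g_per t, hp t]
  have hc : Continuous (fun t => g t * w t) := g_cont.mul hw
  rw [int_cm hper (-π), show -π + 2 * π = π by ring,
    ← intervalIntegral.integral_add_adjacent_intervals (b := -(2 * π / 3))
      (hc.intervalIntegrable _ _) (hc.intervalIntegrable _ _),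
    ← intervalIntegral.integral_add_adjacent_intervals (a := -(2 * π / 3)) (b := 2 * π / 3)
      (hc.intervalIntegrable _ _) (hc.intervalIntegrable _ _)]
  have e1 : ∫ t in (-π)..(-(2 * π / 3)), g t * w t = 0 := by
    rw [← intervalIntegral.integral_zero (a := -π) (b := -(2 * π / 3)) (E := ℝ) (μ := volume)]
    apply intervalIntegral.integral_congr
    intro t ht
    rw [uIcc_of_le (by linarith)] at ht
    simp only
    rw [g_out, zero_mul]
    · rw [abs_of_neg (by linarith [ht.2])]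
      linarith [ht.2]
    · rw [abs_of_neg (by linarith [ht.2])]
      linarith [ht.1]
  have e2 : ∫ t in (2 * π / 3)..π, g t * w t = 0 := by
    rw [← intervalIntegral.integral_zero (a := 2 * π / 3) (b := π) (E := ℝ) (μ := volume)]
    apply intervalIntegral.integral_congr
    intro t ht
    rw [uIcc_of_le (by linarith)] at ht
    simp only
    rw [g_out, zero_mul]
    · rw [abs_of_pos (by linarith [ht.1])]
      exact ht.1
    · rw [abs_of_pos (by linarith [ht.1])]
      exact ht.2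
  rw [e1, e2, zero_add, add_zero]
  apply intervalIntegral.integral_congr
  intro t ht
  rw [uIcc_of_le (by linarith)] at ht
  simp only
  rw [g_in (abs_le.2 ht)]

theorem per_cos (n : ℕ) (c : ℝ) : Function.Periodic (fun t => Real.cos (n * (t + c))) (2 * π) := by
  intro t
  simp only
  rw [show (n : ℝ) * (t + 2 * π + c) = n * (t + c) + n * (2 * π) by ring,
    Real.cos_add_nat_mul_two_pi]

theorem per_sin (n : ℕ) (c : ℝ) : Function.Periodic (fun t => Real.sin (n * (t + c))) (2 * π) := by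
  intro t
  simp only
  rw [show (n : ℝ) * (t + 2 * π + c) = n * (t + c) + n * (2 * π) by ring,
    Real.sin_add_nat_mul_two_pi]

theorem int_shift {w : ℝ → ℝ} (hp : Function.Periodic w (2 * π)) (c : ℝ) :
    ∫ t, g (t - c) * w t ∂cm = ∫ t, g t * w (t + c) ∂cm := by
  have h1 : Function.Periodic (fun t => g (t - c) * w t) (2 * π) := by
    intro t
    simp only
    rw [hp t, show t + 2 * π - c = t - c + 2 * π by ring, g_per]
  have h2 : Function.Periodic (fun t => g t * w (t + c)) (2 * π) := by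
    intro t
    simp only
    rw [g_per t, show t + 2 * π + c = t + c + 2 * π by ring, hp]
  rw [int_cm h1 c, int_cm h2 0]
  have h3 := intervalIntegral.integral_comp_add_right (a := 0) (b := 0 + 2 * π)
    (fun t => g (t - c) * w t) c
  simp only [add_sub_cancel_right] at h3
  rw [h3]
  congr 1
  · ring
  · ring

/-- coefficient -/
noncomputable def co (n : ℕ) : ℝ :=
  -(3 / 2) * Real.cos (n * (2 * π / 3)) / ((n : ℝ) ^ 2 - 9 / 16)

theorem cos_shift (n : ℕ) (c : ℝ) :
    ∫ t, g (t - c) * Real.cos (n * t) ∂cm = Real.cos (n * c) * co n := by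
  have h0 := per_cos n 0
  simp only [add_zero] at h0
  rw [int_shift h0, int_profile (by fun_prop) (per_cos n c)]
  have e : ∀ t : ℝ, Real.cos (3 / 4 * t) * Real.cos (n * (t + c)) =
      Real.cos (n * c) * (Real.cos (3 / 4 * t) * Real.cos (n * t)) -
      Real.sin (n * c) * (Real.cos (3 / 4 * t) * Real.sin (n * t)) := by
    intro t
    rw [mul_add, Real.cos_add]
    ring
  simp only [e]
  rw [intervalIntegral.integral_sub (Continuous.intervalIntegrable (by fun_prop) _ _)
    (Continuous.intervalIntegrable (by fun_prop) _ _), intervalIntegral.integral_const_mul,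
    intervalIntegral.integral_const_mul, int_cos, int_sin]
  unfold co
  ring

theorem sin_shift (n : ℕ) (c : ℝ) :
    ∫ t, g (t - c) * Real.sin (n * t) ∂cm = Real.sin (n * c) * co n := by
  have h0 := per_sin n 0
  simp only [add_zero] at h0
  rw [int_shift h0, int_profile (by fun_prop) (per_sin n c)]
  have e : ∀ t : ℝ, Real.cos (3 / 4 * t) * Real.sin (n * (t + c)) =
      Real.sin (n * c) * (Real.cos (3 / 4 * t) * Real.cos (n * t)) +
      Real.cos (n * c) * (Real.cos (3 / 4 * t) * Real.sin (n * t)) := by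
    intro t
    rw [mul_add, Real.sin_add]
    ring
  simp only [e]
  rw [intervalIntegral.integral_add (Continuous.intervalIntegrable (by fun_prop) _ _)
    (Continuous.intervalIntegrable (by fun_prop) _ _), intervalIntegral.integral_const_mul,
    intervalIntegral.integral_const_mul, int_cos, int_sin]
  unfold co
  ring

theorem en_shift (hD : Stmt_A_doug) (c : ℝ) :
    HasSum (fun n : ℕ => (n : ℝ) * co n ^ 2)
      (π * en (fun t => g (t - c)) (fun t => g (t - c))) := by
  have h := hD _ (FE_shift c)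
  refine (congrArg (fun F : ℕ → ℝ => HasSum F (π * en (fun t => g (t - c)) (fun t => g (t - c))))
    (funext fun n => ?_)).mp h
  rw [cos_shift, sin_shift, mul_pow, mul_pow, ← add_mul, Real.cos_sq_add_sin_sq, one_mul]


/-- the values of the squares -/
noncomputable def cc (n : ℕ) : ℝ := if n % 3 = 0 then 1 else 1 / 4

theorem cos_two_pi_div_three : Real.cos (2 * π / 3) = -(1 / 2) := by
  rw [show 2 * π / 3 = π - π / 3 by ring, Real.cos_pi_sub, Real.cos_pi_div_three]

theorem cos_four_pi_div_three : Real.cos (2 * (2 * π / 3)) = -(1 / 2) := by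
  rw [Real.cos_two_mul, cos_two_pi_div_three]
  norm_num

theorem cos_sq_eq (n : ℕ) : Real.cos (n * (2 * π / 3)) ^ 2 = cc n := by
  have h1 : (n : ℝ) = 3 * ((n / 3 : ℕ) : ℝ) + ((n % 3 : ℕ) : ℝ) := by
    have := Nat.div_add_mod n 3
    exact_mod_cast this.symm
  have h2 : (n : ℝ) * (2 * π / 3) =
      ((n % 3 : ℕ) : ℝ) * (2 * π / 3) + ((n / 3 : ℕ) : ℝ) * (2 * π) := by
    rw [h1]
    push_cast
    ring_nf
  rw [h2, Real.cos_add_nat_mul_two_pi]
  unfold cc
  have h3 : n % 3 < 3 := Nat.mod_lt _ (by norm_num)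
  generalize n % 3 = r at h3 ⊢
  interval_cases r
  · simp
  · simp only [Nat.cast_one, one_mul, cos_two_pi_div_three]
    norm_num
  · have := cos_four_pi_div_three
    push_cast
    rw [this]
    norm_num

theorem term_eq (n : ℕ) : (n : ℝ) * co n ^ 2 = n * (9 / 4 * cc n / ((n : ℝ) ^ 2 - 9 / 16) ^ 2) := by
  unfold co
  rw [div_pow, mul_pow, cos_sq_eq]
  norm_num

theorem cc_le (n : ℕ) : cc n ≤ 1 := by
  unfold cc
  split_ifs <;> norm_num

theorem cc_nonneg (n : ℕ) : 0 ≤ cc n := by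
  unfold cc
  split_ifs <;> norm_num

theorem term_le {n : ℕ} (hn : 2 ≤ n) : (n : ℝ) * co n ^ 2 ≤
    9 / 8 * (1 / (((n : ℝ) - 1 / 2) ^ 2 - 5 / 16) - 1 / (((n : ℝ) + 1 / 2) ^ 2 - 5 / 16)) := by
  rw [term_eq]
  have hn' : (2 : ℝ) ≤ n := by exact_mod_cast hn
  have h1 : 0 < ((n : ℝ) - 1 / 2) ^ 2 - 5 / 16 := by nlinarith
  have h2 : 0 < ((n : ℝ) + 1 / 2) ^ 2 - 5 / 16 := by nlinarith
  have h3 : 0 < ((n : ℝ) ^ 2 - 9 / 16) := by nlinarith
  have h4 : 1 / (((n : ℝ) - 1 / 2) ^ 2 - 5 / 16) - 1 / (((n : ℝ) + 1 / 2) ^ 2 - 5 / 16) =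
      2 * n / ((((n : ℝ) - 1 / 2) ^ 2 - 5 / 16) * (((n : ℝ) + 1 / 2) ^ 2 - 5 / 16)) := by
    rw [div_sub_div _ _ h1.ne' h2.ne']
    congr 1
    ring
  have h5 : (((n : ℝ) - 1 / 2) ^ 2 - 5 / 16) * (((n : ℝ) + 1 / 2) ^ 2 - 5 / 16) ≤
      ((n : ℝ) ^ 2 - 9 / 16) ^ 2 := by
    nlinarith
  have h6 : 9 / 4 * cc n / ((n : ℝ) ^ 2 - 9 / 16) ^ 2 ≤
      9 / 4 / ((((n : ℝ) - 1 / 2) ^ 2 - 5 / 16) * (((n : ℝ) + 1 / 2) ^ 2 - 5 / 16)) := by
    apply div_le_div₀ (by norm_num) _ (by positivity) h5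
    have := cc_le n
    linarith
  rw [h4]
  calc (n : ℝ) * (9 / 4 * cc n / ((n : ℝ) ^ 2 - 9 / 16) ^ 2)
      ≤ n * (9 / 4 / ((((n : ℝ) - 1 / 2) ^ 2 - 5 / 16) * (((n : ℝ) + 1 / 2) ^ 2 - 5 / 16))) :=
        mul_le_mul_of_nonneg_left h6 (by positivity)
    _ = _ := by ring

theorem sum_head : ∑ n ∈ Finset.range 10, (n : ℝ) * co n ^ 2 ≤
    1983 / 625 - 9 / 8 * (1 / (((10 : ℝ) - 1 / 2) ^ 2 - 5 / 16)) := by
  simp only [term_eq, Finset.sum_range_succ, Finset.sum_range_zero]
  unfold cc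
  norm_num

theorem sum_le (N : ℕ) (hN : 10 ≤ N) : ∑ n ∈ Finset.range N, (n : ℝ) * co n ^ 2 ≤
    1983 / 625 - 9 / 8 * (1 / (((N : ℝ) - 1 / 2) ^ 2 - 5 / 16)) := by
  induction N, hN using Nat.le_induction with
  | base => exact_mod_cast sum_head
  | succ N hN ih =>
    rw [Finset.sum_range_succ]
    have h := term_le (n := N) (by omega)
    push_cast
    have e : (N : ℝ) + 1 - 1 / 2 = N + 1 / 2 := by ring
    rw [e]
    linarith

theorem en_le (hD : Stmt_A_doug) (c : ℝ) :
    π * en (fun t => g (t - c)) (fun t => g (t - c)) ≤ 1983 / 625 := by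
  refine le_of_tendsto (en_shift hD c).tendsto_sum_nat ?_
  filter_upwards [eventually_ge_atTop 10] with N hN
  refine (sum_le N hN).trans ?_
  have hn' : (10 : ℝ) ≤ N := by exact_mod_cast hN
  have h1 : 0 < ((N : ℝ) - 1 / 2) ^ 2 - 5 / 16 := by nlinarith
  have : 0 ≤ 9 / 8 * (1 / (((N : ℝ) - 1 / 2) ^ 2 - 5 / 16)) := by positivity
  linarith

theorem g_out' {v : ℝ} (h1 : 2 * π / 3 ≤ v) (h2 : v ≤ 4 * π / 3) : g v = 0 := by
  have hpi := Real.pi_pos
  by_cases h : v ≤ π
  · apply g_out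
    · rw [abs_of_pos (by linarith)]
      exact h1
    · rw [abs_of_pos (by linarith)]
      exact h
  · push Not at h
    have h3 := g_per (v - 2 * π)
    rw [sub_add_cancel] at h3
    rw [h3]
    apply g_out
    · rw [abs_of_neg (by linarith)]
      linarith
    · rw [abs_of_neg (by linarith)]
      linarith

theorem Y_fe (i : Fin 3) : FE (Y i) := by
  fin_cases i
  · exact FE_shift _
  · exact FE_shift _
  · exact FE_shift _

theorem Y_int (i : Fin 3) (t : ℝ) (n : ℤ) : Y i (t + n * (2 * π)) = Y i t :=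
  (Y_fe i).per.int_mul n t

theorem Y_one {t : ℝ} (ht : t ∈ side 0 ∪ side 1) : ∑ i, Y i t ^ 2 = 1 := by
  have hpi := Real.pi_pos
  have key : ∀ u : ℝ, (u ∈ Ioo 0 (2 * π / 3) ∨ u ∈ Ioo (-(2 * π / 3)) 0) →
      ∑ i, Y i u ^ 2 = 1 := by
    intro u hu
    rw [Fin.sum_univ_three]
    change g (u - (-(2 * π / 3))) ^ 2 + g (u - 2 * π / 3) ^ 2 + g (u - 0) ^ 2 = 1
    rw [sub_zero, sub_neg_eq_add]
    rcases hu with hu | hu
    · rw [g_out' (by linarith [hu.1]) (by linarith [hu.2]),
        g_in (by rw [abs_le]; constructor <;> linarith [hu.1, hu.2]),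
        g_in (by rw [abs_le]; constructor <;> linarith [hu.1, hu.2]),
        show 3 / 4 * (u - 2 * π / 3) = 3 / 4 * u - π / 2 by ring, Real.cos_sub_pi_div_two]
      have := Real.sin_sq_add_cos_sq (3 / 4 * u)
      linarith
    · have h1 : g (u - 2 * π / 3) = 0 := by
        have h3 := g_per (u - 2 * π / 3)
        rw [← h3]
        apply g_out' <;> linarith [hu.1, hu.2]
      rw [h1, g_in (by rw [abs_le]; constructor <;> linarith [hu.1, hu.2]),
        g_in (by rw [abs_le]; constructor <;> linarith [hu.1, hu.2]),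
        show 3 / 4 * (u + 2 * π / 3) = 3 / 4 * u + π / 2 by ring, Real.cos_add_pi_div_two]
      have := Real.sin_sq_add_cos_sq (3 / 4 * u)
      linarith
  have h2 : ∃ n : ℤ, t + n * (2 * π) ∈ Ioo 0 (2 * π / 3) ∨
      t + n * (2 * π) ∈ Ioo (-(2 * π / 3)) 0 := by
    rcases ht with ⟨n, hn⟩ | ⟨n, hn⟩
    · exact ⟨n, Or.inl hn⟩
    · exact ⟨n, Or.inr hn⟩
  obtain ⟨n, hn⟩ := h2
  have h3 := key _ hn
  simp only [Y_int] at h3
  exact h3

theorem Y_zero (i : Fin 3) {t : ℝ} (ht : t ∈ side i) : Y i t = 0 := by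
  have hpi := Real.pi_pos
  obtain ⟨n, hn⟩ : ∃ n : ℤ, t + n * (2 * π) ∈ (match i with
    | 0 => Ioo 0 (2 * π / 3)
    | 1 => Ioo (-(2 * π / 3)) 0
    | 2 => Ioo (2 * π / 3) (4 * π / 3) : Set ℝ) := by
    fin_cases i
    · exact ht
    · exact ht
    · exact ht
  rw [← Y_int i t n]
  generalize t + n * (2 * π) = u at hn
  fin_cases i
  · change g (u - (-(2 * π / 3))) = 0
    have h1 : 0 < u := hn.1
    have h2 : u < 2 * π / 3 := hn.2
    apply g_out' <;> linarith
  · change g (u - 2 * π / 3) = 0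
    have h1 : -(2 * π / 3) < u := hn.1
    have h2 : u < 0 := hn.2
    have h3 := g_per (u - 2 * π / 3)
    rw [← h3]
    apply g_out' <;> linarith
  · change g (u - 0) = 0
    have h1 : 2 * π / 3 < u := hn.1
    have h2 : u < 4 * π / 3 := hn.2
    apply g_out' <;> linarith

theorem Y_adm : Adm Dlim Y where
  fe := Y_fe
  zero := fun i => Eventually.of_forall fun _ ht => Y_zero i ht
  one := Eventually.of_forall fun _ ht => Y_one ht

theorem ven_Y_le (hD : Stmt_A_doug) : ven Y Y ≤ 303 / 100 := by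
  have hpi := Real.pi_gt_d4
  have h0 := en_le hD (-(2 * π / 3))
  have h1 := en_le hD (2 * π / 3)
  have h2 := en_le hD 0
  have e : ven Y Y = en (fun t => g (t - (-(2 * π / 3)))) (fun t => g (t - (-(2 * π / 3)))) +
      en (fun t => g (t - 2 * π / 3)) (fun t => g (t - 2 * π / 3)) +
      en (fun t => g (t - 0)) (fun t => g (t - 0)) := by
    unfold ven
    rw [Fin.sum_univ_three]
    rfl
  have h3 : π * ven Y Y ≤ 3 * (1983 / 625) := by
    rw [e]
    linarith
  have h4 : 0 < π := Real.pi_pos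
  by_contra hcon
  push Not at hcon
  have h5 : π * (303 / 100) < π * ven Y Y := mul_lt_mul_of_pos_left hcon h4
  norm_num at hpi
  linarith

/-- The limit problem has energy at most `3.03`, less than `π`. -/
theorem Emin_Dlim_le (hD : Stmt_A_doug) : Emin Dlim ≤ 303 / 100 := by
  have h : Emin Dlim ≤ ven Y Y := by
    unfold Emin
    refine csInf_le ⟨0, ?_⟩ ⟨Y, Y_adm, rfl⟩
    rintro r ⟨X, _, rfl⟩
    exact ven_self_nonneg X
  exact h.trans (ven_Y_le hD)

end Pool.Agent.FBM.Test
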