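import Pool.Agent.FBM.A1
import Pool.Agent.FBM.B0

/-!
# FBM, block C part 1: first lemmas

Architect helper62.
-/

open MeasureTheory Set Filter Topology
open scoped Real

namespace Pool.Agent.FBM.C0

variable {X Y : Fin 3 → ℝ → ℝ}

/-- the energy density of a triple -/
noncomputable def ed (X : Fin 3 → ℝ → ℝ) (p : ℝ × ℝ) : ℝ :=
  J p.1 p.2 * ∑ i, (X i p.1 - X i p.2) ^ 2

theorem ed_nonneg (X : Fin 3 → ℝ → ℝ) (p : ℝ × ℝ) : 0 ≤ ed X p :=
  mul_nonneg (J_nonneg _ _) (Finset.sum_nonneg fun _ _ => sq_nonneg _)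

theorem ed_meas (h : ∀ i, Measurable (X i)) : Measurable (ed X) :=
  measurable_J.mul (Finset.measurable_sum _ fun i _ =>
    (((h i).comp measurable_fst).sub ((h i).comp measurable_snd)).pow_const 2)

theorem ed_int (h : ∀ i, FE (X i)) : Integrable (ed X) cm2 := by
  have e : ed X = fun p => ∑ i, J p.1 p.2 * (X i p.1 - X i p.2) ^ 2 := by
    funext p; unfold ed; rw [Finset.mul_sum]
  rw [e]
  exact integrable_finset_sum _ fun i _ => (h i).fin

theorem ven_eq_ed (h : ∀ i, FE (X i)) : ven X X = (1 / (2 * π)) * ∫ p, ed X p ∂cm2 := by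
  unfold ven en
  rw [← Finset.mul_sum, ← integral_finset_sum _ fun i _ => (h i).int (h i)]
  congr 1
  refine integral_congr_ae (Eventually.of_forall fun p => ?_)
  simp only [ed, Finset.mul_sum]
  exact Finset.sum_congr rfl fun i _ => by ring

theorem Emin_le {D : Dat} (h : Adm D X) : Emin D ≤ ven X X :=
  csInf_le ⟨0, by rintro r ⟨Y, -, rfl⟩; exact ven_self_nonneg Y⟩ ⟨X, h, rfl⟩

theorem Emin_nonneg (D : Dat) : 0 ≤ Emin D :=
  Real.sInf_nonneg (by rintro r ⟨Y, -, rfl⟩; exact ven_self_nonneg Y)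

theorem ven_eq {D : Dat} (h : IsMin D X) : ven X X = Emin D :=
  le_antisymm (le_csInf ⟨_, X, h.oct.adm, rfl⟩ (by rintro r ⟨Y, hY, rfl⟩; exact h.min Y hY))
    (Emin_le h.oct.adm)

theorem isMin_iff {D : Dat} : IsMin D X ↔ Oct D X ∧ ven X X ≤ Emin D :=
  ⟨fun h => ⟨h.oct, (ven_eq h).le⟩, fun h => ⟨h.1, fun _ hY => h.2.trans (Emin_le hY)⟩⟩

end Pool.Agent.FBM.C0
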