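import Pool.Agent.FBM.Top
import Pool.Agent.FBM.Test

/-! The numerical bound of block C. -/

namespace Pool.Agent.FBM

/-- The limit problem has energy at most `3.03`. -/
theorem t_C_num (hD : Stmt_A_doug) : Stmt_C_num := by
  have h := Test.Emin_Dlim_le hD
  unfold Stmt_C_num
  norm_num at h ⊢
  exact h

end Pool.Agent.FBM
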