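import Pool.Agent.FBM.StmtD

/-!
# Block E: boundary regularity

Architect helper3. Paper proofs: `Pool/Agent/FBM/PAPER_DE.md`.

`F : ℂ → Fin 3 → ℂ` is holomorphic in the disc, continuous on the closed disc, absolutely continuous
on the circle with derivative `f`; `X = Re F`. On an `H` arc `|X| = 1` and `Im f` is a multiple of
`X`, on a `W i` arc `X i = 0` and the imaginary parts of the other components are constant.
-/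

open MeasureTheory Set Filter Topology
open scoped Real

namespace Pool.Agent.FBM

/-! ## Linear differential equations -/

section

/-- OCX: linear holomorphic differential equations in the disc. -/
def Stmt_OCX : Prop :=
  ∀ {E : Type} [NormedAddCommGroup E] [NormedSpace ℂ E] [CompleteSpace E]
    (B : ℂ → E →L[ℂ] E), DifferentiableOn ℂ B (Metric.ball 0 1) →
    ∀ z₀ ∈ Metric.ball (0 : ℂ) 1, ∀ v : E, ∃ m : ℂ → E, m z₀ = v ∧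
      ∀ z ∈ Metric.ball (0 : ℂ) 1, HasDerivAt m (B z (m z)) z

/-- OGR: the lemma of Gronwall with integrable coefficient. -/
def Stmt_OGR : Prop :=
  ∀ (u k : ℝ → ℝ) (a b c : ℝ), a ≤ b → ContinuousOn u (Icc a b) →
    IntervalIntegrable k volume a b → (∀ t, 0 ≤ k t) →
    (∀ t ∈ Icc a b, u t ≤ c + ∫ s in a..t, k s * u s) →
    ∀ t ∈ Icc a b, u t ≤ c * Real.exp (∫ s in a..t, k s)

/-- OUN: uniqueness for linear equations with integrable coefficients, on both sides of the initial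
point. -/
def Stmt_OUN : Prop :=
  ∀ {E : Type} [NormedAddCommGroup E] [NormedSpace ℝ E] [CompleteSpace E]
    (B : ℝ → E →L[ℝ] E) (a b c : ℝ), c ∈ Icc a b → IntervalIntegrable B volume a b →
    ∀ (m m' : ℝ → E) (v : E), ContinuousOn m (Icc a b) → ContinuousOn m' (Icc a b) →
      (∀ t ∈ Icc a b, m t = v + ∫ s in c..t, B s (m s)) →
      (∀ t ∈ Icc a b, m' t = v + ∫ s in c..t, B s (m' s)) → ∀ t ∈ Icc a b, m t = m' t

/-- OLM: dependence on the coefficients. -/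
def Stmt_OLM : Prop :=
  ∀ {E : Type} [NormedAddCommGroup E] [NormedSpace ℝ E] [CompleteSpace E]
    (B : ℕ → ℝ → E →L[ℝ] E) (B₀ : ℝ → E →L[ℝ] E) (a b : ℝ), a ≤ b →
    (∀ n, ContinuousOn (B n) (Icc a b)) → IntervalIntegrable B₀ volume a b →
    Tendsto (fun n => ∫ s in a..b, ‖B n s - B₀ s‖) atTop (𝓝 0) →
    ∀ (m : ℕ → ℝ → E) (v : E), (∀ n, ContinuousOn (m n) (Icc a b)) →
      (∀ n, ∀ t ∈ Icc a b, m n t = v + ∫ s in a..t, B n s (m n s)) →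
      ∃ m₀ : ℝ → E, ContinuousOn m₀ (Icc a b) ∧ TendstoUniformlyOn m m₀ atTop (Icc a b) ∧
        ∀ t ∈ Icc a b, m₀ t = v + ∫ s in a..t, B₀ s (m₀ s)

/-- `b` is the boundary function of `i z B(z)`. -/
structure BdL {E : Type} [NormedAddCommGroup E] [NormedSpace ℂ E] (B : ℂ → E) (b : ℝ → E) :
    Prop where
  per : Function.Periodic b (2 * π)
  int : Integrable b cm
  lim : Tendsto (fun r : ℝ => ∫ t, ‖(Complex.I * ep r t) • B (ep r t) - b t‖ ∂cm)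
    (𝓝[<] 1) (𝓝 0)

/-- OBD: linear holomorphic equations whose coefficients are integrable up to the circle, with
initial value on the circle. -/
def Stmt_OBD : Prop :=
  ∀ {E : Type} [NormedAddCommGroup E] [NormedSpace ℂ E] [CompleteSpace E]
    (B : ℂ → E →L[ℂ] E) (b : ℝ → E →L[ℂ] E), DifferentiableOn ℂ B (Metric.ball 0 1) →
    BdL B b → ∀ (t₀ : ℝ) (v : E), ∃ m : ℂ → E, ContinuousOn m (Metric.closedBall 0 1) ∧
      m (ep 1 t₀) = v ∧ (∀ z ∈ Metric.ball (0 : ℂ) 1, HasDerivAt m (B z (m z)) z) ∧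
      ∀ t : ℝ, m (ep 1 t) = v + ∫ s in t₀..t, b s (m (ep 1 s))

/-- IBP: the product rule for absolutely continuous functions. -/
def Stmt_IBP : Prop :=
  ∀ (f g f' g' : ℝ → ℂ) (a b : ℝ), a ≤ b → IntervalIntegrable f' volume a b →
    IntervalIntegrable g' volume a b → (∀ t ∈ Icc a b, f t = f a + ∫ s in a..t, f' s) →
    (∀ t ∈ Icc a b, g t = g a + ∫ s in a..t, g' s) →
    IntervalIntegrable (fun s => f' s * g s + f s * g' s) volume a b ∧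
    ∀ t ∈ Icc a b, f t * g t = f a * g a + ∫ s in a..t, (f' s * g s + f s * g' s)

/-- EXA: the exponential of an absolutely continuous function. -/
def Stmt_EXA : Prop :=
  ∀ (f f' : ℝ → ℂ) (a b : ℝ), a ≤ b → IntervalIntegrable f' volume a b →
    (∀ t ∈ Icc a b, f t = f a + ∫ s in a..t, f' s) →
    ∀ t ∈ Icc a b, Complex.exp (f t) =
      Complex.exp (f a) + ∫ s in a..t, f' s * Complex.exp (f s)

end

/-! ## Reflection -/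

/-- GLU: functions holomorphic on both sides of the real line and continuous are holomorphic. -/
def Stmt_GLU : Prop :=
  ∀ {E : Type} [NormedAddCommGroup E] [NormedSpace ℂ E] [CompleteSpace E] (f : ℂ → E)
    (U : Set ℂ), IsOpen U → ContinuousOn f U →
    (∀ z ∈ U, z.im ≠ 0 → DifferentiableAt ℂ f z) → DifferentiableOn ℂ f U

/-- GLQ: functions holomorphic off both axes and continuous are holomorphic. -/
def Stmt_GLQ : Prop :=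
  ∀ {E : Type} [NormedAddCommGroup E] [NormedSpace ℂ E] [CompleteSpace E] (f : ℂ → E)
    (U : Set ℂ), IsOpen U → ContinuousOn f U →
    (∀ z ∈ U, z.im ≠ 0 → z.re ≠ 0 → DifferentiableAt ℂ f z) → DifferentiableOn ℂ f U

/-- ERR: reflection across the real axis, real or imaginary values (`σ = 1` or `σ = -1`). -/
def Stmt_ERR : Prop :=
  ∀ (ρ σ : ℝ) (f : ℂ → ℂ), 0 < ρ → (σ = 1 ∨ σ = -1) →
    ContinuousOn f {w | ‖w‖ < ρ ∧ 0 ≤ w.im} → DifferentiableOn ℂ f {w | ‖w‖ < ρ ∧ 0 < w.im} →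
    (∀ x : ℝ, |x| < ρ → f x = σ * (starRingEnd ℂ) (f x)) →
    ∃ g : ℂ → ℂ, DifferentiableOn ℂ g (Metric.ball 0 ρ) ∧
      (∀ w : ℂ, ‖w‖ < ρ → 0 ≤ w.im → g w = f w) ∧
      ∀ w : ℂ, ‖w‖ < ρ → g ((starRingEnd ℂ) w) = σ * (starRingEnd ℂ) (g w)

/-- ERU: reflection across the real axis, values on the unit circle. -/
def Stmt_ERU : Prop :=
  ∀ (ρ : ℝ) (f : ℂ → ℂ), 0 < ρ →
    ContinuousOn f {w | ‖w‖ < ρ ∧ 0 ≤ w.im} → DifferentiableOn ℂ f {w | ‖w‖ < ρ ∧ 0 < w.im} →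
    (∀ w : ℂ, ‖w‖ < ρ → 0 ≤ w.im → f w ≠ 0) → (∀ x : ℝ, |x| < ρ → ‖f x‖ = 1) →
    ∃ g : ℂ → ℂ, DifferentiableOn ℂ g (Metric.ball 0 ρ) ∧
      (∀ w : ℂ, ‖w‖ < ρ → 0 ≤ w.im → g w = f w) ∧ (∀ w : ℂ, ‖w‖ < ρ → g w ≠ 0) ∧
      ∀ w : ℂ, ‖w‖ < ρ → g ((starRingEnd ℂ) w) = ((starRingEnd ℂ) (g w))⁻¹

/-- EQR: reflections across both axes, real or imaginary values. -/
def Stmt_EQR : Prop :=
  ∀ (ρ σ τ : ℝ) (f : ℂ → ℂ), 0 < ρ → (σ = 1 ∨ σ = -1) → (τ = 1 ∨ τ = -1) →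
    ContinuousOn f {w | ‖w‖ < ρ ∧ 0 ≤ w.re ∧ 0 ≤ w.im} →
    DifferentiableOn ℂ f {w | ‖w‖ < ρ ∧ 0 < w.re ∧ 0 < w.im} →
    (∀ x : ℝ, 0 ≤ x → x < ρ → f x = σ * (starRingEnd ℂ) (f x)) →
    (∀ x : ℝ, 0 ≤ x → x < ρ → f (x * Complex.I) = τ * (starRingEnd ℂ) (f (x * Complex.I))) →
    ∃ g : ℂ → ℂ, DifferentiableOn ℂ g (Metric.ball 0 ρ) ∧
      (∀ w : ℂ, ‖w‖ < ρ → 0 ≤ w.re → 0 ≤ w.im → g w = f w) ∧
      (∀ w : ℂ, ‖w‖ < ρ → g ((starRingEnd ℂ) w) = σ * (starRingEnd ℂ) (g w)) ∧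
      ∀ w : ℂ, ‖w‖ < ρ → g (-(starRingEnd ℂ) w) = τ * (starRingEnd ℂ) (g w)

/-- EQU: reflections across both axes, real values on the real axis and values on the unit circle
on the imaginary axis. -/
def Stmt_EQU : Prop :=
  ∀ (ρ : ℝ) (f : ℂ → ℂ), 0 < ρ →
    ContinuousOn f {w | ‖w‖ < ρ ∧ 0 ≤ w.re ∧ 0 ≤ w.im} →
    DifferentiableOn ℂ f {w | ‖w‖ < ρ ∧ 0 < w.re ∧ 0 < w.im} →
    (∀ w : ℂ, ‖w‖ < ρ → 0 ≤ w.re → 0 ≤ w.im → f w ≠ 0) →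
    (∀ x : ℝ, 0 ≤ x → x < ρ → f x = (starRingEnd ℂ) (f x)) →
    (∀ x : ℝ, 0 ≤ x → x < ρ → ‖f (x * Complex.I)‖ = 1) →
    ∃ g : ℂ → ℂ, DifferentiableOn ℂ g (Metric.ball 0 ρ) ∧
      (∀ w : ℂ, ‖w‖ < ρ → 0 ≤ w.re → 0 ≤ w.im → g w = f w) ∧ (∀ w : ℂ, ‖w‖ < ρ → g w ≠ 0) ∧
      (∀ w : ℂ, ‖w‖ < ρ → g ((starRingEnd ℂ) w) = (starRingEnd ℂ) (g w)) ∧
      ∀ w : ℂ, ‖w‖ < ρ → g (-(starRingEnd ℂ) w) = ((starRingEnd ℂ) (g w))⁻¹

/-- EPR: recovering `F` from `F' Q = P'`. -/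
def Stmt_EPR : Prop :=
  ∀ (ρ : ℝ) (S : Set ℂ) (P : ℂ → Fin 3 → ℂ) (Q : ℂ → ℂ) (f₀ : ℂ → Fin 3 → ℂ), 0 < ρ →
    Convex ℝ S → IsOpen S → S ⊆ Metric.ball 0 ρ → (0 : ℂ) ∈ closure S →
    DifferentiableOn ℂ P (Metric.ball 0 ρ) → DifferentiableOn ℂ Q (Metric.ball 0 ρ) →
    (∀ z ∈ Metric.ball (0 : ℂ) ρ, Q z ≠ 0) →
    ContinuousOn f₀ (closure S ∩ Metric.ball 0 ρ) → DifferentiableOn ℂ f₀ S →
    (∀ z ∈ S, ∀ j, deriv (fun w => f₀ w j) z * Q z = deriv (fun w => P w j) z) →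
    ∃ G : ℂ → Fin 3 → ℂ, DifferentiableOn ℂ G (Metric.ball 0 ρ) ∧
      (∀ z ∈ Metric.ball (0 : ℂ) ρ, ∀ j,
        deriv (fun w => G w j) z * Q z = deriv (fun w => P w j) z) ∧
      ∀ z ∈ closure S ∩ Metric.ball (0 : ℂ) ρ, G z = f₀ z

/-- ESL: the free boundary condition from `P = Q Y` (`u = 1`: real axis, `u = i`: imaginary
axis). -/
def Stmt_ESL : Prop :=
  ∀ (ρ : ℝ) (u : ℂ) (Q : ℂ → ℂ) (Y G : ℂ → Fin 3 → ℂ), 0 < ρ → ‖u‖ = 1 →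
    DifferentiableOn ℂ Q (Metric.ball 0 ρ) → DifferentiableOn ℂ Y (Metric.ball 0 ρ) →
    (∀ x : ℝ, |x| < ρ → ‖Q (x * u)‖ = 1 ∧ ∀ j, (Y (x * u) j).im = 0) →
    (∀ z ∈ Metric.ball (0 : ℂ) ρ, ∀ j,
      deriv (fun w => G w j) z * Q z = deriv (fun w => Q w * Y w j) z) →
    ∀ x : ℝ, |x| < ρ → ∃ κ : ℝ, ∀ j,
      (u * deriv (fun w => G w j) (x * u)).im = κ * (Y (x * u) j).re

/-- PSI: the local coordinate. -/
def Stmt_PSI : Prop :=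
  ∀ θ : ℝ, (∀ w : ℂ, ‖w‖ < 1 → 0 ≤ w.im → psi θ w ∈ Metric.closedBall (0 : ℂ) 1) ∧
    (∀ w : ℂ, ‖w‖ < 1 → 0 < w.im → psi θ w ∈ Metric.ball (0 : ℂ) 1) ∧
    (∀ w : ℂ, ‖w‖ < 1 → DifferentiableAt ℂ (psi θ) w) ∧
    (∀ w : ℂ, ‖w‖ < 1 → deriv (psi θ) w ≠ 0) ∧ psi θ 0 = ep 1 θ ∧
    ∀ s : ℝ, psi θ s = ep 1 (θ + 2 * Real.arctan s)

/-! ## Boundary data -/

/-- `F` is holomorphic in the disc, continuous on the closed disc, absolutely continuous on the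
circle, with derivative `f`. -/
structure Reg (F : ℂ → Fin 3 → ℂ) (f : ℝ → Fin 3 → ℂ) : Prop where
  cont : ContinuousOn F (Metric.closedBall 0 1)
  diff : DifferentiableOn ℂ F (Metric.ball 0 1)
  bd : BdL (deriv F) f
  ftc : ∀ s t : ℝ, F (ep 1 t) - F (ep 1 s) = ∫ u in s..t, f u

/-- The closed arc `[a, c]` is mapped to the sphere, with normal derivative parallel to `X`. -/
def HArc (F : ℂ → Fin 3 → ℂ) (f : ℝ → Fin 3 → ℂ) (a c : ℝ) : Prop :=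
  (∀ t ∈ Icc a c, ∑ j, (F (ep 1 t) j).re ^ 2 = 1) ∧
    ∀ᵐ t, t ∈ Ioo a c → ∀ j, (f t j).im =
      (∑ k, (F (ep 1 t) k).re * (f t k).im) * (F (ep 1 t) j).re

/-- The closed arc `[a, c]` is mapped to the plane `x_i = 0`, orthogonally. -/
def WArc (F : ℂ → Fin 3 → ℂ) (i : Fin 3) (a c : ℝ) : Prop :=
  (∀ t ∈ Icc a c, (F (ep 1 t) i).re = 0) ∧
    ∀ j, j ≠ i → ∀ s ∈ Icc a c, ∀ t ∈ Icc a c, (F (ep 1 t) j).im = (F (ep 1 s) j).im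

/-! ## The linear equation of a null curve -/

/-- `(P, Q) ↦ (f Q, f · P)`. -/
noncomputable def AA (f : Fin 3 → ℂ) : (Fin 3 → ℂ) × ℂ →L[ℂ] (Fin 3 → ℂ) × ℂ :=
  LinearMap.toContinuousLinearMap
    { toFun := fun m => (fun j => f j * m.2, ∑ j, f j * m.1 j)
      map_add' := fun m n => by
        refine Prod.ext (funext fun j => ?_) ?_
        · change f j * (m.2 + n.2) = f j * m.2 + f j * n.2
          ring
        · change ∑ j, f j * (m.1 j + n.1 j) = ∑ j, f j * m.1 j + ∑ j, f j * n.1 j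
          rw [← Finset.sum_add_distrib]
          exact Finset.sum_congr rfl fun j _ => by ring
      map_smul' := fun c m => by
        refine Prod.ext (funext fun j => ?_) ?_
        · change f j * (c * m.2) = c * (f j * m.2)
          ring
        · change ∑ j, f j * (c * m.1 j) = c * ∑ j, f j * m.1 j
          rw [Finset.mul_sum]
          exact Finset.sum_congr rfl fun j _ => by ring }

@[simp] theorem AA_fst (f : Fin 3 → ℂ) (m : (Fin 3 → ℂ) × ℂ) (j : Fin 3) :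
    (AA f m).1 j = f j * m.2 := rfl

@[simp] theorem AA_snd (f : Fin 3 → ℂ) (m : (Fin 3 → ℂ) × ℂ) :
    (AA f m).2 = ∑ j, f j * m.1 j := rfl

/-- `(P, Q)` is a solution of `P' = F' Q`, `Q' = F' · P`, up to the circle. -/
structure Sol (F : ℂ → Fin 3 → ℂ) (f : ℝ → Fin 3 → ℂ) (m : ℂ → (Fin 3 → ℂ) × ℂ) : Prop where
  cont : ContinuousOn m (Metric.closedBall 0 1)
  diff : ∀ z ∈ Metric.ball (0 : ℂ) 1, HasDerivAt m (AA (deriv F z) (m z)) z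
  ftc : ∀ s t : ℝ, m (ep 1 t) = m (ep 1 s) + ∫ u in s..t, AA (f u) (m (ep 1 u))

/-- ESO: solutions with given value on the circle. -/
def Stmt_ESO : Prop :=
  ∀ (F : ℂ → Fin 3 → ℂ) (f : ℝ → Fin 3 → ℂ), Reg F f → ∀ (t₀ : ℝ) (v : (Fin 3 → ℂ) × ℂ),
    ∃ m, Sol F f m ∧ m (ep 1 t₀) = v

/-- EHS: the solution on an `H` arc. -/
def Stmt_EHS : Prop :=
  ∀ (F : ℂ → Fin 3 → ℂ) (f : ℝ → Fin 3 → ℂ) (a c t₀ : ℝ), Reg F f → HArc F f a c →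
    t₀ ∈ Icc a c → ∀ m, Sol F f m →
      m (ep 1 t₀) = (fun j => ((F (ep 1 t₀) j).re : ℂ), 1) →
      ∀ t ∈ Icc a c, ‖(m (ep 1 t)).2‖ = 1 ∧
        ∀ j, (m (ep 1 t)).1 j = (m (ep 1 t)).2 * ((F (ep 1 t) j).re : ℂ)

/-- EWS: the solution on a `W i` arc, starting at a point with `X i = 0`. -/
def Stmt_EWS : Prop :=
  ∀ (F : ℂ → Fin 3 → ℂ) (f : ℝ → Fin 3 → ℂ) (i : Fin 3) (a c t₀ : ℝ), Reg F f → WArc F i a c →
    t₀ ∈ Icc a c → ∀ m, Sol F f m →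
      m (ep 1 t₀) = (fun j => ((F (ep 1 t₀) j).re : ℂ), 1) →
      ∀ t ∈ Icc a c, (m (ep 1 t)).2.im = 0 ∧ ((m (ep 1 t)).1 i).re = 0 ∧
        ∀ j, j ≠ i → ((m (ep 1 t)).1 j).im = 0

/-! ## Local extensions -/

/-- Extension in the coordinate `w`. -/
def ExtA (F : ℂ → Fin 3 → ℂ) (θ : ℝ) (G : ℂ → Fin 3 → ℂ) (ρ : ℝ) : Prop :=
  0 < ρ ∧ ρ < 1 ∧ DifferentiableOn ℂ G (Metric.ball 0 ρ) ∧
    ∀ w : ℂ, ‖w‖ < ρ → 0 ≤ w.im → G w = F (psi θ w)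

/-- Extension in the coordinate `ζ`, `w = ζ²`. -/
def ExtB (F : ℂ → Fin 3 → ℂ) (θ : ℝ) (G : ℂ → Fin 3 → ℂ) (ρ : ℝ) : Prop :=
  0 < ρ ∧ ρ < 1 ∧ DifferentiableOn ℂ G (Metric.ball 0 ρ) ∧
    ∀ ζ : ℂ, ‖ζ‖ < ρ → 0 ≤ ζ.re → 0 ≤ ζ.im → G ζ = F (psi θ (ζ ^ 2))

/-- Reflection across the real axis. -/
def SymR (i : Fin 3) (G : ℂ → Fin 3 → ℂ) (ρ : ℝ) : Prop :=
  ∀ j, ∀ w : ℂ, ‖w‖ < ρ →
    (G ((starRingEnd ℂ) w) j).re = (if j = i then -1 else 1) * (G w j).re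

/-- Reflection across the imaginary axis. -/
def SymI (i : Fin 3) (G : ℂ → Fin 3 → ℂ) (ρ : ℝ) : Prop :=
  ∀ j, ∀ w : ℂ, ‖w‖ < ρ →
    (G (-(starRingEnd ℂ) w) j).re = (if j = i then -1 else 1) * (G w j).re

/-- The real axis is mapped to the sphere, orthogonally. -/
def SphR (G : ℂ → Fin 3 → ℂ) (ρ : ℝ) : Prop :=
  ∀ x : ℝ, |x| < ρ → ∑ j, (G (x : ℂ) j).re ^ 2 = 1 ∧
    ∃ κ : ℝ, ∀ j, (deriv (fun w => G w j) (x : ℂ)).im = κ * (G (x : ℂ) j).re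

/-- The imaginary axis is mapped to the sphere, orthogonally. -/
def SphI (G : ℂ → Fin 3 → ℂ) (ρ : ℝ) : Prop :=
  ∀ x : ℝ, |x| < ρ → ∑ j, (G ((x : ℂ) * Complex.I) j).re ^ 2 = 1 ∧
    ∃ κ : ℝ, ∀ j, (deriv (fun w => G w j) ((x : ℂ) * Complex.I)).re =
      κ * (G ((x : ℂ) * Complex.I) j).re

/-- EHE: interior points of an `H` arc. -/
def Stmt_EHE : Prop :=
  ∀ (F : ℂ → Fin 3 → ℂ) (f : ℝ → Fin 3 → ℂ) (a c t₀ : ℝ), Reg F f → HArc F f a c →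
    t₀ ∈ Ioo a c → ∃ G ρ, ExtA F t₀ G ρ ∧ SphR G ρ

/-- EWE: interior points of a `W i` arc. -/
def Stmt_EWE : Prop :=
  ∀ (F : ℂ → Fin 3 → ℂ) (f : ℝ → Fin 3 → ℂ) (i : Fin 3) (a c t₀ : ℝ), Reg F f → WArc F i a c →
    t₀ ∈ Ioo a c → ∃ G ρ, ExtA F t₀ G ρ ∧ SymR i G ρ

/-- EHW: junctions, `H` on the left, `W i` on the right. -/
def Stmt_EHW : Prop :=
  ∀ (F : ℂ → Fin 3 → ℂ) (f : ℝ → Fin 3 → ℂ) (i : Fin 3) (a c t₀ : ℝ), Reg F f →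
    a < t₀ → t₀ < c → HArc F f a t₀ → WArc F i t₀ c →
    ∃ G ρ, ExtB F t₀ G ρ ∧ SymR i G ρ ∧ SphI G ρ

/-- EWH: junctions, `W i` on the left, `H` on the right. -/
def Stmt_EWH : Prop :=
  ∀ (F : ℂ → Fin 3 → ℂ) (f : ℝ → Fin 3 → ℂ) (i : Fin 3) (a c t₀ : ℝ), Reg F f →
    a < t₀ → t₀ < c → WArc F i a t₀ → HArc F f t₀ c →
    ∃ G ρ, ExtB F t₀ G ρ ∧ SymI i G ρ ∧ SphR G ρ

/-- EWW: corners, `W i` on the left, `W j` on the right. -/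
def Stmt_EWW : Prop :=
  ∀ (F : ℂ → Fin 3 → ℂ) (f : ℝ → Fin 3 → ℂ) (i j : Fin 3) (a c t₀ : ℝ), Reg F f → i ≠ j →
    a < t₀ → t₀ < c → WArc F i a t₀ → WArc F j t₀ c →
    ∃ G ρ, ExtB F t₀ G ρ ∧ SymI i G ρ ∧ SymR j G ρ

/-! ## From critical maps -/

/-- ERG: the regularity of block D for triples. -/
def Stmt_ERG : Prop :=
  ∀ (X : Fin 3 → ℝ → ℝ) (f : Fin 3 → ℝ → ℂ), (∀ i, BdF (X i) (f i)) →
    Reg (fun z i => Fx (X i) z) (fun t i => f i t)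

/-- EAH: `H` edges are `HArc`s (`a < c`, all points of the open arc are on the edge). -/
def Stmt_EAH : Prop :=
  ∀ {D : Dat} {X : Fin 3 → ℝ → ℝ} {lam : ℝ → ℝ} {T : Fin 3 → ℝ → ℝ}, D.Tm → Crit D X lam T →
    ∀ f : Fin 3 → ℝ → ℂ, (∀ i, BdF (X i) (f i) ∧ ∀ᵐ t, (f i t).im = T i t) →
    ∀ a c : ℝ, a < c → (∀ s ∈ Ioo a c, OnEdge D s Edge.H) →
    HArc (fun z i => Fx (X i) z) (fun t i => f i t) a c

/-- EAW: `W i` edges are `WArc`s. -/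
def Stmt_EAW : Prop :=
  ∀ {D : Dat} {X : Fin 3 → ℝ → ℝ} {lam : ℝ → ℝ} {T : Fin 3 → ℝ → ℝ}, D.Tm → Crit D X lam T →
    ∀ f : Fin 3 → ℝ → ℂ, (∀ i, BdF (X i) (f i) ∧ ∀ᵐ t, (f i t).im = T i t) →
    ∀ (i : Fin 3) (a c : ℝ), a < c → (∀ s ∈ Ioo a c, OnEdge D s (Edge.W i)) →
    WArc (fun z i => Fx (X i) z) i a c

/-- The free boundary condition in the coordinate of an extension, along the real axis. -/
def OrtR (G : Fin 3 → ℂ → ℂ) (ρ : ℝ) : Prop :=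
  ∀ x : ℝ, |x| < ρ → ∃ κ : ℝ, ∀ j, (deriv (G j) (x : ℂ)).im = κ * (G j (x : ℂ)).re

/-- The free boundary condition in the coordinate of an extension, along the imaginary axis. -/
def OrtI (G : Fin 3 → ℂ → ℂ) (ρ : ℝ) : Prop :=
  ∀ x : ℝ, |x| < ρ → ∃ κ : ℝ, ∀ j, (deriv (G j) ((x : ℂ) * Complex.I)).re =
    κ * (G j ((x : ℂ) * Complex.I)).re

/-- E1: regularity inside the edges. -/
def Stmt_E1 : Prop :=
  ∀ {D : Dat} {X : Fin 3 → ℝ → ℝ} {lam : ℝ → ℝ} {T : Fin 3 → ℝ → ℝ}, D.Tm → Crit D X lam T →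
    ∀ (θ : ℝ) (e : Edge), EdgeR D θ e → EdgeL D θ e →
      ∃ (ρ : ℝ) (G : Fin 3 → ℂ → ℂ), LocReg X θ e ρ G ∧ (e = Edge.H → OrtR G ρ)

/-- E2: regularity at the junctions and corners. -/
def Stmt_E2 : Prop :=
  ∀ {D : Dat} {X : Fin 3 → ℝ → ℝ} {lam : ℝ → ℝ} {T : Fin 3 → ℝ → ℝ}, D.Tm → Crit D X lam T →
    ∀ (θ : ℝ) (eR eL : Edge), eR ≠ eL → EdgeR D θ eR → EdgeL D θ eL →
      ∃ (ρ : ℝ) (G : Fin 3 → ℂ → ℂ), LocCor X θ eR eL ρ G ∧ (eR = Edge.H → OrtR G ρ) ∧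
        (eL = Edge.H → OrtI G ρ)

end Pool.Agent.FBM
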