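import Pool.Agent.FBM.Top
import Pool.Agent.FBM.StmtE

/-!
# Blocks D and E: the statements used by the other blocks
-/

open MeasureTheory Set Filter Topology
open scoped Real

namespace Pool.Agent.FBM

theorem ep_one (t : ℝ) : ep 1 t = Complex.exp (t * Complex.I) := by
  rw [ep, Complex.ofReal_one, one_mul]

theorem bdC_of_bdF {u T : ℝ → ℝ} {f : ℝ → ℂ} (h : BdF u f) (hT : ∀ᵐ t, (f t).im = T t) :
    BdC u T f where
  cont := h.cont
  eq z hz := h.eq z (by simpa using hz)
  an := h.diff.congr fun z hz => (h.eq z hz).symm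
  re := by
    have h1 := ae_restrict_of_ae (s := Ioc (-π) π) h.re
    filter_upwards [h1] with t ht
    rw [← ep_one]
    exact ht
  per := h.per
  int := h.int
  im := ae_restrict_of_ae hT
  ftc s t _ := by
    rw [← ep_one, ← ep_one]
    exact h.ftc s t
  lim := by
    refine h.lim.congr' ?_
    have h1 : ∀ᶠ r : ℝ in 𝓝[<] (1 : ℝ), -1 < r ∧ r < 1 := by
      have h2 : ∀ᶠ r : ℝ in 𝓝[<] (1 : ℝ), -1 < r :=
        mem_nhdsWithin_of_mem_nhds (Ioi_mem_nhds (by norm_num))
      exact h2.and self_mem_nhdsWithin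
    filter_upwards [h1] with r hr
    refine integral_congr_ae (ae_of_all _ fun t => ?_)
    have hmem : ep r t ∈ Metric.ball (0 : ℂ) 1 := by
      rw [Metric.mem_ball, dist_zero_right, ep, norm_mul, Complex.norm_real,
        Complex.norm_exp_ofReal_mul_I, mul_one, Real.norm_eq_abs, abs_lt]
      exact hr
    have hd : deriv (Fx u) (ep r t) = deriv (hz u) (ep r t) := by
      refine Filter.EventuallyEq.deriv_eq ?_
      filter_upwards [Metric.isOpen_ball.mem_nhds hmem] with z hz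
      exact h.eq z hz
    change ‖Complex.I * ep r t * deriv (Fx u) (ep r t) - f t‖ =
      ‖Complex.I * ep r t * deriv (hz u) (ep r t) - f t‖
    rw [hd]

theorem d_bd (h : Stmt_D) : Stmt_D_bd := by
  intro D X lam T _ hC i
  obtain ⟨f, hf⟩ := h hC
  exact ⟨f i, bdC_of_bdF (hf i).1 (hf i).2⟩

theorem e_reg (h : Stmt_E1) : Stmt_E_reg := by
  intro D X lam T hT hC θ e h1 h2
  obtain ⟨ρ, G, hG, hO⟩ := h hT hC θ e h1 h2
  exact ⟨ρ, G, hG, fun he => hO he⟩

theorem e_cor (h : Stmt_E2) : Stmt_E_cor := by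
  intro D X lam T hT hC θ eR eL h1 h2 hne
  obtain ⟨ρ, G, hG, hO, hO'⟩ := h hT hC θ eR eL hne h1 h2
  exact ⟨ρ, G, hG, fun he => hO he, fun he => hO' he⟩

end Pool.Agent.FBM
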