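import Pool.Agent.FBM.DE
import Pool.Agent.FBM.D.DEN
import Pool.Agent.FBM.D.DPK
import Pool.Agent.FBM.D.DHR
import Pool.Agent.FBM.D.DHS
import Pool.Agent.FBM.D.DHD
import Pool.Agent.FBM.D.DPT
import Pool.Agent.FBM.D.DPM
import Pool.Agent.FBM.D.DPC
import Pool.Agent.FBM.D.DPL
import Pool.Agent.FBM.D.DPA
import Pool.Agent.FBM.D.DTA
import Pool.Agent.FBM.D.DSG
import Pool.Agent.FBM.D.DDT
import Pool.Agent.FBM.D.DCB
import Pool.Agent.FBM.D.DEQ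
import Pool.Agent.FBM.D.DUC
import Pool.Agent.FBM.D.DXC
import Pool.Agent.FBM.D.DRE
import Pool.Agent.FBM.D.DLE
import Pool.Agent.FBM.D.DAC
import Pool.Agent.FBM.D.DLM
import Pool.Agent.FBM.D.DBF
import Pool.Agent.FBM.D.DIM
import Pool.Agent.FBM.D.D
import Pool.Agent.FBM.E.OCX
import Pool.Agent.FBM.E.OGR
import Pool.Agent.FBM.E.OUN
import Pool.Agent.FBM.E.OLM
import Pool.Agent.FBM.E.OBD
import Pool.Agent.FBM.E.IBP
import Pool.Agent.FBM.E.EXA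
import Pool.Agent.FBM.E.GLU
import Pool.Agent.FBM.E.GLQ
import Pool.Agent.FBM.E.ERR
import Pool.Agent.FBM.E.ERU
import Pool.Agent.FBM.E.EQR
import Pool.Agent.FBM.E.EQU
import Pool.Agent.FBM.E.EPR
import Pool.Agent.FBM.E.ESL
import Pool.Agent.FBM.E.PSI
import Pool.Agent.FBM.E.ESO
import Pool.Agent.FBM.E.EHS
import Pool.Agent.FBM.E.EWS
import Pool.Agent.FBM.E.EHE
import Pool.Agent.FBM.E.EWE
import Pool.Agent.FBM.E.EHW
import Pool.Agent.FBM.E.EWH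
import Pool.Agent.FBM.E.EWW
import Pool.Agent.FBM.E.ERG
import Pool.Agent.FBM.E.EAH
import Pool.Agent.FBM.E.EAW
import Pool.Agent.FBM.E.E1
import Pool.Agent.FBM.E.E2

/-!
# Blocks D and E: assembly
-/

namespace Pool.Agent.FBM

theorem k_DPK : Stmt_DPK := t_DPK
theorem k_DHR : Stmt_DHR := t_DHR k_DPK
theorem k_DHS : Stmt_DHS := t_DHS
theorem k_DHD : Stmt_DHD := t_DHD k_DHS
theorem k_DPT : Stmt_DPT := t_DPT
theorem k_DPC : Stmt_DPC := t_DPC k_DPK k_DPT t_DPM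
theorem k_DPL : Stmt_DPL := t_DPL k_DPK k_DPT k_DPC
theorem k_DPA : Stmt_DPA := t_DPA k_DPK k_DHR k_DPT
theorem k_DDT (h : Stmt_A_cos) : Stmt_DDT := t_DDT (t_DEN h) k_DHS
theorem k_DCB (h : Stmt_A_cos) : Stmt_DCB := t_DCB (k_DDT h) k_DHR k_DPK
theorem k_DEQ : Stmt_DEQ := t_DEQ k_DHD k_DPA t_DTA
theorem k_DUC : Stmt_DUC := t_DUC k_DHD k_DEQ k_DPC t_DSG
theorem k_DRE : Stmt_DRE := t_DRE k_DPL k_DHR
theorem k_DLE : Stmt_DLE := t_DLE k_DHD k_DPL k_DHR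
theorem k_DLM : Stmt_DLM := t_DLM k_DPK k_DPT k_DPL t_DSG
theorem k_DBF : Stmt_DBF := t_DBF k_DHD k_DUC t_DXC k_DRE k_DLE t_DAC k_DLM
theorem k_DIM : Stmt_DIM := t_DIM k_DPK k_DHR k_DPL
theorem k_D (h : Stmt_A_cos) : Stmt_D := t_D (k_DDT h) (k_DCB h) k_DBF k_DIM

theorem k_OUN : Stmt_OUN := t_OUN t_OGR
theorem k_OLM : Stmt_OLM := t_OLM t_OGR
theorem k_OBD : Stmt_OBD := t_OBD t_OCX k_OLM
theorem k_EXA : Stmt_EXA := t_EXA t_IBP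
theorem k_GLQ : Stmt_GLQ := t_GLQ t_GLU
theorem k_ERR : Stmt_ERR := t_ERR t_GLU
theorem k_ERU : Stmt_ERU := t_ERU t_GLU
theorem k_EQR : Stmt_EQR := t_EQR k_GLQ
theorem k_EQU : Stmt_EQU := t_EQU k_GLQ
theorem k_ESO : Stmt_ESO := t_ESO k_OBD
theorem k_EHS : Stmt_EHS := t_EHS k_OUN t_IBP k_EXA
theorem k_EWS : Stmt_EWS := t_EWS k_OUN
theorem k_EHE : Stmt_EHE := t_EHE k_ESO k_EHS k_ERR k_ERU t_EPR t_ESL t_PSI
theorem k_EWE : Stmt_EWE := t_EWE k_ERR t_PSI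
theorem k_EHW : Stmt_EHW := t_EHW k_ESO k_EHS k_EWS k_EQR k_EQU t_EPR t_ESL t_PSI
theorem k_EWH : Stmt_EWH := t_EWH k_EHW
theorem k_EWW : Stmt_EWW := t_EWW k_EQR t_PSI
theorem k_E1 (h : Stmt_A_cos) : Stmt_E1 := t_E1 (k_D h) t_ERG t_EAH t_EAW k_EHE k_EWE
theorem k_E2 (h : Stmt_A_cos) : Stmt_E2 :=
  t_E2 (k_D h) t_ERG t_EAH t_EAW k_EHW k_EWH k_EWW

/-- Block D. -/
theorem k_D_bd (h : Stmt_A_cos) : Stmt_D_bd := d_bd (k_D h)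

/-- Block E, interior points of edges. -/
theorem k_E_reg (h : Stmt_A_cos) : Stmt_E_reg := e_reg (k_E1 h)

/-- Block E, corners and junctions. -/
theorem k_E_cor (h : Stmt_A_cos) : Stmt_E_cor := e_cor (k_E2 h)

end Pool.Agent.FBM
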