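import Mathlib

/-!
# Shared definitions of project FBM (problem MP_947d36_gt)

Functions on the circle are `2π`-periodic functions on `ℝ`; `cm` is Lebesgue measure on one
period.  `en f g` is the Douglas form (the Dirichlet form of the harmonic extensions).
-/

open MeasureTheory Set Filter Topology
open scoped Real

namespace Pool.Agent.FBM

/-- Lebesgue measure on one period. -/
noncomputable def cm : Measure ℝ := volume.restrict (Ioc (-π) π)

/-- its square -/
noncomputable def cm2 : Measure (ℝ × ℝ) := cm.prod cm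

/-- the Douglas kernel `1/|e^{is}-e^{it}|^2` -/
noncomputable def J (s t : ℝ) : ℝ := 1 / (4 * Real.sin ((s - t) / 2) ^ 2)

/-- bounded measurable periodic functions of finite Douglas energy -/
structure FE (f : ℝ → ℝ) : Prop where
  meas : Measurable f
  per : Function.Periodic f (2 * π)
  bdd : ∃ C, ∀ t, |f t| ≤ C
  fin : Integrable (fun p : ℝ × ℝ => J p.1 p.2 * (f p.1 - f p.2) ^ 2) cm2

/-- the Douglas form, `= ∫_D ∇f·∇g` for the harmonic extensions -/
noncomputable def en (f g : ℝ → ℝ) : ℝ :=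
  (1 / (2 * π)) * ∫ p, J p.1 p.2 * ((f p.1 - f p.2) * (g p.1 - g p.2)) ∂cm2

/-- energy form of triples -/
noncomputable def ven (X Y : Fin 3 → ℝ → ℝ) : ℝ := ∑ i, en (X i) (Y i)

/-- A periodic measurable set which is locally constant on each side of each point. -/
structure Tame (S : Set ℝ) : Prop where
  meas : MeasurableSet S
  per : ∀ t, t + 2 * π ∈ S ↔ t ∈ S
  right : ∀ t, (∀ᶠ s in 𝓝[>] t, s ∈ S) ∨ (∀ᶠ s in 𝓝[>] t, s ∉ S)
  left : ∀ t, (∀ᶠ s in 𝓝[<] t, s ∈ S) ∨ (∀ᶠ s in 𝓝[<] t, s ∉ S)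

/-- Boundary data: on `Z i` the `i`-th component vanishes, on `H` the map has norm one. -/
structure Dat where
  Z : Fin 3 → Set ℝ
  H : Set ℝ

/-- tame boundary data -/
structure Dat.Tm (D : Dat) : Prop where
  tZ : ∀ i, Tame (D.Z i)
  tH : Tame D.H

/-- Admissible boundary maps. -/
structure Adm (D : Dat) (X : Fin 3 → ℝ → ℝ) : Prop where
  fe : ∀ i, FE (X i)
  zero : ∀ i, ∀ᵐ t ∂cm, t ∈ D.Z i → X i t = 0
  one : ∀ᵐ t ∂cm, t ∈ D.H → ∑ i, X i t ^ 2 = 1

/-- Admissible maps with values in the closed octant of the closed unit ball, everywhere, and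
satisfying the zero conditions everywhere. -/
structure Oct (D : Dat) (X : Fin 3 → ℝ → ℝ) : Prop where
  adm : Adm D X
  nonneg : ∀ i t, 0 ≤ X i t
  le_one : ∀ t, ∑ i, X i t ^ 2 ≤ 1
  zeroE : ∀ i, ∀ t ∈ D.Z i, X i t = 0

/-- minimal energy of admissible maps -/
noncomputable def Emin (D : Dat) : ℝ := sInf {r : ℝ | ∃ X, Adm D X ∧ ven X X = r}

/-- normalised minimisers -/
structure IsMin (D : Dat) (X : Fin 3 → ℝ → ℝ) : Prop where
  oct : Oct D X
  min : ∀ Y, Adm D Y → ven X X ≤ ven Y Y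

/-- Minimisers together with their Euler-Lagrange equations.  `lam` is the multiplier, `T i` is
the normal derivative of the `i`-th component. -/
structure EL (D : Dat) (X : Fin 3 → ℝ → ℝ) (lam : ℝ → ℝ) (T : Fin 3 → ℝ → ℝ) : Prop where
  oct : Oct D X
  lam_meas : Measurable lam
  lam_per : Function.Periodic lam (2 * π)
  lam_nonneg : ∀ t, 0 ≤ lam t
  lam_int : Integrable lam cm
  lam_off : ∀ t, t ∉ D.H → lam t = 0
  lam_tot : ∫ t, lam t ∂cm = ven X X
  lam_pos : 0 < ven X X → ∀ᵐ t ∂cm, t ∈ D.H → 0 < lam t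
  T_meas : ∀ i, Measurable (T i)
  T_per : ∀ i, Function.Periodic (T i) (2 * π)
  T_int : ∀ i, Integrable (T i) cm
  T_off : ∀ i, ∀ t, t ∉ D.Z i → T i t = lam t * X i t
  T_Z : ∀ i, ∀ t ∈ D.Z i, T i t ≤ 0
  weak : ∀ i g, FE g → en (X i) g = ∫ t, T i t * g t ∂cm

/-- The Herglotz integral: holomorphic in the unit disc, its real part is the Poisson integral. -/
noncomputable def hz (f : ℝ → ℝ) (z : ℂ) : ℂ :=
  (1 / (2 * π) : ℂ) * ∫ t, ((Complex.exp (t * Complex.I) + z) / (Complex.exp (t * Complex.I) - z))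
    * (f t : ℂ) ∂cm

/-- Critical maps: Euler-Lagrange equations, positivity and conformality. -/
structure Crit (D : Dat) (X : Fin 3 → ℝ → ℝ) (lam : ℝ → ℝ) (T : Fin 3 → ℝ → ℝ) : Prop where
  el : EL D X lam T
  pos : ∀ i, ∀ t, t ∉ closure (D.Z i) → ∃ m > 0, ∃ δ > 0, ∀ᵐ s, |s - t| < δ → m ≤ X i s
  conf : ∀ z : ℂ, ‖z‖ < 1 → ∑ i, (deriv (hz (X i)) z) ^ 2 = 0

/-- periodic extension of a set -/
def pe (S : Set ℝ) : Set ℝ := {t | ∃ n : ℤ, t + n * (2 * π) ∈ S}

/-- the three sides: the corners are `0` (where component `2` is one) and `±2π/3`. -/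
def side (i : Fin 3) : Set ℝ :=
  match i with
  | 0 => pe (Ioo 0 (2 * π / 3))
  | 1 => pe (Ioo (-(2 * π / 3)) 0)
  | 2 => pe (Ioo (2 * π / 3) (4 * π / 3))

/-- the free arcs of a configuration of `m` intervals -/
def HH (m : ℕ) (a b : Fin m → ℝ) : Set ℝ := pe (⋃ k, Icc (a k) (b k))

/-- the zero sets of a configuration of `m` intervals -/
def ZZ (m : ℕ) (a b : Fin m → ℝ) (i : Fin 3) : Set ℝ :=
  match i with
  | 0 => side 0 \ HH m a b
  | 1 => side 1 \ HH m a b
  | 2 => side 2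

/-- admissible parameters of configurations -/
def Par (m : ℕ) : Set ((Fin m → ℝ) × (Fin m → ℝ)) :=
  {p | ∀ k, -(2 * π / 3) ≤ p.1 k ∧ p.1 k ≤ p.2 k ∧ p.2 k ≤ 2 * π / 3}

/-- configuration data -/
def Dcfg (m : ℕ) (a b : Fin m → ℝ) : Dat := ⟨ZZ m a b, HH m a b⟩

/-- limit data: both conditions on the whole sides `0` and `1` -/
def Dlim : Dat := ⟨side, side 0 ∪ side 1⟩

/-- the max-min energy for `m` intervals -/
noncomputable def lev (m : ℕ) : ℝ := sSup {r : ℝ | ∃ p ∈ Par m, Emin (Dcfg m p.1 p.2) = r}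

/-- energy density of the harmonic extension -/
noncomputable def dens (X : Fin 3 → ℝ → ℝ) (z : ℂ) : ℝ := ∑ i, ‖deriv (hz (X i)) z‖ ^ 2

/-- the continuous extension of the Herglotz integral to the closed disc -/
noncomputable def Fx (f : ℝ → ℝ) : ℂ → ℂ := extendFrom (Metric.ball (0 : ℂ) 1) (hz f)

/-- the point of the surface -/
noncomputable def pt (X : Fin 3 → ℝ → ℝ) (z : ℂ) (i : Fin 3) : ℝ := (Fx (X i) z).re

/-- conformal factor of the conformal map of the ball of parameter `c` along the third axis -/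
noncomputable def lc (c : ℝ) (x : Fin 3 → ℝ) : ℝ :=
  (1 - c ^ 2) / (1 - 2 * c * x 2 + c ^ 2 * ∑ i, x i ^ 2)

/-- types of boundary edges: walls `x_i = 0` and free edges on the sphere -/
inductive Edge
  | W (i : Fin 3)
  | H

/-- membership of a point in the open part of an edge of given type -/
def OnEdge (D : Dat) (s : ℝ) : Edge → Prop
  | .W i => s ∈ D.Z i ∧ s ∉ D.H ∧ ∀ j, j ≠ i → s ∉ D.Z j
  | .H => s ∈ D.H ∧ ∀ j, s ∉ D.Z j

/-- type of the edge to the right of `t` -/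
def EdgeR (D : Dat) (t : ℝ) (e : Edge) : Prop := ∀ᶠ s in 𝓝[>] t, OnEdge D s e

/-- type of the edge to the left of `t` -/
def EdgeL (D : Dat) (t : ℝ) (e : Edge) : Prop := ∀ᶠ s in 𝓝[<] t, OnEdge D s e

/-- the coordinate at the boundary point `e^{iθ}`: upper half plane to unit disc, `0 ↦ e^{iθ}`,
the positive real axis goes to the right (counterclockwise) side. -/
noncomputable def psi (θ : ℝ) (w : ℂ) : ℂ :=
  Complex.exp (θ * Complex.I) * ((1 + Complex.I * w) / (1 - Complex.I * w))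

/-- `G` satisfies at the edge `e` the condition along the real axis, in the ball of radius `ρ`:
oddness of component `i`, evenness of the others for a wall, norm one on the positive real
half-line for a free edge. -/
def OnReal (G : Fin 3 → ℂ → ℂ) (ρ : ℝ) : Edge → Prop
  | .W i => ∀ j, ∀ w : ℂ, ‖w‖ < ρ →
      (G j ((starRingEnd ℂ) w)).re = (if j = i then -1 else 1) * (G j w).re
  | .H => ∀ x : ℝ, 0 ≤ x → x < ρ → ∑ j, (G j (x : ℂ)).re ^ 2 = 1

/-- the same along the imaginary axis -/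
def OnImag (G : Fin 3 → ℂ → ℂ) (ρ : ℝ) : Edge → Prop
  | .W i => ∀ j, ∀ w : ℂ, ‖w‖ < ρ →
      (G j (-(starRingEnd ℂ) w)).re = (if j = i then -1 else 1) * (G j w).re
  | .H => ∀ x : ℝ, 0 ≤ x → x < ρ → ∑ j, (G j ((x : ℂ) * Complex.I)).re ^ 2 = 1

/-- local extension at a boundary point in the interior of an edge -/
structure LocReg (X : Fin 3 → ℝ → ℝ) (θ : ℝ) (e : Edge) (ρ : ℝ) (G : Fin 3 → ℂ → ℂ) :
    Prop where
  pos : 0 < ρ ∧ ρ < 1
  an : ∀ j, DifferentiableOn ℂ (G j) (Metric.ball 0 ρ)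
  eq : ∀ j, ∀ w : ℂ, ‖w‖ < ρ → 0 ≤ w.im → G j w = Fx (X j) (psi θ w)
  bd : OnReal G ρ e
  bd' : e = Edge.H → ∀ x : ℝ, |x| < ρ → ∑ j, (G j (x : ℂ)).re ^ 2 = 1

/-- local extension at a boundary point between edges `eR` (right, real axis) and `eL` (left,
imaginary axis) in the coordinate `ζ = √w`. -/
structure LocCor (X : Fin 3 → ℝ → ℝ) (θ : ℝ) (eR eL : Edge) (ρ : ℝ) (G : Fin 3 → ℂ → ℂ) :
    Prop where
  pos : 0 < ρ ∧ ρ < 1
  an : ∀ j, DifferentiableOn ℂ (G j) (Metric.ball 0 ρ)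
  eq : ∀ j, ∀ w : ℂ, ‖w‖ < ρ → 0 ≤ w.re → 0 ≤ w.im → G j w = Fx (X j) (psi θ (w ^ 2))
  bdR : OnReal G ρ eR
  bdL : OnImag G ρ eL

end Pool.Agent.FBM
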