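import Pool.Agent.FBM.B.BNRM
import Pool.Agent.FBM.B.BEX
import Pool.Agent.FBM.B.BFREE
import Pool.Agent.FBM.B.BROT
import Pool.Agent.FBM.B.BRED
import Pool.Agent.FBM.B.BLFO
import Pool.Agent.FBM.B.BMEA
import Pool.Agent.FBM.B.BLIN
import Pool.Agent.FBM.B.BWOF
import Pool.Agent.FBM.B.BTZF
import Pool.Agent.FBM.B.BTIN
import Pool.Agent.FBM.B.BLPO
import Pool.Agent.FBM.B.B2
import Pool.Agent.FBM.B.BSUP
import Pool.Agent.FBM.B.B3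
import Pool.Agent.FBM.B.BPAE
import Pool.Agent.FBM.B.B4
import Pool.Agent.FBM.B.B5
import Pool.Agent.FBM.B.B6

/-!
# FBM, block B, assembled
-/

open MeasureTheory Set Filter Topology
open scoped Real

namespace Pool.Agent.FBM

theorem f_B_lin (hW : Stmt_A_weak) (hC : Stmt_A_cut) : Stmt_B_lin :=
  t_B_lin hW hC t_B_free t_B_lfo t_B_mea

theorem f_B_wof (hW : Stmt_A_weak) (hC : Stmt_A_cut) : Stmt_B_wof :=
  t_B_wof hW hC t_B_free (t_B_red t_B_free t_B_rot) t_B_lfo (f_B_lin hW hC)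

theorem f_B_tin (hW : Stmt_A_weak) (hC : Stmt_A_cut) : Stmt_B_tin :=
  t_B_tin hC t_B_mea (f_B_lin hW hC) (f_B_wof hW hC) t_B_tzf

theorem f_B_ex (hF : Stmt_A_fatou) (hR : Stmt_A_rellich) : Stmt_B_ex :=
  t_B1 hF hR t_B_nrm

theorem f_B2 (hW : Stmt_A_weak) (hC : Stmt_A_cut) : Stmt_B2 :=
  t_B2 hW hC t_B_mea (f_B_lin hW hC) (f_B_wof hW hC) t_B_tzf (f_B_tin hW hC)
    (t_B_lpo hC t_B_lfo)

theorem f_B_el (hW : Stmt_A_weak) (hC : Stmt_A_cut) : Stmt_B_el :=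
  fun D X hD hX => ⟨_, _, f_B2 hW hC D hD X hX⟩

theorem f_B_pos (hcos : Stmt_A_cos) (hD : Stmt_A_disj) : Stmt_B_pos :=
  t_B3 (t_B_sup hcos hD)

theorem f_B_pae (hcos : Stmt_A_cos) (hD : Stmt_A_disj) : Stmt_B_pae :=
  t_B_pae (f_B_pos hcos hD)

theorem f_B4 (hcos : Stmt_A_cos) (hD : Stmt_A_disj) : Stmt_B4 :=
  t_B4 (f_B_pae hcos hD)

theorem f_B_pic (hcos : Stmt_A_cos) (hD : Stmt_A_disj) : Stmt_B_pic :=
  fun D X lam T hT hE i hi y hy hv => (f_B4 hcos hD D X lam T hT hE i hi y hy hv).2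

theorem f_B5 (hcos : Stmt_A_cos) (hD : Stmt_A_disj) : Stmt_B5 :=
  t_B5 (f_B4 hcos hD)

theorem f_B6 (hS : Stmt_A_sqrt) : Stmt_B6 := t_B6 hS

end Pool.Agent.FBM
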