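import Pool.Agent.FBM.C.CASM
import Pool.Agent.FBM.C.CTM
import Pool.Agent.FBM.C.CAI
import Pool.Agent.FBM.C.CAD
import Pool.Agent.FBM.C.CCT
import Pool.Agent.FBM.C.CUS
import Pool.Agent.FBM.C.CMA
import Pool.Agent.FBM.C.CPO
import Pool.Agent.FBM.C.CFI
import Pool.Agent.FBM.C.CVF
import Pool.Agent.FBM.C.CLA
import Pool.Agent.FBM.C.CLV
import Pool.Agent.FBM.C.CLN
import Pool.Agent.FBM.FinB
import Pool.Agent.FBM.ALog
import Pool.Agent.FBM.ASqrt
import Pool.Agent.FBM.ATame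
import Pool.Agent.FBM.ACos
import Pool.Agent.FBM.ARel
import Pool.Agent.FBM.AJump

/-!
# FBM, block C, part 1, assembled
-/

open MeasureTheory Set Filter Topology
open scoped Real

namespace Pool.Agent.FBM

namespace FinC1

theorem ctm : Stmt_CTM := t_CTM t_A_tame

theorem cai : Stmt_CAI := t_CAI

theorem cad : Stmt_CAD := t_CAD t_A_cos t_A_sqrt

theorem bex : Stmt_B_ex := f_B_ex t_A_fatou_60 t_A_rellich

theorem cus : Stmt_CUS :=
  t_CUS (t_CCT t_A_log t_A_sqrt t_A_prod) t_A_sqrt t_A_prod bex ctm cad cai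

theorem clv : Stmt_CLV := t_CLV cai cad t_CFI (t_CLA t_CPO t_A_sqrt) (t_CVF t_A_fatou_60)
  t_A_rellich bex ctm

end FinC1

theorem f_C_edge : Stmt_C_edge := CASM.edge FinC1.ctm

theorem f_C_att : Stmt_C_att := t_CMA FinC1.cus

theorem f_C_adm : Stmt_C_adm := CASM.adm FinC1.ctm FinC1.cad FinC1.cai

theorem f_C_lev : Stmt_C_lev :=
  CASM.levels FinC1.ctm FinC1.cad FinC1.bex (t_CLN t_A_jump t_A_const) FinC1.clv

end Pool.Agent.FBM
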