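import Pool.Agent.FBM.DEF
import Pool.Agent.FBM.ACos

/-!
# Blocks D and E: final theorems, without hypotheses
-/

namespace Pool.Agent.FBM

theorem f_D : Stmt_D := k_D t_A_cos

theorem f_D_bd : Stmt_D_bd := k_D_bd t_A_cos

theorem f_E_reg : Stmt_E_reg := k_E_reg t_A_cos

theorem f_E_cor : Stmt_E_cor := k_E_cor t_A_cos

end Pool.Agent.FBM
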