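import Pool.Agent.FBM.FinB
import Pool.Agent.FBM.FinC1
import Pool.Agent.FBM.FinDE
import Pool.Agent.FBM.ALog
import Pool.Agent.FBM.ASqrt
import Pool.Agent.FBM.ACos
import Pool.Agent.FBM.ACut
import Pool.Agent.FBM.ARel
import Pool.Agent.FBM.AWeak
import Pool.Agent.FBM.AJump
import Pool.Agent.FBM.C.CKB
import Pool.Agent.FBM.C.CQB
import Pool.Agent.FBM.C.CQL
import Pool.Agent.FBM.C.CIV
import Pool.Agent.FBM.C.CCV
import Pool.Agent.FBM.C.CPU
import Pool.Agent.FBM.C.CTR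
import Pool.Agent.FBM.C.CCL
import Pool.Agent.FBM.C.CST
import Pool.Agent.FBM.C.COC
import Pool.Agent.FBM.C.CONL
import Pool.Agent.FBM.C.CSE
import Pool.Agent.FBM.C.CSQ
import Pool.Agent.FBM.C.CMM
import Pool.Agent.FBM.C.CID
import Pool.Agent.FBM.C.CFQ
import Pool.Agent.FBM.C.CHP
import Pool.Agent.FBM.C.CMB
import Pool.Agent.FBM.C.CCF
import Pool.Agent.FBM.C.CPB
import Pool.Agent.FBM.C.CUN
import Pool.Agent.FBM.C.CAR
import Pool.Agent.FBM.C.CLI
import Pool.Agent.FBM.C.CTZ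
import Pool.Agent.FBM.C.CNZ
import Pool.Agent.FBM.C.CLS
import Pool.Agent.FBM.C.CLN
import Pool.Agent.FBM.C.CMX
import Pool.Agent.FBM.C.CLM

/-!
# FBM, block C part 2, assembled, without hypotheses
-/

open MeasureTheory Set Filter Topology
open scoped Real

namespace Pool.Agent.FBM

namespace FinC2

theorem ex : Stmt_B_ex := f_B_ex t_A_fatou t_A_rellich

theorem b2 : Stmt_B2 := f_B2 t_A_weak (t_A_cut t_A_log)

theorem b5 : Stmt_B5 := f_B5 t_A_cos t_A_disj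

theorem pos : Stmt_B_pos := f_B_pos t_A_cos t_A_disj

theorem qb : Stmt_CQB := t_CQB t_CKB

theorem ql : Stmt_CQL := t_CQL qb

theorem pu : Stmt_CPU := t_CPU t_CKB t_CCV qb

theorem tr : Stmt_CTR := t_CTR pu

theorem mb : Stmt_CMB := t_CMB ql

theorem ddt : Stmt_DDT := k_DDT t_A_cos

theorem ar : Stmt_CAR := t_CAR (t_CPB k_DHR ddt) k_DHD k_DUC t_DXC k_DRE k_DLE t_CUN

theorem mm : Stmt_CMM := t_CMM (f_B6 t_A_sqrt) qb ql t_CSE (t_CSQ t_B_emin b2 b5 t_COC)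

theorem cf : Stmt_CCF := t_CCF mb (t_CHP k_DHS (t_CFQ t_CID qb))

theorem nz : Stmt_CNZ := t_CNZ ar (t_CTZ t_CLI)

theorem on : Stmt_CON :=
  t_CON t_A_rellich (fun m p hp => (f_C_adm.2.2 m p hp).1) ex t_B_emin t_CIV pu tr
    t_CCL (t_CST t_A_weak qb) t_COC

end FinC2

/-- C1: the maximum over the configurations is attained by a critical map. -/
theorem f_C_max : Stmt_C_max :=
  t_CMX f_C_att f_C_adm FinC2.ex t_B_emin FinC2.b2 FinC2.pos FinC2.on FinC2.mm FinC2.cf FinC2.nz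

/-- C2: the limit map. -/
theorem f_C_lim : Stmt_C_lim :=
  t_CLM f_C_adm FinC2.ex t_B_emin FinC2.b2 FinC2.pos
    (t_CLS t_CIV FinC2.pu FinC2.tr) FinC2.cf (t_CLN t_A_jump t_A_const)

end Pool.Agent.FBM
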