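import Pool.Agent.FBM.StmtA

/-!
# FBM, block H: passage to the limit and the blow-up at the pole (statements)

Architect helper72.  Complete paper proofs are in the doc-strings; every module `t_X` proves
`Stmt_X` from the listed statements.  `y` is the limit map (`Crit Dlim y b T`), `X` a critical map
of a configuration.  Write `c_t = e^{it}`.
-/

open MeasureTheory Set Filter Topology
open scoped Real

namespace Pool.Agent.FBM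

/-! ## Definitions -/

/-- the point `e^{it}` of the unit circle -/
noncomputable def ci (t : ℝ) : ℂ := Complex.exp (t * Complex.I)

/-- the defect `1 - |X|^2` -/
noncomputable def dfc (X : Fin 3 → ℝ → ℝ) : ℝ → ℝ := fun t => 1 - ∑ j, X j t ^ 2

/-- the quadratic form of block B -/
noncomputable def QQ (lam f g : ℝ → ℝ) : ℝ := en f g - ∫ t, lam t * (f t * g t) ∂cm

/-- the Picone defect -/
noncomputable def PD (f x : ℝ → ℝ) : ℝ :=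
  (1 / (2 * π)) * ∫ p, J p.1 p.2 * (f p.1 * x p.2 - f p.2 * x p.1) ^ 2 ∂cm2

/-- boundary values of the harmonic extension -/
noncomputable def bv (f : ℝ → ℝ) (t : ℝ) : ℝ := (Fx f (ci t)).re

/-- the harmonic extension -/
noncomputable def hx (f : ℝ → ℝ) (z : ℂ) : ℝ := (hz f z).re

/-- Boundary regularity of block D: `f` is continuous up to the boundary, absolutely continuous
there with derivative `b`. -/
structure BdH (f : ℝ → ℝ) (b : ℝ → ℂ) : Prop where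
  cont : ContinuousOn (Fx f) (Metric.closedBall 0 1)
  eq : ∀ z : ℂ, ‖z‖ < 1 → Fx f z = hz f z
  an : DifferentiableOn ℂ (hz f) (Metric.ball 0 1)
  re : ∀ᵐ t : ℝ ∂cm, bv f t = f t
  per : Function.Periodic b (2 * π)
  int : Integrable b cm
  ftc : ∀ s t : ℝ, s ≤ t → Fx f (ci t) - Fx f (ci s) = ∫ u in s..t, b u
  lim : Tendsto (fun r : ℝ => ∫ t : ℝ, ‖Complex.I * (r * ci t) * deriv (hz f) (r * ci t) - b t‖
      ∂cm) (𝓝[<] 1) (𝓝 0)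

/-- the kernel `4 d^2 / (d^2 + s)^2` -/
noncomputable def kd (d s : ℝ) : ℝ := 4 * d ^ 2 / (d ^ 2 + s) ^ 2

/-- the constant of the comparison -/
noncomputable def kap (c ε : ℝ) : ℝ := ((1 + c) ^ 2 / 4) / (1 + 2 * ε + 2 * ε ^ 2) ^ 2

/-- square of the distance to the third axis -/
noncomputable def rs (F0 F1 : ℂ → ℂ) (z : ℂ) : ℝ := (F0 z).re ^ 2 + (F1 z).re ^ 2

/-- the Jacobian of `(Re F0, Re F1)` -/
noncomputable def jc (F0 F1 : ℂ → ℂ) (z : ℂ) : ℝ := (deriv F0 z * (starRingEnd ℂ) (deriv F1 z)).im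

/-- the 1-form `2 (x0 dx1 - x1 dx0) / (d^2 + x0^2 + x1^2)` on the circle of radius `r` -/
noncomputable def om (d : ℝ) (F0 F1 : ℂ → ℂ) (r t : ℝ) : ℝ :=
  2 * ((F0 (r * ci t)).re * (Complex.I * (r * ci t) * deriv F1 (r * ci t)).re
      - (F1 (r * ci t)).re * (Complex.I * (r * ci t) * deriv F0 (r * ci t)).re)
    / (d ^ 2 + rs F0 F1 (r * ci t))

/-- the same form on the unit circle, `u`, `v` the boundary values, `a`, `b` the derivatives -/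
noncomputable def ob (d : ℝ) (u v : ℝ → ℝ) (a b : ℝ → ℂ) (t : ℝ) : ℝ :=
  2 * (u t * (b t).re - v t * (a t).re) / (d ^ 2 + (u t ^ 2 + v t ^ 2))

/-! ## H1. Energies -/

/-- DFC: the defect has bounded energy.  Proof: measurability and periodicity are clear,
`0 ≤ 1 - |X|^2 ≤ 1`.  For vectors `a, b` of the unit ball
`(∑ (a_j^2 - b_j^2))^2 = (∑ (a_j - b_j)(a_j + b_j))^2 ≤ ∑ (a_j-b_j)^2 * ∑ (a_j+b_j)^2
≤ 4 ∑ (a_j - b_j)^2` (`Finset.sum_mul_sq_le_sq_mul_sq`, `∑ (a_j+b_j)^2 ≤ 2|a|^2+2|b|^2 ≤ 4`).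
Multiply by `J`, integrate (`FE.fin`, `integral_mono`), `en f f = (1/2π) ∫ J (f-f)^2`. -/
def Stmt_H_dfc : Prop := ∀ X : Fin 3 → ℝ → ℝ, (∀ i, FE (X i)) → (∀ t, ∑ i, X i t ^ 2 ≤ 1) →
  FE (dfc X) ∧ (∀ t, 0 ≤ dfc X t ∧ dfc X t ≤ 1) ∧ en (dfc X) (dfc X) ≤ 4 * ven X X

/-- ADM: maps which satisfy the limit conditions are admissible for all configurations.  Proof:
`ZZ m a b i ⊆ side i`.  If `t ∈ HH m a b` then `t + n 2π ∈ [a_k, b_k] ⊆ [-2π/3, 2π/3]` for some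
`n`, `k`, so `t ∈ side 0 ∪ side 1` or `t + n 2π` is one of the three numbers `0, ±2π/3`; the set of
such `t` is countable, hence a null set of `cm`; use `Oct.adm.one` of `Dlim`. -/
def Stmt_H_adm : Prop := ∀ y : Fin 3 → ℝ → ℝ, Oct Dlim y → ∀ (m : ℕ), ∀ p ∈ Par m,
  (∀ i, ∀ t ∈ (Dcfg m p.1 p.2).Z i, y i t = 0) ∧
  ∀ᵐ t ∂cm, t ∈ (Dcfg m p.1 p.2).H → ∑ i, y i t ^ 2 = 1

/-- NZ: critical maps have no component which vanishes a.e.  Proof: `Crit.pos` at a point `t` with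
`t ∉ closure (D.Z i)`; for `Dcfg` and `Dlim` one has `D.Z i ⊆ side i`, and `t = -π/3`, `π/3`, `0`
for `i = 0, 1, 2` has a neighbourhood disjoint from `side i` (all integers `n` in `pe`).  The
neighbourhood of `t` given by `pos` can be taken inside `(-π, π)` and has positive `cm` measure. -/
def Stmt_H_nz : Prop := ∀ (D : Dat) (X : Fin 3 → ℝ → ℝ) (lam : ℝ → ℝ) (T : Fin 3 → ℝ → ℝ),
  (D = Dlim ∨ ∃ m, ∃ p ∈ Par m, D = Dcfg m p.1 p.2) → Crit D X lam T →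
  ∀ i, ¬ ∀ᵐ t ∂cm, X i t = 0

/-- CS: `QQ lam` is a semidefinite form on the functions which vanish on `Z i`.  Proof: by
`Stmt_H_pic` (Picone, left side `≥ 0`) `0 ≤ QQ lam u u` for `u = f + x g`, `x` real; expand
(`en_add_self`, `en_smul_right`, `en_smul_left`; all integrals of `lam * (bounded measurable)` exist by
`lam_int`): `0 ≤ QQ g g x^2 + 2 QQ f g x + QQ f f` for all `x`, `discrim_le_zero`. -/
def Stmt_H_cs : Prop := ∀ (D : Dat) (X : Fin 3 → ℝ → ℝ) (lam : ℝ → ℝ) (T : Fin 3 → ℝ → ℝ),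
  D.Tm → EL D X lam T → ∀ i, (¬ ∀ᵐ t ∂cm, X i t = 0) → ∀ f g, FE f → FE g →
  (∀ᵐ t ∂cm, t ∈ D.Z i → f t = 0) → (∀ᵐ t ∂cm, t ∈ D.Z i → g t = 0) →
  0 ≤ QQ lam f f ∧ 0 ≤ QQ lam g g ∧ QQ lam f g ^ 2 ≤ QQ lam f f * QQ lam g g

/-- Picone's inequality (block B) in the form used here. -/
def Stmt_H_pic : Prop := ∀ (D : Dat) (X : Fin 3 → ℝ → ℝ) (lam : ℝ → ℝ) (T : Fin 3 → ℝ → ℝ),
  D.Tm → EL D X lam T → ∀ i, (¬ ∀ᵐ t ∂cm, X i t = 0) →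
    ∀ y, FE y → (∀ᵐ t ∂cm, t ∈ D.Z i → y t = 0) →
      PD y (X i) ≤ en y y - ∫ t, lam t * y t ^ 2 ∂cm

/-- GAP: the energy gap bounds everything.  Put `e = ven y y - ven X X`.
(a) `∑ i QQ lam (y i) (y i) = ∑ en (y i) (y i) - ∫ lam ∑ (y i)^2 = ven y y - ∫ lam = e`: `lam = 0`
off `H` (`lam_off`), `∑ (y i)^2 = 1` a.e. on `H` (`Stmt_H_adm`), `lam_tot`; all terms are `≥ 0` by
`Stmt_H_cs`, so each is `≤ e`, in particular `0 ≤ e`.
(b) first claim: `Stmt_H_pic` with `y = y i` (`lam * y^2 = lam * (y*y)`), sum over `i` and all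
right sides are `≥ 0`, so each `PD` is `≤ e`.
(c) second claim: `g = y i * dfc X` is in `FE` and vanishes on `Z i`; `QQ lam (y i) g = en (y i) g`
since `lam * dfc X = 0` a.e. (`lam = 0` off `H`, `dfc X = 0` a.e. on `H`).  `Stmt_H_cs` gives
`(en (y i) g)^2 ≤ QQ lam (y i) (y i) * QQ lam g g ≤ e * en g g` (`∫ lam g^2 ≥ 0`), and
`en g g ≤ (√(en (y i)(y i)) + √(en (dfc X) (dfc X)))^2 ≤ (√(ven y y) + 2 √(ven X X))^2`
(`Stmt_A_prod`, `Stmt_H_dfc`, `0 ≤ y i ≤ 1`). -/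
def Stmt_H_gap : Prop := ∀ (y : Fin 3 → ℝ → ℝ), Oct Dlim y → ∀ (m : ℕ), ∀ p ∈ Par m,
  (Dcfg m p.1 p.2).Tm → ∀ (X : Fin 3 → ℝ → ℝ) (lam : ℝ → ℝ) (T : Fin 3 → ℝ → ℝ),
  Crit (Dcfg m p.1 p.2) X lam T →
  0 ≤ ven y y - ven X X ∧ (∀ i, PD (y i) (X i) ≤ ven y y - ven X X) ∧
  ∀ i, en (y i) (fun t => y i t * dfc X t) ^ 2
    ≤ (ven y y - ven X X) * (Real.sqrt (ven y y) + 2 * Real.sqrt (ven X X)) ^ 2

/-! ## H2. The limit of the maps -/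

/-- PRO: sequences with vanishing Picone defect have proportional limits.  Proof: Rellich
(`Stmt_A_rellich`, `C = 1`) three times (each component, composing the subsequences) gives
`φ`, `g i` with `X (φ k) i → g i` a.e.  For each `i`, Fatou (`lintegral_liminf_le` for the
nonnegative functions `J (y_i(s) X_i(t) - y_i(t) X_i(s))^2` on `cm2`; they are integrable because
`|y_i(s) X_i(t) - y_i(t) X_i(s)| ≤ |y_i(s)-y_i(t)| + |X_i(s)-X_i(t)|` for functions bounded by `1`)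
shows that the limit `J (y_i(s) g_i(t) - y_i(t) g_i(s))^2` has integral `0`, so it is `0` for
`cm2`-almost all `(s,t)`; `J > 0` off the null set `sin ((s-t)/2) = 0`.  By Fubini
(`Measure.ae_ae_of_ae_prod`) for almost all `t`: `y_i(s) g_i(t) = y_i(t) g_i(s)` for almost all `s`.  Choose such a `t` with
`y_i(t) ≠ 0` and `g_i(t) ≥ 0` (`y_i` does not vanish a.e., `g_i ≥ 0` a.e.):
`g_i = c_i y_i` a.e., `c_i = g_i(t)/y_i(t)`.  Finally `∑ (c_i y_i)^2 = lim ∑ X_i^2 ≤ 1` a.e. -/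
def Stmt_H_pro : Prop := ∀ (y : Fin 3 → ℝ → ℝ) (X : ℕ → Fin 3 → ℝ → ℝ) (K : ℝ),
  (∀ i, FE (y i)) → (∀ i t, 0 ≤ y i t) → (∀ t, ∑ i, y i t ^ 2 ≤ 1) →
  (∀ i, ¬ ∀ᵐ t ∂cm, y i t = 0) →
  (∀ k i, FE (X k i)) → (∀ k i t, 0 ≤ X k i t) → (∀ k t, ∑ i, X k i t ^ 2 ≤ 1) →
  (∀ k, ven (X k) (X k) ≤ K) →
  (∀ i, Tendsto (fun k => PD (y i) (X k i)) atTop (𝓝 0)) →
  ∃ (φ : ℕ → ℕ) (c : Fin 3 → ℝ), StrictMono φ ∧ (∀ i, 0 ≤ c i) ∧
    (∀ i, ∀ᵐ t ∂cm, Tendsto (fun k => X (φ k) i t) atTop (𝓝 (c i * y i t))) ∧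
    ∀ᵐ t ∂cm, ∑ i, (c i * y i t) ^ 2 ≤ 1

/-- ZER: passage to the limit in the second claim of `Stmt_H_gap`.  Proof: `Stmt_A_weak` with
`f k = y i * dfc (X k)` (bounded by `1`, energies `≤ (√(ven y y) + 2√K)^2` by `Stmt_A_prod` and
`Stmt_H_dfc`), limit `g = y i * (1 - ∑ (c_j y_j)^2)` (in `FE`), `h = y i`: `en (f k) (y i) → en g (y i)`;
but the left side tends to `0` by hypothesis (`en_comm`); uniqueness of limits. -/
def Stmt_H_zer : Prop := ∀ (y : Fin 3 → ℝ → ℝ) (X : ℕ → Fin 3 → ℝ → ℝ) (K : ℝ) (c : Fin 3 → ℝ),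
  (∀ i, FE (y i)) → (∀ i t, 0 ≤ y i t) → (∀ t, ∑ i, y i t ^ 2 ≤ 1) →
  (∀ k i, FE (X k i)) → (∀ k i t, 0 ≤ X k i t) → (∀ k t, ∑ i, X k i t ^ 2 ≤ 1) →
  (∀ k, ven (X k) (X k) ≤ K) →
  (∀ i, ∀ᵐ t ∂cm, Tendsto (fun k => X k i t) atTop (𝓝 (c i * y i t))) →
  (∀ i, Tendsto (fun k => en (y i) (fun t => y i t * dfc (X k) t)) atTop (𝓝 0)) →
  ∀ i, en (y i) (fun t => y i t * (1 - ∑ j, (c j * y j t) ^ 2)) = 0

/-- COR: continuity of the limit map and its values at the corners.  Proof: `ci` is continuous,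
of norm one and `2π`-periodic, so `bv (y i)` is continuous and periodic.  Two continuous functions
(or inequalities) which agree a.e. on an open set agree there and on its closure
(`Measure.eqOn_open_of_ae_eq`-type lemma or: a nonempty open set has positive Lebesgue measure; note that
`cm` is Lebesgue measure on `(-π, π]`, and by periodicity the a.e. statement holds for Lebesgue measure
on `ℝ`).  So `0 ≤ bv`, `∑ bv^2 ≤ 1` everywhere, `bv (y i) = 0` on the closure of `side i`, `∑ bv^2 = 1` on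
`[-2π/3, 2π/3]`.  Since `0 ∈ closure (side 0) ∩ closure (side 1)` the components `0`, `1` vanish at
`0`; so `bv (y 2) 0 ^2 = 1`, and it is `≥ 0`.  At `2π/3 ∈ closure (side 0) ∩ closure (side 2)`
and `-2π/3 ∈ closure (side 1) ∩ closure (side 2)` in the same way (`side 2 = pe (2π/3, 4π/3)`). -/
def Stmt_H_cor : Prop := ∀ (y : Fin 3 → ℝ → ℝ) (b : Fin 3 → ℝ → ℂ), Oct Dlim y →
  (∀ i, BdH (y i) (b i)) →
  (∀ i, Continuous (bv (y i))) ∧ (∀ i, Function.Periodic (bv (y i)) (2 * π)) ∧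
  (∀ i t, 0 ≤ bv (y i) t) ∧ (∀ t, ∑ i, bv (y i) t ^ 2 ≤ 1) ∧
  (∀ i, ∀ t ∈ closure (side i), bv (y i) t = 0) ∧
  (∀ t ∈ Icc (-(2 * π / 3)) (2 * π / 3), ∑ i, bv (y i) t ^ 2 = 1) ∧
  bv (y 2) 0 = 1 ∧ bv (y 1) (2 * π / 3) = 1 ∧ bv (y 0) (-(2 * π / 3)) = 1

/-- CLE: the factors are at most one.  Proof: `∑ (c_i bv (y i) t)^2 ≤ 1` a.e., hence for all `t` by
continuity (`Stmt_H_cor`, `BdH.re`); at the corner where `bv (y i) = 1` this gives `(c i)^2 ≤ 1`. -/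
def Stmt_H_cle : Prop := ∀ (y : Fin 3 → ℝ → ℝ) (b : Fin 3 → ℝ → ℂ) (c : Fin 3 → ℝ), Oct Dlim y →
  (∀ i, BdH (y i) (b i)) → (∀ i, 0 ≤ c i) → (∀ᵐ t ∂cm, ∑ i, (c i * y i t) ^ 2 ≤ 1) →
  ∀ i, c i ≤ 1

/-- ONE: the factors are one.  Proof: put `h = 1 - ∑ (c_j y_j)^2`.  `weak` for `i`, `g = y_i h`:
`0 = en (y i) (y_i h) = ∫ T_i y_i h = ∫ lam y_i^2 h` (pointwise `T_i y_i = lam y_i^2`: off `Z_i` by
`T_off`, on `Z_i` both sides vanish by `zeroE`).  Sum over `i`: `0 = ∫ lam (∑ y_i^2) h`.  For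
almost all `t`, either `t ∉ H` and `lam t = 0`, or `∑ y_i^2 = 1`: the integrand is
`lam h = ∑_j (1 - c_j^2) lam y_j^2`.  And `∫ lam y_j^2 = ∫ T_j y_j = en (y j) (y j)`.  So
`∑_j (1 - c_j^2) en (y j) (y j) = 0` with nonnegative terms, and `en (y j) (y j) > 0`: otherwise
`y_j` is constant a.e. (`Stmt_A_const`), the constant is `0` because `y_j = 0` on `side j`, a set of positive
measure; contradiction to `Stmt_H_nz`.  Hence `c_j^2 = 1`, `c_j = 1`. -/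
def Stmt_H_one : Prop := ∀ (y : Fin 3 → ℝ → ℝ) (lam : ℝ → ℝ) (T : Fin 3 → ℝ → ℝ) (c : Fin 3 → ℝ),
  Crit Dlim y lam T → (∀ i, 0 ≤ c i) → (∀ i, c i ≤ 1) →
  (∀ i, en (y i) (fun t => y i t * (1 - ∑ j, (c j * y j t) ^ 2)) = 0) → ∀ i, c i = 1

/-- CNV: a sequence of critical maps which converges to the limit map. -/
structure Cnv (y : Fin 3 → ℝ → ℝ) (m : ℕ → ℕ) (p : ∀ k, (Fin (m k) → ℝ) × (Fin (m k) → ℝ))
    (X : ℕ → Fin 3 → ℝ → ℝ) (lam : ℕ → ℝ → ℝ) (T : ℕ → Fin 3 → ℝ → ℝ) : Prop where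
  par : ∀ k, p k ∈ Par (m k)
  crit : ∀ k, Crit (Dcfg (m k) (p k).1 (p k).2) (X k) (lam k) (T k)
  pos : ∀ k, 0 < ven (X k) (X k)
  le : ∀ k, ven (X k) (X k) ≤ ven y y
  lim : ∀ i, ∀ᵐ t ∂cm, Tendsto (fun k => X k i t) atTop (𝓝 (y i t))

/-- CNV: existence of such a sequence.  Hypotheses: `hmax` (`Stmt_C_max` of `Top`), tame data,
convergence of the levels to `e0 = ven y y`.  Proof: `lev m → e0 > 0`, so `lev m > 0` for `m ≥ m0`;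
choose `p m, X m, lam m, T m` for `m ≥ m0` (sequence `k ↦ m0 + k`).  By `Stmt_H_gap` (`y` is in
`Oct Dlim`) `PD (y i) (X m i) ≤ e0 - lev m → 0` (and `≥ 0`) and
`en (y i) (y i * dfc (X m)) ^ 2 → 0` (`ven X X ≤ e0`, so the factor is bounded).  `Stmt_H_pro` with
`K = e0` gives `φ`, `c`; `Stmt_H_zer` along `φ`; `Stmt_H_cle`; `Stmt_H_one`: `c = 1`. -/
def Stmt_H_cnv : Prop := (∀ m : ℕ, 0 < lev m → ∃ p ∈ Par m, ∃ X lam T,
    Crit (Dcfg m p.1 p.2) X lam T ∧ ven X X = lev m) →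
  (∀ m : ℕ, ∀ p ∈ Par m, (Dcfg m p.1 p.2).Tm) →
  ∀ (y : Fin 3 → ℝ → ℝ) (lam : ℝ → ℝ) (T : Fin 3 → ℝ → ℝ) (b : Fin 3 → ℝ → ℂ),
    Crit Dlim y lam T → (∀ i, BdH (y i) (b i)) →
    (∀ m, lev m ≤ ven y y) → Tendsto lev atTop (𝓝 (ven y y)) → 0 < ven y y →
    ∃ m p X lam T, Cnv y m p X lam T

/-! ## H3. Convergence in the disc -/

/-- HZD: derivative and real part of the Herglotz integral.  Proof:
`(c+z)/(c-z) = -1 + 2c/(c-z)`, derivative `2c/(c-z)^2`; differentiation under the integral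
(`hasDerivAt_integral_of_dominated_loc_of_deriv_le`, `|c - z'| ≥ (1-|z|)/2` for `z'` near `z`); real part:
`((c+z)/(c-z)).re = (1-|z|^2)/|c-z|^2` for `|c| = 1` and `integral_re`-type lemmas (`f` real). -/
def Stmt_H_hzd : Prop := ∀ (f : ℝ → ℝ) (C : ℝ), Measurable f → (∀ t, |f t| ≤ C) →
  ∀ z : ℂ, ‖z‖ < 1 →
    HasDerivAt (hz f) ((1 / (2 * π) : ℂ) * ∫ t, (2 * ci t / (ci t - z) ^ 2) * (f t : ℂ) ∂cm) z ∧
    hx f z = (1 / (2 * π)) * ∫ t, (1 - ‖z‖ ^ 2) / ‖ci t - z‖ ^ 2 * f t ∂cm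

/-- HZL: pointwise convergence in the disc.  Proof: dominated convergence in the definition of `hz` and
in the formula of `Stmt_H_hzd` (kernels bounded by `2/(1-|z|)` and `2/(1-|z|)^2`). -/
def Stmt_H_hzl : Prop := ∀ (f : ℕ → ℝ → ℝ) (g : ℝ → ℝ) (C : ℝ), (∀ k, Measurable (f k)) →
  (∀ k t, |f k t| ≤ C) → Measurable g → (∀ t, |g t| ≤ C) →
  (∀ᵐ t ∂cm, Tendsto (fun k => f k t) atTop (𝓝 (g t))) → ∀ z : ℂ, ‖z‖ < 1 →
    Tendsto (fun k => hz (f k) z) atTop (𝓝 (hz g z)) ∧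
    Tendsto (fun k => deriv (hz (f k)) z) atTop (𝓝 (deriv (hz g) z))

/-- PTE: inside the disc `pt` is the harmonic extension and has norm at most one.  Proof: `hz (X i)` is
continuous at `z` (`Stmt_H_hzd`), so `Fx (X i) z = hz (X i) z` (`extendFrom_eq`, `z` in the closure
of the ball; or `ContinuousOn`...).  `0 ≤ hx (X i) z` and
`∑ i (hx (X i) z)^2 ≤ 1`: with the probability measure `P = (1/2π)(1-|z|^2)/|ci t - z|^2 cm`
(total mass one: `Stmt_H_hzd` with `f = 1` and `hz 1 z = 1`; the latter e.g. because the derivative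
`(1/2π)∫ 2c/(c-z)^2` ... or use `Stmt_H_mass`): for the vector `v = (hx (X i) z)`,
`|v|^2 = ∫ v.X dP ≤ ∫ |v| dP = |v|`. -/
def Stmt_H_pte : Prop := ∀ X : Fin 3 → ℝ → ℝ, (∀ i, Measurable (X i)) → (∀ i t, 0 ≤ X i t) →
  (∀ t, ∑ i, X i t ^ 2 ≤ 1) → ∀ z : ℂ, ‖z‖ < 1 →
  (∀ i, pt X z i = hx (X i) z) ∧ (∀ i, 0 ≤ pt X z i) ∧ ∑ i, pt X z i ^ 2 ≤ 1

/-- MASS: `hz 1 = 1` in the disc.  Proof: `(c+z)/(c-z) = 1 + 2 ∑_{n≥1} z^n c^{-n}` and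
`∫ c^{-n} dcm = 0` for `n ≥ 1`; or: Cauchy/mean value formula for the holomorphic function
`z ↦ ...`; e.g. `circleIntegral`: `∫ (c+z)/(c-z) dt = ∮ (c+z)/(c-z) dc/(i c)`, the identity
`(c+z)/((c-z)c) = 2/(c-z) - 1/c`, both integrals are `2πi`. -/
def Stmt_H_mass : Prop := ∀ z : ℂ, ‖z‖ < 1 → hz (fun _ => 1) z = 1

/-- FAT: lower semicontinuity of the conformal areas.  Proof: by `Stmt_H_pte` and `Stmt_H_hzl` the
integrands converge pointwise in the ball: `pt (X k) z i → pt y z i`, `dens (X k) z → dens y z`, and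
the denominator of `lc` at `y` is `(1 - c x_2)^2 + c^2 (x_0^2 + x_1^2) ≥ (1-c)^2 > 0` (`x_2 ≤ 1`).  The integrands are
continuous on the ball (`hz` is holomorphic there), hence a.e. measurable for the restricted measure:
Fatou `lintegral_liminf_le'`; conclusion: if `A` is smaller than the integral for `y` then eventually
it is smaller than the integral for `X k`. -/
def Stmt_H_fat : Prop := ∀ (y : Fin 3 → ℝ → ℝ) (X : ℕ → Fin 3 → ℝ → ℝ) (c : ℝ) (A : ENNReal),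
  0 < c → c < 1 →
  (∀ i, Measurable (y i)) → (∀ i t, 0 ≤ y i t) → (∀ t, ∑ i, y i t ^ 2 ≤ 1) →
  (∀ k i, Measurable (X k i)) → (∀ k i t, 0 ≤ X k i t) → (∀ k t, ∑ i, X k i t ^ 2 ≤ 1) →
  (∀ i, ∀ᵐ t ∂cm, Tendsto (fun k => X k i t) atTop (𝓝 (y i t))) →
  A < ∫⁻ z in Metric.ball (0 : ℂ) 1, ENNReal.ofReal (lc c (pt y z) ^ 2 * dens y z / 2) →
  ∀ᶠ k in atTop, A < ∫⁻ z in Metric.ball (0 : ℂ) 1,
    ENNReal.ofReal (lc c (pt (X k) z) ^ 2 * dens (X k) z / 2)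

/-! ## H4. Flatness at the pole -/

/-- DVL: radial limit of the derivative at `1`.  Proof: for `1/2 < r < 1`:
`|ci t - r|^2 = (1-r)^2 + 4 r sin^2(t/2) ≥ 2 sin^2(t/2)`, so the kernel
`2 ci t/(ci t - r)^2` of `Stmt_H_hzd` is bounded by `4 J 0 t` (`J 0 t = 1/(4 sin^2(t/2))`) and tends
to `2 ci t/(ci t - 1)^2 = -2 J 0 t` for `r → 1`, `t ∈ (-π, π]`, `t ≠ 0`
(`ci t - 1 = 2 i sin(t/2) e^{it/2}`).  Dominated convergence
(`tendsto_integral_filter_of_dominated_convergence`). -/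
def Stmt_H_dvl : Prop := ∀ (f : ℝ → ℝ) (C : ℝ), Measurable f → (∀ t, |f t| ≤ C) →
  Integrable (fun t => J 0 t * f t) cm →
  Tendsto (fun r : ℝ => deriv (hz f) (r : ℂ)) (𝓝[<] 1)
    (𝓝 ((-(1 / π) * ∫ t, J 0 t * f t ∂cm : ℝ) : ℂ))

/-- DIV: by conformality the distance to the axis is large near the pole.  Proof: suppose that
`J 0 t * (y 0 t + y 1 t)` is integrable; then so are `J 0 t * y 0 t` and `J 0 t * y 1 t`.  A.e. on side 0: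
`y_0 = 0`, `y_1^2 + y_2^2 = 1`, `1 - y_2 ≤ 1 - y_2^2 = y_1^2 ≤ y_1` (as `0 ≤ y_1, y_2 ≤ 1`); in the same way
`1 - y_2 ≤ y_0` on side 1; for `t ∈ (-π, π]` outside `(-2π/3, 2π/3)` one has
`J 0 t = 1/(4 sin^2(t/2)) ≤ 1/3`.  So `J 0 t * (1 - y 2 t)` is integrable.  `Stmt_H_dvl`:
`deriv (hz (y i)) r → -(1/π) ∫ J 0 t y_i` (`i = 0, 1`) and, since `hz (y 2) = 1 - hz (1 - y 2)` on the ball
(`Stmt_H_mass`, linearity), `deriv (hz (y 2)) r → (1/π) ∫ J 0 t (1 - y_2)`.  `conf` at `z = r`, `r → 1`: the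
sum of the squares of three real numbers is `0`, so `∫ J 0 t y_0 = 0`, `y_0 = 0` a.e. (`J 0 t > 0`
for a.e. `t`, `y_0 ≥ 0`), contradiction to `Stmt_H_nz`. -/
def Stmt_H_div : Prop := ∀ (y : Fin 3 → ℝ → ℝ) (lam : ℝ → ℝ) (T : Fin 3 → ℝ → ℝ),
  Crit Dlim y lam T → ¬ Integrable (fun t => J 0 t * (y 0 t + y 1 t)) cm

/-- RAT: Poisson integrals of functions with non-integrable `J 0 t g t`.  Proof: by `Stmt_H_hzd`
`hx g z = (1-|z|^2) (1/2π) ∫ g/|ci t - z|^2`, and `|ci t - z| ≤ |ci t - 1| + δ` for `|z-1| < δ`, so it suffices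
to find `δ` with `∫ g/(|ci t - 1| + δ)^2 ≥ 2π K`.  For `δ = 1/(n+1)` the functions
`g/(|ci t-1|+δ)^2` increase to `g/|ci t - 1|^2 = J 0 t g` for `t ≠ 0`; monotone convergence
(`lintegral_iSup` or `lintegral_tendsto_of_tendsto_of_monotone`), the limit is `⊤` because the limit function is measurable, nonnegative and not
integrable. -/
def Stmt_H_rat : Prop := ∀ (g : ℝ → ℝ) (C : ℝ), Measurable g → (∀ t, 0 ≤ g t) → (∀ t, g t ≤ C) →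
  ¬ Integrable (fun t => J 0 t * g t) cm → ∀ K : ℝ, ∃ δ > 0, ∀ z : ℂ, ‖z‖ < 1 → ‖z - 1‖ < δ →
    K * (1 - ‖z‖ ^ 2) ≤ hx g z

/-- FLA: the limit map is tangent to the sphere at the pole.  Proof: let `g = y 0 + y 1`,
`hx g = hx (y 0) + hx (y 1)` (linearity).  By continuity (`Stmt_H_cor`: `bv (y 0) 0 = bv (y 1) 0 = 0`)
there is `0 < η < 2π/3` with `g t ≤ ε/2` for almost all `|t| < η` (`BdH.re`).  Almost everywhere on `0 < |t| < η`: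
`1 - y_2 ≤ 1 - y_2^2 = g^2 ≤ (ε/2) g` (one of `y_0`, `y_1` is `0`, norm one).  For
`η ≤ |t| ≤ π`: `1 - y_2 ≤ 1` and `|ci t - z| ≥ |ci t - 1| - |z - 1| ≥ 2 sin(η/2) - δ ≥ sin(η/2)` if
`δ ≤ sin(η/2)`.  With `Stmt_H_mass` (`1 - hx (y 2) z = hx (1 - y 2) z`) and the formula of `Stmt_H_hzd`:
`1 - hx (y 2) z ≤ (ε/2) hx g z + (1-|z|^2)/sin^2(η/2)`.  `Stmt_H_rat` with
`K = 2/(ε sin^2(η/2))` (`Stmt_H_div`) bounds the last term by `(ε/2) hx g z` near `1`. -/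
def Stmt_H_fla : Prop := ∀ (y : Fin 3 → ℝ → ℝ) (lam : ℝ → ℝ) (T : Fin 3 → ℝ → ℝ)
  (b : Fin 3 → ℝ → ℂ), Crit Dlim y lam T → (∀ i, BdH (y i) (b i)) →
  ∀ ε > 0, ∃ δ > 0, ∀ z : ℂ, ‖z‖ < 1 → ‖z - 1‖ < δ →
    1 - hx (y 2) z ≤ ε * (hx (y 0) z + hx (y 1) z)

/-- MIN: away from the pole the map stays away from the axis.  Proof: `u z = (Fx (y 0) z).re +
(Fx (y 1) z).re` is continuous on the closed disc and positive except at `1`: for `|z| < 1` it is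
`hx (y 0) z + hx (y 1) z > 0` (Poisson formula of `Stmt_H_hzd`, positive kernel, `y 0 ≥ 0` not a.e. `0` by
`Stmt_H_nz`).  For `z = ci t`, `t ∈ (-π, π]`, `t ≠ 0`: if `t > 0` or `t` near `π` then `t ∉ closure (side 1)`
(`closure (side 1) ⊆ pe [-2π/3, 0]`), `pos` for `i = 1`: `y 1 ≥ m` a.e. near `t`, so
`bv (y 1) t ≥ m` by continuity; if `-π < t < 0` then `t ∉ closure (side 0)`, `bv (y 0) t ≥ m > 0`.
Minimum on the compact set `{|z| ≤ 1, |z-1| ≥ δ}` (if it is nonempty). -/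
def Stmt_H_min : Prop := ∀ (y : Fin 3 → ℝ → ℝ) (lam : ℝ → ℝ) (T : Fin 3 → ℝ → ℝ)
  (b : Fin 3 → ℝ → ℂ), Crit Dlim y lam T → (∀ i, BdH (y i) (b i)) →
  ∀ δ > 0, ∃ ρ > 0, ∀ z : ℂ, ‖z‖ ≤ 1 → δ ≤ ‖z - 1‖ →
    ρ ≤ (Fx (y 0) z).re + (Fx (y 1) z).re

/-! ## H5. The lower bound of the conformal area -/

/-- GRP: polar coordinates on a disc.  Proof: `Complex.integral_comp_polarCoord_symm` for the indicator of
the ball times `g`: `∫ z, f z = ∫ p in polarCoord.target, p.1 • f (Complex.polarCoord.symm p)`,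
target `= Ioi 0 ×ˢ Ioo (-π) π`, `Complex.polarCoord.symm (s,t) = s (cos t + sin t i) = s * ci t`; the function is
integrable (bounded, continuous on the compact closed ball), so Fubini (`setIntegral_prod`);
`cm` is Lebesgue measure on `Ioc (-π) π` (null difference to `Ioo`). -/
def Stmt_H_grp : Prop := ∀ (g : ℂ → ℝ) (r : ℝ), 0 < r → ContinuousOn g (Metric.closedBall 0 r) →
  ∫ z in Metric.ball (0 : ℂ) r, g z = ∫ s in (0)..r, ∫ t, s * g (s * ci t) ∂cm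

/-- GRD: Green's formula in polar coordinates.  Proof: for real `s ∈ (-1, 1)` put `z = s ci t`,
`x_j = Re F_j(z)`, `A(s,t) = om d F0 F1 s t`, and `B(s,t)` the same expression with the angular derivatives
`Re (i z F_j'(z))` replaced by the radial ones `Re (ci t * F_j'(z))`.
`∂_t x_j = Re (i z F_j')`, `∂_s x_j = Re (ci t F_j')` and
`∂_s Re(i z F_j') = Re (i ci t F_j' + i z ci t F_j'') = ∂_t Re (ci t F_j')`.  A computation
(`field_simp; ring`) gives `∂_s A - ∂_t B = kd d (x_0^2+x_1^2) (∂_s x_0 ∂_t x_1 - ∂_t x_0 ∂_s x_1)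
= kd d (rs) * s * jc F0 F1 z` (`|ci t| = 1`).  `I(s) = ∫ A(s,t) dcm` has the derivative
`∫ ∂_s A = ∫ (∂_t B + s kd jc) = ∫ s kd jc` (`∫ ∂_t B = B(s,π) - B(s,-π) = 0`; differentiation under the
integral: `∂_s A` is continuous, bounded for `|s| ≤ r' < 1`), continuous in `s`; `I(0) = 0`;
`intervalIntegral.integral_eq_sub_of_hasDerivAt`.
(Alternatively `integral2_divergence_prod_of_hasFDerivWithinAt_off_countable`.) -/
def Stmt_H_grd : Prop := ∀ (F0 F1 : ℂ → ℂ), DifferentiableOn ℂ F0 (Metric.ball 0 1) →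
  DifferentiableOn ℂ F1 (Metric.ball 0 1) → ∀ d r : ℝ, 0 < d → 0 < r → r < 1 →
  ∫ t, om d F0 F1 r t ∂cm = ∫ s in (0)..r, ∫ t, s * (kd d (rs F0 F1 (s * ci t))
    * jc F0 F1 (s * ci t)) ∂cm

/-- GRE: Green's formula.  Proof: `Stmt_H_grd` and `Stmt_H_grp` (the function `kd jc` is
continuous on `closedBall 0 r`: `F_j` and `deriv F_j` are, the denominator is `≥ d^4`). -/
def Stmt_H_gre : Prop := ∀ (F0 F1 : ℂ → ℂ), DifferentiableOn ℂ F0 (Metric.ball 0 1) →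
  DifferentiableOn ℂ F1 (Metric.ball 0 1) → ∀ d r : ℝ, 0 < d → 0 < r → r < 1 →
  IntegrableOn (fun z => kd d (rs F0 F1 z) * jc F0 F1 z) (Metric.ball 0 r) ∧
  ∫ t, om d F0 F1 r t ∂cm = ∫ z in Metric.ball (0 : ℂ) r, kd d (rs F0 F1 z) * jc F0 F1 z

/-- UNI: uniform convergence to the boundary values.  Proof: `Fx f` is uniformly continuous on the compact
closed disc, `|r ci t - ci t| = 1 - r`; `Fx f = hz f` inside; `|Re a - Re b| ≤ |a - b|`.  Bounded. -/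
def Stmt_H_uni : Prop := ∀ (f : ℝ → ℝ) (b : ℝ → ℂ), BdH f b →
  (∀ ε > 0, ∃ r₀ : ℝ, 0 < r₀ ∧ r₀ < 1 ∧ ∀ r t : ℝ, r₀ < r → r < 1 →
    |hx f (r * ci t) - bv f t| ≤ ε) ∧
  (∃ C : ℝ, (∀ z : ℂ, ‖z‖ < 1 → |hx f z| ≤ C) ∧ ∀ t, |bv f t| ≤ C) ∧ Continuous (bv f) ∧
  Function.Periodic (bv f) (2 * π)

/-- LIM: products of a uniformly convergent and an `L^1`-convergent family.  Proof:
`|∫ U V - ∫ u v| ≤ ∫ |U| |V - v| + ∫ |U - u| |v| ≤ C ∫ |V - v| + ε ∫ |v|`. -/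
def Stmt_H_l1 : Prop := ∀ (μ : Measure ℝ), IsFiniteMeasure μ →
  ∀ (U V : ℝ → ℝ → ℝ) (u v : ℝ → ℝ) (C : ℝ),
  (∀ᶠ r in 𝓝[<] (1 : ℝ), AEStronglyMeasurable (U r) μ) →
  (∀ᶠ r in 𝓝[<] (1 : ℝ), ∀ᵐ t ∂μ, |U r t| ≤ C) →
  (∀ ε > 0, ∀ᶠ r in 𝓝[<] (1 : ℝ), ∀ᵐ t ∂μ, |U r t - u t| ≤ ε) → AEStronglyMeasurable u μ →
  (∀ᶠ r in 𝓝[<] (1 : ℝ), Integrable (V r) μ) → Integrable v μ →
  Tendsto (fun r => ∫ t, |V r t - v t| ∂μ) (𝓝[<] (1 : ℝ)) (𝓝 0) →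
  Tendsto (fun r => ∫ t, U r t * V r t ∂μ) (𝓝[<] (1 : ℝ)) (𝓝 (∫ t, u t * v t ∂μ))

/-- OML: the boundary term for `r → 1`.  Proof: `om d (hz f) (hz g) r t = U1 V1 - U2 V2` with
`U1 = 2 x_0/(d^2 + x_0^2 + x_1^2)`, `V1 = Re (i z G')`, `U2 = 2 x_1/(..)`, `V2 = Re (i z F')`,
`x_0 = hx f z`, `x_1 = hx g z`, `z = r ci t`.  `Stmt_H_uni`: `x_j` converge uniformly and are bounded, the
denominators are `≥ d^2`, so `U1`, `U2` converge uniformly; `BdH.lim` and `|Re a| ≤ |a|` for the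
`V`; `Stmt_H_l1` twice with `μ = cm`. -/
def Stmt_H_oml : Prop := ∀ (f g : ℝ → ℝ) (a b : ℝ → ℂ), BdH f a → BdH g b → ∀ d : ℝ, 0 < d →
  Tendsto (fun r : ℝ => ∫ t, om d (hz f) (hz g) r t ∂cm) (𝓝[<] 1)
    (𝓝 (∫ t, ob d (bv f) (bv g) a b t ∂cm))

/-- SID: sides 0 and 1 contribute nothing.  Proof: the integrand is `2π`-periodic, so the integral
over `(-π, π]` is the integral over `(-2π/3, 4π/3]` (`Function.Periodic.intervalIntegral_add_eq`,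
`integral over Ioc`).  On `[-2π/3, 0]` (closure of side 1): `bv (y 1) = 0`, and `Re (b 1) = 0` a.e.: by `ftc`
`∫_s^t Re (b 1) = 0` for all `s ≤ t` in the interval, so it vanishes a.e. (derivative of an integral:
`ae` statement; e.g. `ae_eq_zero_of_forall_setIntegral_...` for intervals, or Lebesgue
differentiation `IntervalIntegrable.ae_hasDerivAt_integral`).  So `ob = 0` a.e. there; in the same way on
`[0, 2π/3]` with `y 0`. -/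
def Stmt_H_sid : Prop := ∀ (y : Fin 3 → ℝ → ℝ) (b : Fin 3 → ℝ → ℂ), Oct Dlim y →
  (∀ i, BdH (y i) (b i)) → ∀ d : ℝ, 0 < d →
  ∫ t, ob d (bv (y 0)) (bv (y 1)) (b 0) (b 1) t ∂cm
    = ∫ t in (2 * π / 3)..(4 * π / 3), ob d (bv (y 0)) (bv (y 1)) (b 0) (b 1) t

/-- AGR: the change of the angle on a circular arc.  Proof: `w(t) = x_0 + i x_1` with
`x_j = Re F_j(r ci t)`, real part `> 0`, so `w ∈ Complex.slitPlane`.
`w' = Re (i z F_0') + i Re (i z F_1')`; `Complex.log ∘ w` has the derivative `w'/w`, with imaginary part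
`(x_0 x_1' - x_1 x_0')/(x_0^2+x_1^2)`, continuous in `t`.  FTC for the imaginary part of `log w`. -/
def Stmt_H_agr : Prop := ∀ (F0 F1 : ℂ → ℂ), DifferentiableOn ℂ F0 (Metric.ball 0 1) →
  DifferentiableOn ℂ F1 (Metric.ball 0 1) → (∀ z : ℂ, ‖z‖ < 1 → 0 < (F0 z).re) →
  ∀ r a b : ℝ, 0 ≤ r → r < 1 →
  ∫ t in a..b, om 0 F0 F1 r t =
    2 * (Complex.arg (((F0 (r * ci b)).re : ℂ) + ((F1 (r * ci b)).re : ℂ) * Complex.I)
      - Complex.arg (((F0 (r * ci a)).re : ℂ) + ((F1 (r * ci a)).re : ℂ) * Complex.I))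

/-- ARG: the change of the angle along side 2.  Proof: for `r < 1` apply `Stmt_H_agr` to
`F_j = hz (y j)` (`0 < hx (y 0) z` by the Poisson formula of `Stmt_H_hzd`: positive kernel, `y 0 ≥ 0` not
a.e. `0`), `a = 2π/3`, `b = 4π/3`.  For `r → 1` (`Stmt_H_uni`, `Stmt_H_cor`):
`w_r(2π/3) → i` (`bv (y 0) = 0`, `bv (y 1) = 1`), `w_r(4π/3) → 1` (`4π/3 = -2π/3 + 2π`:
`bv (y 0) = 1`, `bv (y 1) = 0`), `arg` is continuous at `i` and at `1`: the right side tends to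
`2 (0 - π/2)`.  Left side: on `2π/3 ≤ t ≤ 4π/3` and for `r > 1/2`: `|r ci t - 1| ≥ 1/2`
(real part of `ci t` is `≤ -1/2`), so `x_0 + x_1 ≥ ρ` and `x_0^2 + x_1^2 ≥ ρ^2/2` by
`Stmt_H_min` with `δ = 1/2`, also for the boundary values; the integrand converges as in `Stmt_H_oml`
(`Stmt_H_l1` with `μ` = Lebesgue measure on `(2π/3, 4π/3]`; the `L^1` convergence on this
interval follows from that on `cm` by periodicity). -/
def Stmt_H_arg : Prop := ∀ (y : Fin 3 → ℝ → ℝ) (lam : ℝ → ℝ) (T : Fin 3 → ℝ → ℝ)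
  (b : Fin 3 → ℝ → ℂ), Crit Dlim y lam T → (∀ i, BdH (y i) (b i)) →
  ∫ t in (2 * π / 3)..(4 * π / 3), ob 0 (bv (y 0)) (bv (y 1)) (b 0) (b 1) t = -π

/-- FLU: the flux.  Proof: by `Stmt_H_sid` and `Stmt_H_arg`
`|∫ ob d + π| ≤ ∫_{2π/3}^{4π/3} |ob d - ob 0|`, and with `ρ` from `Stmt_H_min` (`δ = 1/2`):
`s := bv (y 0)^2 + bv (y 1)^2 ≥ ρ^2/2` there, `|1/(d^2+s) - 1/s| ≤ d^2/s^2`, so
`|∫ ob d + π| ≤ C d^2` with `C = 2 ∫ (‖b 0‖+‖b 1‖) * 4/ρ^4`.  For small `d`: `≤ η/2`.  Then `Stmt_H_oml`: for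
`r < 1` near `1` the integral of `om` differs by at most `η/2`. -/
def Stmt_H_flu : Prop := ∀ (y : Fin 3 → ℝ → ℝ) (lam : ℝ → ℝ) (T : Fin 3 → ℝ → ℝ)
  (b : Fin 3 → ℝ → ℂ), Crit Dlim y lam T → (∀ i, BdH (y i) (b i)) →
  ∀ η > 0, ∃ d₀ > 0, ∀ d : ℝ, 0 < d → d < d₀ → ∃ r : ℝ, 0 < r ∧ r < 1 ∧
    π - η ≤ |∫ t, om d (hz (y 0)) (hz (y 1)) r t ∂cm|

/-- PTW: pointwise comparison.  Proof: with `ρ2 = x_0^2+x_1^2`, `d = 1-c`, `s = x_0 + x_1`: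
the denominator of `lc` is `N = (1 - c x_2)^2 + c^2 ρ2 ≥ (1-c)^2 > 0`, and
`0 ≤ 1 - c x_2 = d + c (1 - x_2) ≤ d + ε s`, `s^2 ≤ 2 ρ2`, `d s ≤ d^2 + s^2/4 ≤ d^2 + ρ2`,
so `N ≤ d^2 + 2 ε d s + ε^2 s^2 + ρ2 ≤ (1 + 2ε + 2ε^2)(d^2 + ρ2)`.  Since `1 - c^2 = d (1+c)`:
`lc^2 ≥ d^2 (1+c)^2/((1+2ε+2ε^2)^2 (d^2+ρ2)^2) = kap c ε * kd d ρ2`. -/
def Stmt_H_ptw : Prop := ∀ (c ε : ℝ) (x : Fin 3 → ℝ), 0 < c → c < 1 → 0 ≤ ε → (∀ i, 0 ≤ x i) →
  x 2 ≤ 1 → 1 - x 2 ≤ ε * (x 0 + x 1) →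
  kap c ε * kd (1 - c) (x 0 ^ 2 + x 1 ^ 2) ≤ lc c x ^ 2

/-- PLB: lower bound of the conformal area by a flux.  Proof: `F_j = hz (y j)`, `d = 1 - c`.
`|jc F0 F1 z| ≤ ‖F_0'‖ ‖F_1'‖ ≤ dens y z / 2` on the ball.  The integral on the left is at most
`∫_{ball 0 r} kd |jc| = N + M`, near part (`‖z-1‖ < δ`) and far part.  Far part:
`kd d (rs) ≤ 4 d^2/(rs)^2 ≤ 16 d^2/ρ^4` (`rs ≥ (x_0+x_1)^2/2 ≥ ρ^2/2`), so
`M ≤ (16 d^2/ρ^4) ∫ dens/2 = 8 d^2/ρ^4 * ven y y` (`Stmt_A_dir`, summed over `i`: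
`∫⁻ dens = ofReal (ven y y)` over the unit ball).  Near part: by `Stmt_H_ptw` with `x = pt y z`
(`Stmt_H_pte`: `pt y z i = hx (y i) z`, in `[0,1]`) `kap kd |jc| ≤ lc^2 dens/2`.  So
`∫⁻ lc^2 dens/2 ≥ kap * N ≥ kap * (|∫ kd jc| - M)` (`kap > 0`).  Measurability: everything is
continuous on the open ball (`Stmt_H_hzd`). -/
def Stmt_H_plb : Prop := ∀ (y : Fin 3 → ℝ → ℝ), (∀ i, FE (y i)) → (∀ i t, 0 ≤ y i t) →
  (∀ t, ∑ i, y i t ^ 2 ≤ 1) → ∀ c ε δ ρ r : ℝ, 0 < c → c < 1 → 0 ≤ ε → 0 < ρ → 0 < r → r < 1 →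
  (∀ z : ℂ, ‖z‖ < 1 → ‖z - 1‖ < δ → 1 - hx (y 2) z ≤ ε * (hx (y 0) z + hx (y 1) z)) →
  (∀ z : ℂ, ‖z‖ < 1 → δ ≤ ‖z - 1‖ → ρ ≤ hx (y 0) z + hx (y 1) z) →
  ENNReal.ofReal (kap c ε * (|∫ z in Metric.ball (0 : ℂ) r,
      kd (1 - c) (rs (hz (y 0)) (hz (y 1)) z) * jc (hz (y 0)) (hz (y 1)) z|
      - 8 * (1 - c) ^ 2 / ρ ^ 4 * ven y y))
    ≤ ∫⁻ z in Metric.ball (0 : ℂ) 1, ENNReal.ofReal (lc c (pt y z) ^ 2 * dens y z / 2)

/-- POL: the conformal area near the pole.  Proof: let `A < π`; replacing `A` by `max A 1` we may assume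
`0 < A < π`.  `kap c ε (π - 2η) → π` for `c → 1`, `ε → 0`, `η → 0`: fix `ε > 0`, `η > 0` with
`(π - 2η)/(1+2ε+2ε^2)^2 > A`; then `kap c ε (π - 2η) > A` for `c` near `1`.  `δ` from `Stmt_H_fla`, `ρ` from
`Stmt_H_min` for this `δ` (`Fx = hz` inside), `d₀` from `Stmt_H_flu`; take `d = 1-c < d₀` so small that also
`8 d^2/ρ^4 * ven y y ≤ η`, `r` from `Stmt_H_flu`.  `Stmt_H_gre` and `Stmt_H_plb`:
the integral is `≥ kap (π - η - η) > A`. -/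
def Stmt_H_pol : Prop := ∀ (y : Fin 3 → ℝ → ℝ) (lam : ℝ → ℝ) (T : Fin 3 → ℝ → ℝ)
  (b : Fin 3 → ℝ → ℂ), Crit Dlim y lam T → (∀ i, BdH (y i) (b i)) →
  ∀ A : ℝ, A < π → ∃ c : ℝ, 0 < c ∧ c < 1 ∧
    ENNReal.ofReal A < ∫⁻ z in Metric.ball (0 : ℂ) 1,
      ENNReal.ofReal (lc c (pt y z) ^ 2 * dens y z / 2)

end Pool.Agent.FBM
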