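import Pool.Agent.FBM.FinC
import Pool.Agent.FBM.H.All
import Pool.Agent.FBM.CNum
import Pool.Agent.FBM.ADir
import Pool.Agent.FBM.ADoug

/-!
# FBM, block H: the conclusion, without hypotheses
-/

namespace Pool.Agent.FBM

/-- There are a configuration, a critical map and a conformal parameter with too small area. -/
theorem f_H_main : Stmt_H_main :=
  H_main' t_A_rellich t_A_weak t_A_prod t_A_const t_A_dir (f_B_pic t_A_cos t_A_disj) f_C_max
    f_C_edge f_C_lim f_C_lev (t_C_num t_A_doug) f_D_bd

end Pool.Agent.FBM
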